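import Mathlib

-- part Pool.Agent.P.MP_3fd745_al.Basic
section

/-! Commutator towers in a division ring and total subrings. -/

namespace Pool.Agent.P.MP_3fd745_al

variable {D : Type} [DivisionRing D]

/-- conjugation -/
def cj (g : D) (hg : g ≠ 0) : D →+* D where
  toFun x := g * x * g⁻¹
  map_one' := by simp [hg]
  map_mul' x y := by simp [mul_assoc, hg]
  map_zero' := by simp
  map_add' x y := by simp [mul_add, add_mul]

lemma cj_apply (g : D) (hg : g ≠ 0) (x : D) : cj g hg x = g * x * g⁻¹ := rfl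

lemma cj_eq_iff (g : D) (hg : g ≠ 0) (x : D) : cj g hg x = x ↔ g * x = x * g := by
  rw [cj_apply, mul_inv_eq_iff_eq_mul₀ hg]

lemma cj_iter (g : D) (hg : g ≠ 0) (n : ℕ) (x : D) :
    (cj g hg)^[n] x = cj (g ^ n) (pow_ne_zero n hg) x := by
  induction n with
  | zero => simp [cj_apply]
  | succ n ih =>
    rw [Function.iterate_succ_apply', ih]
    simp only [cj_apply, pow_succ', mul_inv_rev, mul_assoc]

/-- iterated commutators -/
def tw (φ : D → D) (u : D) : ℕ → D
  | 0 => u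
  | i + 1 => φ (tw φ u i) * (tw φ u i)⁻¹

lemma tw_ne (φ : D →+* D) (u : D) (hu : u ≠ 0) (i : ℕ) : tw φ u i ≠ 0 := by
  induction i with
  | zero => exact hu
  | succ i ih => exact mul_ne_zero ((map_ne_zero φ).2 ih) (inv_ne_zero ih)

lemma iter_mul (φ : D →+* D) (u w : D) (h1 : φ w = u * w) (h2 : φ u = u) (n : ℕ) :
    φ^[n] w = u ^ n * w := by
  induction n with
  | zero => simp
  | succ n ih => rw [Function.iterate_succ_apply', ih, map_mul, map_pow, h1, h2, pow_succ, mul_assoc]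

lemma iter_add (φ : D →+* D) (u w : D) (h1 : φ w = w + u) (h2 : φ u = u) (n : ℕ) :
    φ^[n] w = w + n * u := by
  induction n with
  | zero => simp
  | succ n ih =>
    rw [Function.iterate_succ_apply', ih, map_add, map_mul, map_natCast, h1, h2]
    push_cast
    noncomm_ring

/-- nonunits of a subring -/
def nu (V : Subring D) (x : D) : Prop := x ∈ V ∧ (x = 0 ∨ x⁻¹ ∉ V)

section
variable {V : Subring D}

lemma nu_zero : nu V 0 := ⟨V.zero_mem, Or.inl rfl⟩

lemma not_nu_one : ¬ nu V 1 := fun h => by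
  rcases h.2 with h | h
  · exact one_ne_zero h
  · exact h (by simp)

lemma nu.mul_left {x v : D} (hx : nu V x) (hv : v ∈ V) : nu V (v * x) := by
  refine ⟨V.mul_mem hv hx.1, ?_⟩
  by_cases h : v * x = 0
  · exact Or.inl h
  · right
    intro h'
    rcases hx.2 with h0 | h0
    · exact h (by simp [h0])
    · apply h0
      have hv0 : v ≠ 0 := left_ne_zero_of_mul h
      have : x⁻¹ = (v * x)⁻¹ * v := by simp [mul_assoc, hv0]
      rw [this]
      exact V.mul_mem h' hv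

lemma nu.mul_right {x v : D} (hx : nu V x) (hv : v ∈ V) : nu V (x * v) := by
  refine ⟨V.mul_mem hx.1 hv, ?_⟩
  by_cases h : x * v = 0
  · exact Or.inl h
  · right
    intro h'
    rcases hx.2 with h0 | h0
    · exact h (by simp [h0])
    · apply h0
      have hv0 : v ≠ 0 := right_ne_zero_of_mul h
      have : x⁻¹ = v * (x * v)⁻¹ := by simp [← mul_assoc, hv0]
      rw [this]
      exact V.mul_mem hv h'

lemma nu.neg {x : D} (hx : nu V x) : nu V (-x) := by
  simpa using hx.mul_left (V.neg_mem V.one_mem)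

variable (hV : ∀ x, x ∈ V ∨ x⁻¹ ∈ V)
include hV

lemma nu.add {x y : D} (hx : nu V x) (hy : nu V y) : nu V (x + y) := by
  by_cases h1 : x = 0
  · simpa [h1] using hy
  by_cases h2 : y = 0
  · simpa [h2] using hx
  rcases hV (x * y⁻¹) with h | h
  · have : x + y = (x * y⁻¹ + 1) * y := by simp [add_mul, mul_assoc, h2]
    rw [this]
    exact hy.mul_left (V.add_mem h V.one_mem)
  · have : x + y = (1 + (x * y⁻¹)⁻¹) * x := by simp [add_mul, mul_assoc, h1]
    rw [this]
    exact hx.mul_left (V.add_mem V.one_mem h)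

lemma nu.sum {ι : Type} (s : Finset ι) (f : ι → D) (h : ∀ i ∈ s, nu V (f i)) :
    nu V (∑ i ∈ s, f i) := by
  classical
  induction s using Finset.induction_on with
  | empty => simpa using nu_zero
  | insert a s ha ih =>
    rw [Finset.sum_insert ha]
    exact (h a (by simp)).add hV (ih fun i hi => h i (by simp [hi]))

lemma not_nu_of_one {u : D} (h : nu V (u - 1)) : ¬ nu V u := fun h' =>
  not_nu_one (V := V) (by simpa using h'.add hV h.neg)

lemma unit_of_one {u : D} (h : nu V (u - 1)) : u ∈ V ∧ u ≠ 0 ∧ u⁻¹ ∈ V := by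
  have h1 : u ∈ V := by simpa using V.add_mem h.1 V.one_mem
  have h2 := not_nu_of_one hV h
  simp only [nu, not_and, not_or, not_not] at h2
  exact ⟨h1, h2 h1⟩

lemma one_mul_nu {u w : D} (hu : nu V (u - 1)) (hw : nu V (w - 1)) : nu V (u * w - 1) := by
  have : u * w - 1 = (u - 1) * w + (w - 1) := by noncomm_ring
  rw [this]
  exact (hu.mul_right (unit_of_one hV hw).1).add hV hw

lemma one_inv_nu {u : D} (hu : nu V (u - 1)) : nu V (u⁻¹ - 1) := by
  obtain ⟨_, h2, h3⟩ := unit_of_one hV hu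
  have : u⁻¹ - 1 = -((u - 1) * u⁻¹) := by simp [sub_mul, h2]
  rw [this]
  exact (hu.mul_right h3).neg

lemma one_pow_nu {u : D} (hu : nu V (u - 1)) (n : ℕ) : nu V (u ^ n - 1) := by
  induction n with
  | zero => simpa using nu_zero
  | succ n ih => rw [pow_succ]; exact one_mul_nu hV ih hu

/-- a common denominator `1 + y + ... + y ^ (n - 1)` for one total subring -/
lemma exists_period (y : D) : ∃ d : ℕ, 0 < d ∧ ∀ t : ℕ, 0 < t →
    (∑ i ∈ Finset.range (t * d + 1), y ^ i) ≠ 0 ∧ (∑ i ∈ Finset.range (t * d + 1), y ^ i)⁻¹ ∈ V ∧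
      (∑ i ∈ Finset.range (t * d + 1), y ^ i)⁻¹ * y ∈ V := by
  by_cases hy : y ∈ V
  · have key : ∀ n : ℕ, ¬ nu V (∑ i ∈ Finset.range n, y ^ i) →
        (∑ i ∈ Finset.range n, y ^ i) ≠ 0 ∧ (∑ i ∈ Finset.range n, y ^ i)⁻¹ ∈ V ∧
          (∑ i ∈ Finset.range n, y ^ i)⁻¹ * y ∈ V := by
      intro n hn
      simp only [nu, not_and, not_or, not_not] at hn
      have := hn (V.sum_mem fun i _ => V.pow_mem hy i)
      exact ⟨this.1, this.2, V.mul_mem this.2 hy⟩
    by_cases h : ∃ d, 0 < d ∧ nu V (∑ i ∈ Finset.range d, y ^ i)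
    · obtain ⟨d, hd, h⟩ := h
      refine ⟨d, hd, fun t _ => key _ (not_nu_of_one hV ?_)⟩
      have h1 : ∀ t : ℕ, nu V (∑ i ∈ Finset.range (t * d), y ^ i) := by
        intro t
        induction t with
        | zero => simpa using nu_zero
        | succ t ih =>
          rw [add_mul, one_mul, Finset.sum_range_add]
          simp only [pow_add]
          rw [← Finset.mul_sum]
          exact ih.add hV (h.mul_left (V.pow_mem hy _))
      rw [Finset.sum_range_succ']
      simp only [pow_succ, pow_zero, add_sub_cancel_right]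
      rw [← Finset.sum_mul]
      exact (h1 t).mul_right hy
    · exact ⟨1, one_pos, fun t _ => key _ fun h' => h ⟨_, Nat.succ_pos _, h'⟩⟩
  · have hy0 : y ≠ 0 := fun h => hy (h ▸ V.zero_mem)
    have hw : nu V y⁻¹ := ⟨(hV y).resolve_left hy, Or.inr (by simpa using hy)⟩
    refine ⟨1, one_pos, fun t ht => ?_⟩
    obtain ⟨t, rfl⟩ : ∃ t', t = t' + 1 := ⟨t - 1, by omega⟩
    rw [mul_one]
    have h1 : ∀ n : ℕ, ∑ i ∈ Finset.range (n + 1), y ^ i =
        y ^ n * ∑ i ∈ Finset.range (n + 1), y⁻¹ ^ i := by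
      intro n
      induction n with
      | zero => simp
      | succ n ih =>
        rw [Finset.sum_range_succ, ih, Finset.sum_range_succ' (fun i => y⁻¹ ^ i) (n + 1), mul_add]
        simp only [pow_succ' y⁻¹]
        rw [← Finset.mul_sum, pow_succ y n, mul_assoc, mul_inv_cancel_left₀ hy0]
        simp
    have h2 : nu V ((∑ i ∈ Finset.range (t + 1 + 1), y⁻¹ ^ i) - 1) := by
      rw [Finset.sum_range_succ']
      simp only [pow_succ, pow_zero, add_sub_cancel_right]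
      rw [← Finset.sum_mul]
      exact hw.mul_left (V.sum_mem fun i _ => V.pow_mem hw.1 i)
    obtain ⟨-, h3, h4⟩ := unit_of_one hV h2
    rw [h1, mul_inv_rev, ← inv_pow]
    refine ⟨mul_ne_zero (pow_ne_zero _ hy0) h3, V.mul_mem h4 (V.pow_mem hw.1 _), ?_⟩
    rw [pow_succ y⁻¹ t, mul_assoc, mul_assoc, inv_mul_cancel₀ hy0, mul_one]
    exact V.mul_mem h4 (V.pow_mem hw.1 _)

end

/-- a common denominator for finitely many total subrings -/
lemma exists_denom (n : ℕ) (hn : 0 < n) (W : ℕ → Subring D) (hW : ∀ i x, x ∈ W i ∨ x⁻¹ ∈ W i)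
    (y : D) : ∃ r : D, r ≠ 0 ∧ ∀ i < n, r ∈ W i ∧ r * y ∈ W i := by
  choose d hd h using fun i => exists_period (hW i) y
  have hP : ∀ i < n, ∃ t, 0 < t ∧ ∏ j ∈ Finset.range n, d j = t * d i := by
    intro i hi
    obtain ⟨t, ht⟩ := Finset.dvd_prod_of_mem d (Finset.mem_range.2 hi)
    refine ⟨t, Nat.pos_of_ne_zero ?_, by rw [ht, mul_comm]⟩
    rintro rfl
    exact (Finset.prod_pos fun j _ => hd j).ne' (by simpa using ht)
  refine ⟨(∑ i ∈ Finset.range ((∏ j ∈ Finset.range n, d j) + 1), y ^ i)⁻¹, ?_, fun i hi => ?_⟩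
  · obtain ⟨t, ht, e⟩ := hP 0 hn
    rw [e]
    exact inv_ne_zero (h 0 t ht).1
  · obtain ⟨t, ht, e⟩ := hP i hi
    rw [e]
    exact (h i t ht).2

end Pool.Agent.P.MP_3fd745_al
end

-- part Pool.Agent.P.MP_3fd745_al.Insep
section

/-! The purely inseparable case. -/

namespace Pool.Agent.P.MP_3fd745_al

variable {D : Type} [DivisionRing D]

/-- double centralizer -/
def dc (y x : D) : Prop := ∀ z, Commute y z → Commute x z

lemma dc.comm {y x x' : D} (h : dc y x) (h' : dc y x') : Commute x x' :=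
  h x' (h' y (Commute.refl y)).symm

lemma dc_tw (φ : D →+* D) (y e : D) (hφ : ∀ x, dc y x → dc y (φ x)) (he : dc y e) (i : ℕ) :
    dc y (tw φ e i) := by
  induction i with
  | zero => exact he
  | succ i ih => exact fun z hz => (hφ _ ih z hz).mul_left (ih z hz).inv_left₀

/-- descent of torsion along a commutative tower -/
lemma torsion_descent (φ : D →+* D) (n : ℕ) (hn : 0 < n) (hφn : ∀ x, φ^[n] x = x) (y e : D)
    (he0 : e ≠ 0) (hφ : ∀ x, dc y x → dc y (φ x)) (he : dc y e) (k : ℕ)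
    (hk : ∃ m, 0 < m ∧ φ (tw φ e k ^ m) = tw φ e k ^ m) : ∃ m, 0 < m ∧ (φ e * e⁻¹) ^ m = 1 := by
  have hc : ∀ i m : ℕ, tw φ e (i + 1) ^ m = φ (tw φ e i ^ m) * (tw φ e i ^ m)⁻¹ := by
    intro i m
    have h1 := dc_tw φ y e hφ he i
    have : Commute (φ (tw φ e i)) (tw φ e i)⁻¹ := ((hφ _ h1).comm h1).inv_right₀
    rw [tw, this.mul_pow, map_pow, inv_pow]
  induction k with
  | zero =>
    obtain ⟨m, hm, h⟩ := hk
    refine ⟨m, hm, ?_⟩
    have := hc 0 m
    rw [h, mul_inv_cancel₀ (pow_ne_zero _ (tw_ne φ e he0 0))] at this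
    exact this
  | succ k ih =>
    apply ih
    obtain ⟨m, hm, h⟩ := hk
    have h0 : tw φ e k ^ m ≠ 0 := pow_ne_zero _ (tw_ne φ e he0 k)
    have h1 : φ (tw φ e k ^ m) = tw φ e (k + 1) ^ m * tw φ e k ^ m := by
      rw [hc, inv_mul_cancel_right₀ h0]
    have h2 := iter_mul φ _ _ h1 h n
    rw [hφn] at h2
    have h3 : (tw φ e (k + 1) ^ m) ^ n = 1 := by
      have := mul_right_cancel₀ h0 (h2.symm.trans (one_mul _).symm)
      exact this
    refine ⟨m * n, Nat.mul_pos hm hn, ?_⟩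
    rw [← pow_mul, hc] at h3
    exact (mul_inv_eq_one₀ (pow_ne_zero _ (tw_ne φ e he0 k))).1 h3

lemma frob_inj (p : ℕ) [Fact p.Prime] [CharP D p] {x y : D} (h : Commute x y) (i : ℕ)
    (e : x ^ p ^ i = y ^ p ^ i) : x = y := by
  have := sub_pow_char_pow_of_commute p i h
  rw [e, sub_self] at this
  exact sub_eq_zero.1 (pow_eq_zero_iff (pow_ne_zero _ (Fact.out : p.Prime).ne_zero) |>.1 this)

lemma periodic_of_torsion (p : ℕ) [Fact p.Prime] [CharP D p] {z : D} {m : ℕ} (hm : 0 < m)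
    (hz : z ^ m = 1) : ∃ j, 0 < j ∧ z ^ p ^ j = z := by
  have hf : (Set.range fun i : ℕ => z ^ i).Finite :=
    (isOfFinOrder_iff_pow_eq_one.2 ⟨m, hm, hz⟩).finite_powers
  have hni : ¬ Function.Injective fun j : ℕ => z ^ p ^ j := fun h =>
    Set.infinite_range_of_injective h (hf.subset (by rintro _ ⟨j, rfl⟩; exact ⟨_, rfl⟩))
  simp only [Function.Injective, not_forall] at hni
  obtain ⟨i, j, h, hij⟩ := hni
  wlog hlt : i < j generalizing i j
  · exact this j i h.symm (Ne.symm hij) (by omega)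
  refine ⟨j - i, by omega, frob_inj p ((Commute.refl z).pow_left _) i ?_⟩
  rw [← pow_mul, ← pow_add, Nat.sub_add_cancel hlt.le]
  exact h.symm

lemma periodic_mul (p : ℕ) {z : D} {j : ℕ} (h : z ^ p ^ j = z) (t : ℕ) : z ^ p ^ (j * t) = z := by
  induction t with
  | zero => simp
  | succ t ih => rw [mul_add, mul_one, pow_add, pow_mul, ih, h]

/-- a noncentral element whose `p`-th power is central, `p` the characteristic -/
lemma exists_shift (p : ℕ) [Fact p.Prime] [CharP D p] (φ : D →+* D) (hφ : ∀ x, φ^[p] x = x)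
    (w : D) (hw : φ w ≠ w) : ∃ y, φ y = y + 1 := by
  let f : Module.End ℤ D := φ.toAddMonoidHom.toIntLinearMap
  have hf : ∀ (n : ℕ) x, (f ^ n) x = φ^[n] x := fun n x => by
    rw [Module.End.pow_apply]; rfl
  have hch : ((p : ℕ) : Module.End ℤ D) = 0 := by
    ext x
    simp [Module.End.natCast_apply]
  have hnt : Nontrivial (Module.End ℤ D) := ⟨⟨0, 1, fun h => by
    simpa using congrArg (fun g : Module.End ℤ D => g 1) h⟩⟩
  have : CharP (Module.End ℤ D) p := (CharP.charP_iff_prime_eq_zero Fact.out).2 hch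
  have h1 : (f - 1) ^ p = 0 := by
    rw [sub_pow_char_of_commute p (Commute.one_right f), one_pow, sub_eq_zero]
    ext x
    rw [hf, hφ]
    rfl
  have h2 : ∃ n : ℕ, ((f - 1) ^ (n + 1)) w = 0 :=
    ⟨p - 1, by rw [Nat.sub_add_cancel (Fact.out : p.Prime).pos, h1]; rfl⟩
  classical
  have h3 := Nat.find_spec h2
  have h4 : Nat.find h2 ≠ 0 := by
    intro h
    rw [h, zero_add, pow_one] at h3
    exact hw (sub_eq_zero.1 h3)
  obtain ⟨n, hn⟩ := Nat.exists_eq_succ_of_ne_zero h4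
  have h5 := Nat.find_min h2 (show n < Nat.find h2 by omega)
  rw [hn] at h3
  set x := ((f - 1) ^ n) w
  have e1 : ((f - 1) ^ (n + 1)) w = φ x - x := by rw [pow_succ', Module.End.mul_apply]; rfl
  have e2 : ((f - 1) ^ (n.succ + 1)) w = φ (φ x - x) - (φ x - x) := by
    rw [pow_succ', Module.End.mul_apply, e1]; rfl
  rw [e1] at h5
  rw [e2, sub_eq_zero] at h3
  refine ⟨x * (φ x - x)⁻¹, ?_⟩
  rw [map_mul, map_inv₀, h3]
  nth_rewrite 1 [← mul_inv_cancel₀ h5]
  rw [← add_mul]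
  simp

lemma insep (k : ℕ) (P : D → Prop) (h0 : ∀ x, P x → x ≠ 0)
    (hrad : ∀ x, P x → ∃ n, 0 < n ∧ ∀ z, x ^ n * z = z * x ^ n)
    (htow : ∀ a (ha : P a) u, u ≠ 0 → P (tw (cj a (h0 a ha)) u k))
    (p : ℕ) (hp : p.Prime) (hp0 : (p : D) = 0) (a : D) (ha : P a)
    (hap : ∀ z, a ^ p * z = z * a ^ p) : ∀ z, a * z = z * a := by
  have : Fact p.Prime := ⟨hp⟩
  have : CharP D p := (CharP.charP_iff_prime_eq_zero hp).2 hp0
  intro w
  by_contra hw
  set φ := cj a (h0 a ha) with hφd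
  have hφ : ∀ x, φ^[p] x = x := fun x => by
    rw [cj_iter, cj_eq_iff]; exact hap x
  obtain ⟨y, hy⟩ := exists_shift p φ hφ w (fun h => hw ((cj_eq_iff _ _ _).1 h))
  have hdc : ∀ x, dc y x → dc y (φ x) := by
    intro x hx z hz
    have h1 : φ (φ^[p - 1] z) = z := by
      rw [← Function.iterate_succ_apply' φ, Nat.succ_eq_add_one, Nat.sub_add_cancel hp.pos, hφ]
    have h2 : Commute y (φ^[p - 1] z) := by
      apply φ.injective
      rw [map_mul, map_mul, h1, hy]
      exact hz.add_left (Commute.one_left z)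
    have := (hx _ h2).map φ
    rwa [h1] at this
  have key : ∀ l : D, (∀ z, l * z = z * l) → ∃ j, 0 < j ∧ (y + l) ^ p ^ j = y + l := by
    intro l hl
    have hφl : φ l = l := (cj_eq_iff _ _ _).2 (hl a).symm
    have he : φ (y + l) = y + l + 1 := by rw [map_add, hy, hφl]; abel
    have he0 : y + l ≠ 0 := fun h => by simp [h] at he
    obtain ⟨m, hm, h⟩ := torsion_descent φ p hp.pos hφ y (y + l) he0 hdc
      (fun z hz => hz.add_left (hl z)) k (by
        obtain ⟨m, hm, h⟩ := hrad _ (htow a ha _ he0)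
        exact ⟨m, hm, (cj_eq_iff _ _ _).2 (h a).symm⟩)
    rw [he, add_mul, mul_inv_cancel₀ he0, one_mul] at h
    obtain ⟨j, hj, h⟩ := periodic_of_torsion p hm h
    refine ⟨j, hj, ?_⟩
    rw [add_pow_char_pow_of_commute p j (Commute.one_left _), one_pow, add_right_inj,
      inv_pow, inv_inj] at h
    exact h
  obtain ⟨i, hi, h1⟩ := key 0 (by simp)
  obtain ⟨j, hj, h2⟩ := key (a ^ p) hap
  rw [add_zero] at h1
  have h3 := periodic_mul p h1 j
  have h4 := periodic_mul p h2 i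
  rw [mul_comm j i, add_pow_char_pow_of_commute p _ (hap y).symm, h3, add_right_inj] at h4
  have h5 : a ^ p ^ (i * j) = a := by
    refine frob_inj p ((Commute.refl a).pow_left _) 1 ?_
    rw [pow_one, ← pow_mul, mul_comm, pow_mul, h4]
  obtain ⟨t, ht⟩ : ∃ t, i * j = t + 1 := ⟨i * j - 1, by have := Nat.mul_pos hi hj; omega⟩
  apply hw
  rw [← h5, ht, pow_succ', pow_mul]
  exact (Commute.pow_left (hap w) _)

lemma rad_coprime (k : ℕ) (P : D → Prop) (h0 : ∀ x, P x → x ≠ 0)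
    (hpow : ∀ x n, P x → P (x ^ n))
    (hrad : ∀ x, P x → ∃ n, 0 < n ∧ ∀ z, x ^ n * z = z * x ^ n)
    (htow : ∀ a (ha : P a) u, u ≠ 0 → P (tw (cj a (h0 a ha)) u k)) (x : D) (hx : P x) :
    ∃ n : ℕ, (n : D) ≠ 0 ∧ ∀ z, x ^ n * z = z * x ^ n := by
  classical
  have h := hrad x hx
  refine ⟨Nat.find h, fun hn => ?_, (Nat.find_spec h).2⟩
  obtain ⟨hpos, hc⟩ := Nat.find_spec h
  obtain ⟨p, hp⟩ := CharP.exists D
  have hd : p ∣ Nat.find h := (CharP.cast_eq_zero_iff D p _).1 hn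
  have hp0 : p ≠ 0 := by rintro rfl; omega
  have hpp : p.Prime := (CharP.char_is_prime_or_zero D p).resolve_right hp0
  obtain ⟨t, ht⟩ := hd
  have ht0 : 0 < t := Nat.pos_of_ne_zero (by rintro rfl; omega)
  refine Nat.find_min h (m := t) (by rw [ht]; exact lt_mul_left ht0 hpp.one_lt) ⟨ht0, ?_⟩
  refine insep k P h0 hrad htow p hpp (CharP.cast_eq_zero D p) _ (hpow x t hx) ?_
  rw [← pow_mul, mul_comm t p, ← ht]
  exact hc

end Pool.Agent.P.MP_3fd745_al
end

-- part Pool.Agent.P.MP_3fd745_al.Main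
section

/-! Subnormal subgroups radical over the center, in the presence of a total subring. -/

namespace Pool.Agent.P.MP_3fd745_al

variable {D : Type} [DivisionRing D]

lemma torsion_free {V : Subring D} (hV : ∀ x, x ∈ V ∨ x⁻¹ ∈ V)
    (hZ : ∀ s : D, (∀ z, s * z = z * s) → s ∈ V) (m : ℕ) (hm : m ≠ 0) :
    ∀ c : D, nu V (c - 1) → c ^ m = 1 → c = 1 := by
  induction m using induction_on_primes with
  | zero => exact absurd rfl hm
  | one => intro c _ h; simpa using h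
  | prime_mul q m hq ih =>
    intro c hc h
    rw [pow_mul] at h
    have h1 := ih (by rintro rfl; simp at hm) _ (one_pow_nu hV hc q) h
    by_cases hq0 : (q : D) = 0
    · have : Fact q.Prime := ⟨hq⟩
      have : CharP D q := (CharP.charP_iff_prime_eq_zero hq).2 hq0
      exact frob_inj q (Commute.one_right c) 1 (by simpa using h1)
    · have h2 := mul_neg_geom_sum c q
      rw [h1, sub_self] at h2
      rcases mul_eq_zero.1 h2 with h2 | h2
      · exact (sub_eq_zero.1 h2).symm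
      · exfalso
        have h3 : nu V (∑ i ∈ Finset.range q, (c ^ i - 1)) :=
          nu.sum hV _ _ fun i _ => one_pow_nu hV hc i
        rw [Finset.sum_sub_distrib, h2] at h3
        have h4 : (q : D)⁻¹ ∈ V := hZ _ fun z => ((Nat.cast_commute q z).inv_left₀)
        have h5 := (h3.neg).mul_left h4
        simp only [Finset.sum_const, Finset.card_range, nsmul_eq_mul, mul_one, zero_sub, neg_neg,
          inv_mul_cancel₀ hq0] at h5
        exact not_nu_one h5

lemma iter_mod (φ : D →+* D) (n : ℕ) (hφ : ∀ x, φ^[n] x = x) (i : ℕ) (x : D) :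
    φ^[i] x = φ^[i % n] x := by
  conv_lhs => rw [← Nat.mod_add_div i n, Function.iterate_add_apply, Function.iterate_mul]
  congr 1
  exact Function.iterate_fixed (hφ x) _

lemma iter_hom (φ : D →+* D) (i : ℕ) : φ^[i] = ⇑(φ ^ i) := (RingHom.coe_pow φ i).symm

/-- the case where the total subring contains the center -/
lemma caseB {V : Subring D} (hV : ∀ x, x ∈ V ∨ x⁻¹ ∈ V) (hp : ∃ x, x ∉ V)
    (hZ : ∀ s : D, (∀ z, s * z = z * s) → s ∈ V) (φ : D →+* D) (n : ℕ) (hn : 0 < n)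
    (hφ : ∀ x, φ^[n] x = x) (k : ℕ)
    (hk : ∀ u, u ≠ 0 → ∃ m, 0 < m ∧ ∀ z, tw φ u k ^ m * z = z * tw φ u k ^ m) (y : D) :
    φ y = y := by
  have hfix : ∀ x, (∀ i, nu V (φ^[i] x)) → φ x = x := by
    intro x hx
    have hU : ∀ j i, nu V (φ^[i] (tw φ (1 + x) j) - 1) := by
      intro j
      induction j with
      | zero =>
        intro i
        have := hx i
        rw [iter_hom] at this
        rwa [tw, iter_hom, map_add, map_one, add_sub_cancel_left]
      | succ j ih =>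
        intro i
        have h1 := ih (i + 1)
        have h2 := one_inv_nu hV (ih i)
        rw [Function.iterate_succ_apply] at h1
        have := one_mul_nu hV h1 h2
        simpa only [tw, iter_hom, map_mul, map_inv₀] using this
    have hu0 : 1 + x ≠ 0 := (unit_of_one hV (hU 0 0)).2.1
    have hdesc : ∀ j, φ (tw φ (1 + x) j) = tw φ (1 + x) j → φ (1 + x) = 1 + x := by
      intro j
      induction j with
      | zero => exact id
      | succ j ih =>
        intro h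
        apply ih
        have h0 := tw_ne φ _ hu0 j
        have h1 : φ (tw φ (1 + x) j) = tw φ (1 + x) (j + 1) * tw φ (1 + x) j := by
          rw [tw, inv_mul_cancel_right₀ h0]
        have h2 := iter_mul φ _ _ h1 h n
        rw [hφ] at h2
        have h3 := mul_right_cancel₀ h0 (h2.symm.trans (one_mul _).symm)
        have h4 : tw φ (1 + x) (j + 1) = 1 := torsion_free hV hZ n hn.ne' _ (hU (j + 1) 0) h3
        rw [h1, h4, one_mul]
    obtain ⟨m, hm, h⟩ := hk _ hu0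
    have h1 : nu V (tw φ (1 + x) k ^ m - 1) := one_pow_nu hV (hU k 0) m
    have h2 : tw φ (1 + x) k ^ m = 1 := by
      rcases h1.2 with h2 | h2
      · exact sub_eq_zero.1 h2
      · exact absurd (hZ _ fun z =>
          (Commute.sub_left (h z) (Commute.one_left z)).inv_left₀) h2
    have h3 : tw φ (1 + x) k = 1 := torsion_free hV hZ m hm.ne' _ (hU k 0) h2
    simpa using hdesc k (by rw [h3, map_one])
  let W : ℕ → Subring D := fun i => V.comap (φ ^ i)
  have hW : ∀ i x, x ∈ W i ∨ x⁻¹ ∈ W i := fun i x => by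
    simpa only [W, Subring.mem_comap, map_inv₀] using hV ((φ ^ i) x)
  have hden : ∀ y, ∃ r : D, r ≠ 0 ∧ ∀ i, φ^[i] r ∈ V ∧ φ^[i] (r * y) ∈ V := by
    intro y
    obtain ⟨r, hr, h⟩ := exists_denom n hn W hW y
    refine ⟨r, hr, fun i => ?_⟩
    rw [iter_mod φ n hφ, iter_mod φ n hφ i, iter_hom]
    exact h _ (Nat.mod_lt _ hn)
  have hJ : ∀ j, ∃ x : D, x ≠ 0 ∧ (∀ i, φ^[i] x ∈ V) ∧ ∀ i < j, nu V (φ^[i] x) := by
    intro j
    induction j with
    | zero => exact ⟨1, one_ne_zero, fun i => by simp, by simp⟩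
    | succ j ih =>
      obtain ⟨x, hx0, hx1, hx2⟩ := ih
      obtain ⟨w, hw⟩ := hp
      have hw0 : w ≠ 0 := fun h => hw (h ▸ V.zero_mem)
      have hw1 : nu V w⁻¹ := ⟨(hV w).resolve_left hw, Or.inr (by simpa using hw)⟩
      obtain ⟨r, hr, h⟩ := hden (φ^[n * j - j] w⁻¹)
      have e : φ^[j] (φ^[n * j - j] w⁻¹) = w⁻¹ := by
        rw [← Function.iterate_add_apply, Nat.add_sub_cancel' (Nat.le_mul_of_pos_left j hn),
          iter_mod φ n hφ]
        simp
      refine ⟨x * (r * φ^[n * j - j] w⁻¹), mul_ne_zero hx0 (mul_ne_zero hr ?_), fun i => ?_,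
        fun i hi => ?_⟩
      · rw [iter_hom]; exact (map_ne_zero _).2 (inv_ne_zero hw0)
      · have := V.mul_mem (hx1 i) (h i).2
        simpa only [iter_hom, map_mul] using this
      · rcases Nat.lt_succ_iff_lt_or_eq.1 hi with hi | rfl
        · have := (hx2 i hi).mul_right (h i).2
          simpa only [iter_hom, map_mul] using this
        · have := ((e ▸ hw1).mul_left (h i).1).mul_left (hx1 i)
          simpa only [iter_hom, map_mul] using this
  obtain ⟨x, hx0, -, hx⟩ := hJ n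
  have hx' : ∀ i, nu V (φ^[i] x) := fun i => by
    rw [iter_mod φ n hφ]; exact hx _ (Nat.mod_lt _ hn)
  obtain ⟨r, hr, h⟩ := hden y
  have h1 := hfix (x * r) fun i => by
    simpa only [iter_hom, map_mul] using (hx' i).mul_right (h i).1
  have h2 := hfix (x * r * y) fun i => by
    simpa only [iter_hom, map_mul, mul_assoc] using (hx' i).mul_right (h i).2
  rw [map_mul, h1] at h2
  exact mul_left_cancel₀ (mul_ne_zero hx0 hr) h2

lemma pow_ne_of_small (R : Subring D) (ρ t : D) (hρ : ∀ z, ρ * z = z * ρ) (ht : ∀ z, t * z = z * t)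
    (hρR : ρ ∈ R) (htR : t ∈ R)
    (hq : ∀ q : ℕ, q.Prime → (q : D) ≠ 0 → ∀ r ∈ R, 1 + ρ * (q : D)⁻¹ * r ≠ 0 ∧
      1 + ρ * (q : D)⁻¹ * r ∈ R ∧ (1 + ρ * (q : D)⁻¹ * r)⁻¹ ∈ R) (m : ℕ) (hm : (m : D) ≠ 0) :
    ∀ c c' : D, (∃ x ∈ R, c = 1 + ρ * t * x) → (∃ x ∈ R, c' = 1 + ρ * t * x) → c' - c ≠ 0 →
      (∀ x ∈ R, t * ((c' - c) * x * (c' - c)⁻¹) ∈ R) → c' ^ m ≠ c ^ m := by
  have hpow : ∀ c : D, (∃ x ∈ R, c = 1 + ρ * t * x) → ∀ i : ℕ, ∃ x ∈ R, c ^ i = 1 + ρ * t * x := by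
    rintro c ⟨x, hx, rfl⟩ i
    induction i with
    | zero => exact ⟨0, R.zero_mem, by simp⟩
    | succ i ih =>
      obtain ⟨x', hx', e⟩ := ih
      refine ⟨x' * (1 + ρ * t * x) + x, R.add_mem (R.mul_mem hx' (R.add_mem R.one_mem
        (R.mul_mem (R.mul_mem hρR htR) hx))) hx, ?_⟩
      rw [pow_succ, e]
      noncomm_ring
  induction m using induction_on_primes with
  | zero => simp at hm
  | one => intro c c' _ _ h _; simpa [sub_eq_zero] using h
  | prime_mul q m hqp ih =>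
    intro c c' hc hc' h0 hinv
    rw [Nat.cast_mul] at hm
    have hq0 := left_ne_zero_of_mul hm
    set δ := c' - c with hδ
    have hsum : ∀ j : ℕ, ∃ r ∈ R, c' ^ j - c ^ j = (j + ρ * r) * δ := by
      intro j
      induction j with
      | zero => exact ⟨0, R.zero_mem, by simp⟩
      | succ j ih =>
        obtain ⟨r, hr, e⟩ := ih
        obtain ⟨x, hx, e1⟩ := hpow c hc j
        obtain ⟨x', hx', e2⟩ := hc'
        have e3 : c' ^ (j + 1) - c ^ (j + 1) = c' * (c' ^ j - c ^ j) + δ * c ^ j := by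
          rw [pow_succ', pow_succ', hδ]; noncomm_ring
        have e4 : δ * c ^ j = (1 + ρ * (t * (δ * x * δ⁻¹))) * δ := by
          rw [e1, mul_add, add_mul, mul_one, one_mul]
          congr 1
          rw [mul_assoc ρ t, ← mul_assoc δ, ← hρ, mul_assoc ρ, ← mul_assoc δ, ← ht]
          simp only [mul_assoc, inv_mul_cancel₀ h0, mul_one]
        refine ⟨r + t * x' * (j + ρ * r) + t * (δ * x * δ⁻¹), R.add_mem (R.add_mem hr
          (R.mul_mem (R.mul_mem htR hx') (R.add_mem (natCast_mem R j) (R.mul_mem hρR hr))))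
          (hinv x hx), ?_⟩
        rw [e3, e4, e]
        nth_rewrite 1 [e2]
        push_cast
        noncomm_ring
    obtain ⟨r, hr, e⟩ := hsum q
    obtain ⟨u0, u1, u2⟩ := hq q hqp hq0 r hr
    set u := 1 + ρ * (q : D)⁻¹ * r with hu
    have e1 : c' ^ q - c ^ q = q * (u * δ) := by
      rw [e, hu, ← mul_assoc, mul_add, mul_one, hρ (q : D)⁻¹, mul_assoc _ ρ,
        mul_inv_cancel_left₀ hq0]
    rw [pow_mul, pow_mul]
    refine ih (right_ne_zero_of_mul hm) _ _ (hpow c hc q) (hpow c' hc' q)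
      (by rw [e1]; exact mul_ne_zero hq0 (mul_ne_zero u0 h0)) fun x hx => ?_
    have e2 : t * ((c' ^ q - c ^ q) * x * (c' ^ q - c ^ q)⁻¹) =
        u * (t * (δ * x * δ⁻¹)) * u⁻¹ := by
      rw [e1, (Nat.cast_commute q (u * δ)).eq, mul_assoc (u * δ), (Nat.cast_commute q x).eq,
        ← mul_assoc u t, ← ht u]
      simp only [mul_inv_rev, mul_assoc, mul_inv_cancel_left₀ hq0]
    rw [e2]
    exact R.mul_mem (R.mul_mem u1 (hinv x hx)) u2

/-- the case where central multiples of everything lie in the total subring -/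
lemma caseA {V : Subring D} (hV : ∀ x, x ∈ V ∨ x⁻¹ ∈ V) (hp : ∃ x, x ∉ V)
    (hZ : ∀ x, ∃ s : D, s ≠ 0 ∧ (∀ z, s * z = z * s) ∧ s ∈ V ∧ s * x ∈ V) (φ : D →+* D)
    (hφZ : ∀ s : D, (∀ z, s * z = z * s) → φ s = s) (n : ℕ) (hn : (n : D) ≠ 0)
    (hφ : ∀ x, φ^[n] x = x) (k : ℕ)
    (hk : ∀ u, u ≠ 0 → ∃ m : ℕ, (m : D) ≠ 0 ∧ φ (tw φ u k ^ m) = tw φ u k ^ m) (y : D) :
    φ y = y := by
  by_contra hy
  have hn0 : 0 < n := Nat.pos_of_ne_zero (by rintro rfl; simp at hn)
  let R : Subring D := ⨅ i : ℕ, V.comap (φ ^ i)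
  have hR : ∀ x, x ∈ R ↔ ∀ i : ℕ, (φ ^ i) x ∈ V := fun x => by
    simp only [R, Subring.mem_iInf, Subring.mem_comap]
  have hφi : ∀ s : D, (∀ z, s * z = z * s) → ∀ i : ℕ, (φ ^ i) s = s := fun s hs i => by
    rw [← iter_hom]; exact Function.iterate_fixed (hφZ s hs) i
  have hφR : ∀ x ∈ R, φ x ∈ R := fun x hx => (hR _).2 fun i => by
    have := (hR x).1 hx (i + 1)
    rwa [pow_succ, RingHom.mul_def, RingHom.comp_apply] at this
  have hZR : ∀ x, ∃ s : D, s ≠ 0 ∧ (∀ z, s * z = z * s) ∧ s ∈ R ∧ s * x ∈ R := by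
    intro x
    have : ∀ j, ∃ s : D, s ≠ 0 ∧ (∀ z, s * z = z * s) ∧ s ∈ V ∧ ∀ i < j, s * (φ ^ i) x ∈ V := by
      intro j
      induction j with
      | zero => exact ⟨1, one_ne_zero, by simp, V.one_mem, by simp⟩
      | succ j ih =>
        obtain ⟨s, h1, h2, h3, h4⟩ := ih
        obtain ⟨s', h1', h2', h3', h4'⟩ := hZ ((φ ^ j) x)
        refine ⟨s * s', mul_ne_zero h1 h1', fun z => Commute.mul_left (h2 z) (h2' z),
          V.mul_mem h3 h3', fun i hi => ?_⟩
        rcases Nat.lt_succ_iff_lt_or_eq.1 hi with hi | rfl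
        · rw [h2, mul_assoc]; exact V.mul_mem h3' (h4 i hi)
        · rw [mul_assoc]; exact V.mul_mem h3 h4'
    obtain ⟨s, h1, h2, h3, h4⟩ := this n
    refine ⟨s, h1, h2, (hR _).2 fun i => by rwa [hφi s h2], (hR _).2 fun i => ?_⟩
    rw [map_mul, hφi s h2, ← iter_hom, iter_mod φ n hφ, iter_hom]
    exact h4 _ (Nat.mod_lt _ hn0)
  have hunit : ∀ σ : D, (∀ z, σ * z = z * σ) → nu V σ → ∀ r ∈ R,
      1 + σ * r ≠ 0 ∧ 1 + σ * r ∈ R ∧ (1 + σ * r)⁻¹ ∈ R := by
    intro σ h1 h2 r hr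
    have h3 : ∀ i : ℕ, nu V ((φ ^ i) (1 + σ * r) - 1) := fun i => by
      rw [map_add, map_one, map_mul, hφi σ h1, add_sub_cancel_left]
      exact h2.mul_right ((hR r).1 hr i)
    refine ⟨by simpa using (unit_of_one hV (h3 0)).2.1, (hR _).2 fun i => (unit_of_one hV (h3 i)).1,
      (hR _).2 fun i => ?_⟩
    rw [map_inv₀]
    exact (unit_of_one hV (h3 i)).2.2
  have hρ : ∃ ρ : D, ρ ≠ 0 ∧ (∀ z, ρ * z = z * ρ) ∧ nu V ρ ∧
      ∀ q : ℕ, q.Prime → (q : D) ≠ 0 → nu V (ρ * (q : D)⁻¹) := by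
    have hq : ∀ q : ℕ, ¬ nu V (q : D) → (q : D)⁻¹ ∈ V := fun q h => by
      simp only [nu, not_and, not_or, not_not] at h
      exact (h (natCast_mem V q)).2
    by_cases h : ∃ l : ℕ, l.Prime ∧ (l : D) ≠ 0 ∧ nu V (l : D)
    · obtain ⟨l, hl, hl0, hl1⟩ := h
      refine ⟨l * l, mul_ne_zero hl0 hl0, fun z => (Nat.cast_commute l z).mul_left
        (Nat.cast_commute l z), hl1.mul_left hl1.1, fun q hqp hq0 => ?_⟩
      by_cases hql : q = l
      · rw [hql, mul_inv_cancel_right₀ hl0]; exact hl1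
      · refine (hl1.mul_left hl1.1).mul_right (hq q fun hq1 => not_nu_one (V := V) ?_)
        obtain ⟨a, b, hab⟩ := (Nat.isCoprime_iff_coprime.2 ((Nat.coprime_primes hqp hl).2 hql))
        have := (hq1.mul_left (intCast_mem V a)).add hV (hl1.mul_left (intCast_mem V b))
        have e := congrArg (Int.cast : ℤ → D) hab
        push_cast at e
        rwa [e] at this
    · obtain ⟨w, hw⟩ := hp
      obtain ⟨s, h1, h2, h3, h4⟩ := hZ w
      have hs : nu V s := ⟨h3, Or.inr fun h5 => hw (by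
        simpa [h1] using V.mul_mem h5 h4)⟩
      exact ⟨s, h1, h2, hs, fun q hqp hq0 => hs.mul_right (hq q fun h' => h ⟨q, hqp, hq0, h'⟩)⟩
  obtain ⟨ρ, hρ0, hρ1, hρ2, hρ3⟩ := hρ
  have hρR : ρ ∈ R := (hR _).2 fun i => by rw [hφi ρ hρ1]; exact hρ2.1
  obtain ⟨s0, a1, a2, -, a4⟩ := hZR y
  let d : ℕ → D := fun i => (fun x => φ x - x)^[i] (s0 * y)
  have hd : ∀ i, d (i + 1) = φ (d i) - d i := fun i => Function.iterate_succ_apply' _ _ _
  have hdR : ∀ i, d i ∈ R := by
    intro i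
    induction i with
    | zero => exact a4
    | succ i ih => rw [hd]; exact R.sub_mem (hφR _ ih) ih
  have hd0 : ∀ i, d (i + 1) ≠ 0 := by
    intro i
    induction i with
    | zero =>
      rw [hd]
      change φ (s0 * y) - s0 * y ≠ 0
      rw [map_mul, hφZ s0 a2, ← mul_sub]
      exact mul_ne_zero a1 (sub_ne_zero.2 hy)
    | succ i ih =>
      intro h
      rw [hd, sub_eq_zero] at h
      have := iter_add φ (d (i + 1)) (d i) (by rw [hd]; abel) h n
      rw [hφ, left_eq_add] at this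
      exact mul_ne_zero hn ih this
  obtain ⟨t, t0, t1, t2, t3⟩ := hZR (d (k + 1))⁻¹
  have hs1 : ∀ z, ρ * t * z = z * (ρ * t) := fun z => Commute.mul_left (hρ1 z) (t1 z)
  have hs2 : nu V (ρ * t) := hρ2.mul_right (by simpa using (hR t).1 t2 0)
  have hsR : ρ * t ∈ R := R.mul_mem hρR t2
  have htw : ∀ i, ∃ r ∈ R, tw φ (1 + ρ * t * d 0) i = 1 + ρ * t * (d i + ρ * t * r) := by
    intro i
    induction i with
    | zero => exact ⟨0, R.zero_mem, by simp [tw]⟩
    | succ i ih =>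
      obtain ⟨r, hr, e⟩ := ih
      have hw : d i + ρ * t * r ∈ R := R.add_mem (hdR i) (R.mul_mem hsR hr)
      obtain ⟨u0, -, u2⟩ := hunit _ hs1 hs2 _ hw
      rw [tw, e, hd]
      generalize ρ * t = s at *
      set u := 1 + s * (d i + s * r) with hu
      have e1 : u⁻¹ = 1 - s * ((d i + s * r) * u⁻¹) := by
        rw [← mul_assoc, eq_sub_iff_add_eq]
        nth_rewrite 1 [← one_mul u⁻¹]
        rw [← add_mul, mul_inv_cancel₀ u0]
      have e2 : φ u = u + s * (φ (d i) - d i + s * (φ r - r)) := by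
        rw [hu]
        simp only [map_add, map_mul, map_one, hφZ s hs1]
        noncomm_ring
      refine ⟨(φ r - r) * u⁻¹ - (φ (d i) - d i) * ((d i + s * r) * u⁻¹),
        R.sub_mem (R.mul_mem (R.sub_mem (hφR _ hr) hr) u2)
          (R.mul_mem (R.sub_mem (hφR _ (hdR i)) (hdR i)) (R.mul_mem hw u2)), ?_⟩
      rw [e2, add_mul, mul_inv_cancel₀ u0, mul_assoc, add_mul]
      congr 2
      nth_rewrite 1 [e1]
      rw [mul_sub, mul_one, ← mul_assoc (φ (d i) - d i) s, ← hs1]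
      noncomm_ring
  obtain ⟨m, hm, h⟩ := hk _ (hunit _ hs1 hs2 _ (hdR 0)).1
  obtain ⟨r, hr, e⟩ := htw k
  rw [e, map_pow] at h
  have hw : d k + ρ * t * r ∈ R := R.add_mem (hdR k) (R.mul_mem hsR hr)
  obtain ⟨u0, u1, u2⟩ := hunit ρ hρ1 hρ2 (t * (d (k + 1))⁻¹ * (φ r - r))
    (R.mul_mem t3 (R.sub_mem (hφR _ hr) hr))
  set u := 1 + ρ * (t * (d (k + 1))⁻¹ * (φ r - r)) with hu
  have e1 : φ (1 + ρ * t * (d k + ρ * t * r)) - (1 + ρ * t * (d k + ρ * t * r)) =
      d (k + 1) * u * (ρ * t) := by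
    have : d (k + 1) * u = d (k + 1) + ρ * t * (φ r - r) := by
      rw [hu, mul_add, mul_one, ← mul_assoc, ← mul_assoc, ← mul_assoc, mul_assoc _ ρ t, ← hs1,
        mul_inv_cancel_right₀ (hd0 k)]
    rw [this, ← hs1, hd]
    generalize ρ * t = s at *
    simp only [map_add, map_mul, map_one, hφZ s hs1]
    noncomm_ring
  refine pow_ne_of_small R ρ t hρ1 t1 hρR t2 (fun q hq hq0 => hunit _
    (fun z => Commute.mul_left (hρ1 z) (Nat.cast_commute q z).inv_left₀) (hρ3 q hq hq0)) m hm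
    _ _ ⟨_, hw, rfl⟩ ⟨φ (d k + ρ * t * r), hφR _ hw, ?_⟩ ?_ (fun x hx => ?_) h
  · rw [map_add, map_one, map_mul φ (ρ * t), hφZ _ hs1]
  · rw [e1]
    exact mul_ne_zero (mul_ne_zero (hd0 k) u0) (mul_ne_zero hρ0 t0)
  · have e2 : t * (d (k + 1) * u * (ρ * t) * x * (d (k + 1) * u * (ρ * t))⁻¹) =
        d (k + 1) * (u * x * u⁻¹) * (t * (d (k + 1))⁻¹) := by
      rw [mul_assoc _ (ρ * t) x, hs1 x, t1, t1 (d (k + 1))⁻¹]
      have := mul_ne_zero hρ0 t0
      generalize ρ * t = s at *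
      simp only [mul_inv_rev, mul_assoc, mul_inv_cancel_left₀ this]
    rw [e1, e2]
    exact R.mul_mem (R.mul_mem (hdR _) (R.mul_mem (R.mul_mem u1 hx) u2)) t3

theorem core (k : ℕ) (P : D → Prop) (h0 : ∀ x, P x → x ≠ 0) (hpow : ∀ x n, P x → P (x ^ n))
    (hrad : ∀ x, P x → ∃ n, 0 < n ∧ ∀ z, x ^ n * z = z * x ^ n)
    (htow : ∀ a (ha : P a) u, u ≠ 0 → P (tw (cj a (h0 a ha)) u k))
    (V : Subring D) (hV : ∀ x, x ∈ V ∨ x⁻¹ ∈ V) (hp : ∃ x, x ∉ V) (a : D) (ha : P a) (y : D) :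
    a * y = y * a := by
  rw [← cj_eq_iff a (h0 a ha)]
  obtain ⟨n, hn, hc⟩ := rad_coprime k P h0 hpow hrad htow a ha
  have hφ : ∀ x, (cj a (h0 a ha))^[n] x = x := fun x => by rw [cj_iter, cj_eq_iff]; exact hc x
  by_cases hZ : ∀ x, ∃ s : D, s ≠ 0 ∧ (∀ z, s * z = z * s) ∧ s * x ∈ V
  · refine caseA hV hp (fun x => ?_) _ (fun s hs => (cj_eq_iff _ _ _).2 (hs a).symm) n hn hφ k
      (fun u hu => ?_) y
    · obtain ⟨s, h1, h2, h3⟩ := hZ x
      rcases hV s with h | h
      · exact ⟨s, h1, h2, h, h3⟩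
      · exact ⟨1, one_ne_zero, by simp, V.one_mem, by simpa [h1] using V.mul_mem h h3⟩
    · obtain ⟨m, hm, h⟩ := rad_coprime k P h0 hpow hrad htow _ (htow a ha u hu)
      exact ⟨m, hm, (cj_eq_iff _ _ _).2 (h a).symm⟩
  · let V' : Subring D :=
      { carrier := {x | ∃ s : D, s ≠ 0 ∧ (∀ z, s * z = z * s) ∧ s * x ∈ V}
        mul_mem' := by
          rintro x x' ⟨s, h1, h2, h3⟩ ⟨s', h1', h2', h3'⟩
          refine ⟨s * s', mul_ne_zero h1 h1', fun z => Commute.mul_left (h2 z) (h2' z), ?_⟩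
          have : s * s' * (x * x') = s * x * (s' * x') := by
            rw [mul_assoc, ← mul_assoc s', h2' x]; simp only [mul_assoc]
          rw [this]
          exact V.mul_mem h3 h3'
        one_mem' := ⟨1, one_ne_zero, by simp, by simp⟩
        add_mem' := by
          rintro x x' ⟨s, h1, h2, h3⟩ ⟨s', h1', h2', h3'⟩
          rcases hV (s * s'⁻¹) with h | h
          · refine ⟨s, h1, h2, ?_⟩
            rw [mul_add]
            exact V.add_mem h3 (by simpa [h1', mul_assoc] using V.mul_mem h h3')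
          · refine ⟨s', h1', h2', ?_⟩
            rw [mul_add]
            exact V.add_mem (by simpa [h1, mul_assoc] using V.mul_mem h h3) h3'
        zero_mem' := ⟨1, one_ne_zero, by simp, by simp⟩
        neg_mem' := by
          rintro x ⟨s, h1, h2, h3⟩
          exact ⟨s, h1, h2, by simpa using V.neg_mem h3⟩ }
    refine caseB (V := V') (fun x => (hV x).imp (fun h => ⟨1, one_ne_zero, by simp, by simpa⟩)
      (fun h => ⟨1, one_ne_zero, by simp, by simpa⟩)) (not_forall.1 hZ) (fun s hs => ?_) _ n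
      (Nat.pos_of_ne_zero (by rintro rfl; simp at hn)) hφ k (fun u hu => hrad _ (htow a ha u hu)) y
    by_cases h : s = 0
    · rw [h]; exact V'.zero_mem
    · exact ⟨s⁻¹, inv_ne_zero h, fun z => Commute.inv_left₀ (hs z), by simp [h]⟩

lemma tw_mem (N : Subgroup Dˣ) (k : ℕ) (H : ℕ → Subgroup Dˣ) (h0 : H 0 = N) (hk : H k = ⊤)
    (hH : ∀ i, i < k → H i ≤ H (i + 1) ∧ ((H i).subgroupOf (H (i + 1))).Normal)
    (a : Dˣ) (ha : a ∈ N) (u : D) (hu : u ≠ 0) :
    ∃ g ∈ N, (g : D) = tw (cj (a : D) a.ne_zero) u k := by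
  have haH : ∀ i ≤ k, a ∈ H i := by
    intro i hi
    induction i with
    | zero => rwa [h0]
    | succ i ih => exact (hH i hi).1 (ih (by omega))
  have : ∀ i ≤ k, ∃ g ∈ H (k - i), (g : D) = tw (cj (a : D) a.ne_zero) u i := by
    intro i hi
    induction i with
    | zero => exact ⟨Units.mk0 u hu, by simp [hk], rfl⟩
    | succ i ih =>
      obtain ⟨g, hg, e⟩ := ih (by omega)
      have e1 : k - i = k - (i + 1) + 1 := by omega
      rw [e1] at hg
      obtain ⟨hle, hnorm⟩ := hH (k - (i + 1)) (by omega)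
      have ha' := haH (k - (i + 1)) (by omega)
      have := hnorm.conj_mem ⟨a⁻¹, hle (inv_mem ha')⟩ (Subgroup.mem_subgroupOf.2 (inv_mem ha'))
        ⟨g, hg⟩
      refine ⟨a * (g * a⁻¹ * g⁻¹), mul_mem ha' (Subgroup.mem_subgroupOf.1 this), ?_⟩
      rw [tw, ← e, cj_apply]
      simp [mul_assoc]
  simpa [h0] using this k le_rfl

theorem main (N : Subgroup Dˣ)
    (hN : ∃ (k : ℕ) (H : ℕ → Subgroup Dˣ), H 0 = N ∧ H k = ⊤ ∧
      ∀ i, i < k → H i ≤ H (i + 1) ∧ ((H i).subgroupOf (H (i + 1))).Normal)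
    (hrad : ∀ x ∈ N, ∃ n : ℕ, 0 < n ∧ ((x : Dˣ) : D) ^ n ∈ Subring.center D)
    (E : Subfield D) (V : Subring D) (hV : ∀ x ∈ E, x ∈ V ∨ x⁻¹ ∈ V) (hp : ∃ x ∈ E, x ∉ V)
    (a : Dˣ) (ha : a ∈ N) (haE : (a : D) ∈ E) (y : D) (hy : y ∈ E) : a * y = y * a := by
  obtain ⟨k, H, h0, hk, hH⟩ := hN
  have := core (D := E) k (fun x => ∃ g ∈ N, (g : D) = x)
    (by rintro x ⟨g, -, e⟩ rfl; exact g.ne_zero e)
    (by rintro x n ⟨g, hg, e⟩; exact ⟨g ^ n, pow_mem hg n, by simp [e]⟩)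
    (by
      rintro x ⟨g, hg, e⟩
      obtain ⟨n, hn, h⟩ := hrad g hg
      refine ⟨n, hn, fun z => Subtype.ext ?_⟩
      simpa [e] using (Subring.mem_center_iff.1 h z).symm)
    (by
      rintro b ⟨g, hg, e⟩ u hu
      obtain ⟨g', hg', e'⟩ := tw_mem N k H h0 hk hH g hg u (by simpa using hu)
      refine ⟨g', hg', e'.trans ?_⟩
      generalize k = i
      induction i with
      | zero => rfl
      | succ i ih => rw [tw, tw, ih]; simp [cj_apply, e])
    (V.comap E.subtype) (fun x => by simpa using hV x x.2)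
    (by obtain ⟨x, hx, h⟩ := hp; exact ⟨⟨x, hx⟩, h⟩) ⟨a, haE⟩ ⟨a, ha, rfl⟩ ⟨y, hy⟩
  exact congrArg Subtype.val this

end Pool.Agent.P.MP_3fd745_al
end
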