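import Pool.Agent.K.MP_3fd745_al.C0

/-! Orders with a small central element; the centrally finite case; torsion elements. -/

namespace Pool.Agent.P.MP_3fd745_al

variable {D : Type} [DivisionRing D]

lemma delta_ne (φ : D →+* D) (n : ℕ) (hn : (n : D) ≠ 0) (hφ : ∀ x, φ^[n] x = x) (y : D)
    (hy : φ y ≠ y) (i : ℕ) : (fun x => φ x - x)^[i + 1] y ≠ 0 := by
  induction i with
  | zero => exact sub_ne_zero.2 hy
  | succ i ih =>
    intro h
    rw [Function.iterate_succ_apply', sub_eq_zero] at h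
    have := iter_add φ _ ((fun x => φ x - x)^[i] y)
      (by rw [Function.iterate_succ_apply']; abel) h n
    rw [hφ, left_eq_add] at this
    exact mul_ne_zero hn ih this

/-- an invariant order with a small central element -/
lemma order_case (φ : D →+* D) (hφZ : ∀ s : D, (∀ z, s * z = z * s) → φ s = s) (n : ℕ)
    (hn : (n : D) ≠ 0) (hφ : ∀ x, φ^[n] x = x) (k : ℕ)
    (hk : ∀ u, u ≠ 0 → ∃ m : ℕ, (m : D) ≠ 0 ∧ φ (tw φ u k ^ m) = tw φ u k ^ m)
    (R : Subring D) (hφR : ∀ x ∈ R, φ x ∈ R)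
    (hZR : ∀ x, ∃ s : D, s ≠ 0 ∧ (∀ z, s * z = z * s) ∧ s ∈ R ∧ s * x ∈ R)
    (ρ : D) (hρ0 : ρ ≠ 0) (hρ1 : ∀ z, ρ * z = z * ρ) (hρR : ρ ∈ R)
    (hρ2 : ∀ r ∈ R, 1 + ρ * r ≠ 0 ∧ (1 + ρ * r)⁻¹ ∈ R)
    (hρ3 : ∀ q : ℕ, q.Prime → (q : D) ≠ 0 → ∀ r ∈ R, 1 + ρ * (q : D)⁻¹ * r ≠ 0 ∧
      1 + ρ * (q : D)⁻¹ * r ∈ R ∧ (1 + ρ * (q : D)⁻¹ * r)⁻¹ ∈ R) (y : D) : φ y = y := by
  by_contra hy
  obtain ⟨s0, a1, a2, -, a4⟩ := hZR y
  let d : ℕ → D := fun i => (fun x => φ x - x)^[i] (s0 * y)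
  have hd : ∀ i, d (i + 1) = φ (d i) - d i := fun i => Function.iterate_succ_apply' _ _ _
  have hdR : ∀ i, d i ∈ R := by
    intro i
    induction i with
    | zero => exact a4
    | succ i ih => rw [hd]; exact R.sub_mem (hφR _ ih) ih
  have hd0 : ∀ i, d (i + 1) ≠ 0 := delta_ne φ n hn hφ _ (by
    rw [map_mul, hφZ s0 a2]; exact fun h => hy (mul_left_cancel₀ a1 h))
  obtain ⟨t, t0, t1, t2, t3⟩ := hZR (d (k + 1))⁻¹
  have hs1 : ∀ z, ρ * t * z = z * (ρ * t) := fun z => Commute.mul_left (hρ1 z) (t1 z)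
  have hsR : ρ * t ∈ R := R.mul_mem hρR t2
  have hunit : ∀ r ∈ R, 1 + ρ * t * r ≠ 0 ∧ (1 + ρ * t * r)⁻¹ ∈ R := fun r hr => by
    rw [mul_assoc]; exact hρ2 _ (R.mul_mem t2 hr)
  have htw : ∀ i, ∃ r ∈ R, tw φ (1 + ρ * t * d 0) i = 1 + ρ * t * (d i + ρ * t * r) := by
    intro i
    induction i with
    | zero => exact ⟨0, R.zero_mem, by simp [tw]⟩
    | succ i ih =>
      obtain ⟨r, hr, e⟩ := ih
      have hw : d i + ρ * t * r ∈ R := R.add_mem (hdR i) (R.mul_mem hsR hr)
      obtain ⟨u0, u2⟩ := hunit _ hw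
      rw [tw, e, hd]
      generalize ρ * t = s at *
      set u := 1 + s * (d i + s * r) with hu
      have e1 : u⁻¹ = 1 - s * ((d i + s * r) * u⁻¹) := by
        rw [← mul_assoc, eq_sub_iff_add_eq]
        nth_rewrite 1 [← one_mul u⁻¹]
        rw [← add_mul, mul_inv_cancel₀ u0]
      have e2 : φ u = u + s * (φ (d i) - d i + s * (φ r - r)) := by
        rw [hu]
        simp only [map_add, map_mul, map_one, hφZ s hs1]
        noncomm_ring
      refine ⟨(φ r - r) * u⁻¹ - (φ (d i) - d i) * ((d i + s * r) * u⁻¹),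
        R.sub_mem (R.mul_mem (R.sub_mem (hφR _ hr) hr) u2)
          (R.mul_mem (R.sub_mem (hφR _ (hdR i)) (hdR i)) (R.mul_mem hw u2)), ?_⟩
      rw [e2, add_mul, mul_inv_cancel₀ u0, mul_assoc, add_mul]
      congr 2
      nth_rewrite 1 [e1]
      rw [mul_sub, mul_one, ← mul_assoc (φ (d i) - d i) s, ← hs1]
      noncomm_ring
  obtain ⟨m, hm, h⟩ := hk _ (hunit _ (hdR 0)).1
  obtain ⟨r, hr, e⟩ := htw k
  rw [e, map_pow] at h
  have hw : d k + ρ * t * r ∈ R := R.add_mem (hdR k) (R.mul_mem hsR hr)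
  have hv := R.mul_mem t3 (R.sub_mem (hφR _ hr) hr)
  obtain ⟨u0, u2⟩ := hρ2 _ hv
  have u1 := R.add_mem R.one_mem (R.mul_mem hρR hv)
  set u := 1 + ρ * (t * (d (k + 1))⁻¹ * (φ r - r)) with hu
  have e1 : φ (1 + ρ * t * (d k + ρ * t * r)) - (1 + ρ * t * (d k + ρ * t * r)) =
      d (k + 1) * u * (ρ * t) := by
    have : d (k + 1) * u = d (k + 1) + ρ * t * (φ r - r) := by
      rw [hu, mul_add, mul_one, ← mul_assoc, ← mul_assoc, ← mul_assoc, mul_assoc _ ρ t, ← hs1,
        mul_inv_cancel_right₀ (hd0 k)]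
    rw [this, ← hs1, hd]
    generalize ρ * t = s at *
    simp only [map_add, map_mul, map_one, hφZ s hs1]
    noncomm_ring
  refine pow_ne_of_small R ρ t hρ1 t1 hρR t2 hρ3 m hm
    _ _ ⟨_, hw, rfl⟩ ⟨φ (d k + ρ * t * r), hφR _ hw, ?_⟩ ?_ (fun x hx => ?_) h
  · rw [map_add, map_one, map_mul φ (ρ * t), hφZ _ hs1]
  · rw [e1]
    exact mul_ne_zero (mul_ne_zero (hd0 k) u0) (mul_ne_zero hρ0 t0)
  · have e2 : t * (d (k + 1) * u * (ρ * t) * x * (d (k + 1) * u * (ρ * t))⁻¹) =
        d (k + 1) * (u * x * u⁻¹) * (t * (d (k + 1))⁻¹) := by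
      rw [mul_assoc _ (ρ * t) x, hs1 x, t1, t1 (d (k + 1))⁻¹]
      have := mul_ne_zero hρ0 t0
      generalize ρ * t = s at *
      simp only [mul_inv_rev, mul_assoc, mul_inv_cancel_left₀ this]
    rw [e1, e2]
    exact R.mul_mem (R.mul_mem (hdR _) (R.mul_mem (R.mul_mem u1 hx) u2)) t3

/-- a small element for a proper total subring of a field -/
lemma exists_small {F : Type} [Field F] (V : Subring F) (hV : ∀ x, x ∈ V ∨ x⁻¹ ∈ V)
    (hp : ∃ x, x ∉ V) : ∃ ρ : F, ρ ≠ 0 ∧ nu V ρ ∧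
      ∀ q : ℕ, q.Prime → (q : F) ≠ 0 → nu V (ρ * (q : F)⁻¹) := by
  have hq : ∀ q : ℕ, ¬ nu V (q : F) → (q : F)⁻¹ ∈ V := fun q h => by
    simp only [nu, not_and, not_or, not_not] at h
    exact (h (natCast_mem V q)).2
  by_cases h : ∃ l : ℕ, l.Prime ∧ (l : F) ≠ 0 ∧ nu V (l : F)
  · obtain ⟨l, hl, hl0, hl1⟩ := h
    refine ⟨l * l, mul_ne_zero hl0 hl0, hl1.mul_left hl1.1, fun q hqp hq0 => ?_⟩
    by_cases hql : q = l
    · rw [hql, mul_inv_cancel_right₀ hl0]; exact hl1
    · refine (hl1.mul_left hl1.1).mul_right (hq q fun hq1 => not_nu_one (V := V) ?_)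
      obtain ⟨a, b, hab⟩ := (Nat.isCoprime_iff_coprime.2 ((Nat.coprime_primes hqp hl).2 hql))
      have := (hq1.mul_left (intCast_mem V a)).add hV (hl1.mul_left (intCast_mem V b))
      have e := congrArg (Int.cast : ℤ → F) hab
      push_cast at e
      rwa [e] at this
  · obtain ⟨w, hw⟩ := hp
    have hw0 : w ≠ 0 := fun h => hw (h ▸ V.zero_mem)
    have hs : nu V w⁻¹ := ⟨(hV w).resolve_left hw, Or.inr (by simpa using hw)⟩
    exact ⟨w⁻¹, inv_ne_zero hw0, hs,
      fun q hqp hq0 => hs.mul_right (hq q fun h' => h ⟨q, hqp, hq0, h'⟩)⟩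

/-- the centrally finite case when the center has a proper valuation ring -/
lemma fd_val {F : Type} [Field F] [Algebra F D] [Module.Finite F D]
    (O : ValuationSubring F) (hp : ∃ x, x ∉ O)
    (φ : D →+* D) (hφZ : ∀ s : D, (∀ z, s * z = z * s) → φ s = s) (n : ℕ)
    (hn : (n : D) ≠ 0) (hφ : ∀ x, φ^[n] x = x) (k : ℕ)
    (hk : ∀ u, u ≠ 0 → ∃ m : ℕ, (m : D) ≠ 0 ∧ φ (tw φ u k ^ m) = tw φ u k ^ m) (y : D) :
    φ y = y := by
  classical
  have hn0 : 0 < n := Nat.pos_of_ne_zero (by rintro rfl; simp at hn)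
  have hV : ∀ x, x ∈ O.toSubring ∨ x⁻¹ ∈ O.toSubring := O.mem_or_inv_mem
  obtain ⟨ρ, hρ0, hρ1, hρ2⟩ := exists_small O.toSubring hV hp
  obtain ⟨B, hB⟩ := Module.Finite.fg_top (R := F) (M := D)
  have hc : ∀ (s : F) z, algebraMap F D s * z = z * algebraMap F D s := fun s z =>
    Algebra.commutes s z
  have hφs : ∀ (s : F) (x : D), φ (s • x) = s • φ x := fun s x => by
    rw [Algebra.smul_def, Algebra.smul_def, map_mul, hφZ _ (hc s)]
  let S : Set D := {x | ∃ i < n, ∃ b ∈ insert 1 B, x = φ^[i] b}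
  have hSf : S.Finite := by
    refine (((Finset.range n) ×ˢ (insert 1 B)).finite_toSet.image fun p => φ^[p.1] p.2).subset ?_
    rintro _ ⟨i, hi, b, hb, rfl⟩
    exact ⟨(i, b), by simpa using ⟨hi, by simpa using hb⟩, rfl⟩
  have hSφ : ∀ x ∈ S, φ x ∈ S := by
    rintro _ ⟨i, hi, b, hb, rfl⟩
    refine ⟨(i + 1) % n, Nat.mod_lt _ hn0, b, hb, ?_⟩
    rw [← iter_mod φ n hφ, Function.iterate_succ_apply']
  let M : Submodule O D := Submodule.span O S
  have hMφ : ∀ x ∈ M, φ x ∈ M := by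
    intro x hx
    induction hx using Submodule.span_induction with
    | mem x hx => exact Submodule.subset_span (hSφ x hx)
    | zero => simp
    | add x y _ _ hx hy => rw [map_add]; exact M.add_mem hx hy
    | smul s x _ hx => exact (hφs s x).symm ▸ M.smul_mem s hx
  have hMi : ∀ i, ∀ x ∈ M, φ^[i] x ∈ M := by
    intro i x hx
    induction i with
    | zero => exact hx
    | succ i ih => rw [Function.iterate_succ_apply']; exact hMφ _ ih
  have hM1 : (1 : D) ∈ M := Submodule.subset_span ⟨0, hn0, 1, by simp, rfl⟩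
  have hden : ∀ x : D, ∃ s : O, s ≠ 0 ∧ s • x ∈ M := by
    intro x
    have hx : x ∈ Submodule.span F (B : Set D) := by rw [hB]; trivial
    induction hx using Submodule.span_induction with
    | mem x hx =>
      have : x ∈ M := Submodule.subset_span ⟨0, hn0, x, by simp [Finset.mem_coe.1 hx], rfl⟩
      exact ⟨1, one_ne_zero, by simpa using this⟩
    | zero => exact ⟨1, one_ne_zero, by simp⟩
    | add x y _ _ hx hy =>
      obtain ⟨s, hs, h1⟩ := hx
      obtain ⟨t, ht, h2⟩ := hy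
      refine ⟨s * t, mul_ne_zero hs ht, ?_⟩
      rw [smul_add]
      exact M.add_mem (by rw [mul_comm, mul_smul]; exact M.smul_mem t h1)
        (by rw [mul_smul]; exact M.smul_mem s h2)
    | smul c x _ hx =>
      obtain ⟨s, hs, h1⟩ := hx
      rcases O.mem_or_inv_mem c with h | h
      · exact ⟨s, hs, by rw [smul_comm]; exact M.smul_mem (⟨c, h⟩ : O) h1⟩
      · by_cases hc0 : c = 0
        · exact ⟨1, one_ne_zero, by simp [hc0]⟩
        · refine ⟨s * ⟨c⁻¹, h⟩, mul_ne_zero hs (fun e => hc0 (by simpa using congrArg Subtype.val e)), ?_⟩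
          rw [mul_smul]
          have : (⟨c⁻¹, h⟩ : O) • c • x = x := inv_smul_smul₀ hc0 x
          rwa [this]
  let R : Subring D :=
    { carrier := {r | ∀ x ∈ M, r * x ∈ M}
      mul_mem' := fun ha hb x hx => by rw [mul_assoc]; exact ha _ (hb x hx)
      one_mem' := fun x hx => by rwa [one_mul]
      add_mem' := fun ha hb x hx => by rw [add_mul]; exact M.add_mem (ha x hx) (hb x hx)
      zero_mem' := fun x _ => by simp
      neg_mem' := fun ha x hx => by rw [neg_mul]; exact M.neg_mem (ha x hx) }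
  have hOR : ∀ s : F, s ∈ O → algebraMap F D s ∈ R := fun s hs x hx => by
    rw [← Algebra.smul_def]; exact M.smul_mem (⟨s, hs⟩ : O) hx
  have hunit : ∀ σ : F, nu O.toSubring σ → ∀ r ∈ R, 1 + algebraMap F D σ * r ≠ 0 ∧
      1 + algebraMap F D σ * r ∈ R ∧ (1 + algebraMap F D σ * r)⁻¹ ∈ R := by
    intro σ hσ r hr
    have h1 : 1 + algebraMap F D σ * r ∈ R := R.add_mem R.one_mem (R.mul_mem (hOR σ hσ.1) hr)
    have hle : M ≤ M.map (LinearMap.mulLeft O (1 + algebraMap F D σ * r)) := by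
      refine Submodule.le_of_le_smul_of_le_jacobson_bot (I := Ideal.span {(⟨σ, hσ.1⟩ : O)})
        (Submodule.fg_span hSf) ?_ fun x hx => ?_
      · rw [IsLocalRing.jacobson_eq_maximalIdeal _ bot_ne_top, Ideal.span_le,
          Set.singleton_subset_iff, SetLike.mem_coe, IsLocalRing.mem_maximalIdeal, mem_nonunits_iff]
        rintro ⟨u, hu⟩
        have e : σ * ((u⁻¹ : Oˣ) : O) = 1 := by
          have := congrArg Subtype.val u.mul_inv
          rwa [hu] at this
        rcases hσ.2 with h | h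
        · simp [h] at e
        · exact h (by rw [← eq_inv_of_mul_eq_one_right e]; exact ((u⁻¹ : Oˣ) : O).2)
      · have e : x = (1 + algebraMap F D σ * r) * x + (⟨σ, hσ.1⟩ : O) • (-(r * x)) := by
          change x = _ + σ • (-(r * x))
          rw [Algebra.smul_def]
          noncomm_ring
        rw [e]
        exact Submodule.add_mem_sup ⟨x, hx, rfl⟩
          (Submodule.smul_mem_smul (Ideal.subset_span rfl) (M.neg_mem (hr x hx)))
    have h0 : 1 + algebraMap F D σ * r ≠ 0 := by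
      obtain ⟨x, -, e⟩ := hle hM1
      exact left_ne_zero_of_mul_eq_one e
    refine ⟨h0, h1, fun x hx => ?_⟩
    obtain ⟨x', hx', rfl⟩ := hle hx
    simpa [h0] using hx'
  refine order_case φ hφZ n hn hφ k hk R (fun r hr x hx => ?_) (fun x => ?_) (algebraMap F D ρ)
    (by simpa using hρ0) (hc ρ) (hOR ρ hρ1.1)
    (fun r hr => ⟨(hunit ρ hρ1 r hr).1, (hunit ρ hρ1 r hr).2.2⟩) (fun q hq hq0 r hr => ?_) y
  · have e : φ (φ^[n - 1] x) = x := by
      rw [← Function.iterate_succ_apply' φ, Nat.succ_eq_add_one, Nat.sub_add_cancel hn0, hφ]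
    rw [← e, ← map_mul]
    exact hMφ _ (hr _ (hMi _ x hx))
  · have : ∀ T : Finset D, ∃ s : O, s ≠ 0 ∧ ∀ b ∈ T, s • (x * b) ∈ M := by
      intro T
      induction T using Finset.induction_on with
      | empty => exact ⟨1, one_ne_zero, by simp⟩
      | insert b T _ ih =>
        obtain ⟨s, hs, h1⟩ := ih
        obtain ⟨t, ht, h2⟩ := hden (x * b)
        refine ⟨s * t, mul_ne_zero hs ht, fun c hc => ?_⟩
        rcases Finset.mem_insert.1 hc with rfl | hc
        · rw [mul_smul]; exact M.smul_mem s h2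
        · rw [mul_comm, mul_smul]; exact M.smul_mem t (h1 c hc)
    obtain ⟨s, hs, h⟩ := this hSf.toFinset
    refine ⟨algebraMap F D s, by simpa using hs, hc s, hOR s s.2, fun z hz => ?_⟩
    rw [mul_assoc, ← Algebra.smul_def]
    induction hz using Submodule.span_induction with
    | mem z hz => exact h z (hSf.mem_toFinset.2 hz)
    | zero => simp
    | add x y _ _ hx hy => rw [mul_add, smul_add]; exact M.add_mem hx hy
    | smul c z _ hz => rw [mul_smul_comm, smul_comm]; exact M.smul_mem c hz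
  · have := hunit _ (hρ2 q hq (fun h => hq0 (by rw [← map_natCast (algebraMap F D), h, map_zero])))
      r hr
    simpa using this

/-- the standing hypotheses in predicate form -/
structure Hyp (k : ℕ) (P : D → Prop) : Prop where
  h0 : ∀ x, P x → x ≠ 0
  hpow : ∀ x n, P x → P (x ^ n)
  hrad : ∀ x, P x → ∃ n, 0 < n ∧ ∀ z, x ^ n * z = z * x ^ n
  htow : ∀ a (ha : a ≠ 0), P a → ∀ u, u ≠ 0 → P (tw (cj a ha) u k)

lemma Hyp.cop {k : ℕ} {P : D → Prop} (H : Hyp k P) (x : D) (hx : P x) :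
    ∃ n : ℕ, (n : D) ≠ 0 ∧ ∀ z, x ^ n * z = z * x ^ n :=
  rad_coprime k P H.h0 H.hpow H.hrad (fun a ha u hu => H.htow a _ ha u hu) x hx

lemma Hyp.restrict {k : ℕ} {P : D → Prop} (H : Hyp k P) (E : Subfield D) :
    Hyp k (fun x : E => P x) where
  h0 x hx h := H.h0 _ hx (by simp [h])
  hpow x n hx := by simpa using H.hpow _ n hx
  hrad x hx := by
    obtain ⟨n, hn, h⟩ := H.hrad _ hx
    exact ⟨n, hn, fun z => Subtype.ext (by simpa using h z)⟩
  htow a ha hP u hu := by
    have := H.htow a (by simpa using ha) hP u (by simpa using hu)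
    convert this using 1
    generalize k = i
    induction i with
    | zero => rfl
    | succ i ih => rw [tw, tw, ← ih]; simp [cj_apply]

/-- central multiples -/
lemma Hyp.scale {k : ℕ} {P : D → Prop} (H : Hyp k P) :
    Hyp k (fun x => ∃ a s, P a ∧ s ≠ 0 ∧ (∀ z, s * z = z * s) ∧ x = a * s) where
  h0 := by rintro _ ⟨a, s, ha, hs, -, rfl⟩; exact mul_ne_zero (H.h0 a ha) hs
  hpow := by
    rintro _ n ⟨a, s, ha, hs, hc, rfl⟩
    exact ⟨a ^ n, s ^ n, H.hpow a n ha, pow_ne_zero n hs, fun z => Commute.pow_left (hc z) n,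
      Commute.mul_pow (hc a).symm n⟩
  hrad := by
    rintro _ ⟨a, s, ha, hs, hc, rfl⟩
    obtain ⟨n, hn, h⟩ := H.hrad a ha
    refine ⟨n, hn, fun z => ?_⟩
    rw [Commute.mul_pow (hc a).symm n]
    exact Commute.mul_left (h z) (Commute.pow_left (hc z) n)
  htow := by
    rintro _ h0 ⟨a, s, ha, hs, hc, rfl⟩ u hu
    have e : cj (a * s) h0 = cj a (H.h0 a ha) := by
      ext x
      simp only [cj_apply, mul_inv_rev]
      rw [mul_assoc a s x, hc x]
      simp [mul_assoc, hs]
    exact ⟨_, 1, H.htow a _ ha u hu, one_ne_zero, by simp, by rw [e, mul_one]⟩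

lemma fg_adjoin (A : Type) [CommRing A] [Algebra A D] (ζ w : D) (i : ℕ) (h : w * ζ = ζ ^ i * w)
    (h1 : IsIntegral A ζ) (h2 : IsIntegral A w) :
    (Algebra.adjoin A {ζ, w}).toSubmodule.FG := by
  have e1 : ∀ j : ℕ, w * ζ ^ j = ζ ^ (i * j) * w := by
    intro j
    induction j with
    | zero => simp
    | succ j ih => rw [pow_succ, ← mul_assoc, ih, mul_assoc, h, ← mul_assoc, ← pow_add, mul_add_one]
  have e2 : ∀ l j : ℕ, w ^ l * ζ ^ j = ζ ^ (i ^ l * j) * w ^ l := by
    intro l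
    induction l with
    | zero => simp
    | succ l ih =>
      intro j
      rw [pow_succ', mul_assoc, ih, ← mul_assoc, e1, mul_assoc, ← mul_assoc i, ← pow_succ' i]
  have := h1.fg_adjoin_singleton.mul h2.fg_adjoin_singleton
  convert this using 1
  simp only [Algebra.adjoin_eq_span]
  rw [Submodule.span_mul_span]
  congr 1
  ext x
  constructor
  · intro hx
    induction hx using Submonoid.closure_induction with
    | mem x hx =>
      rcases hx with rfl | rfl
      · exact ⟨x, Submonoid.subset_closure rfl, 1, one_mem _, mul_one _⟩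
      · exact ⟨1, one_mem _, x, Submonoid.subset_closure rfl, one_mul _⟩
    | one => exact ⟨1, one_mem _, 1, one_mem _, mul_one _⟩
    | mul x y _ _ hx hy =>
      obtain ⟨a, ha, b, hb, rfl⟩ := hx
      obtain ⟨c, hc, d, hd, rfl⟩ := hy
      obtain ⟨j, rfl⟩ := Submonoid.mem_closure_singleton.1 ha
      obtain ⟨l, rfl⟩ := Submonoid.mem_closure_singleton.1 hb
      obtain ⟨j', rfl⟩ := Submonoid.mem_closure_singleton.1 hc
      obtain ⟨l', rfl⟩ := Submonoid.mem_closure_singleton.1 hd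
      refine ⟨_, Submonoid.mem_closure_singleton.2 ⟨j + i ^ l * j', rfl⟩, _,
        Submonoid.mem_closure_singleton.2 ⟨l + l', rfl⟩, ?_⟩
      simp only
      rw [pow_add, pow_add, mul_assoc, mul_assoc, ← mul_assoc (w ^ l), e2, mul_assoc]
  · rintro ⟨a, ha, b, hb, rfl⟩
    exact mul_mem (Submonoid.closure_mono (by simp) ha) (Submonoid.closure_mono (by simp) hb)

/-- the elements commuting with a given one -/
def comm (c : D) : Subfield D :=
  { Subring.centralizer {c} with
    inv_mem' := fun x hx y hy => by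
      obtain rfl : y = c := hy
      exact (Commute.inv_right₀ (hx y rfl)) }

lemma mcyc_gen {k : ℕ} {P : D → Prop} (H : Hyp k P) (ζ w : D) (hζ : P ζ) (o : ℕ) (ho : 0 < o)
    (hζo : ζ ^ o = 1) (i : ℕ) (h : w * ζ = ζ ^ i * w) (r : ℕ) (hr : 0 < r)
    (hw : w ^ r * ζ = ζ * w ^ r) (hgen : ∀ S : Subfield D, ζ ∈ S → w ∈ S → ∀ x, x ∈ S) :
    ζ * w = w * ζ := by
  have hc : w ^ r ∈ Subring.center D := Subring.mem_center_iff.2 fun x =>
    (hgen (comm (w ^ r)) (by rintro _ rfl; exact hw)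
      (by rintro _ rfl; exact (Commute.refl w).pow_left r) x _ rfl).symm
  have hζi : ∀ (A : Type) [CommRing A] [Algebra A D], IsIntegral A ζ := fun A _ _ =>
    IsIntegral.of_pow ho (hζo ▸ isIntegral_one)
  by_cases hO : ∃ O : ValuationSubring (Subring.center D), ∃ x, x ∉ O
  · obtain ⟨O, hp⟩ := hO
    have hwi : IsIntegral (Subring.center D) w :=
      IsIntegral.of_pow hr (isIntegral_algebraMap (x := (⟨_, hc⟩ : Subring.center D)))
    have hfg := fg_adjoin (Subring.center D) ζ w i h (hζi _) hwi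
    let S : Subfield D :=
      { (Algebra.adjoin (Subring.center D) {ζ, w}).toSubring with
        inv_mem' := fun x hx => (IsIntegral.of_mem_of_fg _ hfg x hx).inv_mem hx }
    have : Module.Finite (Subring.center D) D := ⟨by
      have e : (Algebra.adjoin (Subring.center D) {ζ, w}).toSubmodule = ⊤ :=
        Submodule.eq_top_iff'.2 fun x => hgen S (Algebra.subset_adjoin (by simp))
          (Algebra.subset_adjoin (by simp)) x
      rwa [e] at hfg⟩
    obtain ⟨n, hn, hcn⟩ := H.cop ζ hζ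
    rw [← cj_eq_iff ζ (H.h0 ζ hζ)]
    refine fd_val O hp _ (fun s hs => (cj_eq_iff _ _ _).2 (hs ζ).symm) n hn
      (fun x => by rw [cj_iter, cj_eq_iff]; exact hcn x) k (fun u hu => ?_) w
    obtain ⟨m, hm, h⟩ := H.cop _ (H.htow ζ _ hζ u hu)
    exact ⟨m, hm, (cj_eq_iff _ _ _).2 (h ζ).symm⟩
  · have hint : ∀ x : Subring.center D, IsIntegral ℤ x := by
      intro x
      have h1 : x ∈ (integralClosure (Subring.closure (∅ : Set (Subring.center D)))
          (Subring.center D)).toSubring := by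
        rw [← iInf_valuationSubring_superset, Subring.mem_iInf]
        exact fun V => not_not.1 fun hx => hO ⟨V.1, x, hx⟩
      have h2 : Algebra.IsIntegral ℤ (Subring.closure (∅ : Set (Subring.center D))) := ⟨by
        rintro ⟨y, hy⟩
        rw [Subring.closure_empty, Subring.mem_bot] at hy
        obtain ⟨j, rfl⟩ := hy
        exact isIntegral_algebraMap (x := j)⟩
      exact isIntegral_trans x h1
    obtain ⟨p, hp⟩ := CharP.exists D
    have hp0 : p ≠ 0 := by
      rintro rfl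
      have : CharZero D := CharP.charP_to_charZero D
      have : CharZero (Subring.center D) := (Subring.center D).subtype.charZero
      have h3 : IsIntegral ℤ (algebraMap ℚ (Subring.center D) (2⁻¹ : ℚ)) := hint _
      rw [isIntegral_algebraMap_iff (algebraMap ℚ (Subring.center D)).injective] at h3
      obtain ⟨j, hj⟩ := IsIntegrallyClosed.isIntegral_iff.1 h3
      have : (2 * j : ℤ) = 1 := by
        have : (2 * j : ℚ) = 1 := by rw [show (j : ℚ) = 2⁻¹ from hj]; norm_num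
        exact_mod_cast this
      omega
    have hwi : IsIntegral ℤ w :=
      IsIntegral.of_pow hr ((hint ⟨_, hc⟩).map (Subring.center D).subtype.toIntAlgHom)
    have hfg := fg_adjoin ℤ ζ w i h (hζi _) hwi
    have : Module.Finite ℤ (Algebra.adjoin ℤ {ζ, w}) := Module.Finite.iff_fg.2 hfg
    have : Finite (Algebra.adjoin ℤ {ζ, w}) := Module.finite_of_fg_torsion _ fun x =>
      ⟨⟨p, mem_nonZeroDivisors_of_ne_zero (by exact_mod_cast hp0)⟩, Subtype.ext (by simp)⟩
    exact congrArg Subtype.val ((Finite.isDomain_to_isField (Algebra.adjoin ℤ {ζ, w})).mul_comm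
      ⟨ζ, Algebra.subset_adjoin (by simp)⟩ ⟨w, Algebra.subset_adjoin (by simp)⟩)

lemma mcyc {k : ℕ} {P : D → Prop} (H : Hyp k P) (ζ w : D) (hζ : P ζ) (o : ℕ) (ho : 0 < o)
    (hζo : ζ ^ o = 1) (i : ℕ) (h : w * ζ = ζ ^ i * w) : ζ * w = w * ζ := by
  by_cases hw0 : w = 0
  · simp [hw0]
  have hf : (Set.range fun i : ℕ => ζ ^ i).Finite :=
    (isOfFinOrder_iff_pow_eq_one.2 ⟨o, ho, hζo⟩).finite_powers
  have e : ∀ l : ℕ, (cj w hw0)^[l] ζ = ζ ^ i ^ l := by
    intro l
    induction l with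
    | zero => simp
    | succ l ih =>
      rw [Function.iterate_succ_apply', ih, map_pow, cj_apply, h, mul_inv_cancel_right₀ hw0,
        ← pow_mul, pow_succ']
  have hni : ¬ Function.Injective fun l : ℕ => (cj w hw0)^[l] ζ := fun h =>
    Set.infinite_range_of_injective h (hf.subset (by rintro _ ⟨j, rfl⟩; exact ⟨_, (e j).symm⟩))
  simp only [Function.Injective, not_forall] at hni
  obtain ⟨a, b, hab, hne⟩ := hni
  wlog hlt : a < b generalizing a b
  · exact this b a hab.symm (Ne.symm hne) (by omega)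
  have h3 : (cj w hw0)^[b - a] ζ = ζ := by
    apply (cj w hw0).injective.iterate a
    rw [← Function.iterate_add_apply, Nat.add_sub_cancel' hlt.le, hab]
  rw [cj_iter, cj_eq_iff] at h3
  let E := Subfield.closure ({ζ, w} : Set D)
  have := mcyc_gen (H.restrict E) ⟨ζ, Subfield.subset_closure (by simp)⟩
    ⟨w, Subfield.subset_closure (by simp)⟩ hζ o ho (Subtype.ext hζo) i (Subtype.ext h) (b - a)
    (by omega) (Subtype.ext h3) (fun S h1 h2 x => by
      have : E ≤ S.map E.subtype := Subfield.closure_le.2 (by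
        rintro _ (rfl | rfl)
        · exact ⟨_, h1, rfl⟩
        · exact ⟨_, h2, rfl⟩)
      obtain ⟨y, hy, e⟩ := this x.2
      rwa [← show y = x from Subtype.ext e])
  exact congrArg Subtype.val this

/-- torsion elements are central -/
lemma torsion_central {k : ℕ} {P : D → Prop} (H : Hyp k P) (ζ : D) (hζ : P ζ) (m : ℕ)
    (hm : 0 < m) (hζm : ζ ^ m = 1) (x : D) : ζ * x = x * ζ := by
  have hfin := isOfFinOrder_iff_pow_eq_one.2 ⟨m, hm, hζm⟩
  have ho := hfin.orderOf_pos
  have hζo := pow_orderOf_eq_one ζ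
  have hζ0 := H.h0 ζ hζ
  have ho0 : (orderOf ζ : D) ≠ 0 := by
    intro hn
    obtain ⟨p, hp⟩ := CharP.exists D
    obtain ⟨t, ht⟩ := (CharP.cast_eq_zero_iff D p _).1 hn
    have hp0 : p ≠ 0 := by rintro rfl; omega
    have : Fact p.Prime := ⟨(CharP.char_is_prime_or_zero D p).resolve_right hp0⟩
    have ht0 : 0 < t := Nat.pos_of_ne_zero (by rintro rfl; omega)
    refine pow_ne_one_of_lt_orderOf ht0.ne' (x := ζ)
      (by rw [ht]; exact lt_mul_left ht0 (Fact.out : p.Prime).one_lt) ?_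
    refine frob_inj p (Commute.one_right _) 1 ?_
    rw [pow_one, one_pow, ← pow_mul, mul_comm, ← ht, hζo]
  generalize hod : orderOf ζ = o at *
  let w : ℕ → D := fun i => ∑ j ∈ Finset.range o, (ζ ^ i)⁻¹ ^ j * x * ζ ^ j
  have h1 : ∀ i, ζ * w i = w i * ζ := by
    intro i
    refine mcyc H ζ (w i) hζ o ho hζo i ?_
    have := Finset.sum_range_succ' (fun j => (ζ ^ i)⁻¹ ^ j * x * ζ ^ j) o
    rw [Finset.sum_range_succ, inv_pow, ← pow_mul, mul_comm i o, pow_mul, hζo] at this
    simp only [one_pow, inv_one, pow_zero, add_left_inj] at this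
    simp only [w]
    conv_rhs => rw [this]
    rw [Finset.sum_mul, Finset.mul_sum]
    refine Finset.sum_congr rfl fun j _ => ?_
    simp only [pow_succ' _ j, mul_assoc, mul_inv_cancel_left₀ (pow_ne_zero i hζ0)]
    rw [pow_mul_comm']
  have h2 : ∑ i ∈ Finset.range o, w i = o * x := by
    simp only [w]
    rw [Finset.sum_comm, ← Finset.sum_subset (s₁ := {0}) (by simpa using ho)]
    · simp
    · intro j hj hj0
      rw [← Finset.sum_mul, ← Finset.sum_mul]
      have e : ∀ i : ℕ, (ζ ^ i)⁻¹ ^ j = (ζ ^ j)⁻¹ ^ i := fun i => by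
        simp only [inv_pow, ← pow_mul, mul_comm]
      simp only [e]
      have h3 := mul_neg_geom_sum (ζ ^ j)⁻¹ o
      rw [inv_pow, ← pow_mul, mul_comm j o, pow_mul, hζo, one_pow, inv_one, sub_self] at h3
      rcases mul_eq_zero.1 h3 with h3 | h3
      · exact absurd (inv_eq_one.1 (sub_eq_zero.1 h3).symm) (pow_ne_one_of_lt_orderOf
          (by simpa using hj0) (hod ▸ Finset.mem_range.1 hj))
      · rw [h3, zero_mul, zero_mul]
  have h3 : ζ * (o * x) = o * x * ζ := by
    rw [← h2, Finset.mul_sum, Finset.sum_mul]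
    exact Finset.sum_congr rfl fun i _ => h1 i
  rw [← mul_assoc, ← (Nat.cast_commute o ζ).eq, mul_assoc, mul_assoc] at h3
  exact mul_left_cancel₀ ho0 h3

end Pool.Agent.P.MP_3fd745_al
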