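import Pool.Agent.K.MP_3fd745_al.C1

-- part Pool.Agent.P.MP_3fd745_al.TrB
section

/-! Wedderburn factorisation, binomial minimal polynomials, vanishing of traces. -/

namespace Pool.Agent.P.MP_3fd745_al

open Polynomial

variable {D : Type} [DivisionRing D]

/-- the operator `x ↦ ∑ c_i x m ^ i` -/
noncomputable def act (m : D) : D[X] →+* AddMonoid.End D :=
  eval₂RingHom' (Module.toAddMonoidEnd D D) (Module.toAddMonoidEnd Dᵐᵒᵖ D (MulOpposite.op m))
    (fun a => by ext x; exact (mul_assoc a x m).symm)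

lemma act_C (m c x : D) : act m (C c) x = c * x := by
  change (eval₂ _ _ (C c) : AddMonoid.End D) x = _
  rw [eval₂_C]; rfl

lemma act_X_pow (m x : D) (i : ℕ) : act m (X ^ i) x = x * m ^ i := by
  change (eval₂ _ _ (X ^ i) : AddMonoid.End D) x = _
  rw [eval₂_X_pow, ← map_pow, ← MulOpposite.op_pow]; rfl

lemma act_mul (m x : D) (p q : D[X]) : act m (p * q) x = act m p (act m q x) := by
  rw [map_mul]; rfl

lemma act_eval (m x : D) (hx : x ≠ 0) (p : D[X]) :
    act m p x = p.eval (x * m * x⁻¹) * x := by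
  induction p using Polynomial.induction_on' with
  | add p q hp hq => rw [map_add, eval_add, add_mul, ← hp, ← hq]; rfl
  | monomial i c =>
    rw [eval_monomial, ← C_mul_X_pow_eq_monomial, act_mul, act_C, act_X_pow,
      ← cj_apply x hx, ← map_pow, cj_apply]
    simp [mul_assoc, hx]

lemma act_map (m x : D) (f : (Subring.center D)[X]) (hf : aeval m f = 0) :
    act m (f.map (algebraMap _ D)) x = 0 := by
  have : act m (f.map (algebraMap _ D)) x = x * aeval m f := by
    clear hf
    induction f using Polynomial.induction_on' with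
    | add p q hp hq => rw [Polynomial.map_add, map_add, map_add, mul_add, ← hp, ← hq]; rfl
    | monomial i c =>
      rw [Polynomial.map_monomial, ← C_mul_X_pow_eq_monomial, act_mul, act_C, act_X_pow,
        aeval_monomial, ← mul_assoc, ← mul_assoc, Algebra.commutes]
  rw [this, hf, mul_zero]

lemma act_indep (m : D) (h : D[X]) (h0 : h ≠ 0)
    (hz : ∀ x, act m h x = 0) : (minpoly (Subring.center D) m).natDegree ≤ h.natDegree := by
  induction hn : h.natDegree using Nat.strong_induction_on generalizing h with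
  | _ n ih =>
  have hl := leadingCoeff_ne_zero.2 h0
  obtain ⟨g, hg⟩ : ∃ g, g = C h.leadingCoeff⁻¹ * h := ⟨_, rfl⟩
  have hgm : g.Monic := hg ▸ monic_C_mul_of_mul_leadingCoeff_eq_one (inv_mul_cancel₀ hl)
  have hgn : g.natDegree = n := by rw [hg, natDegree_C_mul (inv_ne_zero hl), hn]
  have hgz : ∀ x, act m g x = 0 := fun x => by rw [hg, act_mul, hz, map_zero]
  by_cases hc : ∀ u, g * C u - C u * g = 0
  · have : g ∈ lifts (algebraMap (Subring.center D) D) := by
      rw [lifts_iff_coeff_lifts]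
      intro i
      refine ⟨⟨g.coeff i, Subring.mem_center_iff.2 fun u => ?_⟩, rfl⟩
      have := congrArg (coeff · i) (sub_eq_zero.1 (hc u))
      simpa using this.symm
    obtain ⟨f, hf, -, hfm⟩ := lifts_and_degree_eq_and_monic this hgm
    have h1 : aeval m f = 0 := by
      have := act_eval m 1 one_ne_zero g
      rw [hgz, ← hf] at this
      simpa [eval_map, aeval_def] using this.symm
    rw [← hgn, ← hf, hfm.natDegree_map]
    exact natDegree_le_natDegree (minpoly.min _ m hfm h1)
  · obtain ⟨u, hu⟩ := not_forall.1 hc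
    have hlt : (g * C u - C u * g).natDegree < n := by
      by_cases hu0 : u = 0
      · simp [hu0] at hu
      refine lt_of_lt_of_eq (natDegree_lt_natDegree hu (degree_sub_lt_left (q := C u * g) ?_
        (mul_ne_zero hgm.ne_zero (C_ne_zero.2 hu0)) ?_)) ?_
      · rw [degree_mul, degree_mul, add_comm]
      · simp [hgm.leadingCoeff]
      · rw [natDegree_mul_C hu0, hgn]
    refine (ih _ hlt _ hu (fun x => ?_) rfl).trans hlt.le
    rw [map_sub]
    change act m _ x - act m _ x = 0
    rw [act_mul, act_mul, hgz, hgz, map_zero, sub_zero]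

lemma right_factor (g : D[X]) (c : D) (h : g.eval c = 0) : ∃ g', g = g' * (X - C c) := by
  have : ∃ g', g - C (g.eval c) = g' * (X - C c) := by
    clear h
    induction g using Polynomial.induction_on' with
    | add p q hp hq =>
      obtain ⟨p', hp⟩ := hp
      obtain ⟨q', hq⟩ := hq
      exact ⟨p' + q', by rw [add_mul, ← hp, ← hq, eval_add, C_add]; abel⟩
    | monomial i a =>
      refine ⟨C a * ∑ j ∈ Finset.range i, X ^ j * C c ^ (i - 1 - j), ?_⟩
      rw [mul_assoc, (commute_X (C c)).geom_sum₂_mul, eval_monomial, ← C_mul_X_pow_eq_monomial,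
        C_mul, C_pow, mul_sub]
  simpa [h] using this

/-- Wedderburn's factorisation theorem, seen through a trace -/
lemma trace_wedd {A : Type} [AddCommGroup A] (τ : D →+ A) (hτ : ∀ x y, τ (x * y) = τ (y * x))
    (m : D) (hm : IsIntegral (Subring.center D) m) :
    τ (algebraMap _ D (minpoly (Subring.center D) m).nextCoeff) =
      -((minpoly (Subring.center D) m).natDegree • τ m) := by
  set f := minpoly (Subring.center D) m with hf
  have hfm : f.Monic := minpoly.monic hm
  have key : ∀ r ≤ f.natDegree, ∃ g h : D[X], g * h = f.map (algebraMap _ D) ∧ h.Monic ∧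
      h.natDegree = r ∧ τ h.nextCoeff = -(r • τ m) := by
    intro r hr
    induction r with
    | zero => exact ⟨_, 1, mul_one _, monic_one, natDegree_one, by simp [nextCoeff]⟩
    | succ r ih =>
      obtain ⟨g, h, e, h1, h2, h3⟩ := ih (by omega)
      obtain ⟨x, hx⟩ : ∃ x, act m h x ≠ 0 := by
        by_contra hc
        have := act_indep m h h1.ne_zero (fun x => not_not.1 fun h' => hc ⟨x, h'⟩)
        rw [← hf] at this
        omega
      have h4 := act_map m x f (minpoly.aeval _ m)
      rw [← e, act_mul, act_eval m _ hx, mul_eq_zero, or_iff_left hx] at h4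
      obtain ⟨g', rfl⟩ := right_factor g _ h4
      refine ⟨g', _, by rw [← e, mul_assoc], (monic_X_sub_C _).mul h1, ?_, ?_⟩
      · rw [(monic_X_sub_C _).natDegree_mul h1, natDegree_X_sub_C, h2, add_comm]
      · rw [(monic_X_sub_C _).nextCoeff_mul h1, nextCoeff_X_sub_C, map_add, h3, map_neg, hτ,
          inv_mul_cancel_left₀ hx, succ_nsmul]
        abel
  obtain ⟨g, h, e, h1, h2, h3⟩ := key _ le_rfl
  have hm2 := hfm.map (algebraMap (Subring.center D) D)
  have hg : g.Monic := by
    have := hm2.leadingCoeff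
    rwa [← e, leadingCoeff_mul, h1.leadingCoeff, mul_one] at this
  have hd := hfm.natDegree_map (algebraMap (Subring.center D) D)
  rw [← e, hg.natDegree_mul h1, h2, add_eq_right, hg.natDegree_eq_zero] at hd
  rw [hd, one_mul] at e
  rw [← h3, e, nextCoeff_map (algebraMap (Subring.center D) D).injective]

/-- the minimal polynomial of an element of the subgroup is a binomial -/
lemma minpoly_binom {k : ℕ} {P : D → Prop} (H : Hyp k P) (m : D) (hP : P m) :
    IsIntegral (Subring.center D) m ∧ ∃ (d : ℕ) (ν : Subring.center D), (d : D) ≠ 0 ∧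
      minpoly (Subring.center D) m = X ^ d - C ν := by
  obtain ⟨n, hn, hc⟩ := H.cop m hP
  have hn0 : 0 < n := Nat.pos_of_ne_zero (by rintro rfl; simp at hn)
  have hm0 := H.h0 m hP
  let μ : Subring.center D := ⟨m ^ n, Subring.mem_center_iff.2 fun z => (hc z).symm⟩
  have hm : IsIntegral (Subring.center D) m :=
    IsIntegral.of_pow hn0 (isIntegral_algebraMap (x := μ))
  refine ⟨hm, ?_⟩
  set f := minpoly (Subring.center D) m with hf
  have hfm : f.Monic := minpoly.monic hm
  have hdvd : f ∣ X ^ n - C μ := minpoly.dvd _ m (by simp [μ]; exact sub_self _)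
  have hroot : AdjoinRoot.root f ^ n = algebraMap _ _ μ := by
    have := AdjoinRoot.mk_eq_zero.2 hdvd
    rwa [map_sub, map_pow, AdjoinRoot.mk_X, AdjoinRoot.mk_C, sub_eq_zero] at this
  have hN : Algebra.norm (Subring.center D) (AdjoinRoot.root f) ^ n = μ ^ f.natDegree := by
    rw [← map_pow, hroot, Algebra.norm_algebraMap_of_basis (AdjoinRoot.powerBasis hfm.ne_zero).basis]
    simp
  generalize Algebra.norm (Subring.center D) (AdjoinRoot.root f) = N at hN
  have hN' : (N : D) ^ n = (m ^ f.natDegree) ^ n := by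
    have := congrArg Subtype.val hN
    simpa [μ, ← pow_mul, mul_comm] using this
  have hN0 : (N : D) ≠ 0 := fun h => by
    rw [h, zero_pow hn0.ne'] at hN'
    exact pow_ne_zero _ (pow_ne_zero _ hm0) hN'.symm
  have hNc : ∀ z, (N : D) * z = z * N := fun z => (Subring.mem_center_iff.1 N.2 z).symm
  have h1 := torsion_central H.scale (m ^ f.natDegree * (N : D)⁻¹)
    ⟨_, _, H.hpow m _ hP, inv_ne_zero hN0, fun z => Commute.inv_left₀ (hNc z), rfl⟩ n hn0 (by
      rw [Commute.mul_pow (Commute.inv_right₀ (hNc _).symm), inv_pow, hN',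
        mul_inv_cancel₀ (pow_ne_zero _ (pow_ne_zero _ hm0))])
  have h2 : ∀ z, m ^ f.natDegree * z = z * m ^ f.natDegree := fun z => by
    have := Commute.mul_left (h1 z) (hNc z)
    rwa [inv_mul_cancel_right₀ hN0] at this
  have hd0 : 0 < f.natDegree := minpoly.natDegree_pos hm
  refine ⟨f.natDegree, ⟨m ^ f.natDegree, Subring.mem_center_iff.2 fun z => (h2 z).symm⟩, ?_, ?_⟩
  · have : n % f.natDegree = 0 := by
      by_contra hr
      have h3 : m ^ (n % f.natDegree) ∈ Subring.center D := Subring.mem_center_iff.2 fun z => by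
        have h4 := Commute.mul_left (hc z) (Commute.pow_left (h2 z) (n / f.natDegree)).inv_left₀
        rw [← pow_mul] at h4
        nth_rewrite 1 [← Nat.mod_add_div n f.natDegree] at h4
        rw [pow_add, mul_inv_cancel_right₀ (pow_ne_zero _ hm0)] at h4
        exact h4.symm
      have := natDegree_le_natDegree (minpoly.min (Subring.center D) m
        (monic_X_pow_sub_C (⟨_, h3⟩ : Subring.center D) hr) (by simp; exact sub_self _))
      rw [natDegree_X_pow_sub_C] at this
      exact absurd (Nat.mod_lt n hd0) (not_lt.2 this)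
    obtain ⟨t, ht⟩ := Nat.dvd_of_mod_eq_zero this
    rw [ht, Nat.cast_mul] at hn
    exact left_ne_zero_of_mul hn
  · refine eq_of_monic_of_dvd_of_natDegree_le hfm (monic_X_pow_sub_C _ hd0.ne')
      (minpoly.dvd _ m (by simp; exact sub_self _)) (by rw [natDegree_X_pow_sub_C]) |>.symm

/-- traces vanish on noncentral elements of the subgroup -/
lemma trace_zero {k : ℕ} {P : D → Prop} (H : Hyp k P) (τ : D →ₗ[Subring.center D] Subring.center D)
    (hτ : ∀ x y, τ (x * y) = τ (y * x)) (m : D) (hP : P m) :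
    (∀ z, m * z = z * m) ∨ τ m = 0 := by
  obtain ⟨hm, d, ν, hd, e⟩ := minpoly_binom H m hP
  have := trace_wedd τ.toAddMonoidHom hτ m hm
  rw [e, natDegree_X_pow_sub_C] at this
  have hd0 : d ≠ 0 := by rintro rfl; simp at hd
  by_cases hd1 : d = 1
  · left
    have h := minpoly.aeval (Subring.center D) m
    rw [e, hd1] at h
    simp only [pow_one, map_sub, aeval_X, aeval_C, sub_eq_zero] at h
    rw [h]
    exact Algebra.commutes ν
  · right
    rw [nextCoeff_of_natDegree_pos (by rw [natDegree_X_pow_sub_C]; omega), natDegree_X_pow_sub_C,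
      coeff_sub, coeff_X_pow, if_neg (by omega), coeff_C, if_neg (by omega)] at this
    simp only [sub_self, map_zero, LinearMap.toAddMonoidHom_coe, nsmul_eq_mul, zero_eq_neg,
      mul_eq_zero] at this
    exact this.resolve_left fun h => hd (by simpa using congrArg Subtype.val h)

end Pool.Agent.P.MP_3fd745_al
end

-- part Pool.Agent.P.MP_3fd745_al.TrC
section

/-! The curve argument and the theorem for division rings with a trace. -/

namespace Pool.Agent.P.MP_3fd745_al

open Polynomial

variable {D : Type} [DivisionRing D]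

lemma exists_dual_poly {F : Type} [Field F] [Algebra F D] (l : D →ₗ[F] F) (G : D[X]) :
    ∃ g : F[X], (∀ j, g.coeff j = l (G.coeff j)) ∧
      ∀ ε : F, g.eval ε = l (G.eval (algebraMap F D ε)) := by
  induction G using Polynomial.induction_on' with
  | add p q hp hq =>
    obtain ⟨p', h1, h2⟩ := hp
    obtain ⟨q', h3, h4⟩ := hq
    exact ⟨p' + q', fun j => by simp [h1, h3], fun ε => by simp [h2, h4]⟩
  | monomial i c =>
    refine ⟨monomial i (l c), fun j => ?_, fun ε => ?_⟩
    · simp only [coeff_monomial]; split_ifs <;> simp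
    · rw [eval_monomial, eval_monomial, ← map_pow, ← Algebra.commutes, ← Algebra.smul_def,
        map_smul, smul_eq_mul, mul_comm]

lemma eval_mul_cen {F : Type} [Field F] [Algebra F D] (ε : F) (p q : D[X]) :
    (p * q).eval (algebraMap F D ε) = p.eval (algebraMap F D ε) * q.eval (algebraMap F D ε) :=
  eval₂_mul_noncomm _ _ fun _ => (Algebra.commutes ε _).symm

lemma eval_map_fix (φ : D →+* D) (s : D) (hs : φ s = s) (p : D[X]) :
    (p.map φ).eval s = φ (p.eval s) := by
  nth_rewrite 1 [← hs]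
  rw [eval_map, eval₂_at_apply]

/-- polynomial representatives of the tower along the curve `1 + ε b` -/
lemma curve_rep {F : Type} [Field F] [Algebra F D] (φ : D →+* D)
    (hφ : ∀ s : F, φ (algebraMap F D s) = algebraMap F D s) (b : D) (n : ℕ) (hn : 0 < n) (β : F)
    (hb : b ^ n = algebraMap F D β) (i : ℕ) :
    ∃ (p q : D[X]) (c : F[X]), p * q = c.map (algebraMap F D) ∧ q * p = c.map (algebraMap F D) ∧
      c.coeff 0 = 1 ∧ p.coeff 0 = 1 ∧ q.coeff 0 = 1 ∧
      φ (p.coeff 1) - p.coeff 1 = (fun x => φ x - x)^[i + 1] b ∧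
      ∀ ε : F, c.eval ε ≠ 0 → 1 + b * algebraMap F D ε ≠ 0 ∧ ∃ s : F,
        p.eval (algebraMap F D ε) = s • tw φ (1 + b * algebraMap F D ε) i := by
  have hev : ∀ (c : F[X]) (ε : F), (c.map (algebraMap F D)).eval (algebraMap F D ε) =
      algebraMap F D (c.eval ε) := fun c ε => by rw [eval_map, eval₂_at_apply]
  induction i with
  | zero =>
    have e : (1 - (-(C b * X)) ^ n : D[X]) = (1 - C ((-1) ^ n * β) * X ^ n).map (algebraMap F D) := by
      rw [neg_pow, (commute_X (C b)).symm.mul_pow, ← C_pow, hb]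
      simp [mul_assoc]
    have e1 := mul_neg_geom_sum (-(C b * X) : D[X]) n
    have e2 := geom_sum_mul_neg (-(C b * X) : D[X]) n
    rw [e, sub_neg_eq_add] at e1 e2
    have h0 : (1 - C ((-1) ^ n * β) * X ^ n : F[X]).coeff 0 = 1 := by
      simp [coeff_X_pow, hn.ne]
    refine ⟨_, _, _, e1, e2, h0, by simp, ?_, by simp [coeff_one], fun ε hε => ⟨?_, 1, ?_⟩⟩
    · have := congrArg (coeff · 0) e1
      simp only [mul_coeff_zero, coeff_map, h0] at this
      simpa using this
    · have := congrArg (eval (algebraMap F D ε)) e1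
      rw [eval_mul_cen, hev] at this
      have h1 := left_ne_zero_of_mul (this ▸ (map_ne_zero (algebraMap F D)).2 hε)
      simpa using h1
    · simp [tw]
  | succ i ih =>
    obtain ⟨p, q, c, h1, h2, h3, h4, h5, h6, h7⟩ := ih
    have hc : (c.map (algebraMap F D)).map φ = c.map (algebraMap F D) := by
      rw [Polynomial.map_map]; congr 1; exact RingHom.ext hφ
    have hcc : ∀ g : D[X], c.map (algebraMap F D) * g = g * c.map (algebraMap F D) := fun g => by
      ext j
      rw [coeff_mul, coeff_mul, Finset.Nat.sum_antidiagonal_swap.symm]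
      exact Finset.sum_congr rfl fun x _ => by simp [Algebra.commutes]
    have h8 : p.coeff 1 + q.coeff 1 = algebraMap F D (c.coeff 1) := by
      have := congrArg (coeff · 1) h1
      simp only [coeff_map, coeff_mul, Finset.Nat.antidiagonal_succ]
        at this
      simpa [h4, h5, add_comm] using this
    refine ⟨p.map φ * q, p * q.map φ, c * c, ?_, ?_, by simp [h3], by simp [h4, h5],
      by simp [h4, h5], ?_, fun ε hε => ?_⟩
    · rw [mul_assoc, ← mul_assoc q, h2, hcc, ← mul_assoc, ← Polynomial.map_mul, h1, hc,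
        Polynomial.map_mul]
    · rw [mul_assoc, ← mul_assoc (q.map φ), ← Polynomial.map_mul, h2, hc, hcc, ← mul_assoc, h1,
        Polynomial.map_mul]
    · have e : (p.map φ * q).coeff 1 = φ (p.coeff 1) - p.coeff 1 + algebraMap F D (c.coeff 1) := by
        simp only [coeff_map, coeff_mul, Finset.Nat.antidiagonal_succ]
        simp [h4, h5, ← h8]
        abel
      rw [e, h6, Function.iterate_succ_apply' _ (i + 1), map_add, hφ]
      abel
    · rw [eval_mul] at hε
      have hε' := left_ne_zero_of_mul hε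
      obtain ⟨h9, s, hs⟩ := h7 ε hε'
      refine ⟨h9, c.eval ε, ?_⟩
      have e := congrArg (eval (algebraMap F D ε)) h1
      rw [eval_mul_cen, hev] at e
      have hp0 := left_ne_zero_of_mul (e ▸ (map_ne_zero (algebraMap F D)).2 hε')
      have hs0 : s ≠ 0 := by rintro rfl; exact hp0 (by simpa using hs)
      rw [eval_mul_cen, eval_map_fix φ _ (hφ ε), (eq_inv_mul_iff_mul_eq₀ hp0).2 e, hs, tw,
        ← mul_assoc, ← Algebra.commutes, ← Algebra.smul_def, Algebra.smul_def s, map_mul, hφ,
        Algebra.commutes s, Algebra.commutes s]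
      simp [mul_assoc, hs0]

lemma curve_comm {k : ℕ} {P : D → Prop} (H : Hyp k P) [Infinite (Subring.center D)]
    (τ : D →ₗ[Subring.center D] Subring.center D) (hτ : ∀ x y, τ (x * y) = τ (y * x))
    (hτ1 : τ 1 ≠ 0) (a : D) (ha : P a) (b : D) (n : ℕ) (hn : 0 < n)
    (hb : ∀ z, b ^ n * z = z * b ^ n) : a * b = b * a := by
  have ha0 := H.h0 a ha
  have hφ : ∀ s : Subring.center D, cj a ha0 (algebraMap _ D s) = algebraMap _ D s := fun s =>
    (cj_eq_iff _ _ _).2 (Algebra.commutes s a).symm
  obtain ⟨p, q, c, -, -, h3, h4, -, h6, h7⟩ := curve_rep (cj a ha0) hφ b n hn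
    ⟨b ^ n, Subring.mem_center_iff.2 fun z => (hb z).symm⟩ rfl k
  obtain ⟨g, hg1, hg2⟩ := exists_dual_poly τ p
  have hc0 : c ≠ 0 := by rintro rfl; simp at h3
  have hg0 : g ≠ 0 := by rintro rfl; exact hτ1 (by simpa [h4] using (hg1 0).symm)
  obtain ⟨m, hm, hmc⟩ := H.cop a ha
  rw [← cj_eq_iff a ha0]
  by_contra hne
  refine delta_ne (cj a ha0) m hm (fun x => by rw [cj_iter, cj_eq_iff]; exact hmc x) b hne k ?_
  rw [← h6]
  refine (Module.forall_dual_apply_eq_zero_iff (Subring.center D) _).1 fun l => ?_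
  obtain ⟨f, hf1, hf2⟩ := exists_dual_poly l (p.map (cj a ha0) - p)
  have : f * (c * g) = 0 := by
    refine Polynomial.funext fun ε => ?_
    rw [eval_mul, eval_mul, eval_zero, mul_eq_zero, mul_eq_zero]
    by_cases hε : c.eval ε = 0
    · exact Or.inr (Or.inl hε)
    obtain ⟨h9, s, hs⟩ := h7 ε hε
    rcases trace_zero H τ hτ _ (H.htow a ha0 ha _ h9) with h | h
    · left
      rw [hf2, eval_sub, eval_map_fix _ _ (hφ ε), hs, Algebra.smul_def, map_mul, hφ,
        (cj_eq_iff _ _ _).2 (h a).symm, sub_self, map_zero]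
    · right; right
      rw [hg2, hs, map_smul, h, smul_zero]
  have hf0 : f = 0 := (mul_eq_zero.1 this).resolve_right (mul_ne_zero hc0 hg0)
  simpa [hf0] using (hf1 1).symm

/-- an element commuting with all its conjugates is central -/
lemma central_of_conj (a : D) (h : ∀ x, x ≠ 0 → a * (x * a * x⁻¹) = x * a * x⁻¹ * a) (x : D) :
    a * x = x * a := by
  by_cases h0 : x = 0
  · simp [h0]
  by_cases h1 : x + 1 = 0
  · simp [eq_neg_of_add_eq_zero_left h1]
  have hb := h x h0
  have hc := h _ h1
  have e1 : x * a * x⁻¹ * x = x * a := inv_mul_cancel_right₀ h0 _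
  have e2 : (x + 1) * a * (x + 1)⁻¹ * (x + 1) = (x + 1) * a := inv_mul_cancel_right₀ h1 _
  generalize x * a * x⁻¹ = b at *
  generalize (x + 1) * a * (x + 1)⁻¹ = c at *
  have e3 : (c - b) * x = a - c := by
    rw [mul_add, add_mul, mul_one, one_mul, ← e1] at e2
    rw [sub_mul, sub_eq_sub_iff_add_eq_add, e2, add_comm]
  by_cases h2 : c - b = 0
  · rw [h2, zero_mul, eq_comm, sub_eq_zero] at e3
    rw [← e1, ← sub_eq_zero.1 h2, ← e3]
  · rw [(eq_inv_mul_iff_mul_eq₀ h2).2 e3]
    exact Commute.mul_right (Commute.sub_right hc hb).inv_right₀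
      (Commute.sub_right (Commute.refl a) hc)

theorem core_trace {k : ℕ} {P : D → Prop} (H : Hyp k P)
    (h1 : (1 : D) ∉ AddSubgroup.closure {z : D | ∃ x y, z = x * y - y * x}) (a : D) (ha : P a)
    (x : D) : a * x = x * a := by
  obtain ⟨n, hn, hc⟩ := H.hrad a ha
  rcases finite_or_infinite (Subring.center D) with hF | hF
  · obtain ⟨m, hm, h⟩ := isOfFinOrder_iff_pow_eq_one.1 (isOfFinOrder_of_finite (Units.mk0
      (⟨a ^ n, Subring.mem_center_iff.2 fun z => (hc z).symm⟩ : Subring.center D)
      (fun h => pow_ne_zero n (H.h0 a ha) (congrArg Subtype.val h))))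
    refine torsion_central H a ha (n * m) (Nat.mul_pos hn hm) ?_ x
    rw [pow_mul]
    simpa using congrArg (fun u : (Subring.center D)ˣ => ((u : Subring.center D) : D)) h
  · let S : Submodule (Subring.center D) D :=
      { (AddSubgroup.closure {z : D | ∃ x y, z = x * y - y * x}).toAddSubmonoid with
        smul_mem' := fun s z hz => by
          change _ ∈ AddSubgroup.closure _ at hz ⊢
          induction hz using AddSubgroup.closure_induction with
          | mem z hz =>
            obtain ⟨x, y, rfl⟩ := hz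
            exact AddSubgroup.subset_closure ⟨s • x, y, by simp [smul_sub]⟩
          | zero => simp
          | add x y _ _ hx hy => rw [smul_add]; exact add_mem hx hy
          | neg x _ hx => rw [smul_neg]; exact neg_mem hx }
    obtain ⟨τ, h2, h3⟩ := S.exists_dual_map_eq_bot_of_notMem h1 inferInstance
    have hτ : ∀ x y, τ (x * y) = τ (y * x) := fun x y => by
      rw [← sub_eq_zero, ← map_sub, ← Submodule.mem_bot (Subring.center D), ← h3]
      exact ⟨_, AddSubgroup.subset_closure ⟨x, y, rfl⟩, rfl⟩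
    refine central_of_conj a (fun x hx => curve_comm H τ hτ h2 a ha _ n hn fun z => ?_) x
    rw [← cj_apply x hx, ← map_pow, (cj_eq_iff _ _ _).2 (hc x).symm, hc]

lemma hyp_of (N : Subgroup Dˣ)
    (hN : ∃ (k : ℕ) (H : ℕ → Subgroup Dˣ), H 0 = N ∧ H k = ⊤ ∧
      ∀ i, i < k → H i ≤ H (i + 1) ∧ ((H i).subgroupOf (H (i + 1))).Normal)
    (hrad : ∀ x ∈ N, ∃ n : ℕ, 0 < n ∧ ((x : Dˣ) : D) ^ n ∈ Subring.center D) :
    ∃ k, Hyp k (fun x : D => ∃ g ∈ N, (g : D) = x) := by
  obtain ⟨k, H, h0, hk, hH⟩ := hN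
  refine ⟨k, ?_, ?_, ?_, ?_⟩
  · rintro x ⟨g, -, rfl⟩; exact g.ne_zero
  · rintro x n ⟨g, hg, rfl⟩; exact ⟨g ^ n, pow_mem hg n, by simp⟩
  · rintro x ⟨g, hg, rfl⟩
    obtain ⟨n, hn, h⟩ := hrad g hg
    exact ⟨n, hn, fun z => (Subring.mem_center_iff.1 h z).symm⟩
  · rintro a ha ⟨g, hg, rfl⟩ u hu
    exact tw_mem N k H h0 hk hH g hg u hu

theorem main_trace (N : Subgroup Dˣ)
    (hN : ∃ (k : ℕ) (H : ℕ → Subgroup Dˣ), H 0 = N ∧ H k = ⊤ ∧
      ∀ i, i < k → H i ≤ H (i + 1) ∧ ((H i).subgroupOf (H (i + 1))).Normal)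
    (hrad : ∀ x ∈ N, ∃ n : ℕ, 0 < n ∧ ((x : Dˣ) : D) ^ n ∈ Subring.center D)
    (E : Subfield D)
    (h1 : (1 : D) ∉ AddSubgroup.closure {z : D | ∃ x ∈ E, ∃ y ∈ E, z = x * y - y * x})
    (a : Dˣ) (ha : a ∈ N) (haE : (a : D) ∈ E) (y : D) (hy : y ∈ E) : a * y = y * a := by
  obtain ⟨k, H⟩ := hyp_of N hN hrad
  refine congrArg Subtype.val (core_trace (H.restrict E) (fun h => h1 ?_) ⟨a, haE⟩ ⟨a, ha, rfl⟩
    ⟨y, hy⟩)
  have := AddSubgroup.mem_map_of_mem E.subtype.toAddMonoidHom h
  rw [AddMonoidHom.map_closure] at this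
  refine AddSubgroup.closure_mono ?_ this
  rintro _ ⟨_, ⟨x, y, rfl⟩, rfl⟩
  exact ⟨x, x.2, y, y.2, rfl⟩

end Pool.Agent.P.MP_3fd745_al
end
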