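import Mathlib

/-! Definitions for the solvable quotient case. -/

namespace Pool.Agent.P.MP_3fd745_al.Sv

open scoped commutatorElement

variable {Γ V : Type} [Group Γ] [AddCommGroup V]

/-- odd torsion, and `p`-elements commute with elements of order prime to `p` -/
structure TON (Γ : Type) [Group Γ] : Prop where
  odd : ∀ g : Γ, ∃ n : ℕ, Odd n ∧ g ^ n = 1
  co : ∀ p : ℕ, p.Prime → ∀ (x y : Γ) (a n : ℕ), ¬ p ∣ n → x ^ p ^ a = 1 → y ^ n = 1 →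
    Commute x y

/-- locally finite -/
def LF (Γ : Type) [Group Γ] : Prop :=
  ∀ s : Set Γ, s.Finite → (Subgroup.closure s : Set Γ).Finite

/-- the two relations coming from `u = 1 + x` -/
def TR (ρ : Γ →* Module.End ℤ V) (x u : Γ) : Prop :=
  ∀ w, ∃ s, ρ s (ρ u w) + ρ x w = ρ s (ρ x w) + ρ u w ∧
    ρ s w + ρ x (ρ u w) = ρ s (ρ u w) + ρ x w

/-- every proper subgroup misses a triple satisfying the relations -/
def Tri (ρ : Γ →* Module.End ℤ V) : Prop :=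
  ∀ S : Subgroup Γ, S ≠ ⊤ → ∃ x u, Commute x u ∧ x ∉ S ∧ u ∉ S ∧ x⁻¹ * u ∉ S ∧ TR ρ x u

/-- no proper nonzero invariant subgroup -/
def Simp (ρ : Γ →* Module.End ℤ V) : Prop :=
  ∀ W : Submodule ℤ V, (∀ g, ∀ v ∈ W, ρ g v ∈ W) → W = ⊥ ∨ W = ⊤

/-- abelian normal subgroup -/
def AN (B : Subgroup Γ) : Prop := B.Normal ∧ ∀ a ∈ B, ∀ b ∈ B, Commute a b

/-- abelian normal subgroups are locally cyclic -/
def PW (Γ : Type) [Group Γ] : Prop :=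
  ∀ B : Subgroup Γ, AN B → ∀ b ∈ B, ∀ b' ∈ B, b' ^ orderOf b = 1 → b' ∈ Subgroup.zpowers b

/-- two vectors separated by operators of a family -/
def Far (C : Set (Module.End ℤ V)) (a b : V) : Prop :=
  ∀ f₁ ∈ C, ∀ f₂ ∈ C, ∃ α ∈ C, ∃ β ∈ C, α a = 0 ∧ β b = 0 ∧ Commute α f₁ ∧ Commute α f₂ ∧
    Commute β f₁ ∧ Commute β f₂ ∧ ∀ v, α v = 0 → β v = 0 → v = 0

/-- an extraspecial normal subgroup -/
structure Ext (Ω : Subgroup Γ) (z : Γ) (q : ℕ) : Prop where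
  prime : q.Prime
  odd : Odd q
  normal : Ω.Normal
  zmem : z ∈ Ω
  zord : orderOf z = q
  zcen : ∀ g, Commute z g
  exp : ∀ e ∈ Ω, e ^ q = 1
  comm : ∀ e ∈ Ω, ∀ f ∈ Ω, ⁅e, f⁆ ∈ Subgroup.zpowers z
  an : ∀ A : Subgroup Γ, AN A → z ∈ A → A ≤ Ω → A ≤ Subgroup.zpowers z
  qp : ∀ t : Γ, ∃ a : ℕ, ∀ e ∈ Ω, Commute (t ^ q ^ a) e
  nonab : ∃ e ∈ Ω, ∃ f ∈ Ω, ¬ Commute e f

/-- the pairing of `J` with its conjugate has large rank -/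
def Good (Ω : Subgroup Γ) (J : Set Γ) (t : Γ) : Prop :=
  ∀ f₁ ∈ Ω, ∀ f₂ ∈ Ω, ∃ e ∈ Subgroup.closure J, ∃ e' ∈ Subgroup.closure J,
    Commute e f₁ ∧ Commute e f₂ ∧ Commute (t * e' * t⁻¹) f₁ ∧ Commute (t * e' * t⁻¹) f₂ ∧
      ¬ Commute e (t * e' * t⁻¹)

end Pool.Agent.P.MP_3fd745_al.Sv
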