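import Pool.Agent.K.MP_3fd745_al.C3
import Pool.Agent.K.MP_3fd745_al.C2

-- part Pool.Agent.P.MP_3fd745_al.Sv.Nak
section

namespace Pool.Agent.P.MP_3fd745_al.Sv

open scoped commutatorElement

variable {Γ V : Type} [Group Γ] [AddCommGroup V]

theorem nak (hLF : LF Γ) (ρ : Γ →* Module.End ℤ V) (R : Type) [CommRing R]
    (φ : R →+* Module.End ℤ V) (I : Ideal R) (I₀ : Set R)
    (h : ∀ g, ∀ i ∈ I₀, ∃ i' ∈ I, ∀ x, ρ g (φ i x) = φ i' (ρ g x)) (v : V)
    (hv : v ∈ Submodule.span ℤ {y | ∃ i ∈ I₀, ∃ g, y = φ i (ρ g v)}) :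
    ∃ r, r - 1 ∈ I ∧ φ r v = 0 := by
  classical
  obtain ⟨s, hs⟩ : ∃ s : Finset Γ,
      v ∈ Submodule.span ℤ {y | ∃ i ∈ I₀, ∃ g ∈ s, y = φ i (ρ g v)} := by
    have key : ∀ w ∈ Submodule.span ℤ {y | ∃ i ∈ I₀, ∃ g, y = φ i (ρ g v)}, ∃ s : Finset Γ,
        w ∈ Submodule.span ℤ {y | ∃ i ∈ I₀, ∃ g ∈ s, y = φ i (ρ g v)} := by
      intro w hw
      induction hw using Submodule.span_induction with
      | mem x hx =>
        obtain ⟨i, hi, g, e⟩ := hx
        exact ⟨{g}, Submodule.subset_span ⟨i, hi, g, Finset.mem_singleton_self g, e⟩⟩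
      | zero => exact ⟨∅, zero_mem _⟩
      | add x y _ _ hx hy =>
        obtain ⟨s, hs⟩ := hx
        obtain ⟨t, ht⟩ := hy
        refine ⟨s ∪ t, add_mem (Submodule.span_mono ?_ hs) (Submodule.span_mono ?_ ht)⟩
        · rintro _ ⟨i, hi, g, hg, e⟩
          exact ⟨i, hi, g, Finset.mem_union_left _ hg, e⟩
        · rintro _ ⟨i, hi, g, hg, e⟩
          exact ⟨i, hi, g, Finset.mem_union_right _ hg, e⟩
      | smul a x _ hx => exact hx.imp fun s hs => Submodule.smul_mem _ a hs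
    exact key v hv
  have hK : (Subgroup.closure (s : Set Γ) : Set Γ).Finite := hLF s s.finite_toSet
  let _ : Module R V := Module.compHom V φ
  have hsm : ∀ (r : R) (x : V), r • x = φ r x := fun _ _ => rfl
  let L : Submodule R V :=
    Submodule.span R ((fun k => ρ k v) '' (Subgroup.closure (s : Set Γ) : Set Γ))
  have hle : L ≤ I • L := by
    refine Submodule.span_le.2 ?_
    rintro _ ⟨k, hk, rfl⟩
    have key : ∀ w ∈ Submodule.span ℤ {y | ∃ i ∈ I₀, ∃ g ∈ s, y = φ i (ρ g v)},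
        ρ k w ∈ I • L := by
      intro w hw
      induction hw using Submodule.span_induction with
      | mem x hx =>
        obtain ⟨i, hi, g, hg, rfl⟩ := hx
        obtain ⟨i', hi', e⟩ := h k i hi
        rw [e, ← hsm, ← Module.End.mul_apply, ← map_mul]
        exact Submodule.smul_mem_smul hi' (Submodule.subset_span
          ⟨k * g, Subgroup.mul_mem _ hk (Subgroup.subset_closure hg), rfl⟩)
      | zero => rw [map_zero]; exact zero_mem _
      | add x y _ _ hx hy => rw [map_add]; exact add_mem hx hy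
      | smul a x _ hx => rw [map_zsmul]; exact zsmul_mem hx a
    exact key v hs
  obtain ⟨r, hr, h0⟩ := Submodule.exists_sub_one_mem_and_smul_eq_zero_of_fg_of_le_smul I L
    (Submodule.fg_span (hK.image _)) hle
  exact ⟨r, hr, h0 v (Submodule.subset_span ⟨1, Subgroup.one_mem _, by simp⟩)⟩

end Pool.Agent.P.MP_3fd745_al.Sv
end

-- part Pool.Agent.P.MP_3fd745_al.Sv.FarT
section

/-! Three decompositions into pairwise far vectors. -/

namespace Pool.Agent.P.MP_3fd745_al.Sv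

variable {Γ V : Type} [Group Γ] [AddCommGroup V] {C : Set (Module.End ℤ V)}

lemma rho_mul (ρ : Γ →* Module.End ℤ V) (g h : Γ) (v : V) : ρ (g * h) v = ρ g (ρ h v) := by
  rw [map_mul]; rfl

lemma rho_inv (ρ : Γ →* Module.End ℤ V) (g : Γ) (v : V) : ρ g⁻¹ (ρ g v) = v := by
  rw [← rho_mul]; simp

lemma rho_inv' (ρ : Γ →* Module.End ℤ V) (g : Γ) (v : V) : ρ g (ρ g⁻¹ v) = v := by
  rw [← rho_mul]; simp

lemma Far.symm {a b : V} (h : Far C a b) : Far C b a := fun f₁ h₁ f₂ h₂ => by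
  obtain ⟨α, hα, β, hβ, e1, e2, c1, c2, c3, c4, h⟩ := h f₁ h₁ f₂ h₂
  exact ⟨β, hβ, α, hα, e2, e1, c3, c4, c1, c2, fun v x y => h v y x⟩

lemma Far.conj (ρ : Γ →* Module.End ℤ V) (hconj : ∀ g, ∀ α ∈ C, ρ g * α * ρ g⁻¹ ∈ C) (g : Γ)
    {a b : V} (h : Far C a b) : Far C (ρ g a) (ρ g b) := by
  intro f₁ h₁ f₂ h₂
  obtain ⟨α, hα, β, hβ, e1, e2, c1, c2, c3, c4, h⟩ := h _ (hconj g⁻¹ f₁ h₁) _ (hconj g⁻¹ f₂ h₂)
  have cc : ∀ {α f : Module.End ℤ V}, Commute α (ρ g⁻¹ * f * ρ g⁻¹⁻¹) →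
      Commute (ρ g * α * ρ g⁻¹) f := fun {α f} h => by
    ext v
    have := congrArg (ρ g) (LinearMap.congr_fun h (ρ g⁻¹ v))
    simpa [rho_inv'] using this
  refine ⟨_, hconj g α hα, _, hconj g β hβ, by simp [rho_inv, e1], by simp [rho_inv, e2],
    cc c1, cc c2, cc c3, cc c4, fun v h1 h2 => ?_⟩
  have h3 := h (ρ g⁻¹ v) (by simpa [rho_inv] using congrArg (ρ g⁻¹) h1)
    (by simpa [rho_inv] using congrArg (ρ g⁻¹) h2)
  simpa [rho_inv'] using congrArg (ρ g) h3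

lemma comm_app {α β : Module.End ℤ V} (h : Commute α β) (v : V) : α (β v) = β (α v) :=
  LinearMap.congr_fun h v

lemma tri_two {y a a' b b' : V} (e : y = a + b) (e' : y = a' + b') (h : Far C b b')
    {α α' : Module.End ℤ V} (hα : α ∈ C) (hα' : α' ∈ C) (h1 : α a = 0) (h2 : α' a' = 0)
    (hc : Commute α α') : α' (α y) = 0 := by
  obtain ⟨β, -, β', -, e1, e2, c1, c2, c3, c4, h⟩ := h α hα α' hα'
  refine h _ ?_ ?_
  · rw [e, map_add, h1, zero_add, comm_app c2, comm_app c1, e1, map_zero, map_zero]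
  · rw [← comm_app hc, e', map_add, h2, zero_add, comm_app c3, comm_app c4, e2, map_zero, map_zero]

lemma tri_one {y a1 a2 a3 b1 b2 b3 : V} (e1 : y = a1 + b1) (e2 : y = a2 + b2) (e3 : y = a3 + b3)
    (ha : Far C a2 a3) (h2 : Far C b1 b2) (h3 : Far C b1 b3) {α : Module.End ℤ V} (hα : α ∈ C)
    (h1 : α a1 = 0) : α y = 0 := by
  obtain ⟨β, hβ, β', hβ', x1, x2, c1, -, c3, -, h⟩ := ha α hα α hα
  exact h _ (tri_two e1 e2 h2 hα hβ h1 x1 c1.symm) (tri_two e1 e3 h3 hα hβ' h1 x2 c3.symm)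

theorem far_tri (ρ : Γ →* Module.End ℤ V) (hodd : ∀ g : Γ, ∃ n : ℕ, Odd n ∧ g ^ n = 1)
    (C : Set (Module.End ℤ V)) (hC : C.Nonempty) (hconj : ∀ g, ∀ α ∈ C, ρ g * α * ρ g⁻¹ ∈ C)
    (x u : Γ) (hxu : Commute x u) (hT : TR ρ x u) (w : V) (h1 : Far C w (ρ x w))
    (h2 : Far C w (ρ u w)) (h3 : Far C w (ρ (x⁻¹ * u) w)) : w = 0 := by
  obtain ⟨s, e1, e2⟩ := hT w
  obtain ⟨f, hf⟩ := hC
  have h4 : Far C (ρ x w) (ρ u w) := by simpa [rho_inv'] using h3.conj ρ hconj x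
  have b12 := (h2.conj ρ hconj x).symm
  have b13 : Far C (ρ x (ρ u w)) (ρ u w) := by
    have := (h1.conj ρ hconj u).symm
    rwa [← rho_mul, ← hxu.eq, rho_mul] at this
  have a23 := (h4.conj ρ hconj s).symm
  have hy : ρ s (ρ u w) + ρ x w = 0 := by
    obtain ⟨α, hα, β, hβ, x1, x2, -, -, -, -, h⟩ := h2.conj ρ hconj s f hf f hf
    exact h _ (tri_one e2.symm rfl e1 a23 b12 b13 hα x1)
      (tri_one rfl e2.symm e1 (h1.conj ρ hconj s) b12.symm h4 hβ x2)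
  have y1 := eq_neg_of_add_eq_zero_left hy
  have y2 := eq_neg_of_add_eq_zero_left (e1.symm.trans hy)
  have y3 : ∀ k : ℕ, ρ (s ^ (2 * k)) (ρ x w) = ρ x w := fun k => by
    induction k with
    | zero => simp
    | succ k ih =>
      rw [mul_add, pow_add, rho_mul, mul_one, sq, rho_mul, y2, map_neg, y1, neg_neg, ih]
  obtain ⟨n, ⟨k, rfl⟩, hn⟩ := hodd s
  have y4 : ρ s (ρ x w) = ρ x w := by
    rw [← y3 k, ← rho_mul, ← pow_succ', hn, y3 k]; simp
  obtain ⟨α, -, β, -, x1, x2, -, -, -, -, h⟩ := h4 f hf f hf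
  have := h _ x1 (by rw [← y4, y2, map_neg, x2, neg_zero])
  rw [← rho_inv ρ x w, this, map_zero]

end Pool.Agent.P.MP_3fd745_al.Sv
end

-- part Pool.Agent.P.MP_3fd745_al.Sv.Cop
section

namespace Pool.Agent.P.MP_3fd745_al.Sv

open scoped commutatorElement

variable {Γ V : Type} [Group Γ] [AddCommGroup V]

lemma cop_conj (ρ : Γ →* Module.End ℤ V) (g a : Γ) (x : V) :
    ρ g ((ρ a - 1) x) = (ρ (g * a * g⁻¹) - 1) (ρ g x) := by
  simp only [LinearMap.sub_apply, Module.End.one_apply, map_sub, rho_mul, rho_inv]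

theorem an_coprime (hLF : LF Γ) (hfin : ∀ g : Γ, IsOfFinOrder g) (ρ : Γ →* Module.End ℤ V)
    (hinj : Function.Injective ρ) (hS : Simp ρ) (l : ℕ) (hl : l.Prime) (hlV : ∀ v : V, l • v = 0)
    (B : Subgroup Γ) (hB : AN B) (b : Γ) (hb : b ∈ B) : ¬ l ∣ orderOf b := by
  intro hd
  obtain ⟨A, hA⟩ : ∃ A : Set Γ, ∀ a, a ∈ A ↔ a ∈ B ∧ a ^ l = 1 := ⟨{a | _}, fun _ => Iff.rfl⟩
  have hcj : ∀ g, ∀ a ∈ A, g * a * g⁻¹ ∈ A := fun g a ha =>
    (hA _).2 ⟨hB.1.conj_mem a ((hA a).1 ha).1 g, by rw [conj_pow, ((hA a).1 ha).2]; simp⟩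
  have ho := (hfin b).orderOf_pos
  have h0 : b ^ (orderOf b / l) ∈ A := (hA _).2 ⟨B.pow_mem hb _, by
    rw [← pow_mul, Nat.div_mul_cancel hd, pow_orderOf_eq_one]⟩
  have h1 : b ^ (orderOf b / l) ≠ 1 := pow_ne_one_of_lt_orderOf
    (Nat.div_pos (Nat.le_of_dvd ho hd) hl.pos).ne' (Nat.div_lt_self ho hl.one_lt)
  generalize b ^ (orderOf b / l) = a₀ at h0 h1
  obtain ⟨v, hv⟩ : ∃ v : V, v ≠ 0 := by
    by_contra hn
    push Not at hn
    exact h1 (hinj (LinearMap.ext fun x => (hn _).trans (hn _).symm))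
  have : Nontrivial (Module.End ℤ V) := ⟨1, 0, fun e => hv (LinearMap.congr_fun e v)⟩
  have : Fact l.Prime := ⟨hl⟩
  have : CharP (Module.End ℤ V) l := (CharP.charP_iff_prime_eq_zero hl).2
    (LinearMap.ext fun x => by rw [Module.End.natCast_apply, hlV, LinearMap.zero_apply])
  have hnil : ∀ a ∈ A, (ρ a - 1) ^ l = 0 := fun a ha => by
    rw [sub_pow_char_of_commute l (Commute.one_right _), ← map_pow, ((hA a).1 ha).2, map_one,
      one_pow, sub_self]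
  letI : CommRing (Subring.closure (ρ '' A)) := Subring.closureCommRingOfComm (by
    rintro _ ⟨a, ha, rfl⟩ _ ⟨a', ha', rfl⟩
    exact ((hB.2 a ((hA a).1 ha).1 a' ((hA a').1 ha').1).map ρ).eq)
  have hm : ∀ a ∈ A, ρ a - 1 ∈ Subring.closure (ρ '' A) := fun a ha =>
    sub_mem (Subring.subset_closure ⟨a, ha, rfl⟩) (one_mem _)
  have hn := nak hLF ρ (Subring.closure (ρ '' A)) (Subring.closure (ρ '' A)).subtype
    (nilradical _) {i | ∃ a ∈ A, i.1 = ρ a - 1} (by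
      rintro g i ⟨a, ha, e⟩
      refine ⟨⟨_, hm _ (hcj g a ha)⟩, ⟨l, Subtype.ext (hnil _ (hcj g a ha))⟩, fun x => ?_⟩
      change ρ g (i.1 x) = _
      rw [e]
      exact cop_conj ρ g a x) v
  rcases hS (Submodule.span ℤ {y | ∃ i ∈ {i : Subring.closure (ρ '' A) | ∃ a ∈ A, i.1 = ρ a - 1},
      ∃ g, y = (Subring.closure (ρ '' A)).subtype i (ρ g v)}) (fun g w hw => by
    refine (Submodule.map_span_le (ρ g) _ _).2 ?_ ⟨w, hw, rfl⟩
    rintro _ ⟨i, ⟨a, ha, e⟩, h, rfl⟩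
    refine Submodule.subset_span ⟨⟨_, hm _ (hcj g a ha)⟩, ⟨_, hcj g a ha, rfl⟩, g * h, ?_⟩
    change ρ g (i.1 _) = _
    rw [e, rho_mul]
    exact cop_conj ρ g a _) with hW | hW
  · have hv' : v ∈ ⨅ a ∈ A, LinearMap.ker (ρ a - 1) := by
      simp only [Submodule.mem_iInf, LinearMap.mem_ker]
      intro a ha
      refine (Submodule.span_eq_bot.1 hW) _ ⟨⟨_, hm a ha⟩, ⟨a, ha, rfl⟩, 1, ?_⟩
      rw [map_one]
      rfl
    rcases hS (⨅ a ∈ A, LinearMap.ker (ρ a - 1)) (fun g w hw => by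
      simp only [Submodule.mem_iInf, LinearMap.mem_ker] at hw ⊢
      intro a ha
      have e := cop_conj ρ g (g⁻¹ * a * g⁻¹⁻¹) w
      rw [hw _ (hcj g⁻¹ a ha), map_zero, show g * (g⁻¹ * a * g⁻¹⁻¹) * g⁻¹ = a by group] at e
      exact e.symm) with hW' | hW'
    · rw [hW'] at hv'
      exact hv hv'
    · refine h1 (hinj ?_)
      rw [map_one, ← sub_eq_zero]
      refine LinearMap.ext fun x => ?_
      have hx : x ∈ ⨅ a ∈ A, LinearMap.ker (ρ a - 1) := hW' ▸ Submodule.mem_top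
      simp only [Submodule.mem_iInf, LinearMap.mem_ker] at hx
      exact hx a₀ h0
  · obtain ⟨r, hr, hr0⟩ := hn (hW ▸ Submodule.mem_top)
    have hu : IsUnit r := by
      have := (mem_nilradical.1 hr).isUnit_add_one
      rwa [sub_add_cancel] at this
    have hu' := (Module.End.isUnit_iff _).1 (hu.map (Subring.closure (ρ '' A)).subtype)
    exact hv (hu'.1 (hr0.trans (map_zero _).symm))

end Pool.Agent.P.MP_3fd745_al.Sv
end

-- part Pool.Agent.P.MP_3fd745_al.Sv.CaseOne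
section

namespace Pool.Agent.P.MP_3fd745_al.Sv

open scoped commutatorElement

variable {Γ V : Type} [Group Γ] [AddCommGroup V]

/-- the norm operator -/
noncomputable def caseoneN (ρ : Γ →* Module.End ℤ V) (c : Γ) : Module.End ℤ V :=
  ∑ i ∈ Finset.range (orderOf c), ρ c ^ i

lemma caseone_conjN (ρ : Γ →* Module.End ℤ V) (g c : Γ) :
    ρ g * caseoneN ρ c * ρ g⁻¹ = caseoneN ρ (g * c * g⁻¹) := by
  have h : orderOf (g * c * g⁻¹) = orderOf c :=
    ((show SemiconjBy g c (g * c * g⁻¹) by simp [SemiconjBy]).orderOf_eq g).symm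
  rw [caseoneN, caseoneN, h, Finset.mul_sum, Finset.sum_mul]
  exact Finset.sum_congr rfl fun i _ => by
    rw [← map_pow, ← map_pow, conj_pow, map_mul, map_mul]

lemma caseone_conj (ρ : Γ →* Module.End ℤ V) (g c : Γ) :
    ρ g * (ρ c - 1) * ρ g⁻¹ = ρ (g * c * g⁻¹) - 1 := by
  rw [mul_sub, sub_mul, mul_one, ← map_mul ρ g g⁻¹, mul_inv_cancel, map_one, map_mul, map_mul]

lemma caseone_kill (ρ : Γ →* Module.End ℤ V) (c : Γ) (v : V) :
    caseoneN ρ c ((ρ c - 1) v) = 0 ∧ (ρ c - 1) (caseoneN ρ c v) = 0 := by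
  have h : ρ c ^ orderOf c - 1 = 0 := by rw [← map_pow, pow_orderOf_eq_one, map_one, sub_self]
  exact ⟨LinearMap.congr_fun ((geom_sum_mul _ _).trans h) v,
    LinearMap.congr_fun ((mul_geom_sum _ _).trans h) v⟩

lemma caseone_zero (ρ : Γ →* Module.End ℤ V) {l : ℕ} (hl : l.Prime) (hlV : ∀ v : V, l • v = 0)
    {c : Γ} (hc : ¬ l ∣ orderOf c) {v : V} (h1 : (ρ c - 1) v = 0) (h2 : caseoneN ρ c v = 0) :
    v = 0 := by
  have h3 : ∀ i : ℕ, (ρ c ^ i) v = v := fun i => by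
    induction i with
    | zero => rfl
    | succ i ih => rw [pow_succ, Module.End.mul_apply, sub_eq_zero.1 h1]; exact ih
  rw [caseoneN, LinearMap.sum_apply, Finset.sum_congr rfl fun i _ => h3 i, Finset.sum_const,
    Finset.card_range] at h2
  exact AddMonoid.addOrderOf_eq_one_iff.1 (Nat.eq_one_of_dvd_coprimes
    ((Nat.Prime.coprime_iff_not_dvd hl).2 hc) (addOrderOf_dvd_of_nsmul_eq_zero (hlV v))
    (addOrderOf_dvd_of_nsmul_eq_zero h2))

theorem case_one (ρ : Γ →* Module.End ℤ V) (hodd : ∀ g : Γ, ∃ n : ℕ, Odd n ∧ g ^ n = 1)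
    (hinj : Function.Injective ρ) (hS : Simp ρ) (l : ℕ) (hl : l.Prime) (hlV : ∀ v : V, l • v = 0)
    (B : Subgroup Γ) (hB : AN B) (hcop : ∀ b ∈ B, ¬ l ∣ orderOf b) (b : Γ) (hb : b ∈ B)
    (hb1 : b ≠ 1) (v : V) (hv : v ≠ 0) (hbv : ρ b v = v) : ¬ Tri ρ := by
  classical
  intro hT
  let C : Set (Module.End ℤ V) := {α | ∃ c ∈ B, α = ρ c - 1 ∨ α = caseoneN ρ c}
  have m1 : ∀ c ∈ B, ρ c - 1 ∈ C := fun c hc => ⟨c, hc, Or.inl rfl⟩
  have m2 : ∀ c ∈ B, caseoneN ρ c ∈ C := fun c hc => ⟨c, hc, Or.inr rfl⟩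
  have k1 : ∀ α ∈ C, ∀ f : Module.End ℤ V, (∀ c ∈ B, Commute (ρ c) f) → Commute α f := by
    rintro _ ⟨c, hc, rfl | rfl⟩ f hf
    · exact (hf c hc).sub_left (Commute.one_left f)
    · exact Commute.sum_left _ _ _ fun i _ => (hf c hc).pow_left i
  have hcom : ∀ α ∈ C, ∀ β ∈ C, Commute α β := fun α hα β hβ => k1 α hα β fun c hc =>
    (k1 β hβ _ fun c' hc' => (hB.2 c' hc' c hc).map ρ).symm
  have hconj : ∀ g, ∀ α ∈ C, ρ g * α * ρ g⁻¹ ∈ C := by
    rintro g _ ⟨c, hc, rfl | rfl⟩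
    · exact caseone_conj ρ g c ▸ m1 _ (hB.1.conj_mem c hc g)
    · exact caseone_conjN ρ g c ▸ m2 _ (hB.1.conj_mem c hc g)
  have h0 : (ρ b - 1) v = 0 := sub_eq_zero.2 hbv
  obtain ⟨g, w, w1, w2⟩ : ∃ g w, (ρ b - 1) w = 0 ∧ (ρ (g * b * g⁻¹) - 1) w ≠ 0 := by
    by_contra hc
    push Not at hc
    rcases hS (LinearMap.ker (ρ b - 1)) (fun g w hw => by
      have := congrArg (ρ g) (hc g⁻¹ w hw)
      rw [← caseone_conj] at this
      simpa [rho_inv'] using this) with h | h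
    · exact hv ((Submodule.eq_bot_iff _).1 h v h0)
    · exact hb1 (hinj ((sub_eq_zero.1 (LinearMap.ker_eq_top.1 h)).trans ρ.map_one.symm))
  have hb' := hB.1.conj_mem b hb g
  let Z : Finset B → Set V := fun T => {v | (v ≠ 0 ∧ (ρ b - 1) v = 0 ∧
    caseoneN ρ (g * b * g⁻¹) v = 0) ∧ ∀ c ∈ T, (ρ c - 1) v = 0 ∨ caseoneN ρ c v = 0}
  have hZ : ∀ T, (Z T).Nonempty := fun T => by
    induction T using Finset.induction_on with
    | empty =>
      exact ⟨_, ⟨w2, by rw [comm_app (hcom _ (m1 _ hb) _ (m1 _ hb')), w1, map_zero],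
        (caseone_kill ρ _ w).1⟩, by simp⟩
    | insert c T _ ih =>
      obtain ⟨y, ⟨y0, y1, y2⟩, y3⟩ := ih
      by_cases hy : caseoneN ρ c y = 0
      · exact ⟨y, ⟨y0, y1, y2⟩, Finset.forall_mem_insert _ _ _ |>.2 ⟨Or.inr hy, y3⟩⟩
      · have k : ∀ α ∈ C, α y = 0 → α (caseoneN ρ c y) = 0 := fun α hα h => by
          rw [comm_app (hcom _ hα _ (m2 _ c.2)), h, map_zero]
        exact ⟨_, ⟨hy, k _ (m1 _ hb) y1, k _ (m2 _ hb') y2⟩, Finset.forall_mem_insert _ _ _ |>.2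
          ⟨Or.inl (caseone_kill ρ _ y).2, fun d hd =>
            (y3 d hd).imp (k _ (m1 _ d.2)) (k _ (m2 _ d.2))⟩⟩
  have : (⨅ T, Filter.principal (Z T)).NeBot := Filter.iInf_neBot_of_directed'
    (Antitone.directed_ge fun T T' h => Filter.principal_mono.2 fun y hy =>
      ⟨hy.1, fun c hc => hy.2 c (Finset.mem_of_subset h hc)⟩) fun T => Filter.principal_neBot_iff.2 (hZ T)
  let U := Ultrafilter.of (⨅ T, Filter.principal (Z T))
  have hU : ∀ T, ∀ᶠ y in (U : Filter V), y ∈ Z T := fun T =>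
    Filter.le_principal_iff.1 ((Ultrafilter.of_le _).trans (iInf_le _ T))
  let P : Γ → Prop := fun c => ∀ᶠ y in (U : Filter V), (ρ c - 1) y = 0
  have hP : ∀ c ∈ B, ¬ P c → ∀ᶠ y in (U : Filter V), caseoneN ρ c y = 0 := fun c hc h => by
    filter_upwards [Ultrafilter.eventually_not.2 h, hU {⟨c, hc⟩}] with y y1 y2
    exact (y2.2 _ (Finset.mem_singleton_self _)).resolve_left y1
  let S : Subgroup Γ :=
    { carrier := {t | ∀ c ∈ B, P c ↔ P (t * c * t⁻¹)}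
      one_mem' := fun c _ => by simp
      mul_mem' := fun {s t} hs ht c hc => by
        rw [ht c hc, hs _ (hB.1.conj_mem c hc t)]
        simp [mul_assoc]
      inv_mem' := fun {t} ht c hc => by
        rw [ht _ (hB.1.conj_mem c hc t⁻¹)]
        simp [mul_assoc] }
  have hg : g ∉ S := fun h => by
    obtain ⟨y, y1, y2⟩ := (((h b hb).1 ((hU ∅).mono fun y hy => hy.1.2.1)).and (hU ∅)).exists
    exact y2.1.1 (caseone_zero ρ hl hlV (hcop _ hb') y1 y2.1.2.2)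
  have far : ∀ t, t ∉ S → ∀ᶠ y in (U : Filter V), Far C y (ρ t y) := fun t ht => by
    obtain ⟨c, hc, hn⟩ : ∃ c ∈ B, ¬ (P c ↔ P (t * c * t⁻¹)) := by
      by_contra h
      exact ht fun c hc => by_contra fun h' => h ⟨c, hc, h'⟩
    have hc' := hB.1.conj_mem c hc t
    have mk : ∀ α ∈ C, ∀ β ∈ C, (∀ v, α v = 0 → β v = 0 → v = 0) → ∀ y, α y = 0 →
        β (ρ t y) = 0 → Far C y (ρ t y) := fun α hα β hβ h y a a' f₁ h₁ f₂ h₂ =>
      ⟨α, hα, β, hβ, a, a', hcom _ hα _ h₁, hcom _ hα _ h₂, hcom _ hβ _ h₁, hcom _ hβ _ h₂, h⟩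
    have cj : ∀ (α : Module.End ℤ V) y, α y = 0 → (ρ t * α * ρ t⁻¹) (ρ t y) = 0 := fun α y h => by
      simp [h]
    by_cases h : P c
    · filter_upwards [h, hP _ hc' fun h' => hn ⟨fun _ => h', fun _ => h⟩] with y y1 y2
      exact mk _ (m2 _ hc') _ (m1 _ hc') (fun v a a' => caseone_zero ρ hl hlV (hcop _ hc') a' a)
        y y2 (caseone_conj ρ t c ▸ cj _ y y1)
    · have h' : P (t * c * t⁻¹) := by_contra fun h' => hn ⟨fun a => absurd a h, fun a => absurd a h'⟩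
      filter_upwards [h', hP _ hc h] with y y1 y2
      exact mk _ (m1 _ hc') _ (m2 _ hc') (fun v a a' => caseone_zero ρ hl hlV (hcop _ hc') a a')
        y y1 (caseone_conjN ρ t c ▸ cj _ y y2)
  obtain ⟨x, u, hxu, hx, hu, hxu', hR⟩ := hT S fun h => hg (h ▸ Subgroup.mem_top g)
  obtain ⟨y, y0, y1, y2, y3⟩ :=
    ((hU ∅).and ((far x hx).and ((far u hu).and (far _ hxu')))).exists
  exact y0.1.1 (far_tri ρ hodd C ⟨_, m1 b hb⟩ hconj x u hxu hR y y1 y2 y3)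

end Pool.Agent.P.MP_3fd745_al.Sv
end

-- part Pool.Agent.P.MP_3fd745_al.Sv.PowW
section

namespace Pool.Agent.P.MP_3fd745_al.Sv

open scoped commutatorElement

variable {Γ V : Type} [Group Γ] [AddCommGroup V]

theorem poww_ring {G R : Type} [Group G] [CommRing R] [Nontrivial R] (χ : G →* R)
    (l : ℕ) (hl : l.Prime) (hlR : (l : R) = 0) (hfin : ∀ g : G, IsOfFinOrder g)
    (hcop : ∀ c : G, ¬ l ∣ orderOf c)
    (hN : ∀ c : G, c ≠ 1 → ∑ i ∈ Finset.range (orderOf c), χ c ^ i = 0)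
    (b b' : G) (h : b' ^ orderOf b = 1) : ∃ i : ℕ, b ^ i = b' := by
  obtain ⟨m, hm⟩ := Ideal.exists_maximal R
  have : m.IsPrime := hm.isPrime
  have : IsDomain (R ⧸ m) := Ideal.Quotient.isDomain m
  let ψ : G →* R ⧸ m := (Ideal.Quotient.mk m).toMonoidHom.comp χ
  have hψ : ∀ c, ψ c = Ideal.Quotient.mk m (χ c) := fun c => rfl
  have hinj : Function.Injective ψ := by
    rw [injective_iff_map_eq_one]
    intro c hc
    by_contra hne
    have h1 := congrArg (Ideal.Quotient.mk m) (hN c hne)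
    rw [map_sum, map_zero] at h1
    simp only [map_pow, ← hψ, hc, one_pow, Finset.sum_const, Finset.card_range, nsmul_eq_mul,
      mul_one] at h1
    have h2 : ((l : ℕ) : R ⧸ m) = 0 := by
      have := congrArg (Ideal.Quotient.mk m) hlR
      rwa [map_natCast, map_zero] at this
    have hco : Nat.Coprime l (orderOf c) := (Nat.Prime.coprime_iff_not_dvd hl).2 (hcop c)
    have h3 : IsCoprime ((l : ℕ) : R ⧸ m) ((orderOf c : ℕ) : R ⧸ m) := hco.cast
    rw [h1, h2] at h3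
    exact not_isCoprime_zero_zero h3
  have : NeZero (orderOf b) := ⟨(hfin b).orderOf_pos.ne'⟩
  have hp : IsPrimitiveRoot (ψ b) (orderOf b) := by
    rw [← orderOf_injective ψ hinj b]
    exact IsPrimitiveRoot.orderOf _
  obtain ⟨i, -, hi⟩ := hp.eq_pow_of_pow_eq_one (ξ := ψ b') (by rw [← map_pow, h, map_one])
  exact ⟨i, hinj (by rw [map_pow, hi])⟩

open scoped IsMulCommutative in
theorem pw_of_free [Nontrivial V] (ρ : Γ →* Module.End ℤ V) (hfin : ∀ g : Γ, IsOfFinOrder g)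
    (l : ℕ) (hl : l.Prime) (hlV : ∀ v : V, l • v = 0)
    (hcop : ∀ B : Subgroup Γ, AN B → ∀ b ∈ B, ¬ l ∣ orderOf b)
    (hfree : ∀ B : Subgroup Γ, AN B → ∀ b ∈ B, b ≠ 1 → ∀ v, ρ b v = v → v = 0) : PW Γ := by
  intro B hB b hb b' hb' h
  let R := Subring.closure (ρ '' (B : Set Γ))
  have : IsMulCommutative R := Subring.isMulCommutative_closure (by
    rintro _ ⟨x, hx, rfl⟩ _ ⟨y, hy, rfl⟩
    rw [← map_mul, ← map_mul, (hB.2 x hx y hy).eq])
  let χ : B →* R :=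
    { toFun := fun c => ⟨ρ c, Subring.subset_closure ⟨c, c.2, rfl⟩⟩
      map_one' := Subtype.ext (by simp)
      map_mul' := fun x y => Subtype.ext (by simp) }
  have hχ : ∀ c : B, ((χ c : R) : Module.End ℤ V) = ρ c := fun c => rfl
  have hlR : (l : R) = 0 := by
    apply Subtype.ext
    ext v
    simpa using hlV v
  have key := poww_ring (G := B) (R := R) χ l hl hlR
    (fun g => orderOf_pos_iff.1 (by rw [← Subgroup.orderOf_coe]; exact (hfin g).orderOf_pos))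
    (fun c => by rw [← Subgroup.orderOf_coe]; exact hcop B hB c c.2)
    (fun c hc => by
      apply Subtype.ext
      have hc' : (c : Γ) ≠ 1 := fun e => hc (Subtype.ext e)
      have h1 : (ρ c - 1) * ∑ i ∈ Finset.range (orderOf c), ρ c ^ i = 0 := by
        rw [mul_geom_sum, ← map_pow, ← Subgroup.orderOf_coe, pow_orderOf_eq_one, map_one, sub_self]
      have h2 : ∑ i ∈ Finset.range (orderOf c), ρ c ^ i = 0 := by
        ext v
        refine hfree B hB c c.2 hc' _ ?_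
        have := congrArg (fun f : Module.End ℤ V => f v) h1
        simp only [Module.End.mul_apply, LinearMap.sub_apply, Module.End.one_apply,
          LinearMap.zero_apply] at this
        exact sub_eq_zero.1 this
      rw [AddSubmonoidClass.coe_finsetSum]
      simpa [hχ] using h2)
    ⟨b, hb⟩ ⟨b', hb'⟩ (by
      apply Subtype.ext
      rw [← Subgroup.orderOf_coe]
      simpa using h)
  obtain ⟨i, hi⟩ := key
  have hi' : b ^ i = b' := by simpa using congrArg Subtype.val hi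
  rw [← hi']
  exact Subgroup.npow_mem_zpowers b i

end Pool.Agent.P.MP_3fd745_al.Sv
end

-- part Pool.Agent.P.MP_3fd745_al.Sv.LocFin
section

/-! Solvable torsion groups. -/

namespace Pool.Agent.P.MP_3fd745_al.Sv

open scoped commutatorElement

variable {Γ V : Type} [Group Γ] [AddCommGroup V]

lemma finite_of_derived (n : ℕ) : ∀ (G : Type) [Group G] [Group.FG G],
    derivedSeries G n = ⊥ → (∀ g : G, IsOfFinOrder g) → Finite G := by
  induction n with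
  | zero =>
    intro G _ _ h _
    have : Subsingleton G := Subgroup.subsingleton_iff.1 (subsingleton_of_bot_eq_top h.symm)
    infer_instance
  | succ n ih =>
    intro G _ _ h hf
    have h1 : Group.FG (Abelianization G) :=
      Group.fg_of_surjective (f := Abelianization.of) QuotientGroup.mk_surjective
    have h2 : Finite (Abelianization G) := CommGroup.finite_of_fg_isMulTorsion _ fun x => by
      obtain ⟨g, rfl⟩ := QuotientGroup.mk_surjective x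
      exact Abelianization.of.isOfFinOrder (hf g)
    have h3 : (commutator G).FiniteIndex :=
      @Subgroup.finiteIndex_of_finite_quotient _ _ _ h2
    have h4 : Finite (commutator G) := by
      refine ih _ ?_ fun g => (commutator G).subtype_injective.isOfFinOrder_iff.1 (hf g)
      have : ∀ i, (derivedSeries (commutator G) i).map (commutator G).subtype ≤
          derivedSeries G (i + 1) := fun i => by
        induction i with
        | zero => rintro _ ⟨g, -, rfl⟩; exact g.2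
        | succ i ih =>
          rw [derivedSeries_succ, Subgroup.map_commutator]
          exact Subgroup.commutator_mono ih ih
      have := this n
      rwa [h, le_bot_iff, Subgroup.map_eq_bot_iff_of_injective _
        (commutator G).subtype_injective] at this
    exact Finite.of_equiv _ (Subgroup.groupEquivQuotientProdSubgroup (s := commutator G)).symm

theorem lf_of_solvable [Group.IsSolvable Γ] (h : ∀ g : Γ, IsOfFinOrder g) : LF Γ := by
  intro s hs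
  have : Finite s := hs
  obtain ⟨n, hn⟩ := (inferInstance : Group.IsSolvable (Subgroup.closure s))
  exact finite_of_derived n (Subgroup.closure s) hn
    fun g => (Subgroup.closure s).subtype_injective.isOfFinOrder_iff.1 (h g)

theorem TON.fin (h : TON Γ) (g : Γ) : IsOfFinOrder g := by
  obtain ⟨n, hn, e⟩ := h.odd g
  exact isOfFinOrder_iff_pow_eq_one.2 ⟨n, hn.pos, e⟩

lemma mem_of_pow_coprime {H : Subgroup Γ} {x : Γ} {m n : ℕ} (h : m.Coprime n) (hm : x ^ m ∈ H)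
    (hn : x ^ n ∈ H) : x ∈ H := by
  obtain ⟨a, b, e⟩ := Nat.isCoprime_iff_coprime.2 h
  have := H.mul_mem (H.zpow_mem hm a) (H.zpow_mem hn b)
  rwa [← zpow_natCast, ← zpow_natCast, ← zpow_mul, ← zpow_mul, ← zpow_add, mul_comm (m : ℤ),
    mul_comm (n : ℤ), e, zpow_one] at this

lemma commute_of_pow_coprime {x y : Γ} {m n : ℕ} (h : m.Coprime n) (hm : Commute (x ^ m) y)
    (hn : x ^ n = 1) : Commute x y :=
  Subgroup.mem_centralizer_singleton_iff.1 (mem_of_pow_coprime h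
    (Subgroup.mem_centralizer_singleton_iff.2 hm) (hn ▸ one_mem _))

theorem TON.of_surj {Γ' : Type} [Group Γ'] (h : TON Γ) (f : Γ →* Γ')
    (hf : Function.Surjective f) : TON Γ' := by
  refine ⟨fun g => ?_, fun p hp x y a n hn hx hy => ?_⟩
  · obtain ⟨g, rfl⟩ := hf g
    obtain ⟨n, hn, e⟩ := h.odd g
    exact ⟨n, hn, by rw [← map_pow, e, map_one]⟩
  · obtain ⟨x, rfl⟩ := hf x
    obtain ⟨y, rfl⟩ := hf y
    obtain ⟨N, hN, e⟩ := h.odd x
    obtain ⟨N', hN', e'⟩ := h.odd y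
    obtain ⟨c, M, hM, rfl⟩ := Nat.exists_eq_pow_mul_and_not_dvd hN.pos.ne' p hp.ne_one
    obtain ⟨c', M', hM', rfl⟩ := Nat.exists_eq_pow_mul_and_not_dvd hN'.pos.ne' p hp.ne_one
    have h1 := (h.co p hp (x ^ M) (y ^ p ^ c') c M' hM' (by rwa [← pow_mul, mul_comm])
      (by rwa [← pow_mul])).map f
    rw [map_pow, map_pow] at h1
    have h2 := commute_of_pow_coprime (((Nat.Prime.coprime_iff_not_dvd hp).2 hM).symm.pow_right a)
      h1 hx
    exact (commute_of_pow_coprime (((Nat.Prime.coprime_iff_not_dvd hp).2 hn).pow_left c')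
      h2.symm hy).symm

/-- a last term of the derived series of `A` outside `S` -/
theorem exists_last [hs : Group.IsSolvable Γ] (A S : Subgroup Γ) (hA : A.Normal) (h : ¬ A ≤ S) :
    ∃ N : Subgroup Γ, N.Normal ∧ N ≤ A ∧ ¬ N ≤ S ∧ ⁅N, N⁆ ≤ S := by
  by_contra hc
  push Not at hc
  have : ∀ i, ∃ N : Subgroup Γ, N.Normal ∧ N ≤ A ∧ ¬ N ≤ S ∧ N ≤ derivedSeries Γ i := fun i => by
    induction i with
    | zero => exact ⟨A, hA, le_rfl, h, le_top⟩
    | succ i ih =>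
      obtain ⟨N, h1, h2, h3, h4⟩ := ih
      exact ⟨⁅N, N⁆, inferInstance, (Subgroup.commutator_le_left _ _).trans h2, hc N h1 h2 h3,
        Subgroup.commutator_mono h4 h4⟩
  obtain ⟨n, hn⟩ := hs
  obtain ⟨N, -, -, h3, h4⟩ := this n
  exact h3 (h4.trans (hn ▸ bot_le))

/-- a power of prime-to-`p` order -/
lemma TON.split (h : TON Γ) (p : ℕ) (hp : p.Prime) (g : Γ) :
    ∃ a n : ℕ, ¬ p ∣ n ∧ (g ^ p ^ a) ^ n = 1 := by
  obtain ⟨N, hN, e⟩ := h.odd g
  obtain ⟨c, M, hM, rfl⟩ := Nat.exists_eq_pow_mul_and_not_dvd hN.pos.ne' p hp.ne_one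
  exact ⟨c, M, hM, by rwa [← pow_mul]⟩

lemma TON.odd_order (h : TON Γ) (g : Γ) : Odd (orderOf g) := by
  obtain ⟨n, hn, e⟩ := h.odd g
  exact hn.of_dvd_nat (orderOf_dvd_of_pow_eq_one e)

end Pool.Agent.P.MP_3fd745_al.Sv
end

-- part Pool.Agent.P.MP_3fd745_al.Sv.ClassTwo
section

namespace Pool.Agent.P.MP_3fd745_al.Sv

open scoped commutatorElement

variable {Γ V : Type} [Group Γ] [AddCommGroup V]

lemma classtwo_conj (hP : PW Γ) {B : Subgroup Γ} (hB : AN B) {b : Γ} (hb : b ∈ B) (g : Γ) :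
    ∃ k : ℤ, g * b * g⁻¹ = b ^ k := by
  obtain ⟨k, hk⟩ := hP B hB b hb _ (hB.1.conj_mem b hb g)
    (by rw [conj_pow, pow_orderOf_eq_one, mul_one, mul_inv_cancel])
  exact ⟨k, hk.symm⟩

lemma classtwo_cen (hP : PW Γ) {B : Subgroup Γ} (hB : AN B) {b : Γ} (hb : b ∈ B) {d : Γ}
    (hd : d ∈ commutator Γ) : Commute d b := by
  have : commutator Γ ≤ Subgroup.centralizer {b} := by
    refine Subgroup.commutator_le.2 fun g _ h _ => Subgroup.mem_centralizer_singleton_iff.2 ?_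
    obtain ⟨k, hk⟩ := classtwo_conj hP hB hb g⁻¹
    obtain ⟨l, hl⟩ := classtwo_conj hP hB hb h⁻¹
    have h1 : g⁻¹ * (h⁻¹ * b * h⁻¹⁻¹) * g⁻¹⁻¹ = h⁻¹ * (g⁻¹ * b * g⁻¹⁻¹) * h⁻¹⁻¹ := by
      rw [hk, hl, ← conj_zpow, ← conj_zpow, hk, hl, ← zpow_mul, ← zpow_mul, mul_comm]
    calc ⁅g, h⁆ * b = g * h * (g⁻¹ * (h⁻¹ * b * h⁻¹⁻¹) * g⁻¹⁻¹) * g⁻¹ * h⁻¹ := by
          rw [commutatorElement_def]; group
      _ = b * ⁅g, h⁆ := by rw [h1, commutatorElement_def]; group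
  exact Subgroup.mem_centralizer_singleton_iff.1 (this hd)

lemma classtwo_num {q b : ℕ} (hq : q.Prime) (ho : Odd q) {k : ℤ} (h : (q : ℤ) ^ b ∣ k ^ q - 1) :
    (q : ℤ) ^ b ∣ (k - 1) * (k - 1) := by
  rcases b with - | b
  · simp
  have hf : Fact q.Prime := ⟨hq⟩
  have h1 : (q : ℤ) ∣ k - 1 := by
    have h2 := (ZMod.intCast_zmod_eq_zero_iff_dvd _ q).2 ((dvd_pow_self _ b.succ_ne_zero).trans h)
    rw [← ZMod.intCast_zmod_eq_zero_iff_dvd]
    push_cast at h2 ⊢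
    rwa [ZMod.pow_card] at h2
  obtain ⟨t, ht⟩ := h1
  obtain ⟨u, hu⟩ := odd_sq_dvd_geom_sum₂_sub (R := ℤ) 1 t ho
  have hk : k = 1 + q * t := by linarith
  have h3 := geom_sum_mul k q
  simp only [one_pow, mul_one, ← hk] at hu
  have h4 : k ^ q - 1 = (q * (k - 1)) * (1 + q * u) := by
    rw [← h3, sub_eq_iff_eq_add.1 hu]; ring
  have h5 : IsCoprime ((q : ℤ) ^ (b + 1)) (1 + q * u) :=
    IsCoprime.pow_left ⟨-u, 1, by ring⟩
  rw [h4] at h
  exact (h5.dvd_of_dvd_mul_right h).trans ⟨t, by rw [ht]; ring⟩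

lemma classtwo_elt (hT : TON Γ) {C : Subgroup Γ} {x : Γ} (hx : x ∉ C) :
    ∃ (g : Γ) (q a : ℕ), q.Prime ∧ Odd q ∧ g ∉ C ∧ g ^ q ∈ C ∧ g ^ q ^ a = 1 := by
  classical
  have he : ∃ m, 0 < m ∧ x ^ m ∈ C := by
    obtain ⟨n, hn, e⟩ := hT.odd x
    exact ⟨n, hn.pos, e ▸ one_mem _⟩
  obtain ⟨h0, hm⟩ := Nat.find_spec he
  have h1 : Nat.find he ≠ 1 := fun e => hx (by rwa [e, pow_one] at hm)
  obtain ⟨q, hq, s, hs⟩ := Nat.exists_prime_and_dvd h1
  have hs0 : 0 < s := Nat.pos_of_mul_pos_left (hs ▸ h0)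
  have h2 : x ^ s ∉ C := fun h =>
    Nat.find_min he (m := s) (by rw [hs]; nlinarith [hq.one_lt]) ⟨hs0, h⟩
  have h3 : (x ^ s) ^ q ∈ C := by rwa [← pow_mul, mul_comm, ← hs]
  obtain ⟨N, hN, e⟩ := hT.odd (x ^ s)
  have ho : Odd q := hq.odd_of_ne_two fun e2 => h2 (mem_of_pow_coprime
    (e2 ▸ Nat.coprime_two_left.2 hN) h3 (e ▸ one_mem _))
  obtain ⟨c, M, hM, rfl⟩ := Nat.exists_eq_pow_mul_and_not_dvd hN.pos.ne' q hq.ne_one
  refine ⟨(x ^ s) ^ M, q, c, hq, ho, fun h => h2 (mem_of_pow_coprime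
    ((Nat.Prime.coprime_iff_not_dvd hq).2 hM) h3 h), ?_, by rwa [← pow_mul, mul_comm]⟩
  rw [← pow_mul, mul_comm, pow_mul]
  exact C.pow_mem h3 M

lemma classtwo_key (hT : TON Γ) {g c : Γ} {q a : ℕ} (hq : q.Prime) (ho : Odd q)
    (hg : g ^ q ^ a = 1) (hc : Commute (g ^ q) c) {k : ℤ} (hk : g * c * g⁻¹ = c ^ k) :
    Commute ⁅g, c⁆ g := by
  obtain ⟨e, n, hn, he⟩ := hT.split q hq c
  have h1 : ∀ i : ℕ, g ^ i * c * (g ^ i)⁻¹ = c ^ k ^ i := fun i => by
    induction i with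
    | zero => simp
    | succ i ih =>
      calc g ^ (i + 1) * c * (g ^ (i + 1))⁻¹ = g * (g ^ i * c * (g ^ i)⁻¹) * g⁻¹ := by
            rw [pow_succ']; group
        _ = _ := by rw [ih, ← conj_zpow, hk, ← zpow_mul, pow_succ']
  have h2 : c ^ (k ^ q - 1) = 1 := by
    rw [zpow_sub_one, ← h1, hc.eq]; group
  have h3 : (c ^ (k - 1)) ^ q ^ e = 1 := by
    have h4 : g * c ^ q ^ e * g⁻¹ = c ^ q ^ e := by
      rw [(hT.co q hq g _ a n hn hg he).eq]; group
    rw [← conj_pow, hk] at h4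
    rw [zpow_sub_one, ((Commute.refl c).zpow_left k).inv_right.mul_pow, h4, inv_pow,
      mul_inv_cancel]
  obtain ⟨b, -, hb⟩ := (Nat.dvd_prime_pow hq).1
    (orderOf_dvd_of_pow_eq_one (x := c ^ n) (n := q ^ e) (by rwa [← pow_mul, mul_comm, pow_mul]))
  have h5 : (q : ℤ) ^ b ∣ k ^ q - 1 := by
    rw [← Nat.cast_pow, ← hb, orderOf_dvd_iff_zpow_eq_one, ← zpow_natCast, ← zpow_mul, mul_comm,
      zpow_mul, h2, one_zpow]
  have h6 := classtwo_num hq ho h5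
  rw [← Nat.cast_pow, ← hb, orderOf_dvd_iff_zpow_eq_one] at h6
  have h7 : c ^ ((k - 1) * (k - 1)) ∈ (⊥ : Subgroup Γ) := by
    refine mem_of_pow_coprime (((Nat.Prime.coprime_iff_not_dvd hq).2 hn).pow_left e) ?_ ?_
    · rw [Subgroup.mem_bot, ← zpow_natCast, ← zpow_mul, mul_right_comm, zpow_mul, zpow_mul,
        zpow_natCast, h3, one_zpow]
    · rw [Subgroup.mem_bot, ← zpow_natCast, ← zpow_mul, mul_comm, zpow_mul, zpow_natCast, h6]
  rw [Subgroup.mem_bot] at h7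
  have h8 : ⁅g, c⁆ = c ^ (k - 1) := by rw [commutatorElement_def, hk, zpow_sub_one]
  have h9 : g * c ^ (k - 1) * g⁻¹ = c ^ (k - 1) := by
    rw [← conj_zpow, hk, ← zpow_mul, show k * (k - 1) = (k - 1) * (k - 1) + (k - 1) by ring,
      zpow_add, h7, one_mul]
  rw [h8]
  exact (mul_inv_eq_iff_eq_mul.1 h9).symm

theorem exists_class_two [Group.IsSolvable Γ] (hT : TON Γ) (hP : PW Γ)
    (hna : ∃ a b : Γ, ¬ Commute a b) :
    ∃ K : Subgroup Γ, K.Normal ∧ (∃ a ∈ K, ∃ b ∈ K, ¬ Commute a b) ∧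
      ∀ a ∈ K, ∀ b ∈ K, ∀ c ∈ K, Commute ⁅a, b⁆ c := by
  by_contra hno
  have hD : ∀ a b : Γ, ⁅a, b⁆ ∈ commutator Γ := fun a b =>
    Subgroup.commutator_mem_commutator (Subgroup.mem_top a) (Subgroup.mem_top b)
  have h1 : ∀ a ∈ commutator Γ, ∀ b ∈ commutator Γ, Commute a b := by
    by_contra hc
    have : ∀ i, ¬ ∀ a ∈ derivedSeries Γ (i + 1), ∀ b ∈ derivedSeries Γ (i + 1), Commute a b := by
      intro i
      induction i with
      | zero => exact hc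
      | succ i ih =>
        intro h
        refine hno ⟨derivedSeries Γ (i + 1), inferInstance, by simpa using ih,
          fun a ha b hb c hc => (classtwo_cen hP ⟨inferInstance, h⟩
            (Subgroup.commutator_mem_commutator ha hb) ?_).symm⟩
        exact Subgroup.commutator_mono le_top le_top hc
    obtain ⟨n, hn⟩ := (inferInstance : Group.IsSolvable Γ)
    refine this n fun a ha b _ => ?_
    have h2 : a ∈ derivedSeries Γ n := Subgroup.commutator_le_left _ _ ha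
    rw [hn, Subgroup.mem_bot] at h2
    exact h2 ▸ Commute.one_left b
  obtain ⟨C, hC⟩ : ∃ C : Subgroup Γ, C = Subgroup.centralizer (commutator Γ) := ⟨_, rfl⟩
  have hCn : C.Normal := hC ▸ inferInstance
  have hm : ∀ c, c ∈ C ↔ ∀ d ∈ commutator Γ, Commute d c := fun c => by
    rw [hC]; exact Subgroup.mem_centralizer_iff
  have hle : commutator Γ ≤ C := fun a ha => (hm a).2 fun d hd => h1 d hd a ha
  have h2 : ∀ a ∈ C, ∀ b ∈ C, Commute a b := by
    by_contra hc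
    exact hno ⟨C, hCn, by simpa using hc, fun a _ b _ c h => (hm c).1 h _ (hD a b)⟩
  have hx : ∃ x, x ∉ C := by
    by_contra hc
    obtain ⟨a, b, h⟩ := hna
    exact h (h2 a (not_not.1 fun e => hc ⟨a, e⟩) b (not_not.1 fun e => hc ⟨b, e⟩))
  obtain ⟨x, hx⟩ := hx
  obtain ⟨g, q, a, hq, ho, hg, hgq, hga⟩ := classtwo_elt hT hx
  obtain ⟨Z, hZ⟩ : ∃ Z : Subgroup Γ, Z = C ⊓ Subgroup.centralizer {g} := ⟨_, rfl⟩
  have hz : ∀ z, z ∈ Z ↔ z ∈ C ∧ Commute z g := fun z => by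
    rw [hZ, Subgroup.mem_inf, Subgroup.mem_centralizer_singleton_iff]; rfl
  have hZn : Z.Normal := ⟨fun z h y => by
    obtain ⟨k, hk⟩ := classtwo_conj hP ⟨hCn, h2⟩ ((hz z).1 h).1 y
    exact hk ▸ Z.zpow_mem h k⟩
  have hK : ∀ y ∈ C ⊔ Subgroup.zpowers g, ∃ c ∈ C, ∃ i : ℤ, y = c * g ^ i := fun y hy => by
    have h : y ∈ ((C ⊔ Subgroup.zpowers g : Subgroup Γ) : Set Γ) := hy
    rw [Subgroup.normal_mul] at h
    obtain ⟨c, hc, _, ⟨i, rfl⟩, e⟩ := h
    exact ⟨c, hc, i, e.symm⟩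
  have hq1 : ∀ a b : Γ, Commute (QuotientGroup.mk' Z a) (QuotientGroup.mk' Z b) ↔ ⁅a, b⁆ ∈ Z :=
    fun a b => by
      rw [← commutatorElement_eq_one_iff_commute, ← map_commutatorElement]
      exact QuotientGroup.eq_one_iff _
  have hgc : ∀ c ∈ C, Commute (QuotientGroup.mk' Z g) (QuotientGroup.mk' Z c) := fun c hc => by
    obtain ⟨k, hk⟩ := classtwo_conj hP ⟨hCn, h2⟩ hc g
    exact (hq1 g c).2 ((hz _).2 ⟨hle (hD g c), classtwo_key hT hq ho hga (h2 _ hgq c hc) hk⟩)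
  refine hno ⟨C ⊔ Subgroup.zpowers g, ⟨fun y hy t => ?_⟩, ?_, fun y hy y' hy' w hw => ?_⟩
  · have e : t * y * t⁻¹ = ⁅t, y⁆ * y := by rw [commutatorElement_def]; group
    exact e ▸ mul_mem (Subgroup.mem_sup_left (hle (hD t y))) hy
  · by_contra hc
    refine hg ((hm g).2 fun d hd => not_not.1 fun e => hc ⟨d, Subgroup.mem_sup_left (hle hd), g,
      Subgroup.mem_sup_right (Subgroup.mem_zpowers g), e⟩)
  · obtain ⟨c, hc, i, rfl⟩ := hK y hy
    obtain ⟨c', hc', j, rfl⟩ := hK y' hy'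
    obtain ⟨c'', hc'', l, rfl⟩ := hK w hw
    have h3 : ⁅c * g ^ i, c' * g ^ j⁆ ∈ Z := by
      rw [← hq1, map_mul, map_mul, map_zpow, map_zpow]
      exact (((h2 c hc c' hc').map _).mul_right ((hgc c hc).symm.zpow_right j)).mul_left
        (((hgc c' hc').zpow_left i).mul_right (Commute.zpow_zpow_self _ i j))
    exact (h2 _ ((hz _).1 h3).1 c'' hc'').mul_right (((hz _).1 h3).2.zpow_right l)

end Pool.Agent.P.MP_3fd745_al.Sv
end

-- part Pool.Agent.P.MP_3fd745_al.Sv.Omega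
section

namespace Pool.Agent.P.MP_3fd745_al.Sv

open scoped commutatorElement

variable {Γ V : Type} [Group Γ] [AddCommGroup V]

lemma omega_pow {a b : Γ} (h : Commute ⁅a, b⁆ a) (m : ℕ) : ⁅a ^ m, b⁆ = ⁅a, b⁆ ^ m := by
  induction m with
  | zero => simp
  | succ m ih =>
    have e : ⁅a ^ (m + 1), b⁆ = a * ⁅a ^ m, b⁆ * a⁻¹ * ⁅a, b⁆ := by
      simp only [commutatorElement_def, pow_succ']
      group
    rw [e, ih, ← (h.pow_left m).eq, mul_inv_cancel_right, pow_succ]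

lemma omega_mul {a b : Γ} (ha : Commute ⁅b, a⁆ a) (hb : Commute ⁅b, a⁆ b) (m : ℕ) :
    (a * b) ^ m = ⁅b, a⁆ ^ m.choose 2 * (a ^ m * b ^ m) := by
  induction m with
  | zero => simp
  | succ m ih =>
    have e : b ^ m * a = ⁅b, a⁆ ^ m * (a * b ^ m) := by
      rw [← omega_pow hb, commutatorElement_def]
      group
    have e2 : a ^ m * ⁅b, a⁆ ^ m = ⁅b, a⁆ ^ m * a ^ m := (ha.pow_pow m m).eq.symm
    calc (a * b) ^ (m + 1) = ⁅b, a⁆ ^ m.choose 2 * (a ^ m * (b ^ m * a) * b) := by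
          rw [pow_succ, ih]; simp only [mul_assoc]
      _ = ⁅b, a⁆ ^ m.choose 2 * ((a ^ m * ⁅b, a⁆ ^ m) * (a * b ^ m * b)) := by
          rw [e]; simp only [mul_assoc]
      _ = _ := by
          rw [e2, Nat.choose_succ_succ' m 1, Nat.choose_one_right, add_comm m, pow_add, pow_succ,
            pow_succ]
          simp only [mul_assoc]

lemma omega_mul' {a b : Γ} (ha : Commute ⁅b, a⁆ a) (hb : Commute ⁅b, a⁆ b) {q m : ℕ}
    (hq : Commute (b ^ q) a) (hm : q ∣ m.choose 2) : (a * b) ^ m = a ^ m * b ^ m := by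
  obtain ⟨c, hc⟩ := hm
  rw [omega_mul ha hb, hc, pow_mul, ← omega_pow hb,
    commutatorElement_eq_one_iff_commute.2 hq, one_pow, one_mul]

lemma omega_dvd {q : ℕ} (hq : Odd q) (j : ℕ) : q ∣ (q ^ j).choose 2 := by
  cases j with
  | zero => simp
  | succ j =>
    obtain ⟨c, hc⟩ : Odd (q ^ (j + 1)) := hq.pow
    have : (q ^ (j + 1)).choose 2 = q ^ (j + 1) * c := by
      rw [Nat.choose_two_right, hc, Nat.add_sub_cancel, mul_left_comm,
        Nat.mul_div_cancel_left _ two_pos]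
    rw [this]
    exact Dvd.dvd.mul_right (dvd_pow_self q j.succ_ne_zero) c

lemma omega_lt (hT : TON Γ) (a : Γ) {r : ℕ} (hr : r.Prime) (h : r ∣ orderOf a) :
    orderOf (a ^ r) < orderOf a := by
  rw [orderOf_pow_of_dvd hr.ne_zero h]
  exact Nat.div_lt_self (hT.fin a).orderOf_pos hr.one_lt

theorem exists_omega (hT : TON Γ) (hP : PW Γ) (K : Subgroup Γ) (hK : K.Normal)
    (hna : ∃ a ∈ K, ∃ b ∈ K, ¬ Commute a b)
    (h2 : ∀ a ∈ K, ∀ b ∈ K, ∀ c ∈ K, Commute ⁅a, b⁆ c) :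
    ∃ (q : ℕ) (Ω : Subgroup Γ), q.Prime ∧ Odd q ∧ Ω.Normal ∧ Ω ≤ K ∧ (∀ e ∈ Ω, e ^ q = 1) ∧
      ∃ e ∈ Ω, ∃ f ∈ Ω, ¬ Commute e f := by
  by_contra hc
  have hO : ∀ q : ℕ, q.Prime → Odd q → ∀ x ∈ K, ∀ y ∈ K, orderOf x = q → y ^ q = 1 →
      y ∈ Subgroup.zpowers x := fun q hq ho x hx y hy ex ey => by
    let Ω : Subgroup Γ :=
      { carrier := {a | a ∈ K ∧ a ^ q = 1}
        one_mem' := ⟨K.one_mem, one_pow q⟩
        inv_mem' := fun h => ⟨K.inv_mem h.1, by rw [inv_pow, h.2, inv_one]⟩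
        mul_mem' := fun {a b} ha hb => ⟨K.mul_mem ha.1 hb.1, by
          rw [omega_mul' (h2 b hb.1 a ha.1 a ha.1) (h2 b hb.1 a ha.1 b hb.1) (q := q)
            (hb.2 ▸ Commute.one_left a) (by simpa using omega_dvd ho 1), ha.2, hb.2, one_mul]⟩ }
    have hn : Ω.Normal := ⟨fun a ha g => ⟨hK.conj_mem a ha.1 g, by
      rw [conj_pow, ha.2, mul_one, mul_inv_cancel]⟩⟩
    refine hP Ω ⟨hn, fun e he f hf => ?_⟩ x ⟨hx, ex ▸ pow_orderOf_eq_one x⟩ y ⟨hy, ey⟩ (ex ▸ ey)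
    by_contra hef
    exact hc ⟨q, Ω, hq, ho, hn, fun a ha => ha.1, fun a ha => ha.2, e, he, f, hf, hef⟩
  have key : ∀ n : ℕ, ∀ a ∈ K, ∀ b ∈ K, orderOf a + orderOf b = n → Commute a b := by
    intro n
    induction n using Nat.strong_induction_on with
    | _ n ih =>
      suffices H : ∀ a ∈ K, ∀ b ∈ K, orderOf a + orderOf b = n → orderOf b ≤ orderOf a →
          Commute a b by
        intro a ha b hb e
        rcases le_total (orderOf b) (orderOf a) with h | h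
        · exact H a ha b hb e h
        · exact (H b hb a ha (by omega) h).symm
      intro a ha b hb e hle
      by_contra hab
      have hc1 : ⁅a, b⁆ ≠ 1 := fun h => hab (commutatorElement_eq_one_iff_commute.1 h)
      have hb' : ∀ r : ℕ, r.Prime → r ∣ orderOf b → Commute (b ^ r) a := fun r hr h =>
        ih _ (by have := omega_lt hT b hr h; omega) _ (K.pow_mem hb r) a ha rfl
      have ha1 : ∀ r : ℕ, r.Prime → r ∣ orderOf a → r = orderOf ⁅a, b⁆ := fun r hr h => by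
        have := Fact.mk hr
        refine (orderOf_eq_prime ?_ hc1).symm
        rw [← omega_pow (h2 a ha b hb a ha), commutatorElement_eq_one_iff_commute]
        exact ih _ (by have := omega_lt hT a hr h; omega) _ (K.pow_mem ha r) b hb rfl
      have hb1 : ∀ r : ℕ, r.Prime → r ∣ orderOf b → r = orderOf ⁅a, b⁆ := fun r hr h => by
        have := Fact.mk hr
        refine (orderOf_eq_prime ?_ hc1).symm
        rw [← commutatorElement_inv, inv_pow, ← omega_pow (h2 b hb a ha b hb),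
          commutatorElement_eq_one_iff_commute.2 (hb' r hr h), inv_one]
      have hbo : orderOf b ≠ 1 := fun h => hab (orderOf_eq_one_iff.1 h ▸ Commute.one_right a)
      obtain ⟨q, hq, hqb⟩ := Nat.exists_prime_and_dvd hbo
      have eq := hb1 q hq hqb
      have ho : Odd q := eq ▸ hT.odd_order _
      obtain ⟨i, hi⟩ : ∃ i, orderOf a = q ^ i := ⟨_, Nat.eq_prime_pow_of_unique_prime_dvd
        (hT.fin a).orderOf_pos.ne' fun hr h => (ha1 _ hr h).trans eq.symm⟩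
      obtain ⟨j, hj⟩ : ∃ j, orderOf b = q ^ j := ⟨_, Nat.eq_prime_pow_of_unique_prime_dvd
        (hT.fin b).orderOf_pos.ne' fun hr h => (hb1 _ hr h).trans eq.symm⟩
      obtain ⟨j, rfl⟩ : ∃ j', j = j' + 1 :=
        Nat.exists_eq_succ_of_ne_zero fun h => hbo (by rw [hj, h, pow_zero])
      rw [hi, hj, Nat.pow_le_pow_iff_right hq.one_lt] at hle
      obtain ⟨d, rfl⟩ := Nat.exists_eq_add_of_le hle
      have ex : orderOf ((a ^ q ^ d) ^ q ^ j) = q := by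
        rw [← pow_mul, ← pow_add, orderOf_pow_of_dvd (pow_pos hq.pos _).ne'
          (hi ▸ pow_dvd_pow q (by omega)), hi, Nat.pow_div (by omega) hq.pos,
          show j + 1 + d - (d + j) = 1 by omega, pow_one]
      obtain ⟨k, hk⟩ := hO q hq ho _ (K.pow_mem (K.pow_mem ha _) _) (b ^ q ^ j) (K.pow_mem hb _) ex
        (by rw [← pow_mul, ← pow_succ, ← hj, pow_orderOf_eq_one])
      have hca : Commute a ((a ^ q ^ d) ^ (-k)) := (Commute.self_pow a _).zpow_right _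
      have hcK : (a ^ q ^ d) ^ (-k) ∈ K := K.zpow_mem (K.pow_mem ha _) _
      have e1 : ((a ^ q ^ d) ^ (-k) * b) ^ q ^ j = 1 := by
        rw [omega_mul' (h2 b hb _ hcK _ hcK) (h2 b hb _ hcK b hb)
          (((hb' q hq hqb).pow_right _).zpow_right _) (omega_dvd ho j), ← hk]
        simp only
        rw [← zpow_natCast ((a ^ q ^ d) ^ (-k)), ← zpow_mul, mul_comm (-k), zpow_mul,
          zpow_natCast, zpow_neg, inv_mul_cancel]
      have hlt : orderOf ((a ^ q ^ d) ^ (-k) * b) < orderOf b :=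
        (orderOf_le_of_pow_eq_one (pow_pos hq.pos _) e1).trans_lt
          (hj ▸ Nat.pow_lt_pow_right hq.one_lt j.lt_succ_self)
      have := hca.inv_right.mul_right (ih _ (by omega) a ha _ (K.mul_mem hcK hb) rfl)
      rw [inv_mul_cancel_left] at this
      exact hab this
  obtain ⟨a, ha, b, hb, hab⟩ := hna
  exact hab (key _ a ha b hb rfl)

end Pool.Agent.P.MP_3fd745_al.Sv
end

-- part Pool.Agent.P.MP_3fd745_al.Sv.ExtEx
section

namespace Pool.Agent.P.MP_3fd745_al.Sv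

open scoped commutatorElement

variable {Γ V : Type} [Group Γ] [AddCommGroup V]

lemma extex_conj_pow {g z : Γ} {k : ℤ} (h : g * z * g⁻¹ = z ^ k) (m : ℕ) :
    g ^ m * z * (g ^ m)⁻¹ = z ^ k ^ m := by
  induction m with
  | zero => simp
  | succ m ih =>
    have e1 : g ^ (m + 1) * z * (g ^ (m + 1))⁻¹ = g * (g ^ m * z * (g ^ m)⁻¹) * g⁻¹ := by
      rw [pow_succ']; group
    rw [e1, ih, ← conj_zpow, h, ← zpow_mul, pow_succ']

lemma extex_conj_mem {z : Γ} (hz : ∀ g, Commute z g) (g : Γ) {w : Γ}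
    (hw : w ∈ Subgroup.zpowers z) : g * w * g⁻¹ ∈ Subgroup.zpowers z := by
  obtain ⟨k, rfl⟩ := Subgroup.mem_zpowers_iff.1 hw
  have : g * z ^ k * g⁻¹ = z ^ k := by
    rw [← ((hz g).zpow_left k).eq, mul_inv_cancel_right]
  rw [this]
  exact hw

theorem exists_ext (hT : TON Γ) (hP : PW Γ) (q : ℕ) (Ω : Subgroup Γ) (hq : q.Prime)
    (hqo : Odd q) (hΩ : Ω.Normal) (hexp : ∀ e ∈ Ω, e ^ q = 1)
    (hna : ∃ e ∈ Ω, ∃ f ∈ Ω, ¬ Commute e f)
    (h2 : ∀ a ∈ Ω, ∀ b ∈ Ω, ∀ c ∈ Ω, Commute ⁅a, b⁆ c) : ∃ z, Ext Ω z q := by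
  obtain ⟨e, he, f, hf, hef⟩ := id hna
  have hcm : ∀ a ∈ Ω, ∀ b ∈ Ω, ⁅a, b⁆ ∈ Ω := fun a ha b hb => by
    rw [commutatorElement_def]
    exact Ω.mul_mem (Ω.mul_mem (Ω.mul_mem ha hb) (Ω.inv_mem ha)) (Ω.inv_mem hb)
  have hz1 : ⁅e, f⁆ ≠ 1 := fun h => hef (commutatorElement_eq_one_iff_commute.1 h)
  have := Fact.mk hq
  have hzo : orderOf ⁅e, f⁆ = q := orderOf_eq_prime (hexp _ (hcm e he f hf)) hz1
  have hZ : AN (Ω ⊓ Subgroup.centralizer (Ω : Set Γ)) :=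
    ⟨inferInstance, fun a ha b hb => Subgroup.mem_centralizer_iff.1 hb.2 a ha.1⟩
  have hcZ : ∀ a ∈ Ω, ∀ b ∈ Ω, ⁅a, b⁆ ∈ Ω ⊓ Subgroup.centralizer (Ω : Set Γ) :=
    fun a ha b hb => ⟨hcm a ha b hb,
      Subgroup.mem_centralizer_iff.2 fun c hc => (h2 a ha b hb c hc).symm.eq⟩
  have hqp : ∀ t : Γ, ∃ a : ℕ, ∀ x ∈ Ω, Commute (t ^ q ^ a) x := fun t => by
    obtain ⟨a, n, hn, ht⟩ := hT.split q hq t
    exact ⟨a, fun x hx => (hT.co q hq x _ 1 n hn (by rw [pow_one]; exact hexp x hx) ht).symm⟩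
  refine ⟨⁅e, f⁆, hq, hqo, hΩ, hcm e he f hf, hzo, fun g => ?_, hexp, fun a ha b hb => ?_,
    fun A hA hzA hle a ha => ?_, hqp, hna⟩
  · have hg := hZ.1.conj_mem _ (hcZ e he f hf) g
    obtain ⟨k, hk⟩ := Subgroup.mem_zpowers_iff.1
      (hP _ hZ _ (hcZ e he f hf) _ hg (by rw [hzo]; exact hexp _ hg.1))
    obtain ⟨a, ha⟩ := hqp g
    have h1 := extex_conj_pow hk.symm (q ^ a)
    rw [(ha _ (hcm e he f hf)).eq, mul_inv_cancel_right] at h1
    have h3 : k ^ q ^ a ≡ k [ZMOD (q : ℤ)] := by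
      rw [← ZMod.intCast_eq_intCast_iff, Int.cast_pow, ZMod.pow_card_pow]
    have h4 : ⁅e, f⁆ ^ k ^ q ^ a = ⁅e, f⁆ ^ k := by
      rw [zpow_eq_zpow_iff_modEq, hzo]
      exact h3
    have h5 : g * ⁅e, f⁆ * g⁻¹ = ⁅e, f⁆ := by rw [← hk, ← h4, ← h1]
    exact (mul_inv_eq_iff_eq_mul.1 h5).symm
  · exact hP _ hZ _ (hcZ e he f hf) _ (hcZ a ha b hb) (by rw [hzo]; exact hexp _ (hcm a ha b hb))
  · exact hP A hA _ hzA a ha (by rw [hzo]; exact hexp _ (hle ha))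

theorem Ext.proper {Ω : Subgroup Γ} {z : Γ} {q : ℕ} (E : Ext Ω z q) :
    ∃ S : Subgroup Γ, S ≠ ⊤ ∧ S.Normal ∧
      ∀ t, t ∈ S ↔ ∀ e ∈ Ω, ⁅t, e⁆ ∈ Subgroup.zpowers z := by
  refine ⟨{ carrier := {t | ∀ e ∈ Ω, ⁅t, e⁆ ∈ Subgroup.zpowers z}
            one_mem' := fun e _ => by simp
            mul_mem' := fun {g h} hg hh e he => ?_
            inv_mem' := fun {g} hg e he => ?_ }, fun hS => ?_, ⟨fun t ht g e he => ?_⟩,
    fun t => Iff.rfl⟩
  · have e1 : ⁅g * h, e⁆ = g * ⁅h, e⁆ * g⁻¹ * ⁅g, e⁆ := by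
      simp only [commutatorElement_def]; group
    rw [e1]
    exact Subgroup.mul_mem _ (extex_conj_mem E.zcen g (hh e he)) (hg e he)
  · have e1 : ⁅g⁻¹, e⁆ = g⁻¹ * ⁅g, e⁆⁻¹ * g⁻¹⁻¹ := by
      simp only [commutatorElement_def]; group
    rw [e1]
    exact extex_conj_mem E.zcen _ (Subgroup.inv_mem _ (hg e he))
  · obtain ⟨e, he, f, hf, hef⟩ := E.nonab
    have hall : ∀ g : Γ, ⁅g, e⁆ ∈ Subgroup.zpowers z := fun g =>
      (hS.ge (Subgroup.mem_top g) : ∀ e ∈ Ω, ⁅g, e⁆ ∈ Subgroup.zpowers z) e he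
    have heA : e ∈ Subgroup.closure ({e, z} : Set Γ) := Subgroup.subset_closure (by simp)
    have hzA : z ∈ Subgroup.closure ({e, z} : Set Γ) := Subgroup.subset_closure (by simp)
    have h1 : ∀ a ∈ Subgroup.closure ({e, z} : Set Γ), Commute a e := fun a ha => by
      induction ha using Subgroup.closure_induction with
      | mem x hx =>
        rcases hx with rfl | rfl
        · exact Commute.refl _
        · exact E.zcen _
      | one => exact Commute.one_left _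
      | mul x y _ _ hx hy => exact hx.mul_left hy
      | inv x _ hx => exact hx.inv_left
    have hA : AN (Subgroup.closure ({e, z} : Set Γ)) := by
      refine ⟨⟨fun a ha g => ?_⟩, fun a ha b hb => ?_⟩
      · induction ha using Subgroup.closure_induction with
        | mem x hx =>
          rcases hx with rfl | rfl
          · have e1 : g * x * g⁻¹ = ⁅g, x⁆ * x := by
              simp only [commutatorElement_def]; group
            rw [e1]
            exact Subgroup.mul_mem _ (Subgroup.zpowers_le.2 hzA (hall g)) heA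
          · rw [← (E.zcen g).eq, mul_inv_cancel_right]
            exact hzA
        | one => simp
        | mul x y _ _ hx hy =>
          have e1 : g * (x * y) * g⁻¹ = g * x * g⁻¹ * (g * y * g⁻¹) := by group
          rw [e1]
          exact Subgroup.mul_mem _ hx hy
        | inv x _ hx =>
          have e1 : g * x⁻¹ * g⁻¹ = (g * x * g⁻¹)⁻¹ := by group
          rw [e1]
          exact Subgroup.inv_mem _ hx
      · induction hb using Subgroup.closure_induction with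
        | mem x hx =>
          rcases hx with rfl | rfl
          · exact h1 a ha
          · exact (E.zcen a).symm
        | one => exact Commute.one_right _
        | mul x y _ _ hx hy => exact hx.mul_right hy
        | inv x _ hx => exact hx.inv_right
    have hle : Subgroup.closure ({e, z} : Set Γ) ≤ Ω := by
      rw [Subgroup.closure_le]
      rintro x (rfl | rfl)
      · exact he
      · exact E.zmem
    obtain ⟨k, hk⟩ := Subgroup.mem_zpowers_iff.1 (E.an _ hA hzA hle heA)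
    exact hef (hk ▸ (E.zcen f).zpow_left k)
  · have e1 : ⁅g * t * g⁻¹, e⁆ = g * ⁅t, g⁻¹ * e * g⁻¹⁻¹⁆ * g⁻¹ := by
      simp only [commutatorElement_def]; group
    rw [e1]
    exact extex_conj_mem E.zcen g (ht _ (E.normal.conj_mem e he g⁻¹))

end Pool.Agent.P.MP_3fd745_al.Sv
end

-- part Pool.Agent.P.MP_3fd745_al.Sv.Finit
section

namespace Pool.Agent.P.MP_3fd745_al.Sv

open scoped commutatorElement

variable {Γ V : Type} [Group Γ] [AddCommGroup V]

lemma finit_fix {G : Type} [Group G] {q : ℕ} (hq : q.Prime) (X N : Subgroup G) [Finite X]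
    (hexp : ∀ x ∈ X, x ^ q = 1) (hne : ∃ x ∈ X, x ≠ 1)
    (hst : ∀ n ∈ N, ∀ x ∈ X, n * x * n⁻¹ ∈ X)
    (hp : ∀ n ∈ N, ∃ a : ℕ, ∀ x ∈ X, Commute (n ^ q ^ a) x) :
    ∃ x ∈ X, x ≠ 1 ∧ ∀ n ∈ N, Commute n x := by
  have := Fact.mk hq
  have hN : N ≤ Subgroup.normalizer X := fun n hn => by
    refine Subgroup.mem_normalizer_iff.2 fun x => ⟨hst n hn x, fun h => ?_⟩
    simpa [mul_assoc] using hst n⁻¹ (N.inv_mem hn) _ h
  let φ : N →* MulAut X := X.normalizerMonoidHom.comp (Subgroup.inclusion hN)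
  have hφ : ∀ (n : N) (x : X), ((φ n x : X) : G) = n * x * (n : G)⁻¹ := fun n x => rfl
  have hP : IsPGroup q φ.range := by
    rintro ⟨_, n, rfl⟩
    obtain ⟨a, ha⟩ := hp n n.2
    refine ⟨a, Subtype.ext ?_⟩
    change φ n ^ q ^ a = 1
    rw [← map_pow]
    ext x
    rw [hφ, Subgroup.coe_pow, (ha x x.2).eq, mul_inv_cancel_right]
    rfl
  obtain ⟨x, hx, h1⟩ := hne
  have hd : q ∣ Nat.card X := by
    rw [← orderOf_eq_prime (hexp x hx) h1]
    exact X.orderOf_dvd_natCard hx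
  obtain ⟨b, hb, hb1⟩ := hP.exists_fixed_point_of_prime_dvd_card_of_fixed_point X hd (a := 1)
    fun g => map_one (g : MulAut X)
  refine ⟨b, b.2, fun h => hb1 (Subtype.ext h.symm), fun n hn => ?_⟩
  have h2 : φ ⟨n, hn⟩ b = b := hb ⟨φ ⟨n, hn⟩, _, rfl⟩
  have h3 := hφ ⟨n, hn⟩ b
  rw [h2] at h3
  exact (mul_inv_eq_iff_eq_mul.1 h3.symm : n * b = b * n)

/-- elements with finitely many commutators -/
def finitF (Ω : Subgroup Γ) : Subgroup Γ where
  carrier := {t | {c | ∃ e ∈ Ω, c = ⁅t, e⁆}.Finite}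
  one_mem' := (Set.finite_singleton 1).subset (by rintro _ ⟨e, -, rfl⟩; simp)
  mul_mem' := by
    intro g h hg hh
    refine (Set.Finite.image2 (fun a b => g * a * g⁻¹ * b) hh hg).subset ?_
    rintro _ ⟨e, he, rfl⟩
    refine ⟨_, ⟨e, he, rfl⟩, _, ⟨e, he, rfl⟩, ?_⟩
    simp only [commutatorElement_def]
    group
  inv_mem' := by
    intro g hg
    refine (Set.Finite.image (fun a => g⁻¹ * a⁻¹ * g) hg).subset ?_
    rintro _ ⟨e, he, rfl⟩
    refine ⟨_, ⟨e, he, rfl⟩, ?_⟩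
    simp only [commutatorElement_def]
    group

lemma finit_normal {Ω : Subgroup Γ} (h : Ω.Normal) : (finitF Ω).Normal := by
  refine ⟨fun t ht s => (Set.Finite.image (fun a => s * a * s⁻¹) ht).subset ?_⟩
  rintro _ ⟨e, he, rfl⟩
  refine ⟨_, ⟨s⁻¹ * e * s, h.conj_mem' e he s, rfl⟩, ?_⟩
  simp only [commutatorElement_def]
  group

theorem Ext.finitary [Group.IsSolvable Γ] {Ω : Subgroup Γ} {z : Γ} {q : ℕ} (E : Ext Ω z q) (t : Γ)
    (ht : {c | ∃ e ∈ Ω, c = ⁅t, e⁆}.Finite) : ∀ e ∈ Ω, ⁅t, e⁆ ∈ Subgroup.zpowers z := by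
  obtain ⟨S, -, -, hS⟩ := E.proper
  have hΩ := E.normal
  have hc : ∀ w ∈ Subgroup.zpowers z, ∀ g, Commute w g := by
    rintro _ ⟨k, rfl⟩ g
    exact (E.zcen g).zpow_left k
  have hZ : (Subgroup.zpowers z).Normal :=
    ⟨fun w hw g => by rwa [← (hc w hw g).eq, mul_inv_cancel_right]⟩
  refine (hS t).1 ((?_ : finitF Ω ≤ S) ht)
  by_contra hF
  obtain ⟨N, hN, hNF, hNS, hNN⟩ := exists_last _ S (finit_normal hΩ) hF
  obtain ⟨n, hn, hnS⟩ := SetLike.not_le_iff_exists.1 hNS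
  let π := QuotientGroup.mk' (Subgroup.zpowers z)
  have hπ : ∀ a b, Commute (π a) (π b) ↔ ⁅a, b⁆ ∈ Subgroup.zpowers z := fun a b => by
    rw [← commutatorElement_eq_one_iff_commute, ← map_commutatorElement]
    exact QuotientGroup.eq_one_iff _
  have hm : ∀ g, ∀ e ∈ Ω, ⁅g, e⁆ ∈ Ω := fun g e he =>
    Ω.mul_mem (hΩ.conj_mem e he g) (Ω.inv_mem he)
  let δ : Ω →* Γ ⧸ Subgroup.zpowers z := MonoidHom.mk' (fun e => π ⁅n, (e : Γ)⁆) fun e f => by
    have h1 : ⁅n, ((e * f : Ω) : Γ)⁆ = ⁅n, (e : Γ)⁆ * (e * ⁅n, (f : Γ)⁆ * (e : Γ)⁻¹) := by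
      simp only [commutatorElement_def, Subgroup.coe_mul]
      group
    rw [h1, map_mul, map_mul, map_mul, map_inv,
      ((hπ _ _).2 (E.comm _ e.2 _ (hm n _ f.2))).eq, mul_inv_cancel_right]
  have hfin : Finite δ.range := by
    refine (Set.Finite.image π (hNF hn)).subset ?_
    rintro _ ⟨e, rfl⟩
    exact ⟨_, ⟨e, e.2, rfl⟩, rfl⟩
  obtain ⟨_, ⟨⟨e, he⟩, rfl⟩, h1, hfix⟩ := finit_fix E.prime δ.range (N.map π)
    (by
      rintro _ ⟨e, rfl⟩
      change π _ ^ q = 1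
      rw [← map_pow, E.exp _ (hm n _ e.2), map_one])
    (by
      by_contra h
      push Not at h
      exact hnS ((hS n).2 fun e he => (QuotientGroup.eq_one_iff _).1 (h _ ⟨⟨e, he⟩, rfl⟩)))
    (by
      rintro _ ⟨m, hm', rfl⟩ _ ⟨⟨e, he⟩, rfl⟩
      have he' := hΩ.conj_mem e he m
      refine ⟨⟨_, he'⟩, ?_⟩
      have hs := (hS _).1 (hNN (Subgroup.commutator_mem_commutator hm' hn))
      have h1 : m * ⁅n, e⁆ * m⁻¹ =
          ⁅m, n⁆ * ⁅n, m * e * m⁻¹⁆ * ⁅m, n⁆⁻¹ * ⁅⁅m, n⁆, m * e * m⁻¹⁆ := by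
        simp only [commutatorElement_def]
        group
      change π ⁅n, m * e * m⁻¹⁆ = π m * π ⁅n, e⁆ * (π m)⁻¹
      rw [← map_inv, ← map_mul, ← map_mul, h1, map_mul, map_mul, map_mul, map_inv,
        ((hπ _ _).2 (hs _ (hm n _ he'))).eq, mul_inv_cancel_right]
      have h2 : π ⁅⁅m, n⁆, m * e * m⁻¹⁆ = 1 := (QuotientGroup.eq_one_iff _).2 (hs _ he')
      rw [h2, mul_one])
    (by
      rintro _ ⟨m, -, rfl⟩
      obtain ⟨a, ha⟩ := E.qp m
      refine ⟨a, ?_⟩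
      rintro _ ⟨e, rfl⟩
      rw [← map_pow]
      exact (ha _ (hm n _ e.2)).map π)
  have hN' : (N.map π).Normal := hN.map π (QuotientGroup.mk'_surjective _)
  let P : Subgroup Γ := Ω ⊓ (Subgroup.centralizer (N.map π : Set _)).comap π
  have hP : P.Normal := inferInstance
  have hPm : ∀ f, f ∈ P ↔ f ∈ Ω ∧ ∀ m ∈ N, Commute (π m) (π f) := fun f => by
    refine and_congr_right' ⟨fun h m hm => h _ ⟨m, hm, rfl⟩, fun h => ?_⟩
    rintro _ ⟨m, hm, rfl⟩
    exact h m hm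
  have key : ∀ f ∈ P, n * e * n⁻¹ * f * (n * e * n⁻¹)⁻¹ = e * f * e⁻¹ := by
    intro f hf
    obtain ⟨hf1, hf2⟩ := (hPm f).1 hf
    have h2 := hc _ ((hπ _ _).1 (hf2 _ (N.inv_mem hn)))
    have h3 := hc _ (E.comm e he f hf1)
    calc n * e * n⁻¹ * f * (n * e * n⁻¹)⁻¹ = n * (e * ⁅n⁻¹, f⁆) * f * e⁻¹ * n⁻¹ := by
          simp only [commutatorElement_def]
          group
      _ = n * ⁅n⁻¹, f⁆ * ⁅e, f⁆ * f * n⁻¹ := by
          rw [← (h2 e).eq]
          simp only [commutatorElement_def e]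
          group
      _ = e * f * e⁻¹ := by
          rw [← (h3 _).eq]
          simp only [commutatorElement_def]
          group
  refine h1 ((QuotientGroup.eq_one_iff _).2 (E.an (P ⊓ Subgroup.centralizer (P : Set Γ))
    ⟨inferInstance, fun a ha b hb => hb.2 a ha.1⟩
    ⟨(hPm z).2 ⟨E.zmem, fun m _ => (E.zcen m).symm.map π⟩, fun g _ => (E.zcen g).symm⟩
    (fun a ha => ha.1.1) ⟨(hPm _).2 ⟨hm n e he, fun m hm' => hfix _ ⟨m, hm', rfl⟩⟩, ?_⟩))
  intro f hf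
  have h2 := key _ (hP.conj_mem' f hf e)
  calc f * ⁅n, e⁆ = e * (e⁻¹ * f * e) * e⁻¹ * ⁅n, e⁆ := by group
    _ = ⁅n, e⁆ * f := by
      rw [← h2]
      simp only [commutatorElement_def]
      group

end Pool.Agent.P.MP_3fd745_al.Sv
end

-- part Pool.Agent.P.MP_3fd745_al.Sv.Step
section

namespace Pool.Agent.P.MP_3fd745_al.Sv

open scoped commutatorElement

variable {Γ V : Type} [Group Γ] [AddCommGroup V]

section

variable {Ω : Subgroup Γ} {z : Γ} {q : ℕ}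

theorem step_cen (E : Ext Ω z q) {c : Γ} (hc : c ∈ Subgroup.zpowers z) (g : Γ) : Commute c g := by
  obtain ⟨k, rfl⟩ := hc
  exact (E.zcen g).zpow_left k

theorem step_mul_left (E : Ext Ω z q) (a : Γ) {b f : Γ} (hb : b ∈ Ω) (hf : f ∈ Ω) :
    ⁅a * b, f⁆ = ⁅b, f⁆ * ⁅a, f⁆ := by
  have h := (step_cen E (E.comm b hb f hf) a).eq
  calc ⁅a * b, f⁆ = a * ⁅b, f⁆ * (a⁻¹ * ⁅a, f⁆) := by
        simp only [commutatorElement_def]
        group
    _ = ⁅b, f⁆ * ⁅a, f⁆ := by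
        rw [← h]
        group

theorem step_mul_right (E : Ext Ω z q) (a : Γ) {e b : Γ} (he : e ∈ Ω) (hb : b ∈ Ω) :
    ⁅e, a * b⁆ = ⁅e, a⁆ * ⁅e, b⁆ := by
  rw [← commutatorElement_inv, step_mul_left E a hb he, mul_inv_rev, commutatorElement_inv,
    commutatorElement_inv]

theorem step_pow_left (E : Ext Ω z q) {a f : Γ} (ha : a ∈ Ω) (hf : f ∈ Ω) (k : ℕ) :
    ⁅a ^ k, f⁆ = ⁅a, f⁆ ^ k := by
  induction k with
  | zero => simp
  | succ k ih => rw [pow_succ, step_mul_left E _ ha hf, ih, pow_succ']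

theorem step_pow_right (E : Ext Ω z q) {e a : Γ} (he : e ∈ Ω) (ha : a ∈ Ω) (k : ℕ) :
    ⁅e, a ^ k⁆ = ⁅e, a⁆ ^ k := by
  rw [← commutatorElement_inv, step_pow_left E ha he, ← inv_pow, commutatorElement_inv]

theorem step_iff_left (E : Ext Ω z q) {a b f : Γ} (ha : a ∈ Ω) (hb : b ∈ Ω) (hf : f ∈ Ω) :
    Commute (b⁻¹ * a) f ↔ ⁅a, f⁆ = ⁅b, f⁆ := by
  have h := step_mul_left E b (Ω.mul_mem (Ω.inv_mem hb) ha) hf
  rw [mul_inv_cancel_left] at h
  rw [← commutatorElement_eq_one_iff_commute, h, mul_eq_right]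

theorem step_iff_right (E : Ext Ω z q) {e a b : Γ} (he : e ∈ Ω) (ha : a ∈ Ω) (hb : b ∈ Ω) :
    Commute e (b⁻¹ * a) ↔ ⁅e, a⁆ = ⁅e, b⁆ := by
  rw [Commute.symm_iff, step_iff_left E ha hb he, ← inv_inj, commutatorElement_inv,
    commutatorElement_inv]

theorem step_gen (E : Ext Ω z q) {d c : Γ} (hd : d ∈ Subgroup.zpowers z) (h1 : d ≠ 1)
    (hc : c ∈ Subgroup.zpowers z) : ∃ k : ℕ, d ^ k = c := by
  have := Fact.mk E.prime
  obtain ⟨k, hk⟩ := mem_powers_of_prime_card (G := Subgroup.zpowers z) (p := q)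
    (by rw [Nat.card_zpowers, E.zord]) (g := ⟨d, hd⟩) (g' := ⟨c, hc⟩)
    (fun h => h1 (congrArg Subtype.val h))
  exact ⟨k, congrArg Subtype.val hk⟩

theorem step_dc1 (E : Ext Ω z q) {W : Subgroup Γ} (hW : W ≤ Ω) {a v : Γ} (ha : a ∈ Ω)
    (hv : v ∈ Ω) (h : ∀ e ∈ W, Commute e a → Commute e v) :
    ∃ c : ℕ, ∀ e ∈ W, ⁅e, v⁆ = ⁅e, a ^ c⁆ := by
  by_cases h0 : ∀ e ∈ W, Commute e a
  · exact ⟨0, fun e he => by
      rw [commutatorElement_eq_one_iff_commute.2 (h e he (h0 e he))]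
      simp⟩
  push Not at h0
  obtain ⟨e0, he0, hn⟩ := h0
  have hd := E.comm e0 (hW he0) a ha
  have h1 : ⁅e0, a⁆ ≠ 1 := fun h => hn (commutatorElement_eq_one_iff_commute.1 h)
  obtain ⟨c, hc⟩ := step_gen E hd h1 (E.comm e0 (hW he0) v hv)
  refine ⟨c, fun e he => ?_⟩
  obtain ⟨k, hk⟩ := step_gen E hd h1 (E.comm e (hW he) a ha)
  have hp := Ω.pow_mem (hW he0) k
  have h2 := h _ (W.mul_mem (W.inv_mem (W.pow_mem he0 k)) he)
    ((step_iff_left E (hW he) hp ha).2 (by rw [step_pow_left E (hW he0) ha, hk]))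
  rw [(step_iff_left E (hW he) hp hv).1 h2, step_pow_left E (hW he0) hv,
    step_pow_right E (hW he) ha, ← hc, ← hk, ← pow_mul, ← pow_mul, mul_comm]

theorem step_ins (E : Ext Ω z q) {W : Subgroup Γ} (hW : W ≤ Ω) {a v y : Γ} (ha : a ∈ Ω)
    (hv : v ∈ Ω) (hy : y ∈ Ω) (h : ∀ e ∈ W ⊓ Subgroup.centralizer {a}, ⁅e, v⁆ = ⁅e, y⁆) :
    ∃ c : ℕ, ∀ e ∈ W, ⁅e, v⁆ = ⁅e, y * a ^ c⁆ := by
  have hv' := Ω.mul_mem (Ω.inv_mem hy) hv
  obtain ⟨c, hc⟩ := step_dc1 E hW ha hv' fun e he hea => (step_iff_right E (hW he) hv hy).2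
    (h e ⟨he, Subgroup.mem_centralizer_singleton_iff.2 hea.eq⟩)
  refine ⟨c, fun e he => ?_⟩
  rw [step_mul_right E y (hW he) (Ω.pow_mem ha c), ← hc e he, ← step_mul_right E y (hW he) hv',
    mul_inv_cancel_left]

theorem step_dc (E : Ext Ω z q) {A : Subgroup Γ} (hA : A ≤ Ω) {v : Γ} (hv : v ∈ Ω) {s : Set Γ}
    (hs : s.Finite) : s ⊆ A → ∀ W : Subgroup Γ, W ≤ Ω →
      (∀ e ∈ W, (∀ y ∈ s, Commute e y) → Commute e v) → ∃ y ∈ A, ∀ e ∈ W, ⁅e, v⁆ = ⁅e, y⁆ := by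
  induction s, hs using Set.Finite.induction_on with
  | empty =>
    exact fun _ W _ h => ⟨1, A.one_mem, fun e he => by
      rw [commutatorElement_eq_one_iff_commute.2 (h e he (by simp))]
      simp⟩
  | @insert a s _ _ ih =>
    intro hsA W hW h
    have ha : a ∈ A := hsA (Set.mem_insert _ _)
    obtain ⟨y, hy, h1⟩ := ih ((Set.subset_insert _ _).trans hsA) (W ⊓ Subgroup.centralizer {a})
      (inf_le_left.trans hW) fun e he h2 => h e he.1 (by
        rintro y (rfl | hy)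
        exacts [Subgroup.mem_centralizer_singleton_iff.1 he.2, h2 y hy])
    obtain ⟨c, hc⟩ := step_ins E hW (hA ha) hv (hA hy) h1
    exact ⟨_, A.mul_mem hy (A.pow_mem ha c), hc⟩

theorem step_center (E : Ext Ω z q) {v : Γ} (hv : v ∈ Ω) (h : ∀ e ∈ Ω, Commute e v) :
    v ∈ Subgroup.zpowers z := by
  have := E.normal
  exact E.an (Ω ⊓ Subgroup.centralizer Ω)
    ⟨inferInstance, fun a ha b hb => hb.2 a ha.1⟩
    ⟨E.zmem, fun g _ => (E.zcen g).symm.eq⟩ inf_le_left ⟨hv, fun g hg => (h g hg).eq⟩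

theorem step_out (E : Ext Ω z q) {t : Γ} (ht : ¬ {c | ∃ e ∈ Ω, c = ⁅t, e⁆}.Finite)
    {A : Subgroup Γ} (hA : A ≤ Ω) (hz : z ∈ A) (hf : (A : Set Γ).Finite) :
    ∃ j ∈ Ω, (∀ y ∈ A, Commute j y) ∧ ⁅t, j⁆ ∉ A := by
  by_contra hn
  push Not at hn
  have : Finite A := hf
  have : Finite (Subgroup.zpowers z) := Nat.finite_of_card_ne_zero (by
    rw [Nat.card_zpowers, E.zord]
    exact E.prime.ne_zero)
  let g : Ω → A → Subgroup.zpowers z := fun e y => ⟨⁅(e : Γ), (y : Γ)⁆, E.comm _ e.2 _ (hA y.2)⟩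
  refine ht ((Set.finite_iUnion (f := fun φ => {c | ∃ e : Ω, g e = φ ∧ c = ⁅t, (e : Γ)⁆})
    fun φ => ?_).subset ?_)
  · by_cases hr : ∃ r, g r = φ
    · obtain ⟨r, rfl⟩ := hr
      refine (hf.image fun y => ⁅t, (r : Γ)⁆ * y).subset ?_
      rintro c ⟨e, he, rfl⟩
      have hj := Ω.mul_mem (Ω.inv_mem r.2) e.2
      have h1 := hn _ hj fun y hy => (step_iff_left E e.2 r.2 (hA hy)).2
        (congrArg Subtype.val (congrFun he ⟨y, hy⟩))
      have h2 := Subgroup.zpowers_le.2 hz (E.comm _ r.2 _ (hA h1))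
      refine ⟨_, A.mul_mem h2 h1, ?_⟩
      simp only [commutatorElement_def]
      group
    · refine Set.finite_empty.subset ?_
      rintro c ⟨e, he, -⟩
      exact hr ⟨e, he⟩
  · rintro c ⟨e, he, rfl⟩
    exact Set.mem_iUnion.2 ⟨g ⟨e, he⟩, ⟨e, he⟩, rfl, rfl⟩

theorem step_iter (E : Ext Ω z q) {t j y : Γ} {A : Subgroup Γ} (hj : j ∈ Ω)
    (hAt : ∀ x ∈ A, t * x * t⁻¹ ∈ A) (hc : ∀ x ∈ A, Commute j x) (hy : y ∈ A) {c : ℕ}
    (h : t * j * t⁻¹ = y * j ^ c) : ⁅t, j⁆ ∈ A := by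
  have := Fact.mk E.prime
  have h1 : ∀ n : ℕ, ∃ x ∈ A, t ^ n * j * (t ^ n)⁻¹ = x * j ^ c ^ n := by
    intro n
    induction n with
    | zero => exact ⟨1, A.one_mem, by simp⟩
    | succ n ih =>
      obtain ⟨x, hx, ih⟩ := ih
      refine ⟨t * x * t⁻¹ * y ^ c ^ n, A.mul_mem (hAt x hx) (A.pow_mem hy _), ?_⟩
      calc t ^ (n + 1) * j * (t ^ (n + 1))⁻¹ = t * (t ^ n * j * (t ^ n)⁻¹) * t⁻¹ := by
            rw [pow_succ']
            group
        _ = t * x * t⁻¹ * (t * j * t⁻¹) ^ c ^ n := by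
            rw [ih, conj_pow]
            simp only [mul_assoc, inv_mul_cancel_left]
        _ = _ := by
            rw [h, ((hc y hy).symm.pow_right c).mul_pow, ← pow_mul, ← pow_succ', mul_assoc]
            simp only [mul_assoc]
  obtain ⟨a, ha⟩ := E.qp t
  obtain ⟨x, hx, h2⟩ := h1 (q ^ a)
  have h3 : j ^ c ^ q ^ a = j ^ c := pow_eq_pow_of_modEq
    ((ZMod.natCast_eq_natCast_iff _ _ q).1 (by push_cast; exact ZMod.pow_card_pow _)) (E.exp j hj)
  rw [(ha j hj).eq, mul_inv_cancel_right, h3] at h2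
  have h4 : j ^ c = x⁻¹ * j := eq_inv_mul_of_mul_eq h2.symm
  rw [commutatorElement_def, h, h4, ← mul_assoc, mul_inv_cancel_right]
  exact A.mul_mem hy (A.inv_mem hx)

end

theorem Ext.step (hLF : LF Γ) {Ω : Subgroup Γ} {z : Γ} {q : ℕ} (E : Ext Ω z q) (t : Γ)
    (ht : ¬ {c | ∃ e ∈ Ω, c = ⁅t, e⁆}.Finite) (Y : Set Γ) (hY : Y.Finite) (hYΩ : Y ⊆ Ω) :
    ∃ j ∈ Ω, ∃ j' ∈ Ω, Commute j j' ∧ ¬ Commute j (t * j' * t⁻¹) ∧
      ∀ y ∈ Y, Commute j y ∧ Commute j' y ∧ Commute j (t * y * t⁻¹) ∧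
        Commute y (t * j' * t⁻¹) := by
  let K := Subgroup.closure (insert t (insert z Y))
  have hK : (K : Set Γ).Finite := hLF _ ((hY.insert z).insert t)
  have htK : t ∈ K := Subgroup.subset_closure (Set.mem_insert _ _)
  let A := Ω ⊓ K
  have hA : A ≤ Ω := inf_le_left
  have hf : (A : Set Γ).Finite := hK.subset fun x hx => hx.2
  have hz : z ∈ A := ⟨E.zmem, Subgroup.subset_closure (by simp)⟩
  have hYA : ∀ y ∈ Y, y ∈ A := fun y hy => ⟨hYΩ hy, Subgroup.subset_closure (by simp [hy])⟩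
  have hAt : ∀ g ∈ K, ∀ x ∈ A, g * x * g⁻¹ ∈ A := fun g hg x hx =>
    ⟨E.normal.conj_mem x hx.1 g, K.mul_mem (K.mul_mem hg hx.2) (K.inv_mem hg)⟩
  obtain ⟨j', hj', hc, hn⟩ := step_out E ht hA hz hf
  have hv := E.normal.conj_mem j' hj' t
  have key : ∃ j ∈ Ω ⊓ Subgroup.centralizer {j'}, (∀ y ∈ (A : Set Γ), Commute j y) ∧
      ¬ Commute j (t * j' * t⁻¹) := by
    by_contra h
    push Not at h
    obtain ⟨y, hy, h1⟩ := step_dc E hA hv hf subset_rfl _ inf_le_left h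
    obtain ⟨c, h2⟩ := step_ins E le_rfl hj' hv (hA hy) h1
    have hw := Ω.mul_mem (hA hy) (Ω.pow_mem hj' c)
    have h3 := step_center E (Ω.mul_mem (Ω.inv_mem hw) hv) fun e he =>
      (step_iff_right E he hv hw).2 (h2 e he)
    refine hn (step_iter E hj' (hAt t htK) hc (A.mul_mem (Subgroup.zpowers_le.2 hz h3) hy)
      (c := c) ?_)
    rw [mul_assoc _ y, (step_cen E h3 _).eq, mul_inv_cancel_left]
  obtain ⟨j, hj, h1, h2⟩ := key
  refine ⟨j, hj.1, j', hj', Subgroup.mem_centralizer_singleton_iff.1 hj.2, h2, fun y hy =>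
    ⟨h1 y (hYA y hy), hc y (hYA y hy), h1 _ (hAt t htK y (hYA y hy)), ?_⟩⟩
  have h3 := (hc _ (hAt t⁻¹ (K.inv_mem htK) y (hYA y hy))).eq
  calc y * (t * j' * t⁻¹) = t * (t⁻¹ * y * t⁻¹⁻¹ * j') * t⁻¹ := by group
    _ = t * j' * t⁻¹ * y := by
        rw [← h3]
        group

end Pool.Agent.P.MP_3fd745_al.Sv
end

-- part Pool.Agent.P.MP_3fd745_al.Sv.GoodJ
section

namespace Pool.Agent.P.MP_3fd745_al.Sv

open scoped commutatorElement

variable {Γ V : Type} [Group Γ] [AddCommGroup V]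

lemma goodj_comm {a b f : Γ} (h : ⁅a, f⁆ = ⁅b, f⁆) : Commute (b⁻¹ * a) f := by
  rw [commutatorElement_def, commutatorElement_def, mul_left_inj] at h
  calc b⁻¹ * a * f = b⁻¹ * (a * f * a⁻¹) * a := by group
    _ = f * (b⁻¹ * a) := by rw [h]; group

lemma goodj_sq {a b u v : Γ} (hav : Commute a v) (hbu : Commute b u) (h : ⁅a, u⁆ = ⁅b, v⁆)
    (hc : Commute (b⁻¹ * a) (v⁻¹ * u)) : ⁅a, u⁆ ^ 2 = 1 := by
  have h1 : b⁻¹ * v⁻¹ * (a * u) = v⁻¹ * b⁻¹ * (u * a) :=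
    calc b⁻¹ * v⁻¹ * (a * u) = b⁻¹ * (v⁻¹ * a) * u := by group
      _ = b⁻¹ * a * (v⁻¹ * u) := by rw [← hav.inv_right.eq]; group
      _ = v⁻¹ * (u * b⁻¹) * a := by rw [hc.eq]; group
      _ = v⁻¹ * b⁻¹ * (u * a) := by rw [← hbu.inv_left.eq]; group
  nth_rewrite 1 [sq, h]
  rw [commutatorElement_def, commutatorElement_def]
  calc b * v * b⁻¹ * v⁻¹ * (a * u * a⁻¹ * u⁻¹)
      = b * v * (b⁻¹ * v⁻¹ * (a * u)) * a⁻¹ * u⁻¹ := by group
    _ = 1 := by rw [h1]; group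

/-- all cross commutations between two pairs -/
def goodjR (t : Γ) (x p : Γ × Γ) : Prop :=
  Commute x.1 p.1 ∧ Commute x.1 p.2 ∧ Commute x.2 p.1 ∧ Commute x.2 p.2 ∧
    Commute x.1 (t * p.2 * t⁻¹) ∧ Commute p.1 (t * x.2 * t⁻¹)

lemma goodjR.symm {t : Γ} {x p : Γ × Γ} (h : goodjR t x p) : goodjR t p x :=
  ⟨h.1.symm, h.2.2.1.symm, h.2.1.symm, h.2.2.2.1.symm, h.2.2.2.2.2, h.2.2.2.2.1⟩

lemma goodj_seq (hLF : LF Γ) {Ω : Subgroup Γ} {z : Γ} {q : ℕ} (E : Ext Ω z q) (t : Γ)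
    (ht : ¬ {c | ∃ e ∈ Ω, c = ⁅t, e⁆}.Finite) (Y : Set Γ) (hY : Y.Finite) (hYΩ : Y ⊆ Ω) :
    ∃ f : ℕ → Γ × Γ, (∀ n, (f n).1 ∈ Ω ∧ (f n).2 ∈ Ω ∧ Commute (f n).1 (f n).2 ∧
      ¬ Commute (f n).1 (t * (f n).2 * t⁻¹) ∧ ∀ y ∈ Y, Commute (f n).1 y ∧ Commute (f n).2 y) ∧
      ∀ m n, m ≠ n → goodjR t (f m) (f n) := by
  obtain ⟨f, hf, hr⟩ := exists_seq_of_forall_finset_exists
    (fun p : Γ × Γ => p.1 ∈ Ω ∧ p.2 ∈ Ω ∧ Commute p.1 p.2 ∧
      ¬ Commute p.1 (t * p.2 * t⁻¹) ∧ ∀ y ∈ Y, Commute p.1 y ∧ Commute p.2 y) (goodjR t)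
    (fun s hs => by
      obtain ⟨j, hj, j', hj', h1, h2, h3⟩ := E.step hLF t ht
        (Y ∪ (Prod.fst '' (s : Set (Γ × Γ)) ∪ Prod.snd '' (s : Set (Γ × Γ))))
        (hY.union ((s.finite_toSet.image _).union (s.finite_toSet.image _))) (by
          rintro _ (hy | ⟨x, hx, rfl⟩ | ⟨x, hx, rfl⟩)
          exacts [hYΩ hy, (hs x hx).1, (hs x hx).2.1])
      refine ⟨(j, j'), ⟨hj, hj', h1, h2, fun y hy => ?_⟩, fun x hx => ?_⟩
      · exact ⟨(h3 y (Or.inl hy)).1, (h3 y (Or.inl hy)).2.1⟩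
      · obtain ⟨a1, a2, -, a4⟩ := h3 x.1 (Or.inr (Or.inl ⟨x, hx, rfl⟩))
        obtain ⟨b1, b2, b3, -⟩ := h3 x.2 (Or.inr (Or.inr ⟨x, hx, rfl⟩))
        exact ⟨a1.symm, a2.symm, b1.symm, b2.symm, a4, b3⟩)
  refine ⟨f, hf, fun m n hmn => ?_⟩
  rcases lt_or_gt_of_ne hmn with h | h
  exacts [hr m n h, (hr n m h).symm]

theorem Ext.good (hLF : LF Γ) {Ω : Subgroup Γ} {z : Γ} {q : ℕ} (E : Ext Ω z q) (t : Γ)
    (ht : ¬ {c | ∃ e ∈ Ω, c = ⁅t, e⁆}.Finite) (Y : Set Γ) (hY : Y.Finite) (hYΩ : Y ⊆ Ω)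
    (hYc : ∀ a ∈ Y, ∀ b ∈ Y, Commute a b) :
    ∃ J : Set Γ, J.Finite ∧ J ⊆ Ω ∧ Y ⊆ J ∧ (∀ a ∈ J, ∀ b ∈ J, Commute a b) ∧ Good Ω J t := by
  obtain ⟨f, hf, hr⟩ := goodj_seq hLF E t ht Y hY hYΩ
  have hz : IsOfFinOrder z := orderOf_pos_iff.1 (E.zord ▸ E.prime.pos)
  have : Finite (Subgroup.zpowers z) := finite_zpowers.2 hz
  let Z := Subgroup.zpowers z
  let _ : Fintype (Z × Z × Z × Z × Z) := Fintype.ofFinite _
  let N := Fintype.card (Z × Z × Z × Z × Z) + 1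
  have h11 : ∀ m n, Commute (f m).1 (f n).1 := fun m n => by
    rcases eq_or_ne m n with rfl | h
    exacts [Commute.refl _, (hr m n h).1]
  have h12 : ∀ m n, Commute (f m).1 (f n).2 := fun m n => by
    rcases eq_or_ne m n with rfl | h
    exacts [(hf m).2.2.1, (hr m n h).2.1]
  have h22 : ∀ m n, Commute (f m).2 (f n).2 := fun m n => by
    rcases eq_or_ne m n with rfl | h
    exacts [Commute.refl _, (hr m n h).2.2.2.1]
  refine ⟨Y ∪ (Set.range (fun i : Fin N => (f i).1) ∪ Set.range fun i : Fin N => (f i).2),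
    hY.union ((Set.finite_range _).union (Set.finite_range _)), ?_, Set.subset_union_left, ?_,
    fun f₁ h₁ f₂ h₂ => ?_⟩
  · rintro _ (hy | ⟨x, rfl⟩ | ⟨x, rfl⟩)
    exacts [hYΩ hy, (hf x).1, (hf x).2.1]
  · rintro a (ha | ⟨x, rfl⟩ | ⟨x, rfl⟩) b (hb | ⟨y, rfl⟩ | ⟨y, rfl⟩)
    exacts [hYc a ha b hb, ((hf y).2.2.2.2 a ha).1.symm, ((hf y).2.2.2.2 a ha).2.symm,
      ((hf x).2.2.2.2 b hb).1, h11 x y, h12 x y, ((hf x).2.2.2.2 b hb).2, (h12 y x).symm, h22 x y]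
  · have hu : ∀ n, t * (f n).2 * t⁻¹ ∈ Ω := fun n => E.normal.conj_mem _ (hf n).2.1 t
    obtain ⟨i, k, hik, he⟩ := Fintype.exists_ne_map_eq_of_card_lt
      (fun i : Fin N => ((⟨_, E.comm _ (hf i).1 _ h₁⟩, ⟨_, E.comm _ (hf i).1 _ h₂⟩,
        ⟨_, E.comm _ (hu i) _ h₁⟩, ⟨_, E.comm _ (hu i) _ h₂⟩,
        ⟨_, E.comm _ (hf i).1 _ (hu i)⟩) : Z × Z × Z × Z × Z)) (by simp [N])
    simp only [Prod.mk.injEq, Subtype.mk.injEq] at he
    obtain ⟨e1, e2, e3, e4, e5⟩ := he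
    have e6 : t * ((f k).2⁻¹ * (f i).2) * t⁻¹ = (t * (f k).2 * t⁻¹)⁻¹ * (t * (f i).2 * t⁻¹) := by
      group
    have hR := hr i k fun h => hik (Fin.ext h)
    refine ⟨(f k).1⁻¹ * (f i).1, mul_mem (inv_mem (Subgroup.subset_closure
        (Or.inr (Or.inl ⟨k, rfl⟩)))) (Subgroup.subset_closure (Or.inr (Or.inl ⟨i, rfl⟩))),
      (f k).2⁻¹ * (f i).2, mul_mem (inv_mem (Subgroup.subset_closure
        (Or.inr (Or.inr ⟨k, rfl⟩)))) (Subgroup.subset_closure (Or.inr (Or.inr ⟨i, rfl⟩))),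
      goodj_comm e1, goodj_comm e2, e6 ▸ goodj_comm e3, e6 ▸ goodj_comm e4, fun hc => ?_⟩
    rw [e6] at hc
    have h2 := goodj_sq hR.2.2.2.2.1 hR.2.2.2.2.2 e5 hc
    have hq : ⁅(f i).1, t * (f i).2 * t⁻¹⁆ ^ q = 1 :=
      E.exp _ ((Subgroup.zpowers_le.2 E.zmem) (E.comm _ (hf i).1 _ (hu i)))
    obtain ⟨m, rfl⟩ := E.odd
    rw [pow_succ, pow_mul, h2, one_pow, one_mul] at hq
    exact (hf i).2.2.2.1 (commutatorElement_eq_one_iff_commute.1 hq)

end Pool.Agent.P.MP_3fd745_al.Sv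
end

-- part Pool.Agent.P.MP_3fd745_al.Sv.Eigen
section

namespace Pool.Agent.P.MP_3fd745_al.Sv

open scoped commutatorElement

variable {Γ V : Type} [Group Γ] [AddCommGroup V]

lemma eigen_mul (ρ : Γ →* Module.End ℤ V) (g h : Γ) (v : V) : ρ (g * h) v = ρ g (ρ h v) := by
  rw [map_mul]; rfl

lemma eigen_norm (ρ : Γ →* Module.End ℤ V) {g : Γ} {q : ℕ} (hg : g ^ q = 1) (v : V) :
    ρ g (∑ i ∈ Finset.range q, ρ (g ^ i) v) = ∑ i ∈ Finset.range q, ρ (g ^ i) v := by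
  have h1 := Finset.sum_range_succ (fun i => ρ (g ^ i) v) q
  have h2 := Finset.sum_range_succ' (fun i => ρ (g ^ i) v) q
  rw [h1, hg, pow_zero] at h2
  rw [map_sum, add_right_cancel h2]
  refine Finset.sum_congr rfl fun i _ => ?_
  rw [← eigen_mul, pow_succ']

lemma eigen_keep (ρ : Γ →* Module.End ℤ V) {g h : Γ} (q : ℕ) (hc : Commute h g) {v : V}
    (hv : ρ h v = v) :
    ρ h (∑ i ∈ Finset.range q, ρ (g ^ i) v) = ∑ i ∈ Finset.range q, ρ (g ^ i) v := by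
  rw [map_sum]
  refine Finset.sum_congr rfl fun i _ => ?_
  rw [← eigen_mul, (hc.pow_right i).eq, eigen_mul, hv]

lemma eigen_step {Ω : Subgroup Γ} {z : Γ} {q : ℕ} (E : Ext Ω z q)
    (ρ : Γ →* Module.End ℤ V) (hq : ∀ v : V, q • v = 0 → v = 0)
    (hfree : ∀ ζ ∈ Subgroup.zpowers z, ζ ≠ 1 → ∀ v, ρ ζ v = v → v = 0)
    {w : V} (hw : w ≠ 0) (e : Γ) :
    ∃ k : ℕ, ∑ i ∈ Finset.range q, ρ ((z ^ k * e) ^ i) w ≠ 0 := by
  by_contra hcon
  push Not at hcon
  have hzq : z ^ q = 1 := by rw [← E.zord]; exact pow_orderOf_eq_one z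
  have h0 : ∑ k ∈ Finset.range q, ∑ i ∈ Finset.range q, ρ ((z ^ k * e) ^ i) w = 0 :=
    Finset.sum_eq_zero fun k _ => hcon k
  rw [Finset.sum_comm] at h0
  have h1 : ∀ i k : ℕ, ρ ((z ^ k * e) ^ i) w = ρ ((z ^ i) ^ k) (ρ (e ^ i) w) := fun i k => by
    rw [((E.zcen e).pow_left k).mul_pow, ← pow_mul, mul_comm k i, pow_mul, eigen_mul]
  simp only [h1] at h0
  rw [Finset.sum_eq_single 0] at h0
  · apply hw
    apply hq
    simpa using h0
  · intro i hi hi0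
    refine hfree (z ^ i) (Subgroup.npow_mem_zpowers z i) ?_ _ (eigen_norm ρ ?_ _)
    · refine pow_ne_one_of_lt_orderOf hi0 ?_
      rw [E.zord]; exact Finset.mem_range.1 hi
    · rw [← pow_mul, mul_comm, pow_mul, hzq, one_pow]
  · intro h
    exact absurd (Finset.mem_range.2 E.prime.pos) h

theorem Ext.eigen [Nontrivial V] {Ω : Subgroup Γ} {z : Γ} {q : ℕ} (E : Ext Ω z q)
    (ρ : Γ →* Module.End ℤ V) (hq : ∀ v : V, q • v = 0 → v = 0)
    (hfree : ∀ ζ ∈ Subgroup.zpowers z, ζ ≠ 1 → ∀ v, ρ ζ v = v → v = 0)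
    (J : Set Γ) (hJ : J.Finite) (hJΩ : J ⊆ Ω) (hJc : ∀ a ∈ J, ∀ b ∈ J, Commute a b) :
    ∃ w : V, w ≠ 0 ∧ ∀ e ∈ Subgroup.closure J, ∃ ζ ∈ Subgroup.zpowers z, ρ (ζ * e) w = w := by
  have hcen : ∀ ζ ∈ Subgroup.zpowers z, ∀ g, Commute ζ g := by
    rintro _ ⟨k, rfl⟩ g
    exact (E.zcen g).zpow_left k
  have key : ∃ w : V, w ≠ 0 ∧ ∀ e ∈ J, ∃ ζ ∈ Subgroup.zpowers z, ρ (ζ * e) w = w := by
    induction J, hJ using Set.Finite.induction_on with
    | empty =>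
      obtain ⟨w, hw⟩ := exists_ne (0 : V)
      exact ⟨w, hw, fun e he => absurd he (Set.notMem_empty e)⟩
    | @insert e s _ _ ih =>
      obtain ⟨w, hw, h⟩ := ih (fun x hx => hJΩ (Set.mem_insert_of_mem _ hx))
        (fun a ha b hb => hJc a (Set.mem_insert_of_mem _ ha) b (Set.mem_insert_of_mem _ hb))
      obtain ⟨k, hk⟩ := eigen_step E ρ hq hfree hw e
      refine ⟨_, hk, ?_⟩
      rintro x (rfl | hx)
      · refine ⟨z ^ k, Subgroup.npow_mem_zpowers z k, eigen_norm ρ ?_ w⟩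
        exact E.exp _ (Ω.mul_mem (Ω.pow_mem E.zmem k) (hJΩ (Set.mem_insert _ _)))
      · obtain ⟨ζ, hζ, hx'⟩ := h x hx
        refine ⟨ζ, hζ, eigen_keep ρ q ?_ hx'⟩
        refine Commute.mul_left (hcen ζ hζ _) (Commute.mul_right ?_ ?_)
        · exact ((E.zcen x).pow_left k).symm
        · exact hJc x (Set.mem_insert_of_mem _ hx) e (Set.mem_insert _ _)
  obtain ⟨w, hw, h⟩ := key
  refine ⟨w, hw, fun e he => ?_⟩
  induction he using Subgroup.closure_induction with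
  | mem x hx => exact h x hx
  | one => exact ⟨1, Subgroup.one_mem _, by simp⟩
  | mul x y _ _ hx hy =>
    obtain ⟨ζ, hζ, hx⟩ := hx
    obtain ⟨η, hη, hy⟩ := hy
    refine ⟨ζ * η, Subgroup.mul_mem _ hζ hη, ?_⟩
    have : ζ * η * (x * y) = ζ * x * (η * y) := by
      rw [mul_assoc, ← mul_assoc η, (hcen η hη x).eq]; simp only [mul_assoc]
    rw [this, eigen_mul, hy, hx]
  | inv x _ hx =>
    obtain ⟨ζ, hζ, hx⟩ := hx
    refine ⟨ζ⁻¹, Subgroup.inv_mem _ hζ, ?_⟩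
    have : ζ⁻¹ * x⁻¹ * (ζ * x) = 1 := by
      rw [← mul_inv_rev, ← (hcen ζ hζ x).eq, inv_mul_cancel]
    conv_lhs => rw [← hx, ← eigen_mul, this]
    simp

end Pool.Agent.P.MP_3fd745_al.Sv
end

-- part Pool.Agent.P.MP_3fd745_al.Sv.CaseTwo
section

namespace Pool.Agent.P.MP_3fd745_al.Sv

open scoped commutatorElement

variable {Γ V : Type} [Group Γ] [AddCommGroup V]

lemma casetwo_mono {Ω : Subgroup Γ} {J J' : Set Γ} {t : Γ} (h : Good Ω J t) (hJ : J ⊆ J') :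
    Good Ω J' t := fun f₁ h₁ f₂ h₂ => by
  obtain ⟨e, he, e', he', r⟩ := h f₁ h₁ f₂ h₂
  exact ⟨e, Subgroup.closure_mono hJ he, e', Subgroup.closure_mono hJ he', r⟩

lemma casetwo_comm (ρ : Γ →* Module.End ℤ V) {a b : Γ} (h : Commute a b) :
    Commute (ρ a - 1) (ρ b - 1) :=
  (((h.map ρ).sub_right (Commute.one_right _)).sub_left (Commute.one_left _))

lemma casetwo_far {Ω : Subgroup Γ} {z : Γ} {q : ℕ} (E : Ext Ω z q) (ρ : Γ →* Module.End ℤ V)
    (hfree : ∀ ζ ∈ Subgroup.zpowers z, ζ ≠ 1 → ∀ v, ρ ζ v = v → v = 0) {J : Set Γ} (hJ : J ⊆ Ω)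
    {w : V} (hw : ∀ e ∈ Subgroup.closure J, ∃ ζ ∈ Subgroup.zpowers z, ρ (ζ * e) w = w) {t : Γ}
    (h : Good Ω J t) : Far {α | ∃ e ∈ Ω, α = ρ e - 1} w (ρ t w) := by
  rintro _ ⟨f₁, h₁, rfl⟩ _ ⟨f₂, h₂, rfl⟩
  obtain ⟨e, he, e', he', c1, c2, c3, c4, hn⟩ := h f₁ h₁ f₂ h₂
  obtain ⟨ζ, hζ, x1⟩ := hw e he
  obtain ⟨ζ', hζ', x2⟩ := hw e' he'
  have hc : ∀ y ∈ Subgroup.zpowers z, ∀ g, Commute y g := by
    rintro _ ⟨k, rfl⟩ g
    exact (E.zcen g).zpow_left k
  have hz : Subgroup.zpowers z ≤ Ω := (Subgroup.zpowers_le).2 E.zmem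
  have hcl : Subgroup.closure J ≤ Ω := (Subgroup.closure_le _).2 hJ
  have ha : ζ * e ∈ Ω := Ω.mul_mem (hz hζ) (hcl he)
  have hb : ζ' * (t * e' * t⁻¹) ∈ Ω := Ω.mul_mem (hz hζ') (E.normal.conj_mem _ (hcl he') t)
  refine ⟨_, ⟨_, ha, rfl⟩, _, ⟨_, hb, rfl⟩, ?_, ?_,
    casetwo_comm ρ ((hc ζ hζ _).mul_left c1), casetwo_comm ρ ((hc ζ hζ _).mul_left c2),
    casetwo_comm ρ ((hc ζ' hζ' _).mul_left c3), casetwo_comm ρ ((hc ζ' hζ' _).mul_left c4),
    fun v y1 y2 => ?_⟩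
  · rw [LinearMap.sub_apply, x1, Module.End.one_apply, sub_self]
  · have : ζ' * (t * e' * t⁻¹) * t = t * (ζ' * e') := by
      rw [← mul_assoc t, ← (hc ζ' hζ' t).eq]; group
    rw [LinearMap.sub_apply, ← rho_mul, this, rho_mul, x2, Module.End.one_apply, sub_self]
  · rw [LinearMap.sub_apply, Module.End.one_apply, sub_eq_zero] at y1 y2
    refine hfree _ (E.comm _ ha _ hb) (fun h1 => hn ?_) v ?_
    · have h2 := commutatorElement_eq_one_iff_commute.1 h1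
      have h3 : Commute e (ζ' * (t * e' * t⁻¹)) := by
        simpa using ((hc ζ hζ _).inv_left).mul_left h2
      simpa using ((hc ζ' hζ' e).symm.inv_right).mul_right h3
    · have i1 : ∀ g, ρ g v = v → ρ g⁻¹ v = v := fun g hg => by
        conv_lhs => rw [← hg]
        exact rho_inv ρ g v
      rw [commutatorElement_def, rho_mul, i1 _ y2, rho_mul, i1 _ y1, rho_mul, y2, y1]

theorem case_two [Group.IsSolvable Γ] [Nontrivial V] (hLF : LF Γ)
    (hodd : ∀ g : Γ, ∃ n : ℕ, Odd n ∧ g ^ n = 1) {Ω : Subgroup Γ} {z : Γ} {q : ℕ}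
    (E : Ext Ω z q) (ρ : Γ →* Module.End ℤ V) (hq : ∀ v : V, q • v = 0 → v = 0)
    (hfree : ∀ ζ ∈ Subgroup.zpowers z, ζ ≠ 1 → ∀ v, ρ ζ v = v → v = 0) : ¬ Tri ρ := by
  intro hT
  obtain ⟨S, hS, -, hm⟩ := E.proper
  obtain ⟨x, u, hxu, hx, hu, hy, hR⟩ := hT S hS
  have inf : ∀ t, t ∉ S → ¬ {c | ∃ e ∈ Ω, c = ⁅t, e⁆}.Finite := fun t ht hf =>
    ht ((hm t).2 (E.finitary t hf))
  obtain ⟨J1, a1, b1, -, c1, d1⟩ := E.good hLF x (inf x hx) ∅ Set.finite_empty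
    (Set.empty_subset _) (by simp)
  obtain ⟨J2, a2, b2, s2, c2, d2⟩ := E.good hLF u (inf u hu) J1 a1 b1 c1
  obtain ⟨J3, a3, b3, s3, c3, d3⟩ := E.good hLF _ (inf _ hy) J2 a2 b2 c2
  obtain ⟨w, hw0, hw⟩ := E.eigen ρ hq hfree J3 a3 b3 c3
  refine hw0 (far_tri ρ hodd {α | ∃ e ∈ Ω, α = ρ e - 1} ⟨_, 1, Ω.one_mem, rfl⟩ ?_ x u hxu hR w
    (casetwo_far E ρ hfree b3 hw (casetwo_mono d1 (s2.trans s3)))
    (casetwo_far E ρ hfree b3 hw (casetwo_mono d2 s3)) (casetwo_far E ρ hfree b3 hw d3))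
  rintro g _ ⟨e, he, rfl⟩
  refine ⟨_, E.normal.conj_mem e he g, ?_⟩
  rw [mul_sub, sub_mul, mul_one, ← map_mul, ← map_mul, ← map_mul, mul_inv_cancel, map_one]

end Pool.Agent.P.MP_3fd745_al.Sv
end

-- part Pool.Agent.P.MP_3fd745_al.Sv.Claim
section

/-! Simple modules with the triple property are trivial. -/

namespace Pool.Agent.P.MP_3fd745_al.Sv

variable {Γ V : Type} [Group Γ] [AddCommGroup V]

theorem claim [Group.IsSolvable Γ] (hT : TON Γ) (ρ : Γ →* Module.End ℤ V)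
    (hinj : Function.Injective ρ) (hS : Simp ρ) (l : ℕ) (hl : l.Prime) (hlV : ∀ v : V, l • v = 0)
    (hTri : Tri ρ) (g : Γ) : g = 1 := by
  by_contra hg
  have hLF : LF Γ := lf_of_solvable hT.fin
  have hV : Nontrivial V := by
    by_contra h
    rw [not_nontrivial_iff_subsingleton] at h
    exact hg (hinj (by ext v; exact Subsingleton.elim _ _))
  have hcop := an_coprime hLF hT.fin ρ hinj hS l hl hlV
  have hfree : ∀ B : Subgroup Γ, AN B → ∀ b ∈ B, b ≠ 1 → ∀ v, ρ b v = v → v = 0 :=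
    fun B hB b hb hb1 v hv => by
      by_contra h0
      exact case_one ρ hT.odd hinj hS l hl hlV B hB (hcop B hB) b hb hb1 v h0 hv hTri
  by_cases hab : ∀ a b : Γ, Commute a b
  · obtain ⟨x, u, -, hx, hu, hxu, h⟩ := hTri ⊥ fun h => hg (by
      rw [← Subgroup.mem_bot, h]; trivial)
    obtain ⟨w, hw⟩ := exists_ne (0 : V)
    obtain ⟨s, e1, e2⟩ := h w
    have hf := hfree ⊤ ⟨inferInstance, fun a _ b _ => hab a b⟩
    obtain rfl : s = 1 := by
      by_contra hs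
      have := hf s trivial hs (ρ u w - ρ x w)
        (by rw [map_sub, sub_eq_sub_iff_add_eq_add, e1, add_comm])
      exact hw (hf (x⁻¹ * u) trivial hxu w (by rw [rho_mul, sub_eq_zero.1 this, rho_inv]))
    simp only [map_one, Module.End.one_apply] at e2
    have := hf x trivial hx (ρ u w - w)
      (by rw [map_sub, sub_eq_sub_iff_add_eq_add, ← e2, add_comm])
    exact hw (hf u trivial hu w (sub_eq_zero.1 this))
  · push Not at hab
    have hP := pw_of_free ρ hT.fin l hl hlV hcop hfree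
    obtain ⟨K, hK, hna, h2⟩ := exists_class_two hT hP hab
    obtain ⟨q, Ω, hq, hqo, hΩ, hle, hexp, hna'⟩ := exists_omega hT hP K hK hna h2
    obtain ⟨z, E⟩ := exists_ext hT hP q Ω hq hqo hΩ hexp hna'
      fun a ha b hb c hc => h2 a (hle ha) b (hle hb) c (hle hc)
    have hZ : AN (Subgroup.zpowers z) := by
      refine ⟨⟨?_⟩, ?_⟩
      · rintro _ ⟨k, rfl⟩ g
        rw [← ((E.zcen g).zpow_left k).eq, mul_inv_cancel_right]
        exact ⟨k, rfl⟩
      · rintro _ ⟨k, rfl⟩ b -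
        exact (E.zcen b).zpow_left k
    refine case_two hLF hT.odd E ρ (fun v hv => ?_) (hfree _ hZ) hTri
    have h1 := hcop _ hZ z (Subgroup.mem_zpowers z)
    rw [E.zord, ← hl.coprime_iff_not_dvd] at h1
    exact AddMonoid.addOrderOf_eq_one_iff.1 (Nat.eq_one_of_dvd_coprimes h1
      (addOrderOf_dvd_of_nsmul_eq_zero (hlV v)) (addOrderOf_dvd_of_nsmul_eq_zero hv))

end Pool.Agent.P.MP_3fd745_al.Sv
end

-- part Pool.Agent.P.MP_3fd745_al.Sv.Tors
section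

/-! The commutator of an element of order `n` with the module is `n`-primary torsion. -/

namespace Pool.Agent.P.MP_3fd745_al.Sv

variable {Γ V : Type} [Group Γ] [AddCommGroup V]

lemma tri_comap {Γ' V' : Type} [Group Γ'] [AddCommGroup V'] {ρ : Γ →* Module.End ℤ V}
    {ρ' : Γ' →* Module.End ℤ V'} (f : Γ →* Γ') (hf : Function.Surjective f)
    (h : ∀ x u, TR ρ x u → TR ρ' (f x) (f u)) (hT : Tri ρ) : Tri ρ' := fun S hS => by
  obtain ⟨x, u, h1, h2, h3, h4, h5⟩ := hT (S.comap f) fun e => hS (by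
    rw [← Subgroup.map_comap_eq_self_of_surjective hf S, e, Subgroup.map_top_of_surjective f hf])
  exact ⟨f x, f u, h1.map f, h2, h3, by simpa using h4, h x u h5⟩

lemma tors_prime (o n : ℕ) (hn : n ≠ 0) (h : ∀ k, ¬ o ∣ n ^ k) :
    ∃ l : ℕ, l.Prime ∧ l ∣ o ∧ ¬ l ∣ n := by
  by_cases ho : o = 0
  · obtain ⟨l, h1, h2⟩ := Nat.exists_infinite_primes (n + 1)
    exact ⟨l, h2, ho ▸ dvd_zero l, fun h => by have := Nat.le_of_dvd (by omega) h; omega⟩
  by_contra hc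
  push Not at hc
  refine h o ((Nat.factorization_prime_le_iff_dvd ho (pow_ne_zero _ hn)).1 fun p hp => ?_)
  by_cases hpo : p ∣ o
  · rw [Nat.factorization_pow, Finsupp.smul_apply, smul_eq_mul]
    exact (Nat.factorization_lt p ho).le.trans
      (Nat.le_mul_of_pos_right _ (hp.factorization_pos_of_dvd hn (hc p hp hpo)))
  · simp [Nat.factorization_eq_zero_of_not_dvd hpo]

theorem tors_of_tri [Group.IsSolvable Γ] (hT : TON Γ) (ρ : Γ →* Module.End ℤ V) (hTri : Tri ρ)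
    (g : Γ) (n : ℕ) (hn : n ≠ 0) (hg : g ^ n = 1) (u : V) :
    ∃ k : ℕ, n ^ k • (ρ g u - u) = 0 := by
  by_contra hc
  set v := ρ g u - u with hv
  obtain ⟨l, hl, hlo, hln⟩ := tors_prime (addOrderOf v) n hn fun k h =>
    hc ⟨k, addOrderOf_dvd_iff_nsmul_eq_zero.1 h⟩
  let W₀ := Submodule.span ℤ {y | ∃ i ∈ ({(l : ℤ)} : Set ℤ), ∃ g,
    y = (algebraMap ℤ (Module.End ℤ V)) i (ρ g v)}
  have hW₀ : v ∉ W₀ := fun h => by
    obtain ⟨r, h1, h2⟩ := nak (lf_of_solvable hT.fin) ρ ℤ (algebraMap _ _) (Ideal.span {(l : ℤ)})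
      {(l : ℤ)} (fun g i hi => ⟨i, Ideal.subset_span hi, fun x => by simp⟩) v h
    have h3 : (l : ℤ) ∣ r := (Int.natCast_dvd_natCast.2 hlo).trans
      (addOrderOf_dvd_iff_zsmul_eq_zero.2 (by simpa using h2))
    have h4 := dvd_sub h3 (Ideal.mem_span_singleton.1 h1)
    rw [sub_sub_cancel] at h4
    exact hl.one_lt.ne' (by exact_mod_cast Int.eq_one_of_dvd_one (by positivity) h4)
  have hW₀' : ∀ g, ∀ y ∈ W₀, ρ g y ∈ W₀ := fun g y hy => by
    refine Submodule.span_le.2 (show _ ⊆ ((W₀.comap (ρ g) : Submodule ℤ V) : Set V) from ?_) hy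
    rintro _ ⟨i, hi, g', rfl⟩
    exact Submodule.subset_span ⟨i, hi, g * g', by simp⟩
  obtain ⟨W, -, ⟨hW1, hW2, hW3⟩, hmax⟩ := zorn_le_nonempty₀
    {W : Submodule ℤ V | (∀ g, ∀ y ∈ W, ρ g y ∈ W) ∧ W₀ ≤ W ∧ v ∉ W}
    (fun c hc hch y hy => ⟨sSup c, ⟨fun g x hx => by
        obtain ⟨p, hp, hx⟩ := (Submodule.mem_sSup_of_directed ⟨y, hy⟩ hch.directedOn).1 hx
        exact le_sSup hp ((hc hp).1 g x hx), (hc hy).2.1.trans (le_sSup hy), fun h => by
        obtain ⟨p, hp, hx⟩ := (Submodule.mem_sSup_of_directed ⟨y, hy⟩ hch.directedOn).1 h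
        exact (hc hp).2.2 hx⟩, fun z hz => le_sSup hz⟩) W₀ ⟨hW₀', le_rfl, hW₀⟩
  let ρ₁ := Representation.quotient ρ W hW1
  have h₁ : ∀ g y, ρ₁ g (W.mkQ y) = W.mkQ (ρ g y) := fun _ _ => rfl
  let A := Submodule.span ℤ (Set.range fun g => W.mkQ (ρ g v))
  have hA : ∀ g, A ≤ A.comap (ρ₁ g) := fun g => Submodule.span_le.2 (by
    rintro _ ⟨g', rfl⟩
    exact Submodule.subset_span ⟨g * g', congrArg W.mkQ (rho_mul ρ g g' v)⟩)
  let ρ₂ := Representation.subrepresentation ρ₁ A hA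
  let ρ₃ : Γ ⧸ ρ₂.ker →* Module.End ℤ A := QuotientGroup.lift ρ₂.ker ρ₂ le_rfl
  have h₃ : ∀ (g : Γ) (a : A), (ρ₃ (QuotientGroup.mk' _ g) a : V ⧸ W) = ρ₁ g a := fun _ _ => rfl
  have hs := QuotientGroup.mk'_surjective ρ₂.ker
  have hvA : W.mkQ v ∈ A := Submodule.subset_span ⟨1, by simp⟩
  have key := claim (hT.of_surj _ hs) ρ₃ ((injective_iff_map_eq_one _).2 fun a ha => by
      obtain ⟨a, rfl⟩ := hs a
      exact (QuotientGroup.eq_one_iff a).2 ha) (fun W' hW' => ?_) l hl (fun a => ?_)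
    (tri_comap _ hs (fun x u h w => ?_) hTri)
  · have h1 : ∀ g, ρ g v - v ∈ W := fun g => by
      have := h₃ g ⟨_, hvA⟩
      rw [key (QuotientGroup.mk' _ g), map_one] at this
      exact (Submodule.Quotient.eq W).1 this.symm
    have h2 : ∀ k : ℕ, ρ (g ^ k) u - u - k • v ∈ W := fun k => by
      induction k with
      | zero => simp
      | succ k ih =>
        convert W.add_mem ih (h1 (g ^ k)) using 1
        rw [pow_succ, rho_mul, hv, map_sub, succ_nsmul]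
        abel
    have h3 : n • v ∈ W := by simpa [hg] using h2 n
    have h4 : l • v ∈ W := hW2 (Submodule.subset_span ⟨l, rfl, 1, by simp⟩)
    obtain ⟨a, b, e⟩ := Nat.isCoprime_iff_coprime.2 (hl.coprime_iff_not_dvd.2 hln)
    refine hW3 ?_
    convert W.add_mem (W.smul_mem a h4) (W.smul_mem b h3) using 1
    rw [← natCast_zsmul, ← natCast_zsmul, smul_smul, smul_smul, ← add_smul, e, one_smul]
  · by_cases h0 : W' = ⊥
    · exact Or.inl h0
    right
    let W'' := (W'.map A.subtype).comap W.mkQ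
    have hle : W ≤ W'' := Submodule.le_comap_mkQ _ _
    have hinv : ∀ g, ∀ y ∈ W'', ρ g y ∈ W'' := by
      rintro g y ⟨a, ha, e⟩
      exact ⟨_, hW' (QuotientGroup.mk' _ g) a ha, (h₃ g a).trans (by rw [← h₁, ← e]; rfl)⟩
    have hv' : v ∈ W'' := by
      by_contra h
      refine h0 ((Submodule.eq_bot_iff _).2 fun a ha => Subtype.ext ?_)
      obtain ⟨y, hy⟩ := W.mkQ_surjective a
      have : y ∈ W := hmax ⟨hinv, hW2.trans hle, h⟩ hle ⟨a, ha, hy.symm⟩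
      rw [← hy]
      exact (Submodule.Quotient.mk_eq_zero W).2 this
    have : A ≤ W'.map A.subtype := Submodule.span_le.2 (by
      rintro _ ⟨g, rfl⟩
      exact hinv g v hv')
    refine Submodule.eq_top_iff'.2 fun a => ?_
    obtain ⟨b, hb, e⟩ := this a.2
    rwa [← show b = a from Subtype.ext e]
  · obtain ⟨a, ha⟩ := a
    refine Subtype.ext ?_
    change l • a = 0
    induction ha using Submodule.span_induction with
    | mem y hy =>
      obtain ⟨g, rfl⟩ := hy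
      rw [← map_nsmul]
      exact (Submodule.Quotient.mk_eq_zero W).2
        (hW2 (Submodule.subset_span ⟨l, rfl, g, by simp⟩))
    | zero => simp
    | add x y _ _ hx hy => rw [smul_add, hx, hy, add_zero]
    | smul c x _ hx => rw [smul_comm, hx, smul_zero]
  · obtain ⟨y, hy⟩ := W.mkQ_surjective w
    obtain ⟨s, e1, e2⟩ := h y
    refine ⟨QuotientGroup.mk' _ s, Subtype.ext ?_, Subtype.ext ?_⟩ <;>
      simp only [Submodule.coe_add, h₃, ← hy, h₁, ← map_add, e1, e2]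

end Pool.Agent.P.MP_3fd745_al.Sv
end

-- part Pool.Agent.P.MP_3fd745_al.Sv.Rigid
section

/-! A rigid subgroup, normal or not, gives a proper total subring. -/

namespace Pool.Agent.P.MP_3fd745_al.Sv

variable {D : Type} [DivisionRing D] {C : Type} {θ : D → C}

/-- a left invariant rigid colouring -/
structure Col (θ : D → C) : Prop where
  z : ∀ a, θ a = θ 0 → a = 0
  mul : ∀ g a b, θ a = θ b → θ (g * a) = θ (g * b)
  odd : ∀ t a, θ (t * (t * a)) = θ a → θ (t * a) = θ a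
  rig : ∀ a b, θ a ≠ θ b → θ (a + b) = θ a ∨ θ (a + b) = θ b

/-- `a` is small against `b` -/
def Ll (θ : D → C) (a b : D) : Prop := θ a ≠ θ b ∧ θ (a + b) = θ b

/-- the total preorder -/
def Le (θ : D → C) (a b : D) : Prop := Ll θ a b ∨ (θ a = θ b ∧ ∀ c, Ll θ c a → Ll θ c b)

lemma Ll.asymm {a b : D} (h : Ll θ a b) (h' : Ll θ b a) : False :=
  h.1 (by rw [← h'.2, add_comm, h.2])

namespace Col

variable (H : Col θ)
include H

lemma canc {g a b : D} (hg : g ≠ 0) (h : θ (g * a) = θ (g * b)) : θ a = θ b := by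
  simpa [hg] using H.mul g⁻¹ _ _ h

lemma neg (a : D) : θ (-a) = θ a := by
  simpa using H.odd (-1) a (by simp)

lemma lmul {g a b : D} (hg : g ≠ 0) (h : Ll θ a b) : Ll θ (g * a) (g * b) :=
  ⟨fun h' => h.1 (H.canc hg h'), by rw [← mul_add]; exact H.mul g _ _ h.2⟩

lemma tot {a b : D} (h : θ a ≠ θ b) : Ll θ a b ∨ Ll θ b a :=
  (H.rig a b h).symm.imp (fun h' => ⟨h, h'⟩) fun h' => ⟨h.symm, by rwa [add_comm]⟩

lemma ne0 {a b : D} (h : Ll θ a b) : b ≠ 0 := by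
  rintro rfl
  exact h.1 (by simpa using h.2)

lemma f1a {a b c : D} (h1 : Ll θ a b) (h2 : Ll θ b c) (h : θ a ≠ θ c) : Ll θ (a + b) c := by
  have e1 : θ (a + b) ≠ θ c := h1.2 ▸ h2.1
  refine ⟨e1, (H.rig _ _ e1).resolve_left fun h3 => ?_⟩
  rw [h1.2, add_assoc] at h3
  rcases H.rig a (b + c) (h2.2 ▸ h) with h4 | h4
  · exact h1.1 (h4.symm.trans h3)
  · exact h2.1 (h3.symm.trans (h4.trans h2.2))

lemma f1 {a b c : D} (h1 : Ll θ a b) (h2 : Ll θ b c) (h : θ a ≠ θ c) : Ll θ a c := by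
  refine ⟨h, (H.rig _ _ h).resolve_left fun h3 => ?_⟩
  have h4 := (H.f1a h1 h2 h).2
  rw [add_right_comm] at h4
  rcases H.rig (a + c) b (h3 ▸ h1.1) with h5 | h5
  · exact h (h3.symm.trans (h5.symm.trans h4))
  · exact h2.1 (h5.symm.trans h4)

lemma third {t a : D} (ht : t ≠ 0) (h : θ a ≠ θ (t * a)) :
    θ a ≠ θ (t * (t * a)) ∧ θ (t * a) ≠ θ (t * (t * a)) :=
  ⟨fun h' => h (H.odd t a h'.symm).symm, fun h' => h (H.canc ht h')⟩

lemma f2 {a b : D} (h : Ll θ a b) : Ll θ (-a) b := by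
  by_cases ha : a = 0
  · simpa [ha] using h
  refine (H.tot (by rw [H.neg]; exact h.1)).resolve_right fun h' => ?_
  obtain ⟨t, rfl⟩ : ∃ t, b = t * a := ⟨b * a⁻¹, by simp [ha]⟩
  have ht : t ≠ 0 := left_ne_zero_of_mul (H.ne0 h)
  obtain ⟨e1, e2⟩ := H.third ht h.1
  have h1 := H.lmul (neg_ne_zero.2 ht) h'
  rw [neg_mul_neg] at h1
  have h2 := H.lmul (g := -1) (by simp) (H.f1 h1 h' (by rw [neg_mul, H.neg, H.neg]; exact e1.symm))
  simp only [neg_mul, one_mul, neg_neg] at h2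
  exact h2.asymm (H.f1 h (H.lmul ht h) e1)

lemma f2' {a b : D} (h : Ll θ a b) : Ll θ a (-b) := by
  simpa using H.lmul (g := -1) (by simp) (H.f2 h)

lemma f3 {a b a' b' : D} (h1 : Ll θ a b) (h2 : Ll θ b a') (h3 : Ll θ a' b') (h4 : Ll θ b' a)
    (h : θ a = θ a') : False := by
  by_cases hb : θ b = θ b'
  swap
  · exact (H.f1 h4 h1 (Ne.symm hb)).asymm (H.f1 h2 h3 hb)
  obtain ⟨t, rfl⟩ : ∃ t, b = t * a := ⟨b * a⁻¹, by simp [H.ne0 h4]⟩
  have ht : t ≠ 0 := left_ne_zero_of_mul (H.ne0 h1)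
  obtain ⟨e1, e2⟩ := H.third ht h1.1
  have e3 := H.mul t _ _ h
  have e4 := H.mul t _ _ hb
  rcases H.tot (h ▸ e1 : θ a' ≠ _) with h5 | h5
  · have h6 := H.f1 h5 (H.lmul ht h2) (by rw [← e3]; exact h2.1.symm)
    have h7 := H.f1 h6 (H.lmul ht h3) (by rw [← e4, ← h]; exact e1)
    exact h2.asymm (H.f1 h7 (H.lmul ht h4) h2.1.symm)
  · have h6 := H.f1 h5 h3 (by rw [← hb]; exact e2.symm)
    exact (H.f1 h6 h4 e1.symm).asymm (H.f1 h1 (H.lmul ht h1) e1)

lemma flip {a b c : D} (h : θ a = θ b) (h1 : Ll θ c a) (h2 : ¬ Ll θ c b) : Ll θ b c :=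
  (H.tot (h ▸ h1.1 : θ c ≠ θ b)).resolve_left h2

lemma le_tot (a b : D) : Le θ a b ∨ Le θ b a := by
  by_cases h : θ a = θ b
  · by_contra hc
    simp only [Le, not_or, not_and, not_forall] at hc
    obtain ⟨c, h1, h2⟩ := hc.1.2 h
    obtain ⟨c', h3, h4⟩ := hc.2.2 h.symm
    exact H.f3 (H.flip h.symm h3 h4) h3 (H.flip h h1 h2) h1 h
  · exact (H.tot h).imp Or.inl Or.inl

lemma le_trans' {a b c : D} (h1 : Le θ a b) (h2 : Le θ b c) : Le θ a c := by
  rcases h1 with h1 | ⟨e1, h1⟩ <;> rcases h2 with h2 | ⟨e2, h2⟩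
  · by_cases h : θ a = θ c
    · exact Or.inr ⟨h, fun e he => by_contra fun hc => H.f3 h1 h2 (H.flip h he hc) he h⟩
    · exact Or.inl (H.f1 h1 h2 h)
  · exact Or.inl (h2 _ h1)
  · exact Or.inl ((H.tot (e1 ▸ h2.1 : θ a ≠ θ c)).resolve_right fun h => h2.asymm (h1 _ h))
  · exact Or.inr ⟨e1.trans e2, fun e he => h2 _ (h1 _ he)⟩

lemma le_mul {g a b : D} (hg : g ≠ 0) (h : Le θ a b) : Le θ (g * a) (g * b) := by
  refine h.imp (H.lmul hg) fun h => ⟨H.mul g _ _ h.1, fun c hc => ?_⟩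
  have := H.lmul hg (h.2 (g⁻¹ * c) (by simpa [hg] using H.lmul (inv_ne_zero hg) hc))
  simpa [hg] using this

lemma one_add {x : D} (h : Le θ x 1) : Le θ (x + 1) 1 := by
  rcases h with h | ⟨e, h⟩
  · refine Or.inr ⟨h.2, fun c hc => by_contra fun hc' => ?_⟩
    have h1 := H.flip h.2 hc hc'
    have hc0 := H.ne0 h1
    have key : ∀ g e : D, g ≠ 0 → Ll θ (g * 1) e → Ll θ e (g * (x + 1)) → θ (g * x) = θ e := by
      intro g e hg h2 h3
      by_contra h4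
      rw [mul_add] at h3
      exact h3.asymm (H.f1a (H.lmul hg h) h2 h4)
    have e1 := key 1 c one_ne_zero (by simpa using h1) (by simpa using hc)
    rw [one_mul] at e1
    obtain ⟨e2, e3⟩ := H.third (t := c) (a := 1) hc0 (by simpa using h1.1)
    simp only [mul_one] at e2 e3
    have h2 : Ll θ c (c * c) := by simpa using H.lmul hc0 h1
    have h3 : ¬ Ll θ (c * c) (x + 1) := fun h' => e3 (e1.symm.trans (by
      simpa using key 1 (c * c) one_ne_zero (by simpa using H.f1 h1 h2 e2) (by simpa using h')))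
    have e4 : θ (c * (x + 1)) = θ c := by simpa using H.mul c _ _ h.2
    have h4 : ¬ Ll θ (x + 1) (c * (x + 1)) := fun h' => e2 (by
      rw [← h.2, ← key c _ hc0 (by simpa using hc) h']; exact H.mul c _ _ e1)
    have h5 := (H.tot (a := x + 1) (b := c * (x + 1)) (by rw [e4]; exact hc.1.symm)).resolve_left h4
    exact h3 (H.f1 (H.lmul hc0 hc) h5 (by rw [h.2]; exact e2.symm))
  · by_cases hy : θ (x + 1) = θ 1
    · refine Or.inr ⟨hy, fun c hc => by_contra fun hc' => ?_⟩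
      have h1 := H.flip hy hc hc'
      have h2 : Ll θ (1 + c) x := ⟨by rw [h1.2, e]; exact h1.1.symm, by
        rw [e, ← hy, ← hc.2]; congr 1; abel⟩
      have h3 := (H.f2' (h _ h2)).2
      rw [H.neg, show 1 + c + -1 = c by abel] at h3
      exact h1.1 h3.symm
    · refine Or.inl ((H.tot hy).resolve_right fun h1 => hy ?_)
      have h3 := (H.f2 h1).2
      rw [show -1 + (x + 1) = x by abel] at h3
      exact h3.symm.trans e

lemma zero_le : Le θ 0 1 :=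
  Or.inl ⟨fun h => one_ne_zero (H.z 1 h.symm), by simp⟩

lemma total (hp : ∃ a, a ≠ 0 ∧ θ a ≠ θ 1) :
    ∃ V : Subring D, (∀ x, x ∈ V ∨ x⁻¹ ∈ V) ∧ ∃ x, x ∉ V := by
  have hmul : ∀ {x y : D}, Le θ x 1 → Le θ y 1 → Le θ (x * y) 1 := fun {x y} hx hy => by
    by_cases h0 : x = 0
    · simpa [h0] using H.zero_le
    · exact H.le_trans' (by simpa using H.le_mul h0 hy) hx
  have hadd : ∀ {x y : D}, Le θ x y → Le θ x 1 → Le θ y 1 → Le θ (x + y) 1 := fun {x y} h hx hy => by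
    by_cases h0 : y = 0
    · simpa [h0] using hx
    · have h1 := H.one_add (x := y⁻¹ * x) (by simpa [h0] using H.le_mul (inv_ne_zero h0) h)
      simpa [mul_add, h0] using hmul hy h1
  have hneg : Le θ (-1) 1 := Or.inr ⟨H.neg 1, fun c hc => by simpa using H.f2' hc⟩
  refine ⟨{ carrier := {x | Le θ x 1}
            mul_mem' := hmul
            one_mem' := Or.inr ⟨rfl, fun _ h => h⟩
            add_mem' := fun {x y} hx hy => ?_
            zero_mem' := H.zero_le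
            neg_mem' := fun {x} hx => by simpa using hmul hneg hx }, fun x => ?_, ?_⟩
  · rcases H.le_tot x y with h | h
    · exact hadd h hx hy
    · rw [add_comm]; exact hadd h hy hx
  · by_cases h0 : x = 0
    · left; rw [h0]; exact H.zero_le
    · refine (H.le_tot x 1).imp id fun h => ?_
      change Le θ x⁻¹ 1
      simpa [h0] using H.le_mul (inv_ne_zero h0) h
  · obtain ⟨a, h0, ha⟩ := hp
    have : ∃ b, Ll θ 1 b := (H.tot ha).elim
      (fun h => ⟨a⁻¹, by simpa [h0] using H.lmul (inv_ne_zero h0) h⟩) fun h => ⟨a, h⟩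
    obtain ⟨b, hb⟩ := this
    exact ⟨b, fun h => h.elim hb.asymm fun h => hb.1 h.1.symm⟩

end Col

theorem rigid_total (S : Subgroup Dˣ) (hS : S ≠ ⊤) (h2 : ∀ t : Dˣ, t ^ 2 ∈ S → t ∈ S)
    (hr : ∀ x u : Dˣ, (u : D) = 1 + x → x ∈ S ∨ u ∈ S ∨ x⁻¹ * u ∈ S) :
    ∃ V : Subring D, (∀ x, x ∈ V ∨ x⁻¹ ∈ V) ∧ ∃ x, x ∉ V := by
  let θ : D → Set D := fun a => {b | ∃ s ∈ S, b = a * s}
  have key : ∀ a b : D, θ a = θ b ↔ ∃ s ∈ S, a = b * s := fun a b => by
    constructor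
    · intro h
      have : a ∈ θ a := ⟨1, S.one_mem, by simp⟩
      rwa [h] at this
    · rintro ⟨s, hs, rfl⟩
      ext c
      constructor
      · rintro ⟨s', hs', rfl⟩
        exact ⟨s * s', S.mul_mem hs hs', by simp [mul_assoc]⟩
      · rintro ⟨s', hs', rfl⟩
        exact ⟨s⁻¹ * s', S.mul_mem (S.inv_mem hs) hs', by simp [mul_assoc]⟩
  have keyu : ∀ a b : Dˣ, θ a = θ b ↔ b⁻¹ * a ∈ S := fun a b => by
    rw [key]
    constructor
    · rintro ⟨s, hs, e⟩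
      rwa [show a = b * s from Units.ext e, inv_mul_cancel_left]
    · exact fun h => ⟨_, h, by simp⟩
  have hmul : ∀ g a b, θ a = θ b → θ (g * a) = θ (g * b) := fun g a b h => by
    obtain ⟨s, hs, rfl⟩ := (key _ _).1 h
    exact (key _ _).2 ⟨s, hs, (mul_assoc _ _ _).symm⟩
  have H : Col θ := by
    refine ⟨fun a h => ?_, hmul, fun t a h => ?_, fun a b h => ?_⟩
    · obtain ⟨s, -, e⟩ := (key _ _).1 h
      simpa using e
    · by_cases ha : a = 0
      · simp [ha]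
      by_cases ht : t = 0
      · simpa [ht] using h
      lift a to Dˣ using Ne.isUnit ha
      lift t to Dˣ using Ne.isUnit ht
      refine (keyu (t * a) a).2 (h2 _ ?_)
      convert (keyu (t * (t * a)) a).1 h using 1
      simp [sq, mul_assoc]
    · by_cases ha : a = 0
      · simp [ha]
      by_cases hb : b = 0
      · simp [hb]
      lift a to Dˣ using Ne.isUnit ha
      lift b to Dˣ using Ne.isUnit hb
      have hm : (-1 : Dˣ) ∈ S := h2 _ (by simp)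
      by_cases hab : (a : D) + b = 0
      · exact absurd ((key _ _).2 ⟨-1, hm, by simp [eq_neg_of_add_eq_zero_left hab]⟩) h
      obtain ⟨c, hc⟩ := Ne.isUnit hab
      rw [← hc, keyu, keyu]
      rcases hr (a⁻¹ * b) (a⁻¹ * c) (by simp [hc, mul_add]) with h1 | h1 | h1
      · exact absurd ((keyu b a).2 h1).symm h
      · exact Or.inl h1
      · exact Or.inr (by simpa [mul_assoc] using h1)
  obtain ⟨a, ha⟩ : ∃ a, a ∉ S := by
    by_contra h
    exact hS ((Subgroup.eq_top_iff' S).2 (by simpa using h))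
  exact H.total ⟨a, a.ne_zero, fun h => ha (by simpa using (keyu a 1).1 h)⟩

end Pool.Agent.P.MP_3fd745_al.Sv
end

-- part Pool.Agent.P.MP_3fd745_al.Sv.Conj
section

/-! Abelian normal sections of the multiplicative group have the triple property. -/

namespace Pool.Agent.P.MP_3fd745_al.Sv

open scoped commutatorElement

variable {D : Type} [DivisionRing D]

lemma conj_key {G : Type} [Group G] (π : Dˣ →* G) (p r δ : Dˣ) (h : (δ : D) = p - r)
    (hc : Commute (π p) (π r)) : Commute (π δ) (π p * (π r)⁻¹) := by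
  have h1 : Commute (δ * r⁻¹) (p * r⁻¹) := Units.ext (by
    have : ((δ * r⁻¹ : Dˣ) : D) = (p * r⁻¹ : Dˣ) - 1 := by simp [h, sub_mul]
    rw [Units.val_mul, Units.val_mul (p * r⁻¹), this]
    exact (Commute.refl _).sub_left (Commute.one_left _))
  have h2 := h1.map π
  simp only [map_mul, map_inv] at h2
  simpa using h2.mul_left (hc.symm.mul_right (Commute.refl _).inv_right)

lemma conj_rel {G : Type} [Group G] (π : Dˣ →* G) (U : Subgroup G) [hn : U.Normal]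
    (hU : ∀ a ∈ U, ∀ b ∈ U, Commute a b) (x u h : Dˣ) (hu : (u : D) = 1 + x) (hh : π h ∈ U) :
    ∃ s : G, s * (π u * π h * (π u)⁻¹ * (π x * π h * (π x)⁻¹)⁻¹) * s⁻¹ =
        π u * π h * (π u)⁻¹ * (π x * π h * (π x)⁻¹)⁻¹ ∧
      π x * (π h * (π u * π h * (π u)⁻¹)⁻¹) * (π x)⁻¹ =
        s * (π h * (π u * π h * (π u)⁻¹)⁻¹) * s⁻¹ := by
  have e : (((u * h * u⁻¹ : Dˣ) : D) - (x * h * x⁻¹ : Dˣ)) * x = h - (u * h * u⁻¹ : Dˣ) := by
    have : ((u * h * u⁻¹ : Dˣ) : D) * (1 + x) = (1 + x) * h := by rw [← hu]; simp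
    rw [mul_add, add_mul, mul_one, one_mul] at this
    rw [sub_mul, sub_eq_sub_iff_add_eq_add, add_comm, this]
    simp
  by_cases h0 : ((u * h * u⁻¹ : Dˣ) : D) - (x * h * x⁻¹ : Dˣ) = 0
  · rw [h0, zero_mul, eq_comm, sub_eq_zero, Units.val_inj] at e
    have := congrArg π e
    simp only [map_mul, map_inv] at this
    exact ⟨1, by simp, by rw [← this]; simp⟩
  · have hb := hn.conj_mem _ hh (π x)
    have hc := hn.conj_mem _ hh (π u)
    have h1 := conj_key π _ _ (Units.mk0 _ h0) rfl (by simpa using hU _ hc _ hb)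
    have h2 := conj_key π h (u * h * u⁻¹) (Units.mk0 _ h0 * x) e (by simpa using hU _ hh _ hc)
    simp only [map_mul, map_inv] at h1 h2
    generalize π (Units.mk0 _ h0) = d at h1 h2
    refine ⟨d⁻¹, by rw [h1.inv_left.eq]; simp, ?_⟩
    generalize π h * (π u * π h * (π u)⁻¹)⁻¹ = m at h2
    rw [inv_inv, mul_assoc d⁻¹, eq_inv_mul_iff_mul_eq, ← mul_assoc, ← mul_assoc, h2.eq,
      ← mul_assoc, mul_inv_cancel_right]

theorem comm_tors (hno : ∀ V : Subring D, (∀ x, x ∈ V ∨ x⁻¹ ∈ V) → ∀ x, x ∈ V)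
    {G : Type} [Group G] [Group.IsSolvable G] (π : Dˣ →* G) (hπ : Function.Surjective π)
    (U : Subgroup G) [U.Normal] (hU : ∀ a ∈ U, ∀ b ∈ U, Commute a b) (hT : TON (G ⧸ U))
    (g : G) (n : ℕ) (hn : n ≠ 0) (hg : g ^ n ∈ U) (u : G) (hu : u ∈ U) :
    ∃ k : ℕ, ⁅g, u⁆ ^ n ^ k = 1 := by
  let _ : CommGroup U := { (inferInstance : Group U) with
    mul_comm := fun a b => Subtype.ext (hU a a.2 b b.2) }
  let ρ₀ : G →* Module.End ℤ (Additive U) :=
    { toFun := fun g => (MonoidHom.toAdditive (MulAut.conjNormal g).toMonoidHom).toIntLinearMap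
      map_one' := by ext; simp
      map_mul' := fun a b => by ext; simp }
  let c : Additive U → G := fun a => (a.toMul : U)
  have hc : Function.Injective c := fun a b h => Additive.toMul.injective (Subtype.ext h)
  have c1 : ∀ a b, c (a - b) = c a * (c b)⁻¹ := fun a b => by simp [c, div_eq_mul_inv]
  let ρ : G ⧸ U →* Module.End ℤ (Additive U) := QuotientGroup.lift U ρ₀ fun a ha => by
    refine LinearMap.ext fun b => hc ?_
    change a * c b * a⁻¹ = c b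
    rw [(hU a ha (c b) b.toMul.2).eq, mul_inv_cancel_right]
  have c2 : ∀ g a, c (ρ (QuotientGroup.mk' U g) a) = g * c a * g⁻¹ := fun _ _ => rfl
  have hs := (QuotientGroup.mk'_surjective U).comp hπ
  have hTri : Tri ρ := fun S hS => by
    let f := (QuotientGroup.mk' U).comp π
    by_contra hcon
    refine (rigid_total (S.comap f) (fun e => hS (by
      rw [← Subgroup.map_comap_eq_self_of_surjective (f := f) hs S, e,
        Subgroup.map_top_of_surjective f hs])) (fun t ht => ?_) (fun x u hxu => ?_)).elim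
      fun V h => h.2.elim fun y hy => hy (hno V h.1 y)
    · obtain ⟨m, hm, e⟩ := hT.odd (f t)
      exact mem_of_pow_coprime (Nat.coprime_two_left.2 hm) ht
        (by rw [Subgroup.mem_comap, map_pow, e]; exact S.one_mem)
    · by_contra h
      simp only [not_or] at h
      refine hcon ⟨f x, f u, Commute.map (Units.ext ?_) f, h.1, h.2.1, by simpa using h.2.2,
        fun w => ?_⟩
      · rw [Units.val_mul, Units.val_mul, hxu]
        exact (Commute.one_right _).add_right (Commute.refl _)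
      · obtain ⟨h, hh⟩ := hπ (c w)
        obtain ⟨s, e1, e2⟩ := conj_rel π U hU x u h hxu (hh ▸ w.toMul.2)
        rw [hh] at e1 e2
        have a1 : ρ (QuotientGroup.mk' U s) (ρ (f u) w - ρ (f x) w) = ρ (f u) w - ρ (f x) w :=
          hc (by rw [c2, c1]; exact e1)
        have a2 : ρ (f x) (w - ρ (f u) w) = ρ (QuotientGroup.mk' U s) (w - ρ (f u) w) :=
          hc (by rw [c2, c1]; exact (c2 _ _).trans (by rw [c1]; exact e2))
        rw [map_sub, sub_eq_sub_iff_add_eq_add] at a1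
        rw [map_sub, map_sub, sub_eq_sub_iff_add_eq_add] at a2
        exact ⟨QuotientGroup.mk' U s, by rw [a1, add_comm], by rw [← a2, add_comm]⟩
  obtain ⟨k, hk⟩ := tors_of_tri hT ρ hTri (QuotientGroup.mk' U g) n hn
    (by rw [← map_pow]; exact (QuotientGroup.eq_one_iff _).2 hg) (Additive.ofMul ⟨u, hu⟩)
  refine ⟨k, ?_⟩
  have := congrArg c hk
  rw [show ∀ (m : ℕ) a, c (m • a) = c a ^ m from fun m a => by simp [c], c1, c2] at this
  exact this

end Pool.Agent.P.MP_3fd745_al.Sv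
end

-- part Pool.Agent.P.MP_3fd745_al.Sv.Lift
section

namespace Pool.Agent.P.MP_3fd745_al.Sv

open scoped commutatorElement

variable {Γ V : Type} [Group Γ] [AddCommGroup V]

/-- elements of an abelian subgroup killed by an exponent from a multiplicative set -/
def liftT (U : Subgroup Γ) (hU : ∀ a ∈ U, ∀ b ∈ U, Commute a b) (P : ℕ → Prop) (h1 : P 1)
    (hm : ∀ a b, P a → P b → P (a * b)) : Subgroup Γ where
  carrier := {u | u ∈ U ∧ ∃ m, P m ∧ u ^ m = 1}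
  one_mem' := ⟨U.one_mem, 1, h1, one_pow _⟩
  mul_mem' := by
    rintro a b ⟨ha, m, hm1, e1⟩ ⟨hb, m', hm2, e2⟩
    refine ⟨U.mul_mem ha hb, m * m', hm _ _ hm1 hm2, ?_⟩
    rw [(hU a ha b hb).mul_pow, pow_mul, e1, one_pow, one_mul, mul_comm m m', pow_mul, e2, one_pow]
  inv_mem' := by
    rintro a ⟨ha, m, hm1, e1⟩
    exact ⟨U.inv_mem ha, m, hm1, by rw [inv_pow, e1, inv_one]⟩

lemma lift_key (U : Subgroup Γ) [hN : U.Normal]
    (T : Subgroup Γ) {x y : Γ} (hc : ⁅x, y⁆ ∈ U) (hx : ∀ u ∈ U, ⁅x, u⁆ ∈ T) (k : ℕ) :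
    ⁅x ^ k, y⁆ ∈ U ∧ ⁅x ^ k, y⁆ * (⁅x, y⁆ ^ k)⁻¹ ∈ T := by
  induction k with
  | zero => simp [U.one_mem, T.one_mem]
  | succ k ih =>
    have e : ⁅x ^ (k + 1), y⁆ = x * ⁅x ^ k, y⁆ * x⁻¹ * ⁅x, y⁆ := by
      simp only [commutatorElement_def, pow_succ']
      group
    refine ⟨e ▸ U.mul_mem (hN.conj_mem _ ih.1 x) hc, ?_⟩
    have e2 : ⁅x ^ (k + 1), y⁆ * (⁅x, y⁆ ^ (k + 1))⁻¹
        = ⁅x, ⁅x ^ k, y⁆⁆ * (⁅x ^ k, y⁆ * (⁅x, y⁆ ^ k)⁻¹) := by
      rw [e, commutatorElement_def x ⁅x ^ k, y⁆]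
      generalize ⁅x ^ k, y⁆ = u
      generalize ⁅x, y⁆ = c
      group
    rw [e2]
    exact T.mul_mem (hx _ ih.1) ih.2

lemma lift_comm_mem (U : Subgroup Γ) [hN : U.Normal] (g : Γ) {u : Γ} (hu : u ∈ U) :
    ⁅g, u⁆ ∈ U :=
  U.mul_mem (hN.conj_mem _ hu g) (U.inv_mem hu)

lemma lift_kill (U : Subgroup Γ) [U.Normal] (hU : ∀ a ∈ U, ∀ b ∈ U, Commute a b)
    (h : ∀ (g : Γ) (n : ℕ), n ≠ 0 → g ^ n ∈ U → ∀ u ∈ U, ∃ k : ℕ, ⁅g, u⁆ ^ n ^ k = 1)
    {x y : Γ} {n : ℕ} (hn : n ≠ 0) (hx : x ^ n = 1) (hc : ⁅x, y⁆ ∈ U) :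
    ∃ k : ℕ, ⁅x, y⁆ ^ n ^ k = 1 := by
  have h1 := (lift_key U (liftT U hU (fun m => ∃ k, m = n ^ k) ⟨0, rfl⟩ (by
    rintro a b ⟨i, rfl⟩ ⟨j, rfl⟩
    exact ⟨i + j, (pow_add _ _ _).symm⟩)) hc (fun u hu => by
      obtain ⟨k, hk⟩ := h x n hn (hx ▸ U.one_mem) u hu
      exact ⟨lift_comm_mem U x hu, _, ⟨k, rfl⟩, hk⟩) n).2
  obtain ⟨-, m, ⟨k, rfl⟩, e⟩ := h1
  rw [hx, commutatorElement_one_left, one_mul, inv_pow, inv_eq_one, ← pow_mul, ← pow_succ'] at e
  exact ⟨_, e⟩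

theorem ton_lift (U : Subgroup Γ) [U.Normal] (hU : ∀ a ∈ U, ∀ b ∈ U, Commute a b)
    (H : Subgroup Γ) (hH : U = ⁅H, H⁆) (hT : TON (Γ ⧸ U))
    (h : ∀ (g : Γ) (n : ℕ), n ≠ 0 → g ^ n ∈ U → ∀ u ∈ U, ∃ k : ℕ, ⁅g, u⁆ ^ n ^ k = 1) :
    TON Γ := by
  have hq : ∀ g : Γ, ∃ n : ℕ, Odd n ∧ g ^ n ∈ U := fun g => by
    obtain ⟨n, hn, e⟩ := hT.odd (QuotientGroup.mk g)
    exact ⟨n, hn, (QuotientGroup.eq_one_iff _).1 (by rw [QuotientGroup.mk_pow]; exact e)⟩
  have hO : ∀ (g : Γ) (n : ℕ), Odd n → g ^ n ∈ U → ∀ u ∈ U,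
      ⁅g, u⁆ ∈ liftT U hU Odd odd_one fun _ _ => Odd.mul := fun g n hn hg u hu => by
    obtain ⟨k, hk⟩ := h g n hn.pos.ne' hg u hu
    exact ⟨lift_comm_mem U g hu, _, hn.pow, hk⟩
  have hle : ⁅H, H⁆ ≤ liftT U hU Odd odd_one fun _ _ => Odd.mul := by
    refine Subgroup.commutator_le.2 fun x hx y hy => ?_
    have hc : ⁅x, y⁆ ∈ U := hH ▸ Subgroup.commutator_mem_commutator hx hy
    obtain ⟨n, hn, hxn⟩ := hq x
    obtain ⟨m, hm, hym⟩ := hq y
    have h1 := (lift_key U _ hc (hO x n hn hxn) n).2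
    have h2 := Subgroup.inv_mem _ (hO y m hm hym _ hxn)
    rw [commutatorElement_inv] at h2
    have h3 := Subgroup.mul_mem _ (Subgroup.inv_mem _ h1) h2
    rw [mul_inv_rev, inv_inv, mul_assoc, inv_mul_cancel, mul_one] at h3
    obtain ⟨-, r, hr, e⟩ := h3
    exact ⟨hc, n * r, hn.mul hr, by rw [pow_mul, e]⟩
  refine ⟨fun g => ?_, fun p hp x y a n hn hx hy => ?_⟩
  · obtain ⟨n, hn, hg⟩ := hq g
    obtain ⟨-, r, hr, e⟩ := hle (hH ▸ hg)
    exact ⟨n * r, hn.mul hr, by rw [pow_mul, e]⟩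
  · have h1 := hT.co p hp (QuotientGroup.mk x) (QuotientGroup.mk y) a n hn
      (by rw [← QuotientGroup.mk_pow, hx, QuotientGroup.mk_one])
      (by rw [← QuotientGroup.mk_pow, hy, QuotientGroup.mk_one])
    have hc : ⁅x, y⁆ ∈ U := by
      refine (QuotientGroup.eq_one_iff _).1 ?_
      have := commutatorElement_eq_one_iff_commute.2 h1
      rw [commutatorElement_def] at this ⊢
      simpa using this
    have hc' : ⁅y, x⁆ ∈ U := by
      rw [← commutatorElement_inv]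
      exact U.inv_mem hc
    have hn0 : n ≠ 0 := fun e => hn (e ▸ dvd_zero p)
    obtain ⟨i, e1⟩ := lift_kill U hU h (pow_ne_zero a hp.ne_zero) hx hc
    obtain ⟨j, e2⟩ := lift_kill U hU h hn0 hy hc'
    rw [← commutatorElement_inv, inv_pow, inv_eq_one] at e2
    have hco : Nat.Coprime ((p ^ a) ^ i) (n ^ j) :=
      Nat.Coprime.pow _ _ (Nat.Coprime.pow_left _ ((Nat.Prime.coprime_iff_not_dvd hp).2 hn))
    refine commutatorElement_eq_one_iff_commute.1 (orderOf_eq_one_iff.1 ?_)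
    exact Nat.eq_one_of_dvd_coprimes hco (orderOf_dvd_of_pow_eq_one e1)
      (orderOf_dvd_of_pow_eq_one e2)

end Pool.Agent.P.MP_3fd745_al.Sv
end

-- part Pool.Agent.P.MP_3fd745_al.Sv.Base
section

namespace Pool.Agent.P.MP_3fd745_al.Sv

open scoped commutatorElement
open Polynomial

variable {D : Type} [DivisionRing D]

lemma base_sq (M : Subgroup Dˣ) [hM : M.Normal] {k : ℕ}
    (H : Hyp k (fun x : D => ∃ g ∈ M, (g : D) = x)) (h2 : (2 : D) ≠ 0) (m : Dˣ) (hm : m ∈ M)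
    (hc : ∀ z, (m : D) ^ 2 * z = z * (m : D) ^ 2) (x : D) : (m : D) * x = x * m := by
  have hm0 := m.ne_zero
  rw [← cj_eq_iff _ hm0]
  by_contra hne
  have e : cj (m : D) hm0 (cj (m : D) hm0 x) = x := by
    have := cj_iter (m : D) hm0 2 x
    rwa [(cj_eq_iff _ _ _).2 (hc x)] at this
  obtain ⟨y, hy⟩ : ∃ y, y = x - cj (m : D) hm0 x := ⟨_, rfl⟩
  have hy0 : y ≠ 0 := fun h => hne (sub_eq_zero.1 (hy ▸ h)).symm
  have hφ : cj (m : D) hm0 y = -y := by rw [hy, map_sub, e, neg_sub]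
  have hp : cj (m : D) hm0 (1 + y) = 1 - y := by rw [map_add, map_one, hφ, sub_eq_add_neg]
  have hn : cj (m : D) hm0 (1 - y) = 1 + y := by rw [map_sub, map_one, hφ, sub_neg_eq_add]
  have h1 : 1 + y ≠ 0 := fun h => h2 (by
    rw [h, map_zero] at hp
    rw [← one_add_one_eq_two]
    rwa [← sub_eq_zero.1 hp.symm] at h)
  have h1' : 1 - y ≠ 0 := hp ▸ (_root_.map_ne_zero _).2 h1
  obtain ⟨c, hcd⟩ : ∃ c, c = (1 - y) * (1 + y)⁻¹ := ⟨_, rfl⟩
  have hP : ∃ g ∈ M, (g : D) = c :=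
    ⟨m * (Units.mk0 _ h1 * m⁻¹ * (Units.mk0 _ h1)⁻¹), mul_mem hm (hM.conj_mem _ (inv_mem hm) _), by
      rw [hcd, ← hp, cj_apply]; simp [mul_assoc]⟩
  have hc0 := H.h0 c hP
  have hi : cj (m : D) hm0 c = c⁻¹ := by
    rw [hcd, map_mul, map_inv₀, hp, hn, mul_inv_rev, inv_inv]
  obtain ⟨n, hn0, hcn⟩ := H.hrad c hP
  have h3 : c ^ (n + n) = 1 := by
    have := (cj_eq_iff _ hm0 _).2 (hcn m).symm
    rw [map_pow, hi, inv_pow] at this
    rw [pow_add]
    nth_rewrite 1 [← this]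
    exact inv_mul_cancel₀ (pow_ne_zero _ hc0)
  have h4 := (cj_eq_iff _ hm0 _).2 (torsion_central H c hP _ (by omega) h3 m).symm
  have h5 : c * c = 1 := by
    nth_rewrite 1 [← h4]
    rw [hi, inv_mul_cancel₀ hc0]
  have h6 : 1 - y = c * (1 + y) := by rw [hcd, inv_mul_cancel_right₀ h1]
  rcases mul_self_eq_one_iff.1 h5 with h | h
  · rw [h, one_mul, sub_eq_add_neg, add_right_inj] at h6
    exact mul_ne_zero h2 hy0 (by rw [two_mul]; nth_rewrite 1 [← h6]; exact neg_add_cancel y)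
  · rw [h, neg_one_mul, neg_add', sub_left_inj] at h6
    exact h2 (by rw [← one_add_one_eq_two]; nth_rewrite 1 [h6]; exact neg_add_cancel 1)

lemma base_wedd {A : Type} [CommGroup A] (χ : Dˣ →* A) (m : D)
    (hm : IsIntegral (Subring.center D) m) (v : Dˣ) (hv : (v : D) = 1 - m) :
    ∃ u : Dˣ, (u : D) = algebraMap _ D ((minpoly (Subring.center D) m).eval 1) ∧
      χ u = χ v ^ (minpoly (Subring.center D) m).natDegree := by
  set f := minpoly (Subring.center D) m with hf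
  have hfm : f.Monic := minpoly.monic hm
  have key : ∀ r ≤ f.natDegree, ∃ g h : D[X], g * h = f.map (algebraMap _ D) ∧ h.Monic ∧
      h.natDegree = r ∧ ∃ u : Dˣ, (u : D) = h.eval 1 ∧ χ u = χ v ^ r := by
    intro r hr
    induction r with
    | zero => exact ⟨_, 1, mul_one _, monic_one, natDegree_one, 1, by simp, by simp⟩
    | succ r ih =>
      obtain ⟨g, h, e, h1, h2, u, h3, h5⟩ := ih (by omega)
      obtain ⟨x, hx⟩ : ∃ x, act m h x ≠ 0 := by
        by_contra hc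
        have := act_indep m h h1.ne_zero (fun x => not_not.1 fun h' => hc ⟨x, h'⟩)
        rw [← hf] at this
        omega
      have h4 := act_map m x f (minpoly.aeval _ m)
      rw [← e, act_mul, act_eval m _ hx, mul_eq_zero, or_iff_left hx] at h4
      obtain ⟨g', rfl⟩ := right_factor g _ h4
      refine ⟨g', _, by rw [← e, mul_assoc], (monic_X_sub_C _).mul h1, ?_,
        Units.mk0 _ hx * v * (Units.mk0 _ hx)⁻¹ * u, ?_, ?_⟩
      · rw [(monic_X_sub_C _).natDegree_mul h1, natDegree_X_sub_C, h2, add_comm]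
      · have := eval_mul_cen (1 : Subring.center D)
          (X - C (act m h x * m * (act m h x)⁻¹)) h
        rw [map_one] at this
        rw [this, ← h3, eval_sub, eval_X, eval_C]
        simp [hv, mul_sub, sub_mul, hx]
      · rw [map_mul, map_mul, map_mul, map_inv, mul_inv_cancel_comm, h5, pow_succ']
  obtain ⟨g, h, e, h1, h2, u, h3, h5⟩ := key _ le_rfl
  have hm2 := hfm.map (algebraMap (Subring.center D) D)
  have hg : g.Monic := by
    have := hm2.leadingCoeff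
    rwa [← e, leadingCoeff_mul, h1.leadingCoeff, mul_one] at this
  have hd := hfm.natDegree_map (algebraMap (Subring.center D) D)
  rw [← e, hg.natDegree_mul h1, h2, add_eq_right, hg.natDegree_eq_zero] at hd
  rw [hd, one_mul] at e
  exact ⟨u, by rw [h3, e, eval_one_map], h5⟩

lemma base_one (M : Subgroup Dˣ) [hM : M.Normal] {k : ℕ}
    (H : Hyp k (fun x : D => ∃ g ∈ M, (g : D) = x))
    (hF : ∀ x : Dˣ, (x : D) ∈ Subring.center D → x ∈ M)
    {A : Type} [CommGroup A] (χ : Dˣ →* A) (hχ : ∀ m ∈ M, χ m = 1) (m : Dˣ) (hm : m ∈ M)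
    (v : Dˣ) (hv : (v : D) = 1 - m) : ∃ n : ℕ, Odd n ∧ χ v ^ n = 1 := by
  obtain ⟨hi, d, ν, hd, e⟩ := minpoly_binom H (m : D) ⟨m, hm, rfl⟩
  obtain ⟨u, h1, h2⟩ := base_wedd χ (m : D) hi v hv
  rw [e, natDegree_X_pow_sub_C] at h2
  refine ⟨d, ?_, h2 ▸ hχ u (hF u (h1 ▸ Subtype.prop _))⟩
  rw [← Nat.not_even_iff_odd]
  rintro ⟨t, rfl⟩
  rw [← two_mul, Nat.cast_mul] at hd
  have ht : t ≠ 0 := by rintro rfl; simp at hd
  have h3 := minpoly.aeval (Subring.center D) (m : D)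
  rw [e, map_sub, map_pow, aeval_X, aeval_C, sub_eq_zero] at h3
  have h4 : (m : D) ^ t ∈ Subring.center D := Subring.mem_center_iff.2 fun z =>
    (base_sq M H (by simpa using left_ne_zero_of_mul hd) (m ^ t) (pow_mem hm t) (fun z => by
      rw [Units.val_pow_eq_pow_val, ← pow_mul, mul_two, h3]; exact Algebra.commutes ν z) z).symm
  have := natDegree_le_natDegree (minpoly.min (Subring.center D) (m : D)
    (monic_X_pow_sub_C (⟨_, h4⟩ : Subring.center D) ht) (by simp; exact sub_self _))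
  rw [e, natDegree_X_pow_sub_C, natDegree_X_pow_sub_C] at this
  omega

theorem base_odd (M : Subgroup Dˣ) [M.Normal]
    (hrad : ∀ x ∈ M, ∃ n : ℕ, 0 < n ∧ ((x : Dˣ) : D) ^ n ∈ Subring.center D)
    (hF : ∀ x : Dˣ, (x : D) ∈ Subring.center D → x ∈ M)
    (hnc : ∃ g ∈ M, ((g : Dˣ) : D) ∉ Subring.center D)
    {A : Type} [CommGroup A] (χ : Dˣ →* A) (hχ : ∀ m ∈ M, χ m = 1) (g : Dˣ) :
    ∃ n : ℕ, Odd n ∧ χ g ^ n = 1 := by
  have hM : M.Normal := inferInstance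
  obtain ⟨k, H⟩ := hyp_of M ⟨1, fun i => if i = 0 then M else ⊤, rfl, rfl, fun i hi => by
    obtain rfl : i = 0 := by omega
    exact ⟨le_top, hM.subgroupOf _⟩⟩ hrad
  let T : Subgroup Dˣ :=
    { carrier := {g | ∃ n : ℕ, Odd n ∧ χ g ^ n = 1}
      mul_mem' := by
        rintro a b ⟨n, hn, e⟩ ⟨n', hn', e'⟩
        exact ⟨n * n', hn.mul hn', by
          rw [map_mul, mul_pow, pow_mul, e, mul_comm n, pow_mul, e', one_pow, one_pow, one_mul]⟩
      one_mem' := ⟨1, odd_one, by simp⟩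
      inv_mem' := by
        rintro a ⟨n, hn, e⟩
        exact ⟨n, hn, by rw [map_inv, inv_pow, e, inv_one]⟩ }
  obtain ⟨a, ha, hac⟩ := hnc
  have h1 : ∀ y w : Dˣ, (w : D) = a * y - y * a → w * y⁻¹ ∈ T := fun y w hw => by
    have e : w * y⁻¹ = w * y⁻¹ * a⁻¹ * a := by simp
    rw [e]
    refine T.mul_mem (base_one M H hF χ hχ (y * a * y⁻¹ * a⁻¹)
      (mul_mem (hM.conj_mem _ ha _) (inv_mem ha)) _ ?_) ⟨1, odd_one, by simp [hχ a ha]⟩
    simp [hw, sub_mul]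
  have h2 : ∀ x : Dˣ, ¬ Commute (a : D) x → x ∈ T := fun x hx => by
    have hx1 : (x : D) - 1 ≠ 0 := fun h => hx (sub_eq_zero.1 h ▸ Commute.one_right _)
    have hw : (a : D) * ((x : D) - 1)⁻¹ - ((x : D) - 1)⁻¹ * a ≠ 0 := fun h => hx (by
      have := (Commute.inv_right₀ (sub_eq_zero.1 h)).add_right (Commute.one_right (a : D))
      simpa using this)
    have e : (x : D) * ((x : D) - 1)⁻¹ = ((x : D) - 1)⁻¹ + 1 := by
      rw [← sub_eq_iff_eq_add', ← sub_one_mul, mul_inv_cancel₀ hx1]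
    have := T.mul_mem (T.inv_mem (h1 (x * (Units.mk0 _ hx1)⁻¹) (Units.mk0 _ hw) (by
      simp [e, mul_add, add_mul]))) (h1 (Units.mk0 _ hx1)⁻¹ (Units.mk0 _ hw) (by simp))
    simpa [mul_assoc] using this
  by_cases hg : Commute (a : D) g
  · obtain ⟨z, hz⟩ := not_forall.1 fun h => hac (Subring.mem_center_iff.2 h)
    have hz0 : z ≠ 0 := by rintro rfl; simp at hz
    have := T.mul_mem (h2 (g * Units.mk0 z hz0) fun h => hz ?_)
      (T.inv_mem (h2 (Units.mk0 z hz0) fun h => hz h.symm))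
    · rw [mul_inv_cancel_right] at this
      exact this
    · simpa using (hg.inv_right₀.mul_right h).symm.eq
  · exact h2 g hg

end Pool.Agent.P.MP_3fd745_al.Sv
end

-- part Pool.Agent.P.MP_3fd745_al.Sv.Ends
section

namespace Pool.Agent.P.MP_3fd745_al.Sv

open scoped commutatorElement

variable {D : Type} [DivisionRing D]

open Polynomial in
theorem kaplansky (hrad : ∀ x : Dˣ, ∃ n : ℕ, 0 < n ∧ (x : D) ^ n ∈ Subring.center D) (x : D) :
    x ∈ Subring.center D := by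
  by_cases h0 : x = 0
  · rw [h0]; exact zero_mem _
  by_cases h1 : x + 1 = 0
  · rw [eq_neg_of_add_eq_zero_left h1]; exact neg_mem (one_mem _)
  obtain ⟨k, H⟩ := hyp_of (⊤ : Subgroup Dˣ)
    ⟨0, fun _ => ⊤, rfl, rfl, fun i hi => absurd hi (Nat.not_lt_zero i)⟩ fun x _ => hrad x
  obtain ⟨hx, d, ν, hd, e⟩ := minpoly_binom H x ⟨Units.mk0 x h0, trivial, rfl⟩
  obtain ⟨hy, d', ν', hd', e'⟩ := minpoly_binom H (x + 1) ⟨Units.mk0 _ h1, trivial, rfl⟩
  have hd0 : d ≠ 0 := by rintro rfl; simp at hd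
  have hd0' : d' ≠ 0 := by rintro rfl; simp at hd'
  have a1 := minpoly.aeval (Subring.center D) x
  have a2 := minpoly.aeval (Subring.center D) (x + 1)
  rw [e] at a1
  rw [e'] at a2
  simp only [map_sub, map_pow, aeval_X, aeval_C] at a1 a2
  have m1 : ((X ^ d' - C ν').comp (X + C 1)).Monic := (monic_X_pow_sub_C ν' hd0').comp_X_add_C _
  have m2 : ((X ^ d - C ν).comp (X - C 1)).Monic := (monic_X_pow_sub_C ν hd0).comp_X_sub_C _
  have v1 : X ^ d - C ν ∣ (X ^ d' - C ν').comp (X + C 1) := by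
    rw [← e]
    exact minpoly.dvd _ _ (by simpa using a2)
  have v2 : X ^ d' - C ν' ∣ (X ^ d - C ν).comp (X - C 1) := by
    rw [← e']
    exact minpoly.dvd _ _ (by simpa using a1)
  have n2 := natDegree_le_of_dvd v2 m2.ne_zero
  rw [natDegree_comp, natDegree_X_pow_sub_C, natDegree_X_pow_sub_C, natDegree_X_sub_C,
    mul_one] at n2
  have n1 := natDegree_le_of_dvd v1 m1.ne_zero
  have n3 : ((X ^ d' - C ν').comp (X + C 1)).natDegree = d' := by
    rw [natDegree_comp, natDegree_X_pow_sub_C, natDegree_X_add_C, mul_one]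
  rw [n3, natDegree_X_pow_sub_C] at n1
  obtain rfl : d = d' := le_antisymm n1 n2
  have e3 := eq_of_monic_of_dvd_of_natDegree_le (monic_X_pow_sub_C ν hd0) m1 v1
    (by rw [n3, natDegree_X_pow_sub_C])
  by_cases hd1 : d = 1
  · rw [hd1, pow_one, sub_eq_zero] at a1
    rw [a1]
    exact ν.2
  · have e4 := congrArg (fun p => eval 0 (derivative p)) e3
    have h2 : d - 1 ≠ 0 := by omega
    simp [derivative_pow, h2] at e4
    exact absurd (by simpa using congrArg Subtype.val e4) hd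

theorem hua_step (A : Subgroup Dˣ) [A.Normal]
    (h : ∀ a ∈ A, ∀ b ∈ A, ((⁅a, b⁆ : Dˣ) : D) ∈ Subring.center D) (a : Dˣ) (ha : a ∈ A) :
    (a : D) ^ 2 ∈ Subring.center D := by
  by_cases hc : ∀ b ∈ A, (a : D) * b = b * a
  · refine pow_mem (Subring.mem_center_iff.2 fun x =>
      (central_of_conj (a : D) (fun y hy => ?_) x).symm) 2
    simpa using hc (Units.mk0 y hy * a * (Units.mk0 y hy)⁻¹)
      (Subgroup.Normal.conj_mem inferInstance a ha _)
  push Not at hc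
  obtain ⟨b, hb, hne⟩ := hc
  set φ := cj (b : D) b.ne_zero with hφ
  have key : ∀ v ∈ A, ∃ l : Subring.center D, φ v = l • (v : D) := fun v hv =>
    ⟨⟨_, h b hb v hv⟩, by
      rw [hφ, cj_apply, Subring.smul_def, smul_eq_mul]
      simp [commutatorElement_def]⟩
  have hs : ∀ (s : Subring.center D) (x : D), φ (s • x) = s • φ x := fun s x => by
    rw [Algebra.smul_def, Algebra.smul_def, map_mul, hφ,
      (cj_eq_iff _ _ _).2 (Algebra.commutes s _).symm]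
  obtain ⟨l, hl⟩ := key a ha
  have hl1 : l - 1 ≠ 0 := fun e => hne (by
    rw [sub_eq_zero.1 e, one_smul, hφ, cj_eq_iff] at hl
    exact hl.symm)
  have hl0 : l ≠ 0 := by
    rintro rfl
    rw [zero_smul, map_eq_zero] at hl
    exact a.ne_zero hl
  have h1 : (1 : D) + a ≠ 0 := fun e => hne (by
    rw [eq_neg_of_add_eq_zero_right e]; simp)
  have h2 : (1 : D) + l • (a : D) ≠ 0 := by
    rw [← hl, ← map_one φ, ← map_add, map_ne_zero]
    exact h1
  have hv : ⁅b, Units.mk0 _ h1⁆ ∈ A := by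
    rw [commutatorElement_def, mul_assoc, mul_assoc, ← mul_assoc (Units.mk0 _ h1)]
    exact mul_mem hb (Subgroup.Normal.conj_mem inferInstance _ (inv_mem hb) _)
  have ev : ((⁅b, Units.mk0 _ h1⁆ : Dˣ) : D) = (1 + l • (a : D)) * (1 + (a : D))⁻¹ := by
    have e : 1 + l • (a : D) = φ (1 + a) := by rw [map_add, map_one, hl]
    rw [e, hφ, cj_apply]
    simp [commutatorElement_def]
  obtain ⟨m, hm⟩ := key _ hv
  rw [ev, map_mul, map_inv₀, map_add, map_add, map_one, hs, hl] at hm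
  have c1 : Commute (1 + l • (a : D)) (1 + (a : D)) :=
    (Commute.one_left _).add_left (((Commute.one_right _).add_right (Commute.refl _)).smul_left l)
  have e1 : (1 + l • l • (a : D)) * (1 + (a : D)) = m • ((1 + l • (a : D)) * (1 + l • (a : D))) := by
    rw [(mul_inv_eq_iff_eq_mul₀ h2).1 hm, smul_mul_assoc, smul_mul_assoc, mul_assoc, c1.eq,
      mul_assoc, inv_mul_cancel_left₀ h1]
  have e2 := congrArg φ e1
  simp only [map_mul, map_add, map_one, hs, hl] at e2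
  simp only [mul_add, add_mul, one_mul, mul_one, smul_mul_assoc, mul_smul_comm] at e1 e2
  have e3 : ((1 - m) * (l - 1)) • ((1 : D) - l ^ 3 • ((a : D) * a)) = 0 := by
    linear_combination (norm := module) l • e1 - e2
  rcases smul_eq_zero.1 e3 with e | e
  · have hm1 : m = 1 := (sub_eq_zero.1 ((mul_eq_zero.1 e).resolve_right hl1)).symm
    have e4 : (l - 1) ^ 2 • (a : D) = 0 := by
      rw [hm1] at e1
      linear_combination (norm := module) e1
    exact absurd ((smul_eq_zero.1 e4).resolve_right a.ne_zero) (pow_ne_zero 2 hl1)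
  · rw [sq, ← inv_smul_smul₀ (pow_ne_zero 3 hl0) ((a : D) * a), ← sub_eq_zero.1 e,
      ← Algebra.algebraMap_eq_smul_one]
    exact ((l ^ 3)⁻¹).2

end Pool.Agent.P.MP_3fd745_al.Sv
end

-- part Pool.Agent.P.MP_3fd745_al.Sv.Main
section

namespace Pool.Agent.P.MP_3fd745_al.Sv

open scoped commutatorElement

variable {D : Type} [DivisionRing D]

theorem ton_of_solv (hno : ∀ V : Subring D, (∀ x, x ∈ V ∨ x⁻¹ ∈ V) → ∀ x, x ∈ V) (r : ℕ) :
    ∀ (G : Type) [Group G] (π : Dˣ →* G), Function.Surjective π → derivedSeries G (r + 1) = ⊥ →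
      (∀ g : G, ∃ n : ℕ, Odd n ∧ g ^ n ∈ commutator G) → TON G := by
  induction r with
  | zero =>
    intro G _ π _ h hodd
    have hc : commutator G = ⊥ := h
    refine ⟨fun g => by simpa [hc] using hodd g, fun _ _ x y _ _ _ _ _ => ?_⟩
    rw [← commutatorElement_eq_one_iff_commute, ← Subgroup.mem_bot, ← hc]
    exact Subgroup.commutator_mem_commutator trivial trivial
  | succ r ih =>
    intro G _ π hπ h hodd
    have : Group.IsSolvable G := ⟨_, h⟩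
    let U := derivedSeries G (r + 1)
    have hU : ∀ a ∈ U, ∀ b ∈ U, Commute a b := fun a ha b hb => by
      rw [← commutatorElement_eq_one_iff_commute, ← Subgroup.mem_bot, ← h]
      exact Subgroup.commutator_mem_commutator ha hb
    have hs := QuotientGroup.mk'_surjective U
    have hT : TON (G ⧸ U) := by
      refine ih (G ⧸ U) ((QuotientGroup.mk' U).comp π) (hs.comp hπ) ?_ fun g => ?_
      · rw [← map_derivedSeries_eq hs]
        exact QuotientGroup.map_mk'_self U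
      · obtain ⟨g, rfl⟩ := hs g
        obtain ⟨n, hn, e⟩ := hodd g
        refine ⟨n, hn, ?_⟩
        rw [← map_pow]
        exact map_derivedSeries_le_derivedSeries (QuotientGroup.mk' U) 1 ⟨_, e, rfl⟩
    exact ton_lift U hU (derivedSeries G r) rfl hT (comm_tors hno π hπ U hU hT)

theorem central_of_solv (M : Subgroup Dˣ) [hM : M.Normal]
    (hrad : ∀ x ∈ M, ∃ n : ℕ, 0 < n ∧ ((x : Dˣ) : D) ^ n ∈ Subring.center D)
    (hF : ∀ x : Dˣ, (x : D) ∈ Subring.center D → x ∈ M) (r : ℕ) (hr : derivedSeries Dˣ r ≤ M) :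
    ∀ g ∈ M, ((g : Dˣ) : D) ∈ Subring.center D := by
  by_contra hnc
  push Not at hnc
  obtain ⟨a, ha, hac⟩ := hnc
  have hno : ∀ V : Subring D, (∀ x, x ∈ V ∨ x⁻¹ ∈ V) → ∀ x, x ∈ V := fun V hV x => by
    by_contra hx
    refine hac (Subring.mem_center_iff.2 fun y => (main M ⟨1, fun i => if i = 0 then M else ⊤, rfl,
      rfl, fun i hi => ?_⟩ hrad ⊤ V (fun x _ => hV x) ⟨x, trivial, hx⟩ a ha trivial y trivial).symm)
    obtain rfl : i = 0 := by omega
    exact ⟨le_top, hM.subgroupOf _⟩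
  have hs := QuotientGroup.mk'_surjective M
  have hT : TON (Dˣ ⧸ M) := by
    refine ton_of_solv hno r _ (QuotientGroup.mk' M) hs ?_ fun g => ?_
    · rw [← map_derivedSeries_eq hs, Subgroup.map_eq_bot_iff, QuotientGroup.ker_mk']
      exact (Subgroup.commutator_le_left _ _).trans hr
    · obtain ⟨g, rfl⟩ := hs g
      obtain ⟨n, hn, e⟩ := base_odd M hrad hF ⟨a, ha, hac⟩
        (Abelianization.of.comp (QuotientGroup.mk' M))
        (fun m hm => by simp [(QuotientGroup.eq_one_iff m).2 hm]) g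
      refine ⟨n, hn, ?_⟩
      rw [← Abelianization.ker_of, MonoidHom.mem_ker, map_pow]
      exact e
  refine hac (kaplansky (D := D) (fun x => ?_) a)
  obtain ⟨n, hn, e⟩ := hT.odd (QuotientGroup.mk' M x)
  rw [← map_pow] at e
  obtain ⟨m, hm, e'⟩ := hrad _ ((QuotientGroup.eq_one_iff _).1 e)
  exact ⟨n * m, Nat.mul_pos hn.pos hm, by simpa [pow_mul] using e'⟩

theorem main_solv (n : ℕ)
    (hrad : ∀ x ∈ derivedSeries Dˣ n, ∃ k : ℕ, 0 < k ∧ ((x : Dˣ) : D) ^ k ∈ Subring.center D)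
    (a : D) : a ∈ Subring.center D := by
  induction n with
  | zero => exact kaplansky (fun x => hrad x trivial) a
  | succ n ih =>
    have hZ : ∀ x : Dˣ, x ∈ Subgroup.center Dˣ ↔ (x : D) ∈ Subring.center D := fun x => by
      rw [Subgroup.mem_center_iff, Subring.mem_center_iff]
      refine ⟨fun h y => ?_, fun h y => Units.ext (h y)⟩
      by_cases hy : y = 0
      · simp [hy]
      · exact congrArg Units.val (h (Units.mk0 y hy))
    have := central_of_solv (derivedSeries Dˣ (n + 1) ⊔ Subgroup.center Dˣ) (fun x hx => ?_)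
      (fun x hx => Subgroup.mem_sup_right ((hZ x).2 hx)) (n + 1) le_sup_left
    · refine ih fun x hx => ⟨2, two_pos, hua_step _ (fun a ha b hb => ?_) x hx⟩
      exact this _ (Subgroup.mem_sup_left (Subgroup.commutator_mem_commutator ha hb))
    · obtain ⟨y, hy, z, hz, rfl⟩ := (Subgroup.mem_sup_of_normal_right).1 hx
      obtain ⟨k, hk, e⟩ := hrad y hy
      refine ⟨k, hk, ?_⟩
      rw [Units.val_mul, Commute.mul_pow (Subring.mem_center_iff.1 ((hZ z).1 hz) y)]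
      exact mul_mem e (pow_mem ((hZ z).1 hz) k)

end Pool.Agent.P.MP_3fd745_al.Sv
end

-- part Pool.Agent.P.MP_3fd745_al.Sv.Hull
section

/-! The normal hull of a subnormal radical subgroup, and solvable quotients. -/

namespace Pool.Agent.P.MP_3fd745_al.Sv

open Polynomial

section
variable {G : Type} [Group G]

/-- radical over the center -/
def Rad (A : Subgroup G) : Prop := ∀ x ∈ A, ∃ n : ℕ, 0 < n ∧ x ^ n ∈ Subgroup.center G

lemma Rad.sup {A B : Subgroup G} (hA : Rad A) (hB : Rad B)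
    (h : ∀ a ∈ A, ∀ b ∈ B, a * b * a⁻¹ ∈ B) : Rad (A ⊔ B) := by
  intro x hx
  have hle : A ≤ Subgroup.normalizer B := fun a ha => Subgroup.mem_normalizer_iff.2 fun b =>
    ⟨h a ha b, fun hb => by simpa [mul_assoc] using h a⁻¹ (A.inv_mem ha) _ hb⟩
  rw [← SetLike.mem_coe, Subgroup.coe_mul_of_left_le_normalizer_right _ _ hle] at hx
  obtain ⟨a, ha, b, hb, rfl⟩ := hx
  have key : ∀ n : ℕ, (a ^ n)⁻¹ * (a * b) ^ n ∈ B := fun n => by
    induction n with
    | zero => simp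
    | succ n ih =>
      have := B.mul_mem (h a⁻¹ (A.inv_mem ha) _ ih) hb
      simpa [pow_succ, mul_assoc] using this
  obtain ⟨n, hn, e⟩ := hA a ha
  obtain ⟨m, hm, e'⟩ := hB _ (key n)
  refine ⟨n * m, Nat.mul_pos hn hm, ?_⟩
  have hc : Commute (a ^ n) ((a ^ n)⁻¹ * (a * b) ^ n) := (Subgroup.mem_center_iff.1 e _).symm
  have := Subgroup.mul_mem _ (Subgroup.pow_mem _ e m) e'
  rwa [← hc.mul_pow, mul_inv_cancel_left, ← pow_mul] at this

lemma exists_hull (N : Subgroup G)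
    (hN : ∃ (k : ℕ) (H : ℕ → Subgroup G), H 0 = N ∧ H k = ⊤ ∧
      ∀ i, i < k → H i ≤ H (i + 1) ∧ ((H i).subgroupOf (H (i + 1))).Normal) (hrad : Rad N) :
    ∃ M : Subgroup G, M.Normal ∧ N ≤ M ∧ Subgroup.center G ≤ M ∧ Rad M := by
  obtain ⟨k, H, h0, hk, hH⟩ := hN
  have key : ∀ i ≤ k, ∃ A : Subgroup G, N ≤ A ∧ A ≤ H i ∧ Rad A ∧
      ∀ g ∈ H i, ∀ a ∈ A, g * a * g⁻¹ ∈ A := by
    intro i hi
    induction i with
    | zero => exact ⟨N, le_rfl, h0.ge, hrad, fun g hg a ha =>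
        N.mul_mem (N.mul_mem (h0 ▸ hg) ha) (N.inv_mem (h0 ▸ hg))⟩
    | succ i ih =>
      obtain ⟨A, h1, h2⟩ := ih (by omega)
      obtain ⟨hle, hn⟩ := hH i (by omega)
      have hc : ∀ g ∈ H (i + 1), ∀ a ∈ H i, g * a * g⁻¹ ∈ H i := fun g hg a ha =>
        Subgroup.mem_subgroupOf.1 (hn.conj_mem ⟨a, hle ha⟩ (Subgroup.mem_subgroupOf.2 ha) ⟨g, hg⟩)
      let K := {B : Subgroup G | B ≤ H i ∧ Rad B ∧ ∀ g ∈ H i, ∀ a ∈ B, g * a * g⁻¹ ∈ B}
      have hd : DirectedOn (· ≤ ·) K := fun B hB B' hB' =>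
        ⟨B ⊔ B', ⟨sup_le hB.1 hB'.1, hB.2.1.sup hB'.2.1 fun a ha => hB'.2.2 a (hB.1 ha),
          fun g hg a ha => (sup_le (fun b hb => Subgroup.mem_sup_left (hB.2.2 g hg b hb))
            (fun b hb => Subgroup.mem_sup_right (hB'.2.2 g hg b hb)) :
              B ⊔ B' ≤ (B ⊔ B').comap (MulAut.conj g).toMonoidHom) ha⟩, le_sup_left, le_sup_right⟩
      refine ⟨sSup K, h1.trans (le_sSup h2), (sSup_le fun B hB => hB.1).trans hle, fun x hx => ?_,
        fun g hg a ha => ?_⟩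
      · obtain ⟨B, hB, hx⟩ := (Subgroup.mem_sSup_of_directedOn ⟨A, h2⟩ hd).1 hx
        exact hB.2.1 x hx
      · obtain ⟨B, hB, ha⟩ := (Subgroup.mem_sSup_of_directedOn ⟨A, h2⟩ hd).1 ha
        refine le_sSup (s := K) (a := B.map (MulAut.conj g).toMonoidHom) ⟨?_, ?_, ?_⟩ ⟨a, ha, rfl⟩
        · rintro _ ⟨b, hb, rfl⟩
          exact hc g hg b (hB.1 hb)
        · rintro _ ⟨b, hb, rfl⟩
          obtain ⟨n, hn, e⟩ := hB.2.1 b hb
          exact ⟨n, hn, by rw [← map_pow]; exact Subgroup.Normal.conj_mem inferInstance _ e g⟩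
        · rintro h hh _ ⟨b, hb, rfl⟩
          exact ⟨_, hB.2.2 _ (hc g⁻¹ (inv_mem hg) h hh) b hb, by simp [mul_assoc]⟩
  obtain ⟨A, h1, -, h3, h4⟩ := key k le_rfl
  have : A.Normal := ⟨fun a ha g => h4 g (hk ▸ trivial) a ha⟩
  exact ⟨A ⊔ Subgroup.center G, inferInstance, h1.trans le_sup_left, le_sup_right,
    h3.sup (fun x hx => ⟨1, one_pos, by simpa using hx⟩)
      fun a _ b hb => Subgroup.Normal.conj_mem inferInstance b hb a⟩

end

variable {D : Type} [DivisionRing D]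

lemma mem_center_units (x : Dˣ) : x ∈ Subgroup.center Dˣ ↔ (x : D) ∈ Subring.center D := by
  rw [Subgroup.mem_center_iff, Subring.mem_center_iff]
  refine ⟨fun h y => ?_, fun h y => Units.ext (h y)⟩
  by_cases hy : y = 0
  · simp [hy]
  · exact congrArg Units.val (h (Units.mk0 y hy))

lemma odd_rad (M : Subgroup Dˣ) [hM : M.Normal] {k : ℕ}
    (H : Hyp k (fun x : D => ∃ g ∈ M, (g : D) = x)) (n : ℕ) :
    ∀ m ∈ M, (n : D) ≠ 0 → (∀ z, (m : D) ^ n * z = z * (m : D) ^ n) →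
      ∃ d : ℕ, Odd d ∧ m ^ d ∈ Subgroup.center Dˣ := by
  induction n using Nat.strong_induction_on with
  | _ n ih =>
  intro m hm hn hc
  rcases Nat.even_or_odd n with ⟨e, rfl⟩ | ho
  · rw [← two_mul, Nat.cast_mul] at hn
    have he := right_ne_zero_of_mul hn
    refine ih e (by have : e ≠ 0 := by rintro rfl; simp at he
                    omega) m hm he fun z => ?_
    simpa using base_sq M H (by simpa using left_ne_zero_of_mul hn) (m ^ e) (M.pow_mem hm e)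
      (fun z => by simpa [sq, ← pow_add] using hc z) z
  · exact ⟨n, ho, (mem_center_units _).2 (Subring.mem_center_iff.2 fun z => by
      simpa using (hc z).symm)⟩

theorem odd_of_noncentral (M : Subgroup Dˣ) [hM : M.Normal] (hrad : Rad M)
    (hF : Subgroup.center Dˣ ≤ M) (a : Dˣ) (ha : a ∈ M) (hac : a ∉ Subgroup.center Dˣ) (r : ℕ)
    (x : Dˣ) : ∃ k : ℕ, Odd k ∧ x ^ k ∈ derivedSeries Dˣ r ⊔ Subgroup.center Dˣ := by
  have hrad' : ∀ x ∈ M, ∃ n : ℕ, 0 < n ∧ ((x : Dˣ) : D) ^ n ∈ Subring.center D := fun x hx =>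
    (hrad x hx).imp fun n h => ⟨h.1, by simpa using (mem_center_units _).1 h.2⟩
  have hN : ∃ (k : ℕ) (H : ℕ → Subgroup Dˣ), H 0 = M ∧ H k = ⊤ ∧
      ∀ i, i < k → H i ≤ H (i + 1) ∧ ((H i).subgroupOf (H (i + 1))).Normal :=
    ⟨1, fun i => if i = 0 then M else ⊤, rfl, rfl, fun i hi => by
      obtain rfl : i = 0 := by omega
      exact ⟨le_top, hM.subgroupOf _⟩⟩
  rw [mem_center_units] at hac
  have hno : ∀ V : Subring D, (∀ x, x ∈ V ∨ x⁻¹ ∈ V) → ∀ x, x ∈ V := fun V hV x => by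
    by_contra hx
    exact hac (Subring.mem_center_iff.2 fun y =>
      (main M hN hrad' ⊤ V (fun x _ => hV x) ⟨x, trivial, hx⟩ a ha trivial y trivial).symm)
  let K := derivedSeries Dˣ r ⊔ M
  have hs := QuotientGroup.mk'_surjective K
  have hT : TON (Dˣ ⧸ K) := by
    refine ton_of_solv hno r _ (QuotientGroup.mk' K) hs ?_ fun g => ?_
    · rw [← map_derivedSeries_eq hs, Subgroup.map_eq_bot_iff, QuotientGroup.ker_mk']
      exact (Subgroup.commutator_le_left _ _).trans le_sup_left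
    · obtain ⟨g, rfl⟩ := hs g
      obtain ⟨n, hn, e⟩ := base_odd M hrad' (fun x hx => hF ((mem_center_units x).2 hx))
        ⟨a, ha, hac⟩ (Abelianization.of.comp (QuotientGroup.mk' K))
        (fun m hm => (congrArg Abelianization.of ((QuotientGroup.eq_one_iff (N := K) m).2
          (Subgroup.mem_sup_right hm))).trans (map_one _)) g
      refine ⟨n, hn, ?_⟩
      rw [← Abelianization.ker_of, MonoidHom.mem_ker, map_pow]
      exact e
  obtain ⟨n, hn, e⟩ := hT.odd (QuotientGroup.mk' K x)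
  rw [← map_pow] at e
  obtain ⟨y, hy, m, hm, e'⟩ := Subgroup.mem_sup_of_normal_right.1 ((QuotientGroup.eq_one_iff _).1 e)
  obtain ⟨k, H⟩ := hyp_of M hN hrad'
  obtain ⟨j, hj, hc⟩ := H.cop _ ⟨m, hm, rfl⟩
  obtain ⟨d, hd, e''⟩ := odd_rad M H j m hm hj hc
  refine ⟨n * d, hn.mul hd, ?_⟩
  rw [← QuotientGroup.eq_one_iff, pow_mul, ← e', QuotientGroup.mk_pow, QuotientGroup.mk_mul,
    (QuotientGroup.eq_one_iff y).2 (Subgroup.mem_sup_left hy), one_mul, ← QuotientGroup.mk_pow,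
    QuotientGroup.eq_one_iff]
  exact Subgroup.mem_sup_right e''

theorem main_quot (N : Subgroup Dˣ)
    (hN : ∃ (k : ℕ) (H : ℕ → Subgroup Dˣ), H 0 = N ∧ H k = ⊤ ∧
      ∀ i, i < k → H i ≤ H (i + 1) ∧ ((H i).subgroupOf (H (i + 1))).Normal)
    (hrad : ∀ x ∈ N, ∃ n : ℕ, 0 < n ∧ ((x : Dˣ) : D) ^ n ∈ Subring.center D)
    (E : Subfield D) (n : ℕ) (x : Eˣ)
    (hx : ∀ k : ℕ, Odd k → x ^ k ∉ derivedSeries Eˣ n ⊔ Subgroup.center Eˣ)
    (a : Dˣ) (ha : a ∈ N) (haE : (a : D) ∈ E) (y : D) (hy : y ∈ E) : a * y = y * a := by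
  obtain ⟨k, H, h0, hk, hH⟩ := hN
  let f : Eˣ →* Dˣ := Units.map E.subtype.toMonoidHom
  obtain ⟨M, hM, h1, h2, h3⟩ := exists_hull (N.comap f)
    ⟨k, fun i => (H i).comap f, by simp only [h0], by simp [hk], fun i hi =>
      ⟨Subgroup.comap_mono (hH i hi).1, ⟨fun b hb g => by
        have := (hH i hi).2.conj_mem ⟨f b, b.2⟩ hb ⟨f g, g.2⟩
        simpa [Subgroup.mem_subgroupOf] using this⟩⟩⟩ (fun b hb => by
      obtain ⟨m, hm, e⟩ := hrad _ hb
      exact ⟨m, hm, (mem_center_units _).2 (Subring.mem_center_iff.2 fun z =>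
        Subtype.ext (by simpa [f] using Subring.mem_center_iff.1 e z))⟩)
  let a' : Eˣ := Units.mk0 ⟨a, haE⟩ fun h => a.ne_zero (congrArg Subtype.val h)
  by_contra hc
  obtain ⟨j, hj, e⟩ := odd_of_noncentral M h3 h2 a' (h1 (show f a' ∈ N from by
    rwa [show f a' = a from Units.ext rfl])) (fun h => hc (congrArg Subtype.val
      (Subring.mem_center_iff.1 ((mem_center_units _).1 h) ⟨y, hy⟩)).symm) n x
  exact hx j hj e

end Pool.Agent.P.MP_3fd745_al.Sv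
end
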