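import Pool.Agent.K.MP_3fd745_al.C2

-- part Pool.Agent.P.MP_3fd745_al.Cen
section

/-! A central element that is not invertible in a subring. -/

namespace Pool.Agent.P.MP_3fd745_al

variable {D : Type} [DivisionRing D]

lemma cen_binom (L : Subring D) (t : D) (ht : t ∈ L) (htc : ∀ r ∈ L, t * r = r * t) (e : D)
    (he : e ∈ L) (j : ℕ) : ∃ ρ ∈ L, (1 + t * e) ^ j = 1 + t * (j * e + t * ρ) := by
  induction j with
  | zero => exact ⟨0, L.zero_mem, by simp⟩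
  | succ j ih =>
    obtain ⟨ρ, hρ, h⟩ := ih
    have hm : (j : D) * e + t * ρ ∈ L :=
      L.add_mem (L.mul_mem (natCast_mem L j) he) (L.mul_mem ht hρ)
    refine ⟨ρ + (j * e + t * ρ) * e, L.add_mem hρ (L.mul_mem hm he), ?_⟩
    have e1 : (j * e + t * ρ) * (t * e) = t * ((j * e + t * ρ) * e) := by
      rw [← mul_assoc, ← htc _ hm, mul_assoc]
    rw [pow_succ, h, add_mul, one_mul, mul_assoc t, mul_add _ 1, mul_one, e1]
    push_cast
    noncomm_ring

lemma cen_pow_ne (L : Subring D) (w d : D) (hw : w ∈ L) (hwc : ∀ r ∈ L, w * r = r * w) (q : ℕ)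
    (hq : q.Prime) (hd : ∀ m : ℕ, ∀ r ∈ L, (m : D) * d = w * r → q ∣ m) (n : ℕ)
    (hn : (n : D) ≠ 0) :
    ∀ (t t0 : D) (m : ℕ) (e e' r : D), t ≠ 0 → t0 ∈ L → (∀ x ∈ L, t * x = x * t) → t = w * t0 →
      ((q : D) = 0 ∨ ∃ s ∈ L, t0 = q * s) → ¬ q ∣ m → e ∈ L → e' ∈ L → r ∈ L →
      e' - e = m * d + w * r → (1 + t * e') ^ n ≠ (1 + t * e) ^ n := by
  induction n using induction_on_primes with
  | zero => simp at hn
  | one =>
    intro t t0 m e e' r ht _ _ _ _ hm _ _ hr h h1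
    rw [pow_one, pow_one, add_right_inj] at h1
    rw [mul_left_cancel₀ ht h1, sub_self] at h
    exact hm (hd m (-r) (L.neg_mem hr) (by rw [mul_neg]; exact eq_neg_of_add_eq_zero_left h.symm))
  | prime_mul p n hp ih =>
    intro t t0 m e e' r ht ht0 htc htw hqs hm he he' hr h
    rw [Nat.cast_mul] at hn
    have hp0 := left_ne_zero_of_mul hn
    have htL : t ∈ L := htw ▸ L.mul_mem hw ht0
    obtain ⟨ρ, hρ, e1⟩ := cen_binom L t htL htc e he p
    obtain ⟨ρ', hρ', e2⟩ := cen_binom L t htL htc e' he' p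
    have hpL := natCast_mem L p
    rw [pow_mul, pow_mul, e1, e2]
    by_cases hpq : p = q
    · subst hpq
      obtain ⟨s, hs, hs2⟩ := hqs.resolve_left hp0
      have e3 : ∀ x y : D, t * (p * x + t * y) = (t * p) * (x + w * (s * y)) := by
        intro x y
        have : t * y = p * (w * (s * y)) := by
          rw [htw, hs2, ← mul_assoc w, hwc _ hpL]
          simp only [mul_assoc]
        rw [this, ← mul_add, mul_assoc]
      rw [e3, e3]
      refine ih (right_ne_zero_of_mul hn) (t * p) (t0 * p) m _ _ (r + s * (ρ' - ρ))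
        (mul_ne_zero ht hp0) (L.mul_mem ht0 hpL) (fun x hx => ?_) (by rw [htw, mul_assoc])
        (Or.inr ⟨t0, ht0, (Nat.cast_commute p t0).eq.symm⟩) hm
        (L.add_mem he (L.mul_mem hw (L.mul_mem hs hρ)))
        (L.add_mem he' (L.mul_mem hw (L.mul_mem hs hρ')))
        (L.add_mem hr (L.mul_mem hs (L.sub_mem hρ' hρ))) ?_
      · rw [mul_assoc, (Nat.cast_commute p x).eq, ← mul_assoc, htc x hx, mul_assoc]
      · rw [sub_eq_iff_eq_add.1 h]; noncomm_ring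
    · refine ih (right_ne_zero_of_mul hn) t t0 (p * m) _ _ (p * r + t0 * (ρ' - ρ)) ht ht0 htc htw
        hqs (fun h' => ?_) (L.add_mem (L.mul_mem hpL he) (L.mul_mem htL hρ))
        (L.add_mem (L.mul_mem hpL he') (L.mul_mem htL hρ'))
        (L.add_mem (L.mul_mem hpL hr) (L.mul_mem ht0 (L.sub_mem hρ' hρ))) ?_
      · rcases (Nat.Prime.dvd_mul hq).1 h' with h2 | h2
        · exact hpq ((Nat.prime_dvd_prime_iff_eq hq hp).1 h2).symm
        · exact hm h2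
      · have e4 : w * (p * r) = p * (w * r) := by
          rw [← mul_assoc, hwc _ hpL, mul_assoc]
        rw [sub_eq_iff_eq_add.1 h, htw, mul_add w, e4]
        push_cast
        noncomm_ring

lemma cen_tower (φ : D →+* D) (L : Subring D) (hφ : ∀ x ∈ L, φ x ∈ L) (t : D) (ht : t ∈ L)
    (htc : ∀ r ∈ L, t * r = r * t) (hφt : φ t = t) (b : D) (hb : b ∈ L) (hu0 : 1 + t * b ≠ 0)
    (hu : (1 + t * b)⁻¹ ∈ L) (i : ℕ) :
    (fun x => φ x - x)^[i] b ∈ L ∧ (tw φ (1 + t * b) i)⁻¹ ∈ L ∧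
      ∃ r ∈ L, tw φ (1 + t * b) i = 1 + t * ((fun x => φ x - x)^[i] b + t * r) := by
  induction i with
  | zero => exact ⟨hb, hu, 0, L.zero_mem, by simp [tw]⟩
  | succ i ih =>
    obtain ⟨h1, h2, r, hr, h3⟩ := ih
    have h0 := tw_ne φ _ hu0 i
    rw [Function.iterate_succ_apply', tw]
    generalize tw φ (1 + t * b) i = x at *
    generalize (fun x => φ x - x)^[i] b = y at *
    have he : y + t * r ∈ L := L.add_mem h1 (L.mul_mem ht hr)
    have hx : x ∈ L := h3 ▸ L.add_mem L.one_mem (L.mul_mem ht he)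
    have hd : φ y - y ∈ L := L.sub_mem (hφ _ h1) h1
    have hr' : φ r - r ∈ L := L.sub_mem (hφ _ hr) hr
    refine ⟨hd, ?_, (φ r - r) * x⁻¹ - (φ y - y) * ((y + t * r) * x⁻¹), ?_, ?_⟩
    · rw [mul_inv_rev, inv_inv, ← map_inv₀]; exact L.mul_mem hx (hφ _ h2)
    · exact L.sub_mem (L.mul_mem hr' h2) (L.mul_mem hd (L.mul_mem he h2))
    · have e1 : φ x = x + t * ((φ y - y) + t * (φ r - r)) := by
        rw [h3]; simp only [map_add, map_mul, map_one, hφt]; noncomm_ring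
      have e2 : x⁻¹ = 1 - t * ((y + t * r) * x⁻¹) := by
        rw [← mul_assoc, eq_sub_iff_add_eq]
        nth_rewrite 1 [← one_mul x⁻¹]
        rw [← add_mul, ← h3, mul_inv_cancel₀ h0]
      have e3 : (φ y - y) * x⁻¹ = (φ y - y) - t * ((φ y - y) * ((y + t * r) * x⁻¹)) := by
        nth_rewrite 1 [e2]
        rw [mul_sub, mul_one, ← mul_assoc (φ y - y) t, ← htc _ hd, mul_assoc]
      rw [e1, add_mul, mul_inv_cancel₀ h0, mul_assoc, add_mul, e3]
      noncomm_ring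

/-- fractions with denominators congruent to one -/
def cenLoc (φ : D →+* D) (R : Subring D) (z : D) (hz : z ∈ R) (hzi : z⁻¹ ∉ R) : Subring D where
  carrier := {x | ∃ s, (∀ r ∈ R, s * r = r * s) ∧ φ s = s ∧ (∃ r ∈ R, s = 1 + z * r) ∧ s * x ∈ R}
  mul_mem' := by
    rintro x y ⟨s, a1, a2, ⟨r, a3, a4⟩, a5⟩ ⟨s', b1, b2, ⟨r', b3, b4⟩, b5⟩
    have hs : s ∈ R := a4 ▸ R.add_mem R.one_mem (R.mul_mem hz a3)
    have hs0 : s ≠ 0 := fun h => hzi (by
      rw [inv_eq_of_mul_eq_one_right (a := z) (b := -r)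
        (by rw [mul_neg]; exact (eq_neg_of_add_eq_zero_left (a4 ▸ h)).symm)]
      exact R.neg_mem a3)
    have hc : s' * x = x * s' := mul_left_cancel₀ hs0 (by
      rw [← mul_assoc, ← b1 s hs, mul_assoc, b1 _ a5, mul_assoc])
    refine ⟨s * s', fun u hu => ?_, by rw [map_mul, a2, b2],
      ⟨r' + r * s', R.add_mem b3 (R.mul_mem a3 (b4 ▸ R.add_mem R.one_mem (R.mul_mem hz b3))), ?_⟩,
      ?_⟩
    · rw [mul_assoc, b1 u hu, ← mul_assoc, a1 u hu, mul_assoc]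
    · rw [a4, add_mul, one_mul, mul_add, ← add_assoc, ← b4, mul_assoc]
    · rw [mul_assoc, ← mul_assoc s', hc, mul_assoc, ← mul_assoc]; exact R.mul_mem a5 b5
  one_mem' := ⟨1, by simp, by simp, ⟨0, R.zero_mem, by simp⟩, by simp⟩
  add_mem' := by
    rintro x y ⟨s, a1, a2, ⟨r, a3, a4⟩, a5⟩ ⟨s', b1, b2, ⟨r', b3, b4⟩, b5⟩
    have hs : s ∈ R := a4 ▸ R.add_mem R.one_mem (R.mul_mem hz a3)
    have hs' : s' ∈ R := b4 ▸ R.add_mem R.one_mem (R.mul_mem hz b3)
    refine ⟨s * s', fun u hu => ?_, by rw [map_mul, a2, b2],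
      ⟨r' + r * s', R.add_mem b3 (R.mul_mem a3 hs'), ?_⟩, ?_⟩
    · rw [mul_assoc, b1 u hu, ← mul_assoc, a1 u hu, mul_assoc]
    · rw [a4, add_mul, one_mul, mul_add, ← add_assoc, ← b4, mul_assoc]
    · rw [mul_add]
      refine R.add_mem ?_ ?_
      · rw [a1 s' hs', mul_assoc]; exact R.mul_mem hs' a5
      · rw [mul_assoc]; exact R.mul_mem hs b5
  zero_mem' := ⟨1, by simp, by simp, ⟨0, R.zero_mem, by simp⟩, by simp⟩
  neg_mem' := by
    rintro x ⟨s, a1, a2, a3, a5⟩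
    exact ⟨s, a1, a2, a3, by rw [mul_neg]; exact R.neg_mem a5⟩

lemma cen_main (φ : D →+* D) (k : ℕ)
    (hk : ∀ u, u ≠ 0 → ∃ m : ℕ, (m : D) ≠ 0 ∧ φ (tw φ u k ^ m) = tw φ u k ^ m)
    (R : Subring D) (hφ : ∀ x ∈ R, φ x ∈ R) (z : D) (hz : z ∈ R) (hz0 : z ≠ 0) (hzi : z⁻¹ ∉ R)
    (hzc : ∀ r ∈ R, z * r = r * z) (hφz : φ z = z) (q : ℕ) (hq : q.Prime)
    (hq1 : ∀ m : ℕ, ∀ r ∈ R, (m : D) = z * r → q ∣ m) (j : ℕ)
    (hq2 : (q : D) = 0 ∨ ∃ s ∈ R, z ^ j = q * s) (b : D) (hb : b ∈ R) (n : ℕ) (hn : 0 < n)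
    (hbn : ∀ r ∈ R, b ^ n * r = r * b ^ n) (hφb : φ (b ^ n) = b ^ n) (i : ℕ)
    (hd0 : (fun x => φ x - x)^[k + 1] b ≠ 0)
    (hd : z ^ i * ((fun x => φ x - x)^[k + 1] b)⁻¹ ∈ R) : False := by
  let L := cenLoc φ R z hz hzi
  have hRL : ∀ x ∈ R, x ∈ L := fun x hx =>
    ⟨1, by simp, by simp, ⟨0, R.zero_mem, by simp⟩, by simpa using hx⟩
  have hs0 : ∀ r ∈ R, 1 + z * r ≠ 0 := fun r hr h => hzi (by
    rw [inv_eq_of_mul_eq_one_right (a := z) (b := -r)
      (by rw [mul_neg]; exact (eq_neg_of_add_eq_zero_left h).symm)]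
    exact R.neg_mem hr)
  have hzL : ∀ x ∈ L, z * x = x * z := by
    rintro x ⟨s, a1, -, ⟨r, a3, a4⟩, a5⟩
    refine mul_left_cancel₀ (a4 ▸ hs0 r a3 : s ≠ 0) ?_
    rw [← mul_assoc, a1 z hz, mul_assoc, hzc _ a5, mul_assoc]
  have hpL : ∀ l : ℕ, ∀ x ∈ L, z ^ l * x = x * z ^ l := fun l x hx =>
    Commute.pow_left (hzL x hx) l
  have hφL : ∀ x ∈ L, φ x ∈ L := by
    rintro x ⟨s, a1, a2, a3, a5⟩
    exact ⟨s, a1, a2, a3, by rw [← a2, ← map_mul]; exact hφ _ a5⟩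
  obtain ⟨t, ht⟩ : ∃ t, t = z ^ (i + 1) * z ^ j := ⟨_, rfl⟩
  have htp : t = z ^ (i + 1 + j) := by rw [ht, ← pow_add]
  have htR : t ∈ R := htp ▸ R.pow_mem hz _
  have htc : ∀ x ∈ L, t * x = x * t := htp ▸ hpL _
  have hφt : φ t = t := by rw [htp, map_pow, hφz]
  have hy : -(t * b) ∈ R := R.neg_mem (R.mul_mem htR hb)
  have hyn : (-(t * b)) ^ n = (-t) ^ n * b ^ n := by
    rw [← neg_mul]; exact Commute.mul_pow (Commute.neg_left (htc b (hRL b hb))) n
  have hg : (1 + t * b) * ∑ l ∈ Finset.range n, (-(t * b)) ^ l = 1 - (-(t * b)) ^ n := by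
    rw [← mul_neg_geom_sum, sub_neg_eq_add]
  have hg' : (∑ l ∈ Finset.range n, (-(t * b)) ^ l) * (1 + t * b) = 1 - (-(t * b)) ^ n := by
    rw [← geom_sum_mul_neg, sub_neg_eq_add]
  obtain ⟨r0, hr0, hr1⟩ : ∃ r ∈ R, 1 - (-(t * b)) ^ n = 1 + z * r := by
    obtain ⟨n, rfl⟩ : ∃ m, n = m + 1 := ⟨n - 1, by omega⟩
    refine ⟨z ^ (i + j) * b * (-(t * b)) ^ n,
      R.mul_mem (R.mul_mem (R.pow_mem hz _) hb) (R.pow_mem hy _), ?_⟩
    rw [pow_succ', neg_mul, sub_neg_eq_add, ← mul_assoc, ← mul_assoc, ← pow_succ', htp]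
    congr 4
    omega
  have hu0 : 1 + t * b ≠ 0 := fun h => hs0 r0 hr0 (by rw [← hr1, ← hg, h, zero_mul])
  have hu : (1 + t * b)⁻¹ ∈ L := by
    refine ⟨1 - (-(t * b)) ^ n, fun r hr => ?_, ?_, ⟨r0, hr0, hr1⟩, ?_⟩
    · rw [hyn]
      exact Commute.sub_left (Commute.one_left r) (Commute.mul_left
        (Commute.pow_left (Commute.neg_left (htc r (hRL r hr))) n) (hbn r hr))
    · rw [hyn, map_sub, map_one, map_mul, hφb, map_pow, map_neg, hφt]
    · rw [← hg', mul_inv_cancel_right₀ hu0]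
      exact R.sum_mem fun l _ => R.pow_mem hy l
  obtain ⟨h1, -, r, hr, h3⟩ := cen_tower φ L hφL t (hRL t htR) htc hφt b (hRL b hb) hu0 hu k
  obtain ⟨m, hm, h4⟩ := hk _ hu0
  rw [map_pow, h3, map_add, map_one, map_mul, hφt] at h4
  rw [Function.iterate_succ_apply'] at hd0 hd
  generalize (fun x => φ x - x)^[k] b = y at *
  have he : y + t * r ∈ L := L.add_mem h1 (L.mul_mem (hRL t htR) hr)
  refine cen_pow_ne L (z ^ (i + 1)) (φ y - y) (hRL _ (R.pow_mem hz _)) (hpL _) q hq ?_ m hm t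
    (z ^ j) 1 _ _ (z ^ j * (φ r - r)) (htp ▸ pow_ne_zero _ hz0) (hRL _ (R.pow_mem hz _)) htc ht
    (hq2.imp id fun ⟨s, a, b⟩ => ⟨s, hRL s a, b⟩) (fun h => hq.one_lt.ne' (Nat.dvd_one.1 h)) he
    (hφL _ he) (L.mul_mem (hRL _ (R.pow_mem hz _)) (L.sub_mem (hφL _ hr) hr)) ?_ h4
  · intro m x hx h
    have e1 : (m : D) = z * (x * (z ^ i * (φ y - y)⁻¹)) := by
      rw [← mul_assoc x, ← hpL i x hx, ← mul_assoc, ← mul_assoc, ← pow_succ', ← h,
        mul_inv_cancel_right₀ hd0]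
    obtain ⟨s, a1, -, ⟨r', a3, a4⟩, a5⟩ := L.mul_mem hx (hRL _ hd)
    refine hq1 m (s * (x * (z ^ i * (φ y - y)⁻¹)) - r' * m)
      (R.sub_mem a5 (R.mul_mem a3 (natCast_mem R m))) ?_
    rw [mul_sub, ← mul_assoc, ← a1 z hz, mul_assoc, ← e1, a4]
    noncomm_ring
  · rw [map_add, map_mul, hφt, ← mul_assoc, ← ht]
    push_cast
    noncomm_ring

/-- fractions with powers of one central element as denominators -/
def cenFrac (R : Subring D) (z : D) (hz : z ∈ R) (hz0 : z ≠ 0) (hzc : ∀ r ∈ R, z * r = r * z) :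
    Subring D where
  carrier := {x | ∃ i : ℕ, z ^ i * x ∈ R}
  mul_mem' := by
    rintro x y ⟨i, hi⟩ ⟨j, hj⟩
    have hc : z * x = x * z := mul_left_cancel₀ (pow_ne_zero i hz0) (by
      rw [← mul_assoc, ← pow_succ, pow_succ', mul_assoc, hzc _ hi, mul_assoc])
    refine ⟨i + j, ?_⟩
    rw [pow_add, mul_assoc, ← mul_assoc (z ^ j), (Commute.pow_left hc j).eq, mul_assoc,
      ← mul_assoc]
    exact R.mul_mem hi hj
  one_mem' := ⟨0, by simp⟩
  add_mem' := by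
    rintro x y ⟨i, hi⟩ ⟨j, hj⟩
    refine ⟨i + j, ?_⟩
    rw [mul_add]
    refine R.add_mem ?_ ?_
    · rw [add_comm, pow_add, mul_assoc]; exact R.mul_mem (R.pow_mem hz _) hi
    · rw [pow_add, mul_assoc]; exact R.mul_mem (R.pow_mem hz _) hj
  zero_mem' := ⟨0, by simp⟩
  neg_mem' := by
    rintro x ⟨i, hi⟩
    exact ⟨i, by rw [mul_neg]; exact R.neg_mem hi⟩

lemma cen_prime (R : Subring D) (z : D) (hzi : z⁻¹ ∉ R) :
    ∃ q : ℕ, q.Prime ∧ ∀ m : ℕ, ∀ r ∈ R, (m : D) = z * r → q ∣ m := by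
  let I : Ideal ℤ :=
    { carrier := {m | ∃ r ∈ R, (m : D) = z * r}
      add_mem' := by
        rintro x y ⟨r, hr, h⟩ ⟨r', hr', h'⟩
        exact ⟨r + r', R.add_mem hr hr', by rw [Int.cast_add, h, h', mul_add]⟩
      zero_mem' := ⟨0, R.zero_mem, by simp⟩
      smul_mem' := by
        rintro c x ⟨r, hr, h⟩
        exact ⟨r * c, R.mul_mem hr (intCast_mem R c), by
          rw [smul_eq_mul, mul_comm, Int.cast_mul, h, mul_assoc]⟩ }
  obtain ⟨g, hg⟩ := (IsPrincipalIdealRing.principal I).principal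
  have hg1 : g.natAbs ≠ 1 := fun h => by
    have : (1 : ℤ) ∈ I := by
      rw [hg]
      exact Ideal.mem_span_singleton.2 (Int.isUnit_iff_natAbs_eq.2 h).dvd
    obtain ⟨r, hr, h⟩ := this
    exact hzi (by rw [inv_eq_of_mul_eq_one_right (by simpa using h.symm)]; exact hr)
  obtain ⟨q, hq, hqg⟩ := Nat.exists_prime_and_dvd hg1
  refine ⟨q, hq, fun m r hr h => ?_⟩
  have : (m : ℤ) ∈ I := ⟨r, hr, by simpa using h⟩
  rw [hg] at this
  exact hqg.trans (Int.natAbs_dvd_natAbs.2 (Ideal.mem_span_singleton.1 this))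

lemma cen_delta_mul (φ : D →+* D) (s b : D) (hs : φ s = s) (i : ℕ) :
    (fun x => φ x - x)^[i] (s * b) = s * (fun x => φ x - x)^[i] b := by
  induction i with
  | zero => rfl
  | succ i ih =>
    rw [Function.iterate_succ_apply', Function.iterate_succ_apply', ih, map_mul, hs, mul_sub]

lemma cen_red (a : D) (ha : a ≠ 0) (k : ℕ)
    (hk : ∀ u, u ≠ 0 → ∃ m : ℕ, (m : D) ≠ 0 ∧
      cj a ha (tw (cj a ha) u k ^ m) = tw (cj a ha) u k ^ m)
    (n : ℕ) (hn : 0 < n) (hφn : ∀ x, (cj a ha)^[n] x = x) (b : D) (hbn : ∀ r, b ^ n * r = r * b ^ n)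
    (hd0 : (fun x => cj a ha x - x)^[k + 1] b ≠ 0)
    (R : Subring D) (z : D) (hz : z ∈ R) (hz0 : z ≠ 0) (hzi : z⁻¹ ∉ R)
    (hzc : ∀ r ∈ R, z * r = r * z) (h1 : ∃ i : ℕ, z ^ i * a ∈ R) (h2 : ∃ i : ℕ, z ^ i * a⁻¹ ∈ R)
    (h3 : ∃ i : ℕ, z ^ i * b ∈ R)
    (h4 : ∃ i : ℕ, z ^ i * ((fun x => cj a ha x - x)^[k + 1] b)⁻¹ ∈ R) : False := by
  let T := cenFrac R z hz hz0 hzc
  have hφT : ∀ x ∈ T, cj a ha x ∈ T := fun x hx => T.mul_mem (T.mul_mem h1 hx) h2
  have hzT : ∀ x ∈ T, z * x = x * z := by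
    rintro x ⟨i, hi⟩
    refine mul_left_cancel₀ (pow_ne_zero i hz0) ?_
    rw [← mul_assoc, ← pow_succ, pow_succ', mul_assoc, hzc _ hi, mul_assoc]
  have hφb : cj a ha (b ^ n) = b ^ n := (cj_eq_iff _ _ _).2 (hbn a).symm
  by_cases hp : ∃ q : ℕ, q.Prime ∧ (q : D) ≠ 0 ∧ (q : D)⁻¹ ∉ T
  · obtain ⟨q, hq, hq0, hqi⟩ := hp
    refine cen_main _ k hk T hφT q (natCast_mem T q) hq0 hqi
      (fun r _ => (Nat.cast_commute q r).eq) (map_natCast _ q) q hq (fun m r hr h => ?_) 1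
      (Or.inr ⟨1, T.one_mem, by simp⟩) b h3 n hn (fun r _ => hbn r) hφb 0 hd0
      (by rw [pow_zero, one_mul]; exact h4)
    by_contra hm
    obtain ⟨x, y, e⟩ := Nat.isCoprime_iff_coprime.2 ((Nat.Prime.coprime_iff_not_dvd hq).2 hm)
    have e1 : (q : D) * (x + r * y) = 1 := by
      have := congrArg (Int.cast : ℤ → D) e
      rw [mul_comm x, mul_comm y] at this
      push_cast at this
      rw [mul_add, ← mul_assoc, ← h, this]
    exact hqi (by
      rw [inv_eq_of_mul_eq_one_right e1]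
      exact T.add_mem (intCast_mem T x) (T.mul_mem hr (intCast_mem T y)))
  · have hφz : cj a ha z = z := (cj_eq_iff _ _ _).2 (hzT a h1).symm
    let R' : Subring D := ⨅ j : ℕ, R.comap (cj a ha ^ j)
    have hmem : ∀ x, x ∈ R' ↔ ∀ j, (cj a ha)^[j] x ∈ R := fun x => by
      simp only [R', Subring.mem_iInf, Subring.mem_comap, RingHom.coe_pow]
    have hle : ∀ x ∈ R', x ∈ R := fun x hx => (hmem x).1 hx 0
    have hφR : ∀ x ∈ R', cj a ha x ∈ R' := fun x hx => (hmem _).2 fun j => by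
      rw [← Function.iterate_succ_apply]; exact (hmem x).1 hx _
    have hz' : z ∈ R' := (hmem z).2 fun j => by rw [Function.iterate_fixed hφz]; exact hz
    have hTR : ∀ x ∈ T, ∃ i : ℕ, z ^ i * x ∈ R' := by
      intro x hx
      have hj : ∀ j, (cj a ha)^[j] x ∈ T := fun j => by
        induction j with
        | zero => exact hx
        | succ j ih => rw [Function.iterate_succ_apply']; exact hφT _ ih
      choose f hf using hj
      refine ⟨∑ j ∈ Finset.range n, f j, (hmem _).2 fun j => ?_⟩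
      rw [iter_mod _ n hφn, iter_hom, map_mul, map_pow, ← iter_hom, Function.iterate_fixed hφz]
      obtain ⟨c, hc⟩ := Nat.exists_eq_add_of_le' (Finset.single_le_sum
        (f := f) (fun _ _ => Nat.zero_le _) (Finset.mem_range.2 (Nat.mod_lt j hn)))
      rw [hc, pow_add, mul_assoc]
      exact R.mul_mem (R.pow_mem hz _) (hf _)
    obtain ⟨q, hq, hq1⟩ := cen_prime R' z fun h => hzi (hle _ h)
    obtain ⟨j, hj⟩ : ∃ j : ℕ, (q : D) = 0 ∨ ∃ s ∈ R', z ^ j = q * s := by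
      by_cases hq0 : (q : D) = 0
      · exact ⟨0, Or.inl hq0⟩
      · obtain ⟨j, hj⟩ := hTR _ (by_contra fun h => hp ⟨q, hq, hq0, h⟩)
        exact ⟨j, Or.inr ⟨_, hj, by
          rw [(Nat.cast_commute q _).eq, inv_mul_cancel_right₀ hq0]⟩⟩
    obtain ⟨l, hl⟩ := hTR b h3
    obtain ⟨i, hi⟩ := hTR _ h4
    have hφl : cj a ha (z ^ l) = z ^ l := by rw [map_pow, hφz]
    have hbl : (z ^ l * b) ^ n = (z ^ l) ^ n * b ^ n :=
      Commute.mul_pow (Commute.pow_left (hzT b h3) l) n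
    have hc : Commute z ((fun x => cj a ha x - x)^[k + 1] b)⁻¹ := hzT _ h4
    refine cen_main _ k hk R' hφR z hz' hz0 (fun h => hzi (hle _ h))
      (fun r hr => hzc r (hle r hr)) hφz q hq hq1 j hj (z ^ l * b) hl n hn (fun r hr => ?_) ?_
      (i + l) ?_ ?_
    · rw [hbl]
      exact Commute.mul_left (Commute.pow_left (Commute.pow_left (hzc r (hle r hr)) l) n) (hbn r)
    · rw [hbl, map_mul, map_pow, hφl, hφb]
    · rw [cen_delta_mul _ _ _ hφl]; exact mul_ne_zero (pow_ne_zero _ hz0) hd0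
    · rw [cen_delta_mul _ _ _ hφl, mul_inv_rev, pow_add, mul_assoc, ← mul_assoc (z ^ l),
        (hc.pow_left l).eq, mul_inv_cancel_right₀ (pow_ne_zero _ hz0)]
      exact hi

theorem main_cen (N : Subgroup Dˣ)
    (hN : ∃ (k : ℕ) (H : ℕ → Subgroup Dˣ), H 0 = N ∧ H k = ⊤ ∧
      ∀ i, i < k → H i ≤ H (i + 1) ∧ ((H i).subgroupOf (H (i + 1))).Normal)
    (hrad : ∀ x ∈ N, ∃ n : ℕ, 0 < n ∧ ((x : Dˣ) : D) ^ n ∈ Subring.center D)
    (E : Subfield D)
    (hE : ∀ S : Finset D, (∀ s ∈ S, s ∈ E) → ∃ R : Subring D,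
      ((∀ s ∈ S, s ∈ R) ∧ Finite (Subring.center R)) ∨
      ∃ z ∈ R, z ≠ 0 ∧ z⁻¹ ∉ R ∧ (∀ r ∈ R, z * r = r * z) ∧ ∀ s ∈ S, ∃ i : ℕ, z ^ i * s ∈ R)
    (a : Dˣ) (ha : a ∈ N) (haE : (a : D) ∈ E) (y : D) (hy : y ∈ E) : a * y = y * a := by
  classical
  obtain ⟨k, H⟩ := hyp_of N hN hrad
  have hP : (fun x : D => ∃ g ∈ N, (g : D) = x) a := ⟨a, ha, rfl⟩
  have ha0 := a.ne_zero
  generalize (a : D) = c at *
  obtain ⟨n, hn, hc⟩ := H.cop c hP
  have hn0 : 0 < n := Nat.pos_of_ne_zero (by rintro rfl; simp at hn)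
  have hφn : ∀ x, (cj c ha0)^[n] x = x := fun x => by rw [cj_iter, cj_eq_iff, hc]
  refine congrArg Subtype.val (central_of_conj (⟨c, haE⟩ : E) (fun x hx => Subtype.ext ?_) ⟨y, hy⟩)
  have hx0 : (x : D) ≠ 0 := by simpa using hx
  have hbE : (x : D) * c * (x : D)⁻¹ ∈ E := E.mul_mem (E.mul_mem x.2 haE) (E.inv_mem x.2)
  have hbn : ∀ r, ((x : D) * c * (x : D)⁻¹) ^ n * r = r * ((x : D) * c * (x : D)⁻¹) ^ n := by
    intro r
    rw [← cj_apply _ hx0, ← map_pow, (cj_eq_iff _ _ _).2 (hc _).symm, hc]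
  change c * ((x : D) * c * (x : D)⁻¹) = (x : D) * c * (x : D)⁻¹ * c
  generalize (x : D) * c * (x : D)⁻¹ = b at *
  by_contra hne
  have hd0 := delta_ne (cj c ha0) n hn hφn b (fun h => hne ((cj_eq_iff _ _ _).1 h)) k
  have hdE : ∀ i, (fun x => cj c ha0 x - x)^[i] b ∈ E := fun i => by
    induction i with
    | zero => exact hbE
    | succ i ih =>
      rw [Function.iterate_succ_apply']
      exact E.sub_mem (E.mul_mem (E.mul_mem haE ih) (E.inv_mem haE)) ih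
  obtain ⟨R, h | ⟨z, hz, hz0, hzi, hzc, h⟩⟩ :=
    hE {c, c⁻¹, b, ((fun x => cj c ha0 x - x)^[k + 1] b)⁻¹} (by
      simp only [Finset.mem_insert, Finset.mem_singleton]
      rintro s (rfl | rfl | rfl | rfl)
      exacts [haE, E.inv_mem haE, hbE, E.inv_mem (hdE _)])
  · obtain ⟨h, hf⟩ := h
    have hcR : c ∈ R := h c (by simp)
    let f : ℕ → Subring.center R := fun i => ⟨⟨(c ^ n) ^ i, R.pow_mem (R.pow_mem hcR n) i⟩,
      Subring.mem_center_iff.2 fun r => Subtype.ext (Commute.pow_left (hc r) i).eq.symm⟩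
    obtain ⟨i, j, hij, e⟩ := Finite.exists_ne_map_eq_of_infinite f
    have e' : (c ^ n) ^ i = (c ^ n) ^ j := congrArg (fun u : Subring.center R => ((u : R) : D)) e
    have key : ∀ i j : ℕ, i < j → (c ^ n) ^ i = (c ^ n) ^ j → False := fun i j hij e => by
      obtain ⟨l, rfl⟩ := Nat.exists_eq_add_of_lt hij
      rw [add_assoc, pow_add, eq_comm, mul_eq_left₀ (pow_ne_zero _ (pow_ne_zero _ ha0)),
        ← pow_mul] at e
      exact hne (torsion_central H c hP _ (Nat.mul_pos hn0 l.succ_pos) e b)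
    rcases lt_or_gt_of_ne hij with h' | h'
    exacts [key i j h' e', key j i h' e'.symm]
  · refine cen_red c ha0 k (fun u hu => ?_) n hn0 hφn b hbn hd0 R z hz hz0 hzi hzc
      (h _ (by simp)) (h _ (by simp)) (h _ (by simp)) (h _ (by simp))
    obtain ⟨m, hm, h'⟩ := H.cop _ (H.htow c ha0 hP u hu)
    exact ⟨m, hm, (cj_eq_iff _ _ _).2 (h' c).symm⟩

end Pool.Agent.P.MP_3fd745_al
end

-- part Pool.Agent.P.MP_3fd745_al.Rad
section

/-! Ideals of subrings for which Nakayama's lemma holds. -/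

namespace Pool.Agent.P.MP_3fd745_al

variable {D : Type} [DivisionRing D]

/-- a quasi-regular ideal `P` of a subring `O`, both stable under `φ` -/
structure QR (φ : D →+* D) (O : Subring D) (P : AddSubgroup D) : Prop where
  le : ∀ x ∈ P, x ∈ O
  hl : ∀ r ∈ O, ∀ x ∈ P, r * x ∈ P
  hr : ∀ r ∈ O, ∀ x ∈ P, x * r ∈ P
  hO : ∀ x ∈ O, φ x ∈ O
  hP : ∀ x ∈ P, φ x ∈ P
  hq : ∀ x ∈ P, 1 + x ≠ 0 ∧ (1 + x)⁻¹ ∈ O

lemma QR.pow {φ : D →+* D} {O : Subring D} {P : AddSubgroup D} (h : QR φ O P)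
    (hz : ∀ x ∈ P, (∀ z, x * z = z * x) → x = 0) (e : D) (he : e ∈ P) (m : ℕ) (hm : (m : D) ≠ 0)
    (hc : ∀ z, (1 + e) ^ m * z = z * (1 + e) ^ m) : e = 0 := by
  have key : ∀ j : ℕ, ∃ ρ ∈ P, (1 + e) ^ j = 1 + e * (j + ρ) := by
    intro j
    induction j with
    | zero => exact ⟨0, P.zero_mem, by simp⟩
    | succ j ih =>
      obtain ⟨ρ, hρ, h1⟩ := ih
      refine ⟨ρ + (j + ρ) * e, P.add_mem hρ
        (h.hl _ (O.add_mem (natCast_mem O j) (h.le _ hρ)) _ he), ?_⟩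
      rw [pow_succ, h1]
      push_cast
      noncomm_ring
  obtain ⟨ρ, hρ, h1⟩ := key m
  have h2 := hz (e * (m + ρ)) (h.hr _ (O.add_mem (natCast_mem O m) (h.le _ hρ)) _ he) fun z => by
    have := hc z
    rw [h1, add_mul, mul_add z, one_mul, mul_one, add_right_inj] at this
    exact this
  refine (mul_eq_zero.1 h2).resolve_right fun h3 => hm (hz _ ?_ fun z => (Nat.cast_commute m z).eq)
  rw [eq_neg_of_add_eq_zero_left h3]
  exact P.neg_mem hρ

lemma QR.free {φ : D →+* D} {O : Subring D} {P : AddSubgroup D} (h : QR φ O P)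
    (hz : ∀ x ∈ P, (∀ z, x * z = z * x) → x = 0) (n : ℕ) (hn : (n : D) ≠ 0)
    (hφn : ∀ x, φ^[n] x = x) (k : ℕ)
    (hk : ∀ u, u ≠ 0 → ∃ m : ℕ, (m : D) ≠ 0 ∧ ∀ z, tw φ u k ^ m * z = z * tw φ u k ^ m)
    (b : D) (hb : b ∈ P) : φ b = b := by
  have hu0 := (h.hq b hb).1
  have ht : ∀ i, ∃ e ∈ P, tw φ (1 + b) i = 1 + e := by
    intro i
    induction i with
    | zero => exact ⟨b, hb, rfl⟩
    | succ i ih =>
      obtain ⟨e, he, h1⟩ := ih
      obtain ⟨h2, h3⟩ := h.hq e he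
      refine ⟨(φ e - e) * (1 + e)⁻¹, h.hr _ h3 _ (P.sub_mem (h.hP e he) he), ?_⟩
      rw [tw, h1, map_add, map_one, show 1 + φ e = (1 + e) + (φ e - e) by abel, add_mul,
        mul_inv_cancel₀ h2]
  have hd : ∀ i, φ (tw φ (1 + b) i) = tw φ (1 + b) i → φ b = b := by
    intro i
    induction i with
    | zero => intro h1; simpa [tw] using h1
    | succ i ih =>
      intro h1
      have h0 := tw_ne φ _ hu0 i
      have h2 : φ (tw φ (1 + b) i) = tw φ (1 + b) (i + 1) * tw φ (1 + b) i := by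
        rw [tw, inv_mul_cancel_right₀ h0]
      have h3 := iter_mul φ _ _ h2 h1 n
      rw [hφn, eq_comm, mul_eq_right₀ h0] at h3
      obtain ⟨e, he, h4⟩ := ht (i + 1)
      rw [h4] at h3
      rw [h4, h.pow hz e he n hn (by simp [h3]), add_zero, one_mul] at h2
      exact ih h2
  obtain ⟨e, he, h4⟩ := ht k
  obtain ⟨m, hm, h5⟩ := hk _ hu0
  rw [h4] at h5
  exact hd k (by rw [h4, h.pow hz e he m hm h5, add_zero, map_one])

lemma QR.div {φ : D →+* D} {O : Subring D} {P : AddSubgroup D} (h : QR φ O P)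
    (hφZ : ∀ s : D, (∀ z, s * z = z * s) → φ s = s) (k : ℕ)
    (hk : ∀ u, u ≠ 0 → ∃ m : ℕ, (m : D) ≠ 0 ∧ ∀ z, tw φ u k ^ m * z = z * tw φ u k ^ m)
    (b : D) (hb : b ∈ P) (w : D) (hw : w ∈ P) (hw0 : w ≠ 0) (hwc : ∀ z, w * z = z * w) :
    w⁻¹ * (fun x => φ x - x)^[k + 1] b ∈ O := by
  set d := (fun x => φ x - x)^[k + 1] b with hdd
  let I : Ideal ℤ :=
    { carrier := {m | ∃ r ∈ O, (m : D) * d = w * r}
      add_mem' := by
        rintro x y ⟨r, hr, h⟩ ⟨r', hr', h'⟩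
        exact ⟨r + r', O.add_mem hr hr', by rw [Int.cast_add, add_mul, h, h', mul_add]⟩
      zero_mem' := ⟨0, O.zero_mem, by simp⟩
      smul_mem' := by
        rintro c x ⟨r, hr, h⟩
        exact ⟨c * r, O.mul_mem (intCast_mem O c) hr, by
          rw [smul_eq_mul, Int.cast_mul, mul_assoc, h, ← mul_assoc, ← hwc, mul_assoc]⟩ }
  obtain ⟨g, hg⟩ := (IsPrincipalIdealRing.principal I).principal
  by_cases hg1 : g.natAbs = 1
  · have : (1 : ℤ) ∈ I := by
      rw [hg]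
      exact Ideal.mem_span_singleton.2 (Int.isUnit_iff_natAbs_eq.2 hg1).dvd
    obtain ⟨r, hr, h1⟩ := this
    rw [Int.cast_one, one_mul] at h1
    rw [h1, inv_mul_cancel_left₀ hw0]
    exact hr
  exfalso
  obtain ⟨q, hq, hqg⟩ := Nat.exists_prime_and_dvd hg1
  have hd : ∀ m : ℕ, ∀ r ∈ O, (m : D) * d = w * r → q ∣ m := fun m r hr h => by
    have : (m : ℤ) ∈ I := ⟨r, hr, by simpa using h⟩
    rw [hg] at this
    exact hqg.trans (Int.natAbs_dvd_natAbs.2 (Ideal.mem_span_singleton.1 this))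
  obtain ⟨t0, h1, h2, h3, h4⟩ : ∃ t0 : D, t0 ≠ 0 ∧ t0 ∈ O ∧ (∀ z, t0 * z = z * t0) ∧
      ((q : D) = 0 ∨ ∃ s ∈ O, t0 = q * s) := by
    by_cases hq0 : (q : D) = 0
    · exact ⟨1, one_ne_zero, O.one_mem, by simp, Or.inl hq0⟩
    · exact ⟨q, hq0, natCast_mem O q, fun z => (Nat.cast_commute q z).eq,
        Or.inr ⟨1, O.one_mem, by simp⟩⟩
  have htc : ∀ z, w * t0 * z = z * (w * t0) := fun z => Commute.mul_left (hwc z) (h3 z)
  have htO : w * t0 ∈ O := O.mul_mem (h.le w hw) h2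
  obtain ⟨hu0, hu⟩ := h.hq _ (h.hl _ htO b hb)
  have hφt := hφZ _ htc
  obtain ⟨h5, -, r, hr, h6⟩ := cen_tower φ O h.hO (w * t0) htO (fun r _ => htc r) hφt b
    (h.le b hb) hu0 hu k
  obtain ⟨m, hm, h7⟩ := hk _ hu0
  have h8 := hφZ _ h7
  rw [map_pow, h6, map_add, map_one, map_mul, hφt] at h8
  rw [Function.iterate_succ_apply'] at hdd
  generalize (fun x => φ x - x)^[k] b = y at *
  have he : y + w * t0 * r ∈ O := O.add_mem h5 (O.mul_mem htO hr)
  refine cen_pow_ne O w d (h.le w hw) (fun r _ => hwc r) q hq hd m hm (w * t0) t0 1 _ _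
    (t0 * (φ r - r)) (mul_ne_zero hw0 h1) h2 (fun x _ => htc x) rfl h4
    (fun h => hq.one_lt.ne' (Nat.dvd_one.1 h)) he (h.hO _ he)
    (O.mul_mem h2 (O.sub_mem (h.hO _ hr) hr)) ?_ h8
  rw [map_add, map_mul, hφt, hdd]
  push_cast
  noncomm_ring

/-- a stable quasi-regular ideal is fixed pointwise -/
lemma QR.fix {φ : D →+* D} {O : Subring D} {P : AddSubgroup D} (h : QR φ O P)
    (hφZ : ∀ s : D, (∀ z, s * z = z * s) → φ s = s) (n : ℕ) (hn : (n : D) ≠ 0)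
    (hφn : ∀ x, φ^[n] x = x) (k : ℕ)
    (hk : ∀ u, u ≠ 0 → ∃ m : ℕ, (m : D) ≠ 0 ∧ ∀ z, tw φ u k ^ m * z = z * tw φ u k ^ m)
    (b : D) (hb : b ∈ P) : φ b = b := by
  let P' : AddSubgroup D :=
    { carrier := {x | x ∈ P ∧ ∀ w ∈ P, w ≠ 0 → (∀ z, w * z = z * w) → w⁻¹ * x ∈ O}
      add_mem' := fun {x y} hx hy => ⟨P.add_mem hx.1 hy.1, fun w h1 h2 h3 => by
        rw [mul_add]; exact O.add_mem (hx.2 w h1 h2 h3) (hy.2 w h1 h2 h3)⟩
      zero_mem' := ⟨P.zero_mem, fun w _ _ _ => by simp⟩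
      neg_mem' := fun {x} hx => ⟨P.neg_mem hx.1, fun w h1 h2 h3 => by
        rw [mul_neg]; exact O.neg_mem (hx.2 w h1 h2 h3)⟩ }
  have h' : QR φ O P' :=
    { le := fun x hx => h.le x hx.1
      hl := fun r hr x hx => ⟨h.hl r hr x hx.1, fun w h1 h2 h3 => by
        rw [← mul_assoc, (Commute.inv_left₀ (h3 r)).eq, mul_assoc]
        exact O.mul_mem hr (hx.2 w h1 h2 h3)⟩
      hr := fun r hr x hx => ⟨h.hr r hr x hx.1, fun w h1 h2 h3 => by
        rw [← mul_assoc]; exact O.mul_mem (hx.2 w h1 h2 h3) hr⟩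
      hO := h.hO
      hP := fun x hx => ⟨h.hP x hx.1, fun w h1 h2 h3 => by
        rw [← hφZ w h3, ← map_inv₀, ← map_mul]; exact h.hO _ (hx.2 w h1 h2 h3)⟩
      hq := fun x hx => h.hq x hx.1 }
  have hz : ∀ x ∈ P', (∀ z, x * z = z * x) → x = 0 := by
    intro x hx hc
    by_contra h0
    have h1 := hx.2 (x * x) (h.hl _ (h.le x hx.1) _ hx.1) (mul_ne_zero h0 h0)
      fun z => Commute.mul_left (hc z) (hc z)
    rw [mul_inv_rev, inv_mul_cancel_right₀ h0] at h1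
    have h2 := h.hq _ (P.neg_mem (h.hl _ h1 _ hx.1))
    rw [inv_mul_cancel₀ h0, add_neg_cancel] at h2
    exact h2.1 rfl
  have hP : ∀ i, (fun x => φ x - x)^[i] b ∈ P := fun i => by
    induction i with
    | zero => exact hb
    | succ i ih => rw [Function.iterate_succ_apply']; exact P.sub_mem (h.hP _ ih) ih
  have h1 := h'.free hz n hn hφn k hk _
    ⟨hP (k + 1), fun w h1 h2 h3 => h.div hφZ k hk b hb w h1 h2 h3⟩
  by_contra hne
  refine delta_ne φ n hn hφn b hne (k + 1) ?_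
  rw [Function.iterate_succ_apply', h1, sub_self]

/-- right multiplication as a linear map -/
def rmul (O : Subring D) (x : D) : D →ₗ[O] D where
  toFun l := l * x
  map_add' a b := add_mul a b _
  map_smul' c a := by simp only [RingHom.id_apply, Subring.smul_def, smul_eq_mul, mul_assoc]

lemma rmul_comp (O : Subring D) (x y : D) (L : Submodule O D) :
    L.map (rmul O (x * y)) = (L.map (rmul O x)).map (rmul O y) := by
  rw [← Submodule.map_comp]
  congr 1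
  ext l
  exact (mul_assoc l x y).symm

lemma rmul_add (O : Subring D) (x y : D) (L : Submodule O D) :
    L.map (rmul O (x + y)) ≤ L.map (rmul O x) ⊔ L.map (rmul O y) := by
  rintro _ ⟨l, hl, rfl⟩
  change l * (x + y) ∈ _
  rw [mul_add]
  exact Submodule.add_mem_sup ⟨l, hl, rfl⟩ ⟨l, hl, rfl⟩

lemma rmul_neg (O : Subring D) (x : D) (L : Submodule O D) :
    L.map (rmul O (-x)) ≤ L.map (rmul O x) := by
  rintro _ ⟨l, hl, rfl⟩
  exact ⟨-l, L.neg_mem hl, (neg_mul_comm l x)⟩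

section
variable (O : Subring D) (I : Ideal O) (L : Submodule O D)

/-- finitely generated modules generated by `L` modulo `I` -/
def Cl (A : Submodule O D) : Prop := A.FG ∧ A ≤ L ⊔ I • A

/-- the multipliers of the closure of `L` -/
def InO (x : D) : Prop := ∃ A, Cl O I L A ∧ L.map (rmul O x) ≤ A

/-- the small multipliers -/
def InP (x : D) : Prop := ∃ A, Cl O I L A ∧ L.map (rmul O x) ≤ I • A

variable {O I L}

lemma Cl.sup {A B : Submodule O D} (hA : Cl O I L A) (hB : Cl O I L B) : Cl O I L (A ⊔ B) :=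
  ⟨hA.1.sup hB.1, sup_le
    (hA.2.trans (sup_le_sup_left (smul_mono_right _ le_sup_left) _))
    (hB.2.trans (sup_le_sup_left (smul_mono_right _ le_sup_right) _))⟩

lemma Cl.mul {A B : Submodule O D} (hA : Cl O I L A) (hB : Cl O I L B) {x : D}
    (hx : L.map (rmul O x) ≤ B) : Cl O I L (A.map (rmul O x) ⊔ B) := by
  have h2 : B ≤ L ⊔ I • (A.map (rmul O x) ⊔ B) :=
    hB.2.trans (sup_le_sup_left (smul_mono_right _ le_sup_right) _)
  refine ⟨(hA.1.map _).sup hB.1, sup_le ((Submodule.map_mono hA.2).trans ?_) h2⟩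
  rw [Submodule.map_sup, Submodule.map_smul'']
  exact sup_le (hx.trans h2) (le_sup_of_le_right (smul_mono_right _ le_sup_left))

lemma InP.inO {x : D} (h : InP O I L x) : InO O I L x :=
  h.imp fun _ h => ⟨h.1, h.2.trans Submodule.smul_le_right⟩

lemma InO.mul {x y : D} (hx : InO O I L x) (hy : InO O I L y) : InO O I L (x * y) := by
  obtain ⟨A, hA, h1⟩ := hx
  obtain ⟨B, hB, h2⟩ := hy
  exact ⟨_, hA.mul hB h2, (rmul_comp O x y L).trans_le
    ((Submodule.map_mono h1).trans le_sup_left)⟩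

lemma InP.mul_right {x y : D} (hx : InP O I L x) (hy : InO O I L y) : InP O I L (x * y) := by
  obtain ⟨A, hA, h1⟩ := hx
  obtain ⟨B, hB, h2⟩ := hy
  refine ⟨_, hA.mul hB h2, (rmul_comp O x y L).trans_le ((Submodule.map_mono h1).trans ?_)⟩
  rw [Submodule.map_smul'']
  exact smul_mono_right _ le_sup_left

lemma InP.mul_left {x y : D} (hx : InO O I L x) (hy : InP O I L y) : InP O I L (x * y) := by
  obtain ⟨A, hA, h1⟩ := hx
  obtain ⟨B, hB, h2⟩ := hy
  refine ⟨_, hA.mul hB (h2.trans Submodule.smul_le_right), (rmul_comp O x y L).trans_le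
    ((Submodule.map_mono (h1.trans hA.2)).trans ?_)⟩
  rw [Submodule.map_sup, Submodule.map_smul'']
  exact sup_le (h2.trans (smul_mono_right _ le_sup_right)) (smul_mono_right _ le_sup_left)

lemma InP.inv (hN : ∀ A : Submodule O D, A.FG → A ≤ I • A → A = ⊥) (hL : L.FG) (h1 : (1 : D) ∈ L)
    {x : D} (hx : InP O I L x) : 1 + x ≠ 0 ∧ InO O I L (1 + x)⁻¹ := by
  obtain ⟨A, hA, h2⟩ := hx
  have h0 : 1 + x ≠ 0 := fun h => by
    have h3 : L ≤ I • A := fun l hl => h2 ⟨-l, L.neg_mem hl, by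
      change -l * x = l
      rw [eq_neg_of_add_eq_zero_right h, neg_mul_neg, mul_one]⟩
    have h4 := h3 h1
    rw [hN A hA.1 (hA.2.trans (sup_le h3 le_rfl)), Submodule.smul_bot] at h4
    exact one_ne_zero h4
  have h3 : L.map (rmul O (1 + x)⁻¹) ≤
      L ⊔ I • (L.map (rmul O (1 + x)⁻¹) ⊔ A.map (rmul O (1 + x)⁻¹)) := by
    rintro _ ⟨l, hl, rfl⟩
    have e : rmul O (1 + x)⁻¹ l = l + rmul O (1 + x)⁻¹ (rmul O x (-l)) := by
      change l * (1 + x)⁻¹ = l + -l * x * (1 + x)⁻¹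
      rw [← mul_inv_cancel_right₀ h0 l]
      simp only [mul_inv_cancel_right₀ h0]
      rw [eq_comm, ← sub_eq_zero, show l + -l * x * (1 + x)⁻¹ - l * (1 + x)⁻¹ =
        l - l * (1 + x) * (1 + x)⁻¹ by noncomm_ring, mul_inv_cancel_right₀ h0, sub_self]
    rw [e]
    have h4 : I • A.map (rmul O (1 + x)⁻¹) ≤
        I • (L.map (rmul O (1 + x)⁻¹) ⊔ A.map (rmul O (1 + x)⁻¹)) := smul_mono_right _ le_sup_right
    refine Submodule.add_mem_sup hl (h4 ?_)
    rw [← Submodule.map_smul'']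
    exact ⟨_, h2 ⟨-l, L.neg_mem hl, rfl⟩, rfl⟩
  refine ⟨h0, _, ⟨(hL.map _).sup (hA.1.map _), sup_le h3 ((Submodule.map_mono hA.2).trans ?_)⟩,
    le_sup_left⟩
  rw [Submodule.map_sup, Submodule.map_smul'']
  exact sup_le h3 (le_sup_of_le_right (smul_mono_right _ le_sup_right))

end

/-- the stable pair attached to a finitely generated module -/
lemma exists_QR (φ : D →+* D) (O : Subring D) (I : Ideal O)
    (hN : ∀ A : Submodule O D, A.FG → A ≤ I • A → A = ⊥) (L : Submodule O D) (hL : L.FG)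
    (h1 : (1 : D) ∈ L) : ∃ (O' : Subring D) (P : AddSubgroup D), QR φ O' P ∧
      ∀ x, (∀ i : ℕ, ∀ l ∈ L, l * φ^[i] x ∈ I • L) → x ∈ P := by
  have hC : Cl O I L L := ⟨hL, le_sup_left⟩
  have hz : ∀ A : Submodule O D, L.map (rmul O 0) ≤ A := by
    rintro A _ ⟨l, -, rfl⟩
    change l * 0 ∈ A
    rw [mul_zero]
    exact A.zero_mem
  let O' : Subring D :=
    { carrier := {x | ∀ i : ℕ, InO O I L ((φ ^ i) x)}
      mul_mem' := fun {x y} hx hy i => by rw [map_mul]; exact (hx i).mul (hy i)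
      one_mem' := fun i => ⟨L, hC, by
        rintro _ ⟨l, hl, rfl⟩
        change l * _ ∈ L
        rwa [map_one, mul_one]⟩
      add_mem' := fun {x y} hx hy i => by
        obtain ⟨A, hA, h2⟩ := hx i
        obtain ⟨B, hB, h3⟩ := hy i
        rw [map_add]
        exact ⟨_, hA.sup hB, (rmul_add O _ _ L).trans (sup_le_sup h2 h3)⟩
      zero_mem' := fun i => ⟨L, hC, by rw [map_zero]; exact hz _⟩
      neg_mem' := fun {x} hx i => by
        rw [map_neg]; exact (hx i).imp fun A h => ⟨h.1, (rmul_neg O _ L).trans h.2⟩ }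
  let P : AddSubgroup D :=
    { carrier := {x | ∀ i : ℕ, InP O I L ((φ ^ i) x)}
      add_mem' := fun {x y} hx hy i => by
        obtain ⟨A, hA, h2⟩ := hx i
        obtain ⟨B, hB, h3⟩ := hy i
        rw [map_add]
        exact ⟨_, hA.sup hB, (rmul_add O _ _ L).trans (sup_le
          (h2.trans (smul_mono_right _ le_sup_left)) (h3.trans (smul_mono_right _ le_sup_right)))⟩
      zero_mem' := fun i => ⟨L, hC, by rw [map_zero]; exact hz _⟩
      neg_mem' := fun {x} hx i => by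
        rw [map_neg]; exact (hx i).imp fun A h => ⟨h.1, (rmul_neg O _ L).trans h.2⟩ }
  refine ⟨O', P, ⟨fun x hx i => (hx i).inO, fun r hr x hx i => ?_, fun r hr x hx i => ?_,
    fun x hx i => hx (i + 1), fun x hx i => hx (i + 1),
    fun x hx => ⟨((hx 0).inv hN hL h1).1, fun i => ?_⟩⟩, fun x hx i => ⟨L, hC, ?_⟩⟩
  · rw [map_mul]; exact InP.mul_left (hr i) (hx i)
  · rw [map_mul]; exact (hx i).mul_right (hr i)
  · rw [map_inv₀, map_add, map_one]; exact ((hx i).inv hN hL h1).2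
  · rintro _ ⟨l, hl, rfl⟩
    rw [← iter_hom]
    exact hx i l hl

theorem main_rad (N : Subgroup Dˣ)
    (hN : ∃ (k : ℕ) (H : ℕ → Subgroup Dˣ), H 0 = N ∧ H k = ⊤ ∧
      ∀ i, i < k → H i ≤ H (i + 1) ∧ ((H i).subgroupOf (H (i + 1))).Normal)
    (hrad : ∀ x ∈ N, ∃ n : ℕ, 0 < n ∧ ((x : Dˣ) : D) ^ n ∈ Subring.center D)
    (E : Subfield D)
    (hE : ∀ S : Finset D, (∀ x ∈ S, x ∈ E) → ∃ (O : Subring D) (I : Ideal O) (s : D),
      I ≠ ⊥ ∧ (∀ A : Submodule O D, A.FG → A ≤ I • A → A = ⊥) ∧ s ≠ 0 ∧ ∀ x ∈ S, x * s ∈ O)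
    (a : Dˣ) (ha : a ∈ N) (haE : (a : D) ∈ E) (y : D) (hy : y ∈ E) : a * y = y * a := by
  classical
  obtain ⟨k, H⟩ := hyp_of N hN hrad
  have hP : (fun x : D => ∃ g ∈ N, (g : D) = x) a := ⟨a, ha, rfl⟩
  have ha0 := a.ne_zero
  generalize (a : D) = c at *
  obtain ⟨n, hn, hc⟩ := H.cop c hP
  have hn0 : 0 < n := Nat.pos_of_ne_zero (by rintro rfl; simp at hn)
  have hφn : ∀ x, (cj c ha0)^[n] x = x := fun x => by rw [cj_iter, cj_eq_iff, hc]
  obtain ⟨O, I, s, hJ, hI, hs, hS⟩ := hE (((Finset.range n ×ˢ Finset.range n) ×ˢ {1, y}).image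
    fun p : (ℕ × ℕ) × D => (c ^ p.1.1)⁻¹ * c ^ p.1.2 * p.2) (by
      intro x hx
      obtain ⟨p, hp, rfl⟩ := Finset.mem_image.1 hx
      refine E.mul_mem (E.mul_mem (E.inv_mem (E.pow_mem haE _)) (E.pow_mem haE _)) ?_
      have := (Finset.mem_product.1 hp).2
      rw [Finset.mem_insert, Finset.mem_singleton] at this
      rcases this with h | h <;> rw [h]
      exacts [E.one_mem, hy])
  obtain ⟨j, hj, hj0⟩ := Submodule.exists_mem_ne_zero_of_ne_bot hJ
  let L : Submodule O D :=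
    Submodule.span O ((Finset.range n).image fun i : ℕ => (c ^ i)⁻¹ : Finset D)
  have hLm : ∀ i < n, (c ^ i)⁻¹ ∈ L := fun i hi => Submodule.subset_span (by
    simp only [Finset.coe_image, Finset.coe_range]; exact ⟨i, hi, rfl⟩)
  obtain ⟨O', P, hQ, hPm⟩ := exists_QR (cj c ha0) O I hI L
    (Submodule.fg_span (Finset.finite_toSet _)) (by simpa using hLm 0 hn0)
  have key : ∀ v ∈ ({1, y} : Finset D), c * (v * (s * j)) = v * (s * j) * c := by
    intro v hv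
    rw [← cj_eq_iff c ha0]
    refine hQ.fix (fun s hs => (cj_eq_iff _ _ _).2 (hs c).symm) n hn hφn k
      (fun u hu => H.cop _ (H.htow c ha0 hP u hu)) _ (hPm _ fun i l hl => ?_)
    rw [iter_mod _ n hφn, cj_iter, cj_apply]
    have hi := Nat.mod_lt i hn0
    generalize i % n = i at *
    induction hl using Submodule.span_induction with
    | mem l hl =>
      simp only [Finset.coe_image, Finset.coe_range] at hl
      obtain ⟨m, hm, rfl⟩ := hl
      have h2 := hS _ (Finset.mem_image.2 ⟨((m, i), v), Finset.mem_product.2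
        ⟨Finset.mem_product.2 ⟨Finset.mem_range.2 hm, Finset.mem_range.2 hi⟩, hv⟩, rfl⟩)
      have h3 := Submodule.smul_mem_smul (Ideal.mul_mem_left _ ⟨_, h2⟩ hj) (hLm i hi)
      simpa only [Subring.smul_def, smul_eq_mul, Subring.coe_mul, mul_assoc] using h3
    | zero => simp
    | add x z _ _ hx hz => rw [add_mul]; exact Submodule.add_mem _ hx hz
    | smul r x _ hx =>
      have := Submodule.smul_mem _ r hx
      simpa only [Subring.smul_def, smul_eq_mul, mul_assoc] using this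
  have h1 := key 1 (by simp)
  have h2 := key y (by simp)
  have h0 : s * (j : D) ≠ 0 := mul_ne_zero hs fun h => hj0 (Subtype.ext h)
  rw [one_mul] at h1
  refine mul_right_cancel₀ h0 ?_
  rw [mul_assoc, h2, mul_assoc, ← h1, mul_assoc]

end Pool.Agent.P.MP_3fd745_al
end
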