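import Pool.Agent.K.MP_3fd745_al.C4

/-! Division rings that are not spanned by additive commutators. -/

namespace Pool.Agent.P.MP_3fd745_al

variable {D : Type} [DivisionRing D]

/-- a noncentral normal radical subgroup spans the division ring over the center -/
lemma span_top (M : Subgroup Dˣ) [hM : M.Normal] {k : ℕ}
    (H : Hyp k (fun x : D => ∃ g ∈ M, (g : D) = x)) (a : Dˣ) (ha : a ∈ M) (y : D)
    (hy : (a : D) * y ≠ y * a) (T : Submodule (Subring.center D) D)
    (hT : ∀ m ∈ M, ((m : Dˣ) : D) ∈ T) (x : D) : x ∈ T := by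
  have hmul : ∀ m ∈ M, (m : D) ≠ 1 → ∀ g ∈ M, (1 - (m : D))⁻¹ * g ∈ T := by
    intro m hm h1 g hg
    have h0 : 1 - (m : D) ≠ 0 := sub_ne_zero.2 h1.symm
    obtain ⟨n, hn, hc, hn1⟩ : ∃ n : ℕ, 0 < n ∧ (∀ z, (m : D) ^ n * z = z * (m : D) ^ n) ∧
        (m : D) ^ n ≠ 1 := by
      obtain ⟨n, hn, hc⟩ := H.hrad m ⟨m, hm, rfl⟩
      by_cases h : (m : D) ^ n = 1
      · exact ⟨1, one_pos, by simpa using torsion_central H _ ⟨m, hm, rfl⟩ n hn h,
          by rwa [pow_one]⟩
      · exact ⟨n, hn, hc, h⟩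
    let μ : Subring.center D := ⟨1 - (m : D) ^ n, Subring.mem_center_iff.2 fun z => by
      rw [mul_sub, sub_mul, hc, mul_one, one_mul]⟩
    have hμ : μ ≠ 0 := fun h => hn1 (sub_eq_zero.1 (congrArg Subtype.val h)).symm
    have e : μ • ((1 - (m : D))⁻¹ * g) = ∑ i ∈ Finset.range n, ((m ^ i * g : Dˣ) : D) := by
      change (1 - (m : D) ^ n) * _ = _
      rw [← geom_sum_mul_neg, ← mul_assoc, mul_inv_cancel_right₀ h0, Finset.sum_mul]
      simp
    rw [← T.smul_mem_iff hμ, e]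
    exact T.sum_mem fun i _ => hT _ (M.mul_mem (M.pow_mem hm i) hg)
  have key : ∀ x : D, (a : D) * x ≠ x * a → x ∈ T := by
    intro x hx
    have h0 : x ≠ 0 := by rintro rfl; simp at hx
    have h1 : x + 1 ≠ 0 := fun h => hx (by simp [eq_neg_of_add_eq_zero_left h])
    have hb := hM.conj_mem a ha (Units.mk0 x h0)
    have hc := hM.conj_mem a ha (Units.mk0 _ h1)
    have e1 : ((Units.mk0 x h0 * a * (Units.mk0 x h0)⁻¹ : Dˣ) : D) * x = x * a := by simp [h0]
    have e2 : ((Units.mk0 _ h1 * a * (Units.mk0 _ h1)⁻¹ : Dˣ) : D) * (x + 1) = (x + 1) * a := by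
      simp [h1]
    generalize Units.mk0 x h0 * a * (Units.mk0 x h0)⁻¹ = b at *
    generalize Units.mk0 _ h1 * a * (Units.mk0 _ h1)⁻¹ = c at *
    have e3 : ((c : D) - b) * x = a - c := by
      rw [mul_add, add_mul, mul_one, one_mul, ← e1] at e2
      rw [sub_mul, sub_eq_sub_iff_add_eq_add, e2, add_comm]
    have h2 : ((c⁻¹ * b : Dˣ) : D) ≠ 1 := fun h => by
      have h3 : b = c := (inv_mul_eq_one.1 (Units.ext h)).symm
      rw [h3, sub_self, zero_mul, eq_comm, sub_eq_zero] at e3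
      exact hx (by rw [← e1, h3, e3])
    have e4 : (1 - ((c⁻¹ * b : Dˣ) : D)) * x = (c⁻¹ * a : Dˣ) - (1 : Dˣ) := by
      have := congrArg (((c⁻¹ : Dˣ) : D) * ·) e3
      simpa only [← mul_assoc, mul_sub, Units.inv_mul, Units.val_mul, Units.val_one] using this
    rw [(eq_inv_mul_iff_mul_eq₀ (sub_ne_zero.2 h2.symm)).2 e4, mul_sub]
    have h4 := M.mul_mem (M.inv_mem hc) hb
    exact T.sub_mem (hmul _ h4 h2 _ (M.mul_mem (M.inv_mem hc) ha)) (hmul _ h4 h2 _ M.one_mem)
  by_cases hx : (a : D) * x = x * a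
  · have := T.sub_mem (key (x + y) fun h => hy (by
      rwa [mul_add, add_mul, hx, add_right_inj] at h)) (key y hy)
    simpa using this
  · exact key x hx

theorem core_perf (M : Subgroup Dˣ) [hM : M.Normal] {k : ℕ}
    (H : Hyp k (fun x : D => ∃ g ∈ M, (g : D) = x)) (x : D)
    (hx : x ∉ AddSubgroup.closure {z : D | ∃ x y, z = x * y - y * x}) (a : Dˣ) (ha : a ∈ M)
    (y : D) : (a : D) * y = y * a := by
  by_contra hy
  have h1 : (1 : D) ∈ AddSubgroup.closure {z : D | ∃ x y, z = x * y - y * x} := by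
    by_contra h1
    exact hy (core_trace H h1 _ ⟨a, ha, rfl⟩ y)
  let S : Submodule (Subring.center D) D :=
    { (AddSubgroup.closure {z : D | ∃ x y, z = x * y - y * x}).toAddSubmonoid with
      smul_mem' := fun s z hz => by
        change _ ∈ AddSubgroup.closure _ at hz ⊢
        induction hz using AddSubgroup.closure_induction with
        | mem z hz =>
          obtain ⟨x, y, rfl⟩ := hz
          exact AddSubgroup.subset_closure ⟨s • x, y, by simp [smul_sub]⟩
        | zero => simp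
        | add x y _ _ hx hy => rw [smul_add]; exact add_mem hx hy
        | neg x _ hx => rw [smul_neg]; exact neg_mem hx }
  obtain ⟨τ, h2, h3⟩ := S.exists_dual_map_eq_bot_of_notMem hx inferInstance
  have hS : ∀ z ∈ S, τ z = 0 := fun z hz => by
    rw [← Submodule.mem_bot (Subring.center D), ← h3]
    exact ⟨_, hz, rfl⟩
  have hτ : ∀ x y, τ (x * y) = τ (y * x) := fun x y => by
    rw [← sub_eq_zero, ← map_sub]
    exact hS _ (AddSubgroup.subset_closure ⟨x, y, rfl⟩)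
  refine h2 (span_top M H a ha y hy (LinearMap.ker τ) (fun m hm => ?_) x)
  refine (trace_zero H τ hτ _ ⟨m, hm, rfl⟩).elim (fun h => hS _ ?_) id
  have := S.smul_mem ⟨m, Subring.mem_center_iff.2 fun z => (h z).symm⟩ h1
  simpa [Subring.smul_def] using this

theorem main_perf (N : Subgroup Dˣ)
    (hN : ∃ (k : ℕ) (H : ℕ → Subgroup Dˣ), H 0 = N ∧ H k = ⊤ ∧
      ∀ i, i < k → H i ≤ H (i + 1) ∧ ((H i).subgroupOf (H (i + 1))).Normal)
    (hrad : ∀ x ∈ N, ∃ n : ℕ, 0 < n ∧ ((x : Dˣ) : D) ^ n ∈ Subring.center D)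
    (E : Subfield D) (x : D) (hxE : x ∈ E)
    (hx : x ∉ AddSubgroup.closure {z : D | ∃ x ∈ E, ∃ y ∈ E, z = x * y - y * x})
    (a : Dˣ) (ha : a ∈ N) (haE : (a : D) ∈ E) (y : D) (hy : y ∈ E) : a * y = y * a := by
  obtain ⟨k, H, h0, hk, hH⟩ := hN
  let f : Eˣ →* Dˣ := Units.map E.subtype.toMonoidHom
  obtain ⟨M, hM, h1, -, h3⟩ := Sv.exists_hull (N.comap f)
    ⟨k, fun i => (H i).comap f, by simp only [h0], by simp [hk], fun i hi =>
      ⟨Subgroup.comap_mono (hH i hi).1, ⟨fun b hb g => by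
        have := (hH i hi).2.conj_mem ⟨f b, b.2⟩ hb ⟨f g, g.2⟩
        simpa [Subgroup.mem_subgroupOf] using this⟩⟩⟩ (fun b hb => by
      obtain ⟨m, hm, e⟩ := hrad _ hb
      exact ⟨m, hm, (Sv.mem_center_units _).2 (Subring.mem_center_iff.2 fun z =>
        Subtype.ext (by simpa [f] using Subring.mem_center_iff.1 e z))⟩)
  let a' : Eˣ := Units.mk0 ⟨a, haE⟩ fun h => a.ne_zero (congrArg Subtype.val h)
  obtain ⟨k', H'⟩ := hyp_of M
    ⟨1, fun i => if i = 0 then M else ⊤, rfl, rfl, fun i hi => by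
      obtain rfl : i = 0 := by omega
      exact ⟨le_top, hM.subgroupOf _⟩⟩ fun x hx =>
    (h3 x hx).imp fun n h => ⟨h.1, by simpa using (Sv.mem_center_units _).1 h.2⟩
  refine congrArg Subtype.val (core_perf M H' ⟨x, hxE⟩ (fun h => hx ?_) a' (h1 (show f a' ∈ N from by
    rwa [show f a' = a from Units.ext rfl])) ⟨y, hy⟩)
  have := AddSubgroup.mem_map_of_mem E.subtype.toAddMonoidHom h
  rw [AddMonoidHom.map_closure] at this
  refine AddSubgroup.closure_mono ?_ this
  rintro _ ⟨_, ⟨x, y, rfl⟩, rfl⟩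
  exact ⟨x, x.2, y, y.2, rfl⟩

end Pool.Agent.P.MP_3fd745_al
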