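import Mathlib
import Pool.Agent.K.MP_3fd745_al.C4

-- part Pool.Agent.P.MP_3fd745_al.AbsA
section

/-! An absolute value cannot see equidistributed roots of growing degree near a fixed root. -/

namespace Pool.Agent.P.MP_3fd745_al

open Filter Topology

variable {F : Type} [Field F] (v : AbsoluteValue F ℝ)

lemma abs_pow_sub (η : F) (n : ℕ) : v ((1 + η) ^ n - 1) ≤ (1 + v η) ^ n - 1 := by
  induction n with
  | zero => simp
  | succ n ih =>
    have e : (1 + η) ^ (n + 1) - 1 = ((1 + η) ^ n - 1) * (1 + η) + η := by ring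
    have h1 : v (1 + η) ≤ 1 + v η := by simpa using v.add_le 1 η
    have h2 := v.add_le (((1 + η) ^ n - 1) * (1 + η)) η
    rw [map_mul] at h2
    have h3 := mul_le_mul ih h1 (v.nonneg _) ((v.nonneg _).trans ih)
    rw [e, pow_succ]
    linarith

lemma abs_ultra (h : ∀ m : ℕ, v m ≤ 1) (x y : F) : v (x + y) ≤ max (v x) (v y) := by
  have : IsUltrametricDist (WithAbs v) :=
    isUltrametricDist_iff_forall_norm_natCast_le_one.2 fun m => by
      rw [WithAbs.norm_eq_apply_ofAbs, show (m : WithAbs v).ofAbs = m from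
        map_natCast (WithAbs.equiv v) m]
      exact h m
  simpa [WithAbs.norm_eq_apply_ofAbs] using
    IsUltrametricDist.norm_add_le_max (WithAbs.toAbs v x) (WithAbs.toAbs v y)

lemma abs_primes (h : ∀ m : ℕ, v m ≤ 1) :
    ∃ κ : ℝ, 0 < κ ∧ ∀ p : ℕ, p.Prime → (p : F) ≠ 0 → κ ≤ v p := by
  by_cases h1 : ∃ q : ℕ, q.Prime ∧ (q : F) ≠ 0 ∧ v q < 1
  · obtain ⟨q, hq, hq0, hq1⟩ := h1
    refine ⟨v q, v.pos hq0, fun p hp _ => ?_⟩
    by_cases e : p = q
    · rw [e]
    by_contra hlt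
    obtain ⟨x, y, e1⟩ := Nat.isCoprime_iff_coprime.2 ((Nat.coprime_primes hp hq).2 e)
    have hi : ∀ z : ℤ, v z ≤ 1 := fun z => by
      obtain ⟨m, rfl | rfl⟩ := z.eq_nat_or_neg <;> simpa using h m
    have e2 := congrArg (Int.cast : ℤ → F) e1
    push_cast at e2
    have h2 := abs_ultra v h ((x : F) * p) (y * q)
    rw [e2, map_one, map_mul, map_mul] at h2
    have h3 := mul_le_of_le_one_left (v.nonneg p) (hi x)
    have h4 := mul_le_of_le_one_left (v.nonneg q) (hi y)
    rcases le_max_iff.1 h2 with h5 | h5 <;> linarith [not_le.1 hlt]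
  · exact ⟨1, one_pos, fun p hp h0 => not_lt.1 fun h2 => h1 ⟨p, hp, h0, h2⟩⟩

lemma abs_lte (h : ∀ m : ℕ, v m ≤ 1) (κ : ℝ) (hκ : ∀ p : ℕ, p.Prime → (p : F) ≠ 0 → κ ≤ v p)
    (K : ℕ) (hK : 1 ≤ 2 ^ K * κ) (N : ℕ) (hN : (N : F) ≠ 0) :
    ∀ η : F, v η < κ → v η ≤ 1 → v η ≤ (N : ℝ) ^ K * v ((1 + η) ^ N - 1) := by
  induction N using induction_on_primes with
  | zero => simp at hN
  | one => intro η _ _; simp
  | prime_mul p N hp ih =>
    intro η h1 h2
    rw [Nat.cast_mul] at hN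
    have hp0 := left_ne_zero_of_mul hN
    have key : ∀ j : ℕ, ∃ r : F, v r ≤ 1 ∧ (1 + η) ^ j - 1 = j * η + η ^ 2 * r := by
      intro j
      induction j with
      | zero => exact ⟨0, by simp, by simp⟩
      | succ j ihj =>
        obtain ⟨r, hr, e⟩ := ihj
        refine ⟨r + (j + η * r), (abs_ultra v h _ _).trans (max_le hr ((abs_ultra v h _ _).trans
          (max_le (h j) (by rw [map_mul]; exact mul_le_one₀ h2 (v.nonneg _) hr)))), ?_⟩
        rw [pow_succ, sub_eq_iff_eq_add.1 e]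
        push_cast
        ring
    obtain ⟨r, hr, e⟩ := key p
    by_cases h0 : η = 0
    · simp [h0]
    have h3 : v (η ^ 2 * r) < v (p * η) := by
      rw [map_mul, map_mul, map_pow, sq]
      have := v.pos h0
      nlinarith [hκ p hp hp0, v.nonneg r, mul_pos this this]
    have h4 : v (p * η) ≤ v ((1 + η) ^ p - 1) := by
      have := abs_ultra v h ((1 + η) ^ p - 1) (-(η ^ 2 * r))
      rw [v.map_neg, e, add_neg_cancel_right] at this
      rw [e]
      exact (le_max_iff.1 this).resolve_right (not_le.2 h3)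
    have h5 : v ((1 + η) ^ p - 1) ≤ v η := by
      rw [e]
      refine (abs_ultra v h _ _).trans (max_le ?_ (h3.le.trans ?_)) <;>
        rw [map_mul] <;> exact mul_le_of_le_one_left (v.nonneg _) (h p)
    have h6 := ih (right_ne_zero_of_mul hN) _ (h5.trans_lt h1) (h5.trans h2)
    rw [add_sub_cancel, ← pow_mul] at h6
    rw [map_mul] at h4
    have h7 : (2 : ℝ) ^ K ≤ (p : ℝ) ^ K :=
      pow_le_pow_left₀ zero_le_two (by exact_mod_cast hp.two_le) K
    have h8 : 1 ≤ (p : ℝ) ^ K * v p := hK.trans (by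
      have : 0 < κ := by by_contra h9; nlinarith [pow_pos (zero_lt_two' ℝ) K]
      exact mul_le_mul h7 (hκ p hp hp0) this.le (by positivity))
    calc v η ≤ (p : ℝ) ^ K * v p * v η := le_mul_of_one_le_left (v.nonneg _) h8
      _ ≤ (p : ℝ) ^ K * ((N : ℝ) ^ K * v ((1 + η) ^ (p * N) - 1)) := by
        rw [mul_assoc]; exact mul_le_mul_of_nonneg_left (h4.trans h6) (by positivity)
      _ = _ := by push_cast; ring

lemma abs_contra (n : ℕ) (ν s : F) (h0 : s ^ n - ν ≠ 0) (h1 : v (s ^ n - ν) < 1)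
    (H : ∀ s₁ s₂ : F, v (s₁ ^ n - ν) < 1 → v (s₂ ^ n - ν) < 1 → ∃ ρ : ℝ, 0 ≤ ρ ∧ ρ < 1 ∧
      ∀ B : ℕ, ∃ N : ℕ, B ≤ N ∧ (N : F) ≠ 0 ∧ ∃ μ : F, v μ = 1 ∧ v (s₁ ^ N - μ) ≤ ρ ^ N ∧
        v (s₂ ^ N - μ) ≤ ρ ^ N) : False := by
  have a1 : ∀ t : F, v (t ^ n - ν) < 1 → v t = 1 := by
    intro t ht
    obtain ⟨ρ, h2, h3, h4⟩ := H t t ht ht
    rcases lt_trichotomy (v t) 1 with h | h | h
    · have := ((tendsto_pow_atTop_nhds_zero_of_lt_one (v.nonneg t) h).add
        (tendsto_pow_atTop_nhds_zero_of_lt_one h2 h3)).eventually_lt_const (u := 1) (by simp)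
      obtain ⟨B, hB⟩ := eventually_atTop.1 this
      obtain ⟨N, hN, -, μ, h5, h6, -⟩ := h4 B
      have h7 := v.le_sub μ (t ^ N)
      rw [v.map_sub, h5, map_pow] at h7
      linarith [hB N hN]
    · exact h
    · obtain ⟨B, hB⟩ := eventually_atTop.1
        ((tendsto_pow_atTop_atTop_of_one_lt h).eventually_gt_atTop 2)
      obtain ⟨N, hN, -, μ, h5, h6, -⟩ := h4 B
      have h7 := v.le_sub (t ^ N) μ
      rw [h5, map_pow] at h7
      linarith [hB N hN, pow_le_one₀ h2 h3.le (n := N)]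
  have hs := a1 s h1
  obtain ⟨δ, hδ, a2⟩ : ∃ δ : ℝ, 0 < δ ∧ ∀ η : F, v η < δ → v ((s * (1 + η)) ^ n - ν) < 1 := by
    have hc : ContinuousAt (fun x : ℝ => (1 + x) ^ n - 1 + v (s ^ n - ν)) 0 := by fun_prop
    obtain ⟨δ, hδ, h⟩ := Metric.eventually_nhds_iff.1
      (hc.eventually_lt_const (u := 1) (by simpa using h1))
    refine ⟨δ, hδ, fun η hη => lt_of_le_of_lt ?_ (h (y := v η) (by
      rwa [Real.dist_eq, sub_zero, abs_of_nonneg (v.nonneg η)]))⟩
    have := v.add_le (s ^ n * ((1 + η) ^ n - 1)) (s ^ n - ν)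
    rw [map_mul, map_pow, hs, one_pow, one_mul,
      show s ^ n * ((1 + η) ^ n - 1) + (s ^ n - ν) = (s * (1 + η)) ^ n - ν by rw [mul_pow]; ring] at this
    linarith [abs_pow_sub v η n]
  have a3 : ∀ x y : F, v y < δ * v x → v (x + y) = v x := by
    intro x y h
    have hx : x ≠ 0 := by rintro rfl; simp at h; linarith [v.nonneg y]
    have := a1 _ (a2 (y / x) (by rwa [map_div₀, div_lt_iff₀ (v.pos hx)]))
    rw [map_mul, hs, one_mul] at this
    rw [show x + y = (1 + y / x) * x by field_simp, map_mul, this, one_mul]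
  have a4 : ∀ m : ℕ, v m ≤ 1 := by
    intro m
    by_contra hm
    rw [not_le] at hm
    obtain ⟨k, hk⟩ := pow_unbounded_of_one_lt δ⁻¹ hm
    have h2 : ∀ j : ℕ, v ((m : F) ^ k + j) = v m ^ k := by
      intro j
      induction j with
      | zero => simp
      | succ j ih =>
        rw [Nat.cast_succ, ← add_assoc, a3 _ _ (by
          rw [map_one, ih]; exact (inv_lt_iff_one_lt_mul₀' hδ).1 hk), ih]
    have hm0 : 0 < m := Nat.pos_of_ne_zero (by rintro rfl; simp at hm; linarith)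
    have h3 := h2 (m ^ (k + 1) - m ^ k)
    rw [Nat.cast_sub (Nat.pow_le_pow_right hm0 k.le_succ)] at h3
    push_cast at h3
    rw [add_sub_cancel, map_pow] at h3
    exact (pow_lt_pow_right₀ hm k.lt_succ_self).ne' h3
  obtain ⟨κ, hκ, a5⟩ := abs_primes v a4
  obtain ⟨K, hK⟩ := pow_unbounded_of_one_lt κ⁻¹ (one_lt_two (α := ℝ))
  obtain ⟨j, hj⟩ := exists_pow_lt_of_lt_one (lt_min hδ hκ) h1
  rw [← map_pow, lt_min_iff] at hj
  have hη : 0 < v ((s ^ n - ν) ^ j) := v.pos (pow_ne_zero _ h0)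
  have hη1 : v ((s ^ n - ν) ^ j) ≤ 1 := by rw [map_pow]; exact pow_le_one₀ (v.nonneg _) h1.le
  generalize (s ^ n - ν) ^ j = η at *
  obtain ⟨ρ, h2, h3, h4⟩ := H _ s (a2 η hj.1) h1
  obtain ⟨B, hB⟩ := eventually_atTop.1 ((tendsto_pow_const_mul_const_pow_of_abs_lt_one K
    (r := ρ) (by rwa [abs_of_nonneg h2])).eventually_lt_const hη)
  obtain ⟨N, hN, hN0, μ, -, h6, h7⟩ := h4 B
  have h8 := abs_lte v a4 κ a5 K ((inv_lt_iff_one_lt_mul₀ hκ).1 hK).le N hN0 η hj.2 hη1
  have h9 := abs_ultra v a4 ((s * (1 + η)) ^ N - μ) (-(s ^ N - μ))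
  rw [v.map_neg, show (s * (1 + η)) ^ N - μ + -(s ^ N - μ) = s ^ N * ((1 + η) ^ N - 1) by
    rw [mul_pow]; ring,
    map_mul, map_pow, hs, one_pow, one_mul] at h9
  have := mul_le_mul_of_nonneg_left (h9.trans (max_le h6 h7)) (by positivity : 0 ≤ (N : ℝ) ^ K)
  linarith [hB N hN]

end Pool.Agent.P.MP_3fd745_al
end

-- part Pool.Agent.P.MP_3fd745_al.AbsB
section

/-! Lines of twisted commutators with bounded degree, and multiplicative maps. -/

namespace Pool.Agent.P.MP_3fd745_al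

open Polynomial

variable {D : Type} [DivisionRing D]

lemma det_wedd (χ : D →*₀ ℝ) (m : D) (hm : IsIntegral (Subring.center D) m)
    (s : Subring.center D) : χ (algebraMap _ D ((minpoly (Subring.center D) m).eval s)) =
      χ (algebraMap _ D s - m) ^ (minpoly (Subring.center D) m).natDegree := by
  set f := minpoly (Subring.center D) m with hf
  have hfm : f.Monic := minpoly.monic hm
  have key : ∀ r ≤ f.natDegree, ∃ g h : D[X], g * h = f.map (algebraMap _ D) ∧ h.Monic ∧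
      h.natDegree = r ∧ χ (h.eval (algebraMap _ D s)) = χ (algebraMap _ D s - m) ^ r := by
    intro r hr
    induction r with
    | zero => exact ⟨_, 1, mul_one _, monic_one, natDegree_one, by simp⟩
    | succ r ih =>
      obtain ⟨g, h, e, h1, h2, h3⟩ := ih (by omega)
      obtain ⟨x, hx⟩ : ∃ x, act m h x ≠ 0 := by
        by_contra hc
        have := act_indep m h h1.ne_zero (fun x => not_not.1 fun h' => hc ⟨x, h'⟩)
        rw [← hf] at this
        omega
      have h4 := act_map m x f (minpoly.aeval _ m)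
      rw [← e, act_mul, act_eval m _ hx, mul_eq_zero, or_iff_left hx] at h4
      obtain ⟨g', rfl⟩ := right_factor g _ h4
      refine ⟨g', _, by rw [← e, mul_assoc], (monic_X_sub_C _).mul h1, ?_, ?_⟩
      · rw [(monic_X_sub_C _).natDegree_mul h1, natDegree_X_sub_C, h2, add_comm]
      · generalize act m h x = y at hx
        have : algebraMap _ D s - y * m * y⁻¹ = y * (algebraMap _ D s - m) * y⁻¹ := by
          rw [mul_sub, sub_mul, ← Algebra.commutes, mul_inv_cancel_right₀ hx]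
        rw [eval_mul_cen, map_mul, h3, eval_sub, eval_X, eval_C, pow_succ', this, map_mul, map_mul,
          map_inv₀, mul_comm (χ y), mul_inv_cancel_right₀ ((map_ne_zero χ).2 hx)]
  obtain ⟨g, h, e, h1, h2, h3⟩ := key _ le_rfl
  have hm2 := hfm.map (algebraMap (Subring.center D) D)
  have hg : g.Monic := by
    have := hm2.leadingCoeff
    rwa [← e, leadingCoeff_mul, h1.leadingCoeff, mul_one] at this
  have hd := hfm.natDegree_map (algebraMap (Subring.center D) D)
  rw [← e, hg.natDegree_mul h1, h2, add_eq_right, hg.natDegree_eq_zero] at hd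
  rw [hd, one_mul] at e
  rw [← h3, e, eval_map, eval₂_at_apply]

lemma line_pow (f : (Subring.center D)[X]) (hf : Irreducible f) (hfm : f.Monic) (m y t : D)
    (hm : aeval m f = 0) (hy : aeval y f = 0) (ht : t ≠ 0) (h0 : m ∉ Subring.center D) (N : ℕ)
    (S : Set (Subring.center D)) (hS : S.Infinite) (h : ∀ σ ∈ S,
      ((algebraMap _ D σ - y) * t * (algebraMap _ D σ - m)⁻¹) ^ N ∈ Subring.center D)
    (σ : Subring.center D) :
    ((algebraMap _ D σ - y) * t * (algebraMap _ D σ - m)⁻¹) ^ N = t ^ N := by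
  have hev : ∀ (c : (Subring.center D)[X]) (ε : Subring.center D), (c.map (algebraMap _ D)).eval
    (algebraMap _ D ε) = algebraMap _ D (c.eval ε) := fun c ε => by rw [eval_map, eval₂_at_apply]
  have hcc : ∀ g : D[X], f.map (algebraMap _ D) * g = g * f.map (algebraMap _ D) := fun g => by
    ext j
    rw [coeff_mul, coeff_mul, Finset.Nat.sum_antidiagonal_swap.symm]
    exact Finset.sum_congr rfl fun x _ => by simp [Algebra.commutes]
  have fac : ∀ x : D, aeval x f = 0 → ∃ q : D[X], q * (X - C x) = f.map (algebraMap _ D) ∧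
      (X - C x) * q = f.map (algebraMap _ D) := fun x hx => by
    obtain ⟨q, e⟩ := right_factor (f.map (algebraMap _ D)) x (by rwa [eval_map, ← aeval_def])
    exact ⟨q, e.symm, mul_right_cancel₀ (X_sub_C_ne_zero x) (by rw [mul_assoc, ← e, hcc])⟩
  obtain ⟨q, q1, q2⟩ := fac m hm
  obtain ⟨q', -, q3⟩ := fac y hy
  have hm0 : ∀ σ : Subring.center D, algebraMap _ D σ - m ≠ 0 := fun σ e =>
    h0 (sub_eq_zero.1 e ▸ σ.2)
  have hf0 : f.eval σ ≠ 0 := fun e => hm0 σ (by
    rw [(minpoly.eq_of_irreducible_of_monic hf (x := algebraMap _ D σ) (by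
      rw [aeval_algebraMap_apply_eq_algebraMap_eval, e, map_zero]) hfm).trans
      (minpoly.eq_X_sub_C D σ), map_sub, aeval_X, aeval_C] at hm
    rw [← neg_sub, hm, neg_zero])
  have hg := hfm.map (algebraMap _ D)
  have hq : q.Monic := (monic_X_sub_C m).of_mul_monic_left (q2 ▸ hg)
  obtain ⟨U, hU⟩ : ∃ U, U = (X - C y) * C t * q := ⟨_, rfl⟩
  have u1 : ∀ (j : ℕ) (σ : Subring.center D), (U ^ j).eval (algebraMap _ D σ) = algebraMap _ D
      (f.eval σ ^ j) * ((algebraMap _ D σ - y) * t * (algebraMap _ D σ - m)⁻¹) ^ j := by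
    intro j σ
    have e := congrArg (eval (algebraMap _ D σ)) q1
    rw [eval_mul_cen, hev, eval_sub, eval_X, eval_C, ← eq_mul_inv_iff_mul_eq₀ (hm0 σ)] at e
    induction j with
    | zero => simp
    | succ j ih =>
      rw [pow_succ, eval_mul_cen, ih, hU, eval_mul_cen, eval_mul_cen, e, eval_sub, eval_X, eval_C,
        eval_C]
      simp only [← Algebra.smul_def, mul_smul_comm, smul_mul_assoc, smul_smul, pow_succ, mul_comm]
  have u2 : ∀ j : ℕ, U ^ j * ((X - C m) * C t⁻¹ * q') ^ j = (f ^ (2 * j)).map (algebraMap _ D) := by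
    have e : U * ((X - C m) * C t⁻¹ * q') = f.map (algebraMap _ D) * f.map (algebraMap _ D) := by
      rw [hU, mul_assoc _ q, ← mul_assoc q, ← mul_assoc q, q1, mul_assoc (f.map _), hcc,
        ← mul_assoc, mul_assoc _ (C t), ← mul_assoc (C t), ← C_mul, mul_inv_cancel₀ ht, C_1,
        one_mul, q3]
    intro j
    induction j with
    | zero => simp
    | succ j ih =>
      rw [pow_succ, pow_succ' _ j, mul_assoc, ← mul_assoc U, e, mul_assoc, hcc, hcc, ← mul_assoc,
        ← mul_assoc, ih, ← Polynomial.map_mul, ← Polynomial.map_mul, ← pow_succ, ← pow_succ]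
      rfl
  obtain ⟨R, hR⟩ : ∃ R : (Subring.center D)[X], R.map (algebraMap _ D) = U ^ N := by
    rw [← mem_lifts, lifts_iff_coeff_lifts]
    refine fun i => ⟨⟨(U ^ N).coeff i, Subring.mem_center_iff.2 fun z => sub_eq_zero.1
      ((Module.forall_dual_apply_eq_zero_iff (Subring.center D) _).1 fun l => ?_)⟩, rfl⟩
    obtain ⟨g, g1, g2⟩ := exists_dual_poly l (C z * U ^ N - U ^ N * C z)
    have : g = 0 := eq_zero_of_infinite_isRoot g (hS.mono fun σ hσ => by
      change g.eval σ = 0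
      rw [g2, eval_sub, eval_mul_cen, eval_mul_cen, eval_C, u1]
      exact (congrArg l (sub_eq_zero.2 (Subring.mem_center_iff.1
        (mul_mem (f.eval σ ^ N).2 (h σ hσ)) z))).trans l.map_zero)
    simpa [this] using (g1 i).symm
  have hr : algebraMap _ D R.leadingCoeff = t ^ N := by
    rw [← leadingCoeff_map, hR, leadingCoeff_pow, hU]
    simp [hq.leadingCoeff]
  have hR0 : R ≠ 0 := by rintro rfl; exact pow_ne_zero N ht (by simpa using hr.symm)
  have hl := leadingCoeff_ne_zero.2 hR0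
  have h1 := monic_mul_leadingCoeff_inv hR0
  obtain ⟨j, -, h2⟩ := (dvd_prime_pow hf.prime (2 * N)).1
    ((map_dvd_map (algebraMap _ D) Subtype.val_injective h1).1
      ⟨(C R.leadingCoeff).map (algebraMap _ D) * ((X - C m) * C t⁻¹ * q') ^ N, by
        rw [← mul_assoc, ← Polynomial.map_mul, mul_assoc R, ← C_mul, inv_mul_cancel₀ hl, C_1,
          mul_one, hR, u2]⟩)
  have h3 := eq_of_monic_of_associated h1 (hfm.pow j) h2
  have h4 : N = j := by
    have e1 := congrArg natDegree h3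
    have e2 := congrArg natDegree q2
    rw [natDegree_mul_C (inv_ne_zero hl), ← natDegree_map (algebraMap _ D), hR, natDegree_pow,
      natDegree_pow, hU, natDegree_mul (mul_ne_zero (X_sub_C_ne_zero y) (C_ne_zero.2 ht))
        hq.ne_zero, natDegree_mul_C ht, natDegree_X_sub_C] at e1
    rw [(monic_X_sub_C m).natDegree_mul hq, natDegree_X_sub_C, natDegree_map] at e2
    exact Nat.eq_of_mul_eq_mul_right hf.natDegree_pos (e2 ▸ e1)
  have h5 := u1 N σ
  have h6 := congrArg (eval σ) h3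
  rw [eval_mul, eval_C, mul_inv_eq_iff_eq_mul₀ hl, eval_pow, ← h4] at h6
  rw [← hR, hev, h6, map_mul, hr] at h5
  exact (mul_left_cancel₀ ((_root_.map_ne_zero _).2 (pow_ne_zero N hf0)) h5).symm

lemma abs_big {F : Type} [Field F] (v : AbsoluteValue F ℝ) (hv : v.IsNontrivial) (T : ℝ) :
    {σ | T ≤ v σ}.Infinite := fun h => by
  obtain ⟨π, hπ⟩ := hv.exists_abv_gt_one
  obtain ⟨B, hB⟩ := (h.image v).bddAbove
  obtain ⟨j, hj⟩ := pow_unbounded_of_one_lt (max T B) hπ
  rw [← map_pow, max_lt_iff] at hj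
  exact hj.2.not_ge (hB ⟨_, hj.1.le, rfl⟩)

section
variable {k : ℕ} {P : D → Prop} (H : Hyp k P) (χ : D →*₀ ℝ) (hpos : ∀ x, 0 ≤ χ x)
  (v : AbsoluteValue (Subring.center D) ℝ) (hχ : ∀ s, χ (algebraMap _ D s) = v s)
include H hχ

lemma det_bin (m : D) (hm : P m) : ∃ (d : ℕ) (ν : Subring.center D), (d : D) ≠ 0 ∧ d ≠ 0 ∧
    Irreducible (X ^ d - C ν) ∧ minpoly (Subring.center D) m = X ^ d - C ν ∧
    m ^ d = algebraMap _ D ν ∧ χ m ^ d = v ν ∧
    ∀ s, χ (algebraMap _ D s - m) ^ d = v (s ^ d - ν) := by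
  obtain ⟨hi, d, ν, hd, e⟩ := minpoly_binom H m hm
  have h3 := minpoly.aeval (Subring.center D) m
  rw [e, map_sub, map_pow, aeval_X, aeval_C, sub_eq_zero] at h3
  refine ⟨d, ν, hd, by rintro rfl; simp at hd, e ▸ minpoly.irreducible hi, e, h3,
    by rw [← map_pow, h3, hχ], fun s => ?_⟩
  have := det_wedd χ m hi s
  rw [e, hχ, natDegree_X_pow_sub_C] at this
  simpa using this.symm

include hpos

lemma det_le (m : D) (hm : P m) (s : Subring.center D) :
    χ (algebraMap _ D s - m) ≤ v s + χ m ∧ v s - χ m ≤ χ (algebraMap _ D s - m) := by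
  obtain ⟨d, ν, -, hd, -, -, -, e1, e2⟩ := det_bin H χ v hχ m hm
  constructor
  · rw [← pow_le_pow_iff_left₀ (hpos _) (add_nonneg (v.nonneg _) (hpos _)) hd, e2]
    refine (v.sub_le_add _ _).trans ?_
    rw [map_pow, ← e1]
    exact pow_add_pow_le (v.nonneg _) (hpos _) hd
  · rw [sub_le_iff_le_add,
      ← pow_le_pow_iff_left₀ (v.nonneg _) (add_nonneg (hpos _) (hpos _)) hd]
    refine le_trans ?_ (pow_add_pow_le (hpos _) (hpos _) hd)
    rw [e1, e2, ← map_pow]
    simpa using v.add_le (s ^ d - ν) ν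

lemma line_min (hv : v.IsNontrivial) (φ : D →+* D) (hφ : ∀ s, φ (algebraMap _ D s) =
    algebraMap (Subring.center D) D s) (hP : ∀ w, w ≠ 0 → P (φ w * w⁻¹) ∧ χ (φ w * w⁻¹) = 1)
    (u : D) (hu : u ≠ 0) (h1 : χ (1 - φ u * u⁻¹) < 1) : (φ u * u⁻¹) ^ (minpoly (Subring.center D)
      (φ (u - φ u) * (u - φ u)⁻¹)).natDegree ∈ Subring.center D := by
  obtain ⟨m, hm⟩ : ∃ m, m = φ u * u⁻¹ := ⟨_, rfl⟩
  obtain ⟨m1, m2⟩ := hP u hu
  rw [← hm] at h1 m1 m2 ⊢
  by_cases h0 : m ∈ Subring.center D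
  · exact pow_mem h0 _
  have hm0 : ∀ σ : Subring.center D, algebraMap _ D σ - m ≠ 0 := fun σ e =>
    h0 (sub_eq_zero.1 e ▸ σ.2)
  obtain ⟨c, hc⟩ : ∃ c : Subring.center D → D,
    ∀ σ, c σ = (algebraMap _ D σ - φ m) * m * (algebraMap _ D σ - m)⁻¹ := ⟨_, fun _ => rfl⟩
  have c0 : ∀ σ, c σ = φ ((algebraMap _ D σ - m) * u) * ((algebraMap _ D σ - m) * u)⁻¹ := fun σ => by
    rw [hc, map_mul, map_sub, hφ, mul_inv_rev, mul_assoc _ (φ u), ← mul_assoc (φ u), ← hm, mul_assoc]
  have c1 : ∀ σ, P (c σ) ∧ χ (c σ) = 1 := fun σ => c0 σ ▸ hP _ (mul_ne_zero (hm0 σ) hu)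
  obtain ⟨d, ν, -, hd, hi, e0, e1, e2, e3⟩ := det_bin H χ v hχ m m1
  choose dd νν b1 b2 b3 b4 b5 b6 b7 using fun σ => det_bin H χ v hχ _ (c1 σ).1
  by_cases hS : ∃ N, {σ | dd σ = N}.Infinite
  · obtain ⟨N, hS⟩ := hS
    have h2 := line_pow _ hi (monic_X_pow_sub_C _ hd) m (φ m) m (by simp [e1]) (by
      rw [map_sub, map_pow, aeval_X, aeval_C, ← map_pow, e1, hφ, sub_self]) (H.h0 _ m1) h0 N _ hS
      fun σ hσ => by rw [← hc, ← hσ, b5]; exact Subtype.prop _
    obtain ⟨σ, rfl⟩ := hS.nonempty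
    have h3 : m ^ dd σ = algebraMap _ D (νν σ) := by rw [← h2 σ, ← hc, b5]
    have h4 : u - φ u = (algebraMap _ D (1 : Subring.center D) - m) * u := by
      rw [map_one, sub_mul, one_mul, hm, inv_mul_cancel_right₀ hu]
    rw [h4, ← c0, ← minpoly.eq_of_irreducible_of_monic (b3 σ) (by
      rw [map_sub, map_pow, aeval_X, aeval_C, hc, h2, h3, sub_self]) (monic_X_pow_sub_C _ (b2 σ)),
      natDegree_X_pow_sub_C, h3]
    exact Subtype.prop _
  exfalso
  refine abs_contra v d ν 1 (fun h => h0 (Subring.mem_center_iff.2 fun z => (torsion_central H m m1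
    d (Nat.pos_of_ne_zero hd) (by rw [e1, ← sub_eq_zero.1 h]; simp) z).symm))
    (by rw [← e3, map_one]; exact pow_lt_one₀ (hpos _) h1 hd) fun s₁ s₂ h2 h3 => ?_
  rw [← e3, pow_lt_one_iff_of_nonneg (hpos _) hd] at h2 h3
  obtain ⟨r, r0, r1, r2, r3⟩ : ∃ r, 0 ≤ r ∧ r < 1 ∧ χ (algebraMap _ D s₁ - m) ≤ r ∧
    χ (algebraMap _ D s₂ - m) ≤ r :=
    ⟨_, (hpos _).trans (le_max_left _ _), max_lt h2 h3, le_max_left _ _, le_max_right _ _⟩
  refine ⟨(1 + r) / 2, by positivity, by linarith, fun B => ?_⟩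
  obtain ⟨σ, s1, s2⟩ := ((abs_big v hv (4 / (1 - r))).sdiff ((Set.finite_lt_nat B).biUnion
    fun N _ => Set.not_infinite.1 fun h => hS ⟨N, h⟩)).nonempty
  have s3 : 4 ≤ v σ * (1 - r) := (div_le_iff₀ (by linarith)).1 s1
  have key : ∀ s, χ (algebraMap _ D s - m) ≤ r → v (s ^ dd σ - νν σ) ≤ ((1 + r) / 2) ^ dd σ := by
    intro s hs
    have e : ∀ s σ, (algebraMap _ D s - c σ) * (algebraMap _ D σ - m) =
        algebraMap _ D (s * σ) - (algebraMap _ D (s + σ) - φ m) * m := fun s σ => by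
      rw [sub_mul, hc, inv_mul_cancel_right₀ (hm0 σ), map_mul, map_add]
      noncomm_ring
    have h4 := congrArg χ ((e s σ).trans (by rw [e, mul_comm, add_comm] :
      _ = (algebraMap _ D σ - c s) * (algebraMap _ D s - m)))
    rw [map_mul, map_mul] at h4
    have h5 := (det_le H χ hpos v hχ _ (c1 s).1 σ).1
    have h6 := (det_le H χ hpos v hχ _ m1 σ).2
    rw [(c1 s).2] at h5
    rw [m2] at h6
    rw [← b7]
    refine pow_le_pow_left₀ (hpos _) (le_of_mul_le_mul_right (a := v σ - 1) ?_ (by nlinarith)) _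
    calc _ ≤ _ := mul_le_mul_of_nonneg_left h6 (hpos _)
      _ ≤ (v σ + 1) * r := h4 ▸ mul_le_mul h5 hs (hpos _) (by positivity)
      _ ≤ _ := by linarith
  exact ⟨dd σ, not_lt.1 fun h => s2 (Set.mem_biUnion h rfl),
    fun h => b1 σ (by simpa using congrArg Subtype.val h), νν σ,
    by rw [← b6, (c1 σ).2, one_pow], key _ r2, key _ r3⟩

lemma line_fix (hv : v.IsNontrivial) (φ : D →+* D) (hφ : ∀ s, φ (algebraMap _ D s) =
    algebraMap (Subring.center D) D s) (hP : ∀ w, w ≠ 0 → P (φ w * w⁻¹) ∧ χ (φ w * w⁻¹) = 1)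
    (b : D) (hb : P b) : φ b = b := by
  by_contra hne
  have h0 : b ∉ Subring.center D := fun h => hne (hφ ⟨b, h⟩)
  have hb0 : ∀ σ : Subring.center D, algebraMap _ D σ - b ≠ 0 := fun σ e =>
    h0 (sub_eq_zero.1 e ▸ σ.2)
  obtain ⟨d, ν, -, hd, hi, -, e1, -⟩ := det_bin H χ v hχ b hb
  have L := line_pow _ hi (monic_X_pow_sub_C _ hd) b (φ b) 1 (by simp [e1]) (by
    rw [map_sub, map_pow, aeval_X, aeval_C, ← map_pow, e1, hφ, sub_self]) one_ne_zero h0
  have c0 : ∀ σ : Subring.center D, (algebraMap _ D σ - φ b) * 1 * (algebraMap _ D σ - b)⁻¹ =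
    φ (algebraMap _ D σ - b) * (algebraMap _ D σ - b)⁻¹ := fun σ => by rw [map_sub, hφ, mul_one]
  obtain ⟨N, μ, -, hN, -, e, -⟩ := det_bin H χ v hχ _ (hP _ (sub_ne_zero.2 hne)).1
  have h1 := L N _ (abs_big v hv (χ (φ b - b) + χ b + 1)) fun σ hσ => by
    have h2 : algebraMap _ D σ - b - φ (algebraMap _ D σ - b) = φ b - b := by
      rw [map_sub, hφ]; abel
    have h3 := (det_le H χ hpos v hχ _ hb σ).2
    have := line_min H χ hpos v hχ hv φ hφ hP _ (hb0 σ) (lt_of_mul_lt_mul_right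
      (a := χ (algebraMap _ D σ - b)) (by
        rw [← map_mul, sub_mul, one_mul, one_mul, inv_mul_cancel_right₀ (hb0 σ), h2]
        linarith [Set.mem_ofPred_eq ▸ hσ]) (hpos _))
    rwa [h2, e, natDegree_X_pow_sub_C, ← c0] at this
  have h2 := L 1 _ (abs_big v hv 0) (fun σ _ => Subring.mem_center_iff.2 fun z => by
    rw [pow_one, c0]
    exact (torsion_central H _ (hP _ (hb0 σ)).1 N (Nat.pos_of_ne_zero hN)
      (by rw [← c0, h1, one_pow]) z).symm) 0
  rw [pow_one, pow_one, mul_one, mul_inv_eq_one₀ (hb0 0), sub_right_inj] at h2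
  exact hne h2

end

end Pool.Agent.P.MP_3fd745_al
end

-- part Pool.Agent.P.MP_3fd745_al.AbsC
section

/-! Absolute values of the center that are trivial on a term of the derived series. -/

namespace Pool.Agent.P.MP_3fd745_al

open scoped IsMulCommutative in
lemma schur_tors {G : Type} [Group G] [Group.IsSolvable G]
    (h : ∀ g : G, ∃ k : ℕ, 0 < k ∧ g ^ k ∈ Subgroup.center G) (x : G) (hx : x ∈ commutator G) :
    ∃ k : ℕ, 0 < k ∧ x ^ k = 1 := by
  classical
  obtain ⟨s, hs⟩ : ∃ s : Finset G, x ∈ ⁅Subgroup.closure (s : Set G), Subgroup.closure (s : Set G)⁆ := by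
    rw [commutator_eq_closure] at hx
    induction hx using Subgroup.closure_induction with
    | mem x hx =>
      obtain ⟨a, b, rfl⟩ := hx
      exact ⟨{a, b}, Subgroup.commutator_mem_commutator (Subgroup.subset_closure (by simp))
        (Subgroup.subset_closure (by simp))⟩
    | one => exact ⟨∅, one_mem _⟩
    | mul x y _ _ hx hy =>
      obtain ⟨s, hs⟩ := hx
      obtain ⟨t, ht⟩ := hy
      have h1 := Subgroup.closure_mono (Finset.coe_subset.2 (Finset.subset_union_left (s₂ := t)))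
        (h := (s : Set G))
      have h2 := Subgroup.closure_mono (Finset.coe_subset.2 (Finset.subset_union_right (s₁ := s)))
        (h := (t : Set G))
      exact ⟨s ∪ t, mul_mem (Subgroup.commutator_mono h1 h1 hs) (Subgroup.commutator_mono h2 h2 ht)⟩
    | inv x _ hx => exact hx.imp fun s hs => inv_mem hs
  rw [← Subgroup.map_subtype_commutator] at hs
  obtain ⟨y, hy, rfl⟩ := hs
  obtain ⟨n, hn⟩ := (inferInstance : Group.IsSolvable (Subgroup.closure (s : Set G) ⧸
    Subgroup.center (Subgroup.closure (s : Set G))))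
  have := Sv.finite_of_derived n _ hn fun g => by
    obtain ⟨g, rfl⟩ := QuotientGroup.mk_surjective g
    obtain ⟨k, hk, e⟩ := h g
    exact isOfFinOrder_iff_pow_eq_one.2 ⟨k, hk, by
      rw [← QuotientGroup.mk_pow, QuotientGroup.eq_one_iff, Subgroup.mem_center_iff]
      exact fun z => Subtype.ext (Subgroup.mem_center_iff.1 e z)⟩
  have := Subgroup.finiteIndex_of_finite_quotient (H := Subgroup.center
    (Subgroup.closure (s : Set G)))
  refine ⟨_, Nat.pos_of_ne_zero this.index_ne_zero, ?_⟩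
  have h1 := Abelianization.commutator_subset_ker (MonoidHom.transferCenterPow _) hy
  simpa using congrArg (fun z : Subgroup.center (Subgroup.closure (s : Set G)) =>
    ((z : Subgroup.closure (s : Set G)) : G)) h1

variable {D : Type} [DivisionRing D]

lemma exists_det (v : AbsoluteValue (Subring.center D) ℝ)
    (hv : ∀ x ∈ commutator Dˣ, ∀ s : Subring.center D, (s : D) = x → v s = 1) :
    ∃ χ : D →*₀ ℝ, (∀ x, 0 ≤ χ x) ∧ ∀ s, χ (algebraMap _ D s) = v s := by
  classical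
  let f : (Subring.center D)ˣ →* Abelianization Dˣ :=
    Abelianization.of.comp (Units.map (Subring.center D).subtype.toMonoidHom)
  let g : (Subring.center D)ˣ →* Multiplicative ℝ :=
    { toFun := fun s => Multiplicative.ofAdd (Real.log (v s))
      map_one' := by simp
      map_mul' := fun s t => by
        simp [Real.log_mul (v.ne_zero s.ne_zero) (v.ne_zero t.ne_zero)] }
  have hg : f.ker ≤ g.ker := fun s hs => by
    have := hv _ (by rw [← Abelianization.ker_of]; exact hs) s rfl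
    simp [g, this]
  obtain ⟨l, hl⟩ := (Module.Baer.of_divisible ℝ).extension_property_addMonoidHom
    (M := Additive ((Subring.center D)ˣ ⧸ f.ker)) (N := Additive (Abelianization Dˣ))
    (MonoidHom.toAdditive (QuotientGroup.kerLift f)) (QuotientGroup.kerLift_injective f)
    (MonoidHom.toAdditiveLeft (QuotientGroup.lift f.ker g hg))
  refine ⟨⟨⟨fun x => if h : x = 0 then 0 else
    Real.exp (l (Additive.ofMul (Abelianization.of (Units.mk0 x h)))), by simp⟩, by simp,
    fun x y => ?_⟩, fun x => ?_, fun s => ?_⟩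
  · by_cases hx : x = 0
    · simp [hx]
    by_cases hy : y = 0
    · simp [hy]
    simp [hx, hy, Real.exp_add]
  · dsimp
    split_ifs
    exacts [le_rfl, (Real.exp_pos _).le]
  · by_cases hs : s = 0
    · simp [hs]
    have h1 := congr($hl (Additive.ofMul (QuotientGroup.mk (Units.mk0 s hs))))
    have h2 : algebraMap _ D s ≠ 0 := (map_ne_zero _).2 hs
    dsimp
    rw [dif_neg h2, ← Real.exp_log (v.pos hs)]
    exact congrArg Real.exp h1

theorem core_abs (M : Subgroup Dˣ) [hM : M.Normal] (hrad : Sv.Rad M)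
    (hF : Subgroup.center Dˣ ≤ M) (n : ℕ) (v : AbsoluteValue (Subring.center D) ℝ)
    (hv : v.IsNontrivial)
    (h : ∀ x ∈ derivedSeries Dˣ n, ∀ s : Subring.center D, (s : D) = x → v s = 1)
    (a : Dˣ) (ha : a ∈ M) : a ∈ Subgroup.center Dˣ := by
  by_contra hac
  have hs := QuotientGroup.mk'_surjective (derivedSeries Dˣ n)
  have : Group.IsSolvable (Dˣ ⧸ derivedSeries Dˣ n) := ⟨⟨n, by
    rw [← map_derivedSeries_eq hs, Subgroup.map_eq_bot_iff, QuotientGroup.ker_mk']⟩⟩
  obtain ⟨χ, hpos, hχ⟩ := exists_det v fun x hx s e => by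
    obtain ⟨k, hk, e'⟩ := schur_tors (G := Dˣ ⧸ derivedSeries Dˣ n) (fun g => by
      obtain ⟨g, rfl⟩ := hs g
      obtain ⟨k, hk, e⟩ := Sv.odd_of_noncentral M hrad hF a ha hac n g
      obtain ⟨y, hy, z, hz, e'⟩ := Subgroup.mem_sup_of_normal_left.1 e
      refine ⟨k, hk.pos, Subgroup.mem_center_iff.2 fun w => ?_⟩
      obtain ⟨w, rfl⟩ := hs w
      rw [← map_pow, ← e', map_mul, show QuotientGroup.mk' _ y = 1 from
        (QuotientGroup.eq_one_iff y).2 hy, one_mul, ← map_mul, ← map_mul,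
        Subgroup.mem_center_iff.1 hz]) (QuotientGroup.mk' _ x) (by
      rw [commutator_def, ← Subgroup.map_top_of_surjective _ hs, ← Subgroup.map_commutator]
      exact ⟨x, hx, rfl⟩)
    rw [← map_pow] at e'
    have := h _ ((QuotientGroup.eq_one_iff _).1 e') (s ^ k) (by simp [e])
    rwa [map_pow, pow_eq_one_iff_of_nonneg (v.nonneg _) hk.ne'] at this
  obtain ⟨k, H⟩ := hyp_of M
    ⟨1, fun i => if i = 0 then M else ⊤, rfl, rfl, fun i hi => by
      obtain rfl : i = 0 := by omega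
      exact ⟨le_top, hM.subgroupOf _⟩⟩ fun x hx =>
    (hrad x hx).imp fun n h => ⟨h.1, by simpa using (Sv.mem_center_units _).1 h.2⟩
  refine hac ((Sv.mem_center_units a).2 (Subring.mem_center_iff.2 fun z =>
    (central_of_conj (a : D) (fun x hx => (cj_eq_iff _ a.ne_zero _).1 ?_) z).symm))
  refine line_fix H χ hpos v hχ hv _ (fun s => (cj_eq_iff _ _ _).2 (Algebra.commutes s _).symm)
    (fun w hw => ⟨⟨_, M.mul_mem ha (hM.conj_mem _ (M.inv_mem ha) (Units.mk0 w hw)), by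
      simp [cj_apply, mul_assoc]⟩, ?_⟩) _ ⟨_, hM.conj_mem _ ha (Units.mk0 x hx), by simp⟩
  have h1 := (map_ne_zero χ).2 hw
  have h2 := (map_ne_zero χ).2 a.ne_zero
  rw [cj_apply, map_mul, map_mul, map_mul, map_inv₀, map_inv₀]
  field_simp

theorem main_abs (N : Subgroup Dˣ)
    (hN : ∃ (k : ℕ) (H : ℕ → Subgroup Dˣ), H 0 = N ∧ H k = ⊤ ∧
      ∀ i, i < k → H i ≤ H (i + 1) ∧ ((H i).subgroupOf (H (i + 1))).Normal)
    (hrad : ∀ x ∈ N, ∃ n : ℕ, 0 < n ∧ ((x : Dˣ) : D) ^ n ∈ Subring.center D)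
    (E : Subfield D) (n : ℕ) (K : Subgroup Eˣ) (v : AbsoluteValue (Subring.center E) ℝ) (x : Eˣ)
    (hK : derivedSeries Eˣ n ≤ K)
    (hv : ∀ (u : Eˣ) (s : Subring.center E), (s : E) = u → (u ∈ K ↔ v s = 1))
    (hx : ∀ k : ℕ, Odd k → x ^ k ∉ K)
    (a : Dˣ) (ha : a ∈ N) (haE : (a : D) ∈ E) (y : D) (hy : y ∈ E) : a * y = y * a := by
  by_cases h0 : v.IsNontrivial
  swap
  · refine Sv.main_quot N hN hrad E n x (fun k hk h => hx k hk (sup_le hK (fun u hu => ?_) h))
      a ha haE y hy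
    exact (hv u ⟨u, (Sv.mem_center_units u).1 hu⟩ rfl).2 (v.not_isNontrivial_apply h0
      fun h => u.ne_zero (congrArg Subtype.val h))
  obtain ⟨k, H, h0', hk, hH⟩ := hN
  let f : Eˣ →* Dˣ := Units.map E.subtype.toMonoidHom
  obtain ⟨M, hM, h1, h2, h3⟩ := Sv.exists_hull (N.comap f)
    ⟨k, fun i => (H i).comap f, by simp only [h0'], by simp [hk], fun i hi =>
      ⟨Subgroup.comap_mono (hH i hi).1, ⟨fun b hb g => by
        have := (hH i hi).2.conj_mem ⟨f b, b.2⟩ hb ⟨f g, g.2⟩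
        simpa [Subgroup.mem_subgroupOf] using this⟩⟩⟩ (fun b hb => by
      obtain ⟨m, hm, e⟩ := hrad _ hb
      exact ⟨m, hm, (Sv.mem_center_units _).2 (Subring.mem_center_iff.2 fun z =>
        Subtype.ext (by simpa [f] using Subring.mem_center_iff.1 e z))⟩)
  let a' : Eˣ := Units.mk0 ⟨a, haE⟩ fun h => a.ne_zero (congrArg Subtype.val h)
  exact (congrArg Subtype.val (Subring.mem_center_iff.1 ((Sv.mem_center_units _).1
    (core_abs M h3 h2 n v h0 (fun u hu s e => (hv u s e).1 (hK hu)) a' (h1 (show f a' ∈ N from by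
      rwa [show f a' = a from Units.ext rfl])))) ⟨y, hy⟩)).symm

end Pool.Agent.P.MP_3fd745_al
end
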